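import Pool.Agent.Lib.SE.Q.SpecB

/-!
# PROJECT SE-Q, part G: linked characters give an isogeny, every signature (helper42)

`GFg`: as `GF1`, but instead of a character with `p = 1` only one with `0 < p < r`, and `p ≠ r / 2` if
`r ≥ 3`. Every module: file `SE/Q/Xyz.lean`, `theorem tXyz : S_Xyz`, import only
`Pool.Agent.Lib.SE.Q.SpecG` and the proved modules of SE/Big you want to use.
-/

set_option autoImplicit false

open Module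

noncomputable section

namespace SEQ

open HC HC.E HC.SE SEB

/-- The data of a good factor of rank `r`, every signature. -/
structure GFg {T : AV} {m : ℕ} (D : Cyc T m) (r : ℕ) : Prop where
  hm : 3 ≤ m
  hr : 2 ≤ r
  dim : 2 * finrank ℂ T.V = r * Nat.totient m
  ex : ∃ s, 0 < D.p s ∧ D.p s < r ∧ (2 * D.p s ≠ r ∨ r = 2)
  ap : Aper D
  hit : IsHit D

/-- `θ` intertwines the commutators. -/
def Itw {T T' : AV} {m m' : ℕ} {D : Cyc T m} {D' : Cyc T' m'} (h : Set (Pr2 T T'))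
    {s : (ZMod m)ˣ} {t : (ZMod m')ˣ} (θ : Ws D s ≃ₗ[ℂ] Ws D' t) : Prop :=
  ∀ C ∈ gg2 h, ∀ a b : Ws D s, (b : Frm T) = C.1 (a : Frm T) →
    (θ b : Frm T') = C.2 (θ a : Frm T')

/-- **IntG**: ISOMORPHISMS OF `sl(W)`. PROOF. By the hypotheses `P` is the graph of an isomorphism
`f : sl(W) → sl(W')` of Lie algebras; `dim W = dim W' = r`. `e = φ(·) v`, `φ v = 1`, `e₀ = e - 1/r`:
`(ad e₀)³ = ad e₀` on all operators of `W`, so `E = f(e₀)` satisfies `(ad E)³ = ad E` on `sl(W')`, hence on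
all operators of `W'`. Let `b` be an eigenvalue of `E` with covector `ξ ≠ 0`, `ξ ∘ E = b ξ`. For
`X = ξ(·) u`: `ad E X = ξ(·) (E - b) u`, so `g(E - b) = 0` for `g = x³ - x`. So `E` is diagonalisable and any
two eigenvalues differ by `0` or `± 1`; so there are at most two, `a` and `a + 1`: `E = a + q`, `q² = q`, `q`
of rank `k`. The traceless `X` with `[E, X] = X` have dimension `k (r - k)`, those with `[e₀, X] = X`
dimension `r - 1`: `k (r - k) = r - 1`, `k = 1` or `k = r - 1`. `k = 1`: `q = φ'(·) v'`, `φ' v' = 1`, and `P` is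
stable under `(ad e, ad q) = (ad e₀, ad E)`: `S_Int` gives the first alternative. `k = r - 1`:
`1 - q = ξ(·) w`, `ξ w = 1`; `P' = {(X, -Y.dualMap) | (X, Y) ∈ P}` for `W` and `Dual W'` is stable under
`(ad e, ad e')`, `e' = (1 - q).dualMap` of rank one: `S_Int` gives the second alternative. -/
def S_IntG : Prop :=
  S_Int → ∀ (W W' : Type) [AddCommGroup W] [Module ℂ W] [FiniteDimensional ℂ W]
    [AddCommGroup W'] [Module ℂ W'] [FiniteDimensional ℂ W']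
    (P : Submodule ℂ (Module.End ℂ W × Module.End ℂ W')), 2 ≤ finrank ℂ W → 2 ≤ finrank ℂ W' →
    (∀ x ∈ P, ∀ y ∈ P, (x.1 * y.1 - y.1 * x.1, x.2 * y.2 - y.2 * x.2) ∈ P) →
    (∀ x ∈ P, LinearMap.trace ℂ W x.1 = 0 ∧ LinearMap.trace ℂ W' x.2 = 0) →
    (∀ X : Module.End ℂ W, LinearMap.trace ℂ W X = 0 → ∃ Y, (X, Y) ∈ P) →
    (∀ Y : Module.End ℂ W', LinearMap.trace ℂ W' Y = 0 → ∃ X, (X, Y) ∈ P) →
    (∀ x ∈ P, x.1 = 0 ↔ x.2 = 0) →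
    (∃ θ : W ≃ₗ[ℂ] W', ∀ x ∈ P, ∀ w, θ (x.1 w) = x.2 (θ w)) ∨
    ∃ θ : W ≃ₗ[ℂ] Module.Dual ℂ W', ∀ x ∈ P, ∀ w w', θ (x.1 w) w' = -(θ w) (x.2 w')

/-- **Dua**: `Ws D t` and `Ws D (-t)` are dual. PROOF. The pairing `ψ'` of SE/Big/Real.lean: nondegenerate
on the forms, `ψ'(pre Y a, b) = -ψ'(a, pre Y b)` for `Y` in `u`, and `Ws D t` is orthogonal to `Ws D u` for
`u ≠ -t`. -/
def S_Dua : Prop :=
  ∀ (T : AV) (m : ℕ) (D : Cyc T m), 3 ≤ m → ∀ t, ∃ B : Ws D t ≃ₗ[ℂ] Module.Dual ℂ (Ws D (-t)),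
    ∀ C ∈ Submodule.span ℂ (pre '' {Y | IsU D Y}), ∀ (a a' : Ws D t) (b b' : Ws D (-t)),
    (a' : Frm T) = C (a : Frm T) → (b' : Frm T) = C (b : Frm T) → B a' b = -B a b'

/-- **Th0g**: from a link to `θ`. PROOF. `P` as in `S_Th0`; `S_IntG`; in the second case compose
`θ : Ws D s ≃ Dual (Ws D' t)` with the inverse of `Ws D' (-t) ≃ Dual (Ws D' t)` (`S_Dua` for `-t`;
`gg (snd '' h)` is in the span of `pre Y`, `Y` in `u`). -/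
def S_Th0g : Prop :=
  S_Prj → S_Cl2 → S_Int → S_IntG → S_Dua →
  ∀ (T T' : AV) (m m' r : ℕ) (D : Cyc T m) (D' : Cyc T' m'), GFg D r → GFg D' r →
    ∀ h : Set (Pr2 T T'), HLie2 D D' h → ∀ s t, Lnk D D' h s t →
    (∃ θ : Ws D s ≃ₗ[ℂ] Ws D' t, Itw h θ) ∨ ∃ θ : Ws D s ≃ₗ[ℂ] Ws D' (-t), Itw h θ

/-- **R2t**: in rank 2 the sign does not matter. PROOF. `κ : Ws D' t ≃ Ws D' (-t)`: `S_Dua` for `-t`
(`Ws D' (-t) ≃ Dual (Ws D' t)`) and an alternating form `ω ≠ 0` on `Ws D' t` (dimension 2, `tDim`), for which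
traceless operators `A` satisfy `ω(A a, b) = -ω(a, A b)`; the elements of `gg2 h` are traceless on
`Ws D' t` (`S_Prj`, `tCl`). -/
def S_R2t : Prop :=
  S_Prj → S_Dua →
  ∀ (T T' : AV) (m m' : ℕ) (D : Cyc T m) (D' : Cyc T' m'), GFg D' 2 →
    ∀ h : Set (Pr2 T T'), HLie2 D D' h → ∀ s t, ∀ θ : Ws D s ≃ₗ[ℂ] Ws D' t, Itw h θ →
    ∃ θ' : Ws D s ≃ₗ[ℂ] Ws D' (-t), Itw h θ'

/-- **Jc**: `θ` respects the signatures. From `S_TrJ`. PROOF. `gg2 h` is closed under `[J, ·]` (`S_Cl2`), so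
`θ J θ⁻¹ - J'` commutes with all traceless operators of `Ws D' t` (`GFg.hit`, `S_Prj`): a scalar `c`.
`J² = -1 = J'²` gives `c (2 J' + c) = 0`. If `c ≠ 0`, `J' = -c/2` and `θ J θ⁻¹ = c/2` are scalars; a scalar `J`
is `± i`, of trace `± i r`, but the trace is `i (2 p(s) - r)` (`S_TrJ`, `tDim`), so `p(s) = 0` or `r`:
excluded. So `c = 0`, the traces are equal: `2 p(s) - r = 2 p'(t) - r`. -/
def S_Jc : Prop :=
  S_Prj → S_Cl2 → S_TrJ →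
  ∀ (T T' : AV) (m m' r : ℕ) (D : Cyc T m) (D' : Cyc T' m'), GFg D r → GFg D' r →
    ∀ h : Set (Pr2 T T'), HLie2 D D' h → ∀ s t, ∀ θ : Ws D s ≃ₗ[ℂ] Ws D' t, Itw h θ →
    0 < D.p s → D.p s < r → D'.p t = D.p s

/-- **Gtr**: GALOIS TRANSPORT of `θ`. From `S_Prj`, `S_RSH`, `S_GaH`. PROOF. `A = θ ∘ pj D s` intertwines the
`X ∈ Com2 h` (they commute with `Z`, `Z'`); `S_RSH`: `A = ∑ c_k preH Y_k`, `X.1 Y_k = Y_k X.2` for
`X ∈ Com2 h`; some `Y = Y_k` has `pj D' t (preH Y a) ≠ 0` for some `a ∈ Ws D s`. `S_GaH` for `ρ⁻¹`: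
`θ' = pj D' (ρ t) ∘ preH Y : Ws D (ρ s) → Ws D' (ρ t)` is not zero. It intertwines `gg2 h`; its kernel and
its image are stable under all traceless operators (`GFg.hit` for the projections, `S_Prj`), the
dimensions are `r ≥ 2` (`tDim`): it is bijective. -/
def S_Gtr : Prop :=
  S_Prj → S_RSH → S_GaH →
  ∀ (T T' : AV) (m m' r : ℕ) (D : Cyc T m) (D' : Cyc T' m'), GFg D r → GFg D' r →
    ∀ h : Set (Pr2 T T'), HLie2 D D' h → ∀ s t, ∀ θ : Ws D s ≃ₗ[ℂ] Ws D' t, Itw h θ →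
    ∀ (M : ℕ) (hM : m ∣ M) (hM' : m' ∣ M), M ≠ 0 → ∀ ρ : (ZMod M)ˣ,
    ∃ θ' : Ws D (rho hM ρ s) ≃ₗ[ℂ] Ws D' (rho hM' ρ t), Itw h θ'

/-- **Nsd**: `Ws D' t` and `Ws D' (-t)` are not isomorphic in rank `≥ 3`. PROOF. With `S_Dua`: for every
traceless operator `B` of `Ws D' t` (`IsHit`, `F = {t}`) `B` is similar to `-B.dualMap`, so `B` and `-B` have the
same eigenvalues; take `B` diagonal with the entries `1, 1, -2, 0, …, 0` (`tDim`). -/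
def S_Nsd : Prop :=
  S_Dua → ∀ (T' : AV) (m' r : ℕ) (D' : Cyc T' m'), GFg D' r → 3 ≤ r → ∀ h, HLie D' h →
    ∀ t, ∀ κ : Ws D' t ≃ₗ[ℂ] Ws D' (-t),
    ¬ ∀ C ∈ gg h, ∀ a b : Ws D' t, (b : Frm T') = C (a : Frm T') →
      (κ b : Frm T') = C (κ a : Frm T')

/-- **Th1g**, **Cutg**, **Homg**, **Isog**: the modules of part B for `GFg` (the same proofs). -/
def S_Th1g : Prop :=
  S_Prj →
  ∀ (T T' : AV) (m m' r r' : ℕ) (D : Cyc T m) (D' : Cyc T' m'), GFg D r → GFg D' r' →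
    ∀ h : Set (Pr2 T T'), HLie2 D D' h → ∀ s t, ∀ θ : Ws D s ≃ₗ[ℂ] Ws D' t,
    (∀ C ∈ gg2 h, ∀ a b : Ws D s, (b : Frm T) = C.1 (a : Frm T) →
      (θ b : Frm T') = C.2 (θ a : Frm T')) →
    (∀ X ∈ h, ∀ (A : Module.End ℂ (Ws D s)) (B : Module.End ℂ (Ws D' t)),
      (∀ a : Ws D s, pre X.1 (a : Frm T) = (A a : Frm T)) →
      (∀ b : Ws D' t, pre X.2 (b : Frm T') = (B b : Frm T')) →
      LinearMap.trace ℂ (Ws D s) A = LinearMap.trace ℂ (Ws D' t) B) →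
    ∀ X ∈ h, ∀ a b : Ws D s, (b : Frm T) = pre X.1 (a : Frm T) →
      (θ b : Frm T') = pre X.2 (θ a : Frm T')

def S_Cutg : Prop :=
  ∀ (T T' : AV) (m r : ℕ) (D : Cyc T m) (D' : Cyc T' m), GFg D r → GFg D' r →
    ∀ g : (ZMod m)ˣ, (∀ u, D.p u = D'.p (g * u)) → ∀ h : Set (Pr2 T T'), HLie2 D D' h →
    HLie2 D D' {X | X ∈ h ∧ TrEq D D' g X}

def S_Homg : Prop :=
  ∀ (T T' : AV) (m r : ℕ) (D : Cyc T m) (D' : Cyc T' m), GFg D r → GFg D' r →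
    ∀ h : Set (Pr2 T T'), HLie2 D D' h → ∀ g s : (ZMod m)ˣ, ∀ θ : Ws D s ≃ₗ[ℂ] Ws D' (g * s),
    (∀ X ∈ h, ∀ a b : Ws D s, (b : Frm T) = pre X.1 (a : Frm T) →
      (θ b : Frm T') = pre X.2 (θ a : Frm T')) →
    ∃ Θ : T'.V →ₗ[ℂ] T.V, RatHom T' T (Θ.restrictScalars ℝ) ∧
      (∀ v, Θ (D'.Z v) = (D.Z ^ (g : ZMod m).val) (Θ v)) ∧
      (∀ X ∈ h, ∀ v, X.1 (Θ v) = Θ (X.2 v)) ∧
      ∃ a ∈ Ws D s, preH (Θ.restrictScalars ℝ) a ≠ 0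

def S_Isog : Prop :=
  ∀ (T T' : AV) (m r : ℕ) (D : Cyc T m) (D' : Cyc T' m), GFg D r → GFg D' r →
    ∀ h : Set (Pr2 T T'), HLie2 D D' h → ∀ (g s : (ZMod m)ˣ) (Θ : T'.V →ₗ[ℂ] T.V),
    RatHom T' T (Θ.restrictScalars ℝ) → (∀ v, Θ (D'.Z v) = (D.Z ^ (g : ZMod m).val) (Θ v)) →
    (∀ X ∈ h, ∀ v, X.1 (Θ v) = Θ (X.2 v)) →
    (∃ a ∈ Ws D s, preH (Θ.restrictScalars ℝ) a ≠ 0) → Isg T T'

/-- **Bg**: the result. -/
def S_Bg : Prop :=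
  ∀ (T T' : AV) (m m' r : ℕ) (D : Cyc T m) (D' : Cyc T' m'), GFg D r → GFg D' r →
    ((∃ h : m = m', (∀ u : (ZMod m)ˣ, D.p u = (h ▸ D').p u) ∨
      ∀ u : (ZMod m)ˣ, D.p u = (h ▸ D').p (-u)) ∨
      (3 ≤ r ∧ (m = 3 ∧ m' = 4 ∨ m = 4 ∧ m' = 3))) →
    ∀ h : Set (Pr2 T T'), HLie2 D D' h → ∀ s t,
    (∀ (M : ℕ) (hM : m ∣ M) (hM' : m' ∣ M), M ≠ 0 → ∀ ρ : (ZMod M)ˣ,
      Lnk D D' h (rho hM ρ s) (rho hM' ρ t)) →
    (∀ u u', Lnk D D' h u u' → D.p u * D.p (-u) = D'.p u' * D'.p (-u')) → Isg T T'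

end SEQ
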