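import Pool.Agent.Lib.SE.Q.SpecG
import Pool.Agent.Lib.SE.Big.Dim
import Pool.Agent.Lib.SE.Big.Bas
import Pool.Agent.Lib.SE.Big.Pj
import Pool.Agent.Lib.SE.Big.Tw
import Pool.Agent.Lib.SE.Big.Cl

/-!
# PROJECT SE-Q, module Jc: the isomorphism respects the signatures (helper94)
-/

set_option autoImplicit false

open Module

noncomputable section

namespace SEQ

open HC HC.E HC.SE SEB

namespace Jc_aux

section

variable {W W' : Type} [AddCommGroup W] [Module ℂ W] [FiniteDimensional ℂ W] [AddCommGroup W']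
  [Module ℂ W'] [FiniteDimensional ℂ W']

/-- An operator which commutes with all traceless operators is a scalar. -/
theorem scalar (hr : 0 < finrank ℂ W) (B : Module.End ℂ W)
    (hB : ∀ X : Module.End ℂ W, LinearMap.trace ℂ W X = 0 → B * X = X * B) :
    ∃ c : ℂ, B = c • (1 : Module.End ℂ W) := by
  have hall : ∀ X : Module.End ℂ W, B * X = X * B := by
    intro X
    have hr' : (finrank ℂ W : ℂ) ≠ 0 := by exact_mod_cast hr.ne'
    have h1 := hB (X - (LinearMap.trace ℂ W X / finrank ℂ W) • (1 : Module.End ℂ W)) (by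
      rw [map_sub, map_smul, LinearMap.trace_one, smul_eq_mul, div_mul_cancel₀ _ hr', sub_self])
    rw [mul_sub, sub_mul, mul_smul_comm, smul_mul_assoc, mul_one, one_mul] at h1
    exact sub_left_injective h1
  obtain ⟨α, hα, h⟩ := Module.End.mem_center_iff.1
    (Semigroup.mem_center_iff.2 fun X => (hall X).symm)
  refine ⟨α, ?_⟩
  rw [h]
  refine LinearMap.ext fun w => ?_
  simp

omit [FiniteDimensional ℂ W] in
/-- The linear algebra. -/
theorem alg (A : Module.End ℂ W) (A' : Module.End ℂ W') (θ : W ≃ₗ[ℂ] W') (r p p' : ℂ)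
    (hW : (finrank ℂ W : ℂ) = r) (hr : 0 < finrank ℂ W)
    (hA : A * A = -1) (hA' : A' * A' = -1)
    (tA : LinearMap.trace ℂ W A = Complex.I * (2 * p - r))
    (tA' : LinearMap.trace ℂ W' A' = Complex.I * (2 * p' - r)) (hp0 : p ≠ 0) (hpr : p ≠ r)
    (hcomm : ∀ (N : Module.End ℂ W') , LinearMap.trace ℂ W' N = 0 →
      (θ.conj A - A') * N = N * (θ.conj A - A')) : p' = p := by
  have hr' : 0 < finrank ℂ W' := by rwa [← θ.finrank_eq]
  obtain ⟨c, hc⟩ := scalar hr' _ hcomm
  have h1 : θ.conj A = A' + c • (1 : Module.End ℂ W') := by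
    rw [← hc]
    abel
  have h2 : (θ.conj A) * (θ.conj A) = -1 := by
    refine LinearMap.ext fun w => ?_
    have h3 : A (A (θ.symm w)) = -θ.symm w := LinearMap.congr_fun hA (θ.symm w)
    have h4 : (θ.conj A * θ.conj A) w = θ (A (θ.symm (θ (A (θ.symm w))))) := rfl
    rw [h4, θ.symm_apply_apply, h3, map_neg, θ.apply_symm_apply]
    rfl
  have h3 : c • ((2 : ℂ) • A' + c • (1 : Module.End ℂ W')) = 0 := by
    rw [h1, add_mul, mul_add, mul_add, hA', smul_mul_assoc, mul_smul_comm, one_mul, mul_one,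
      smul_mul_assoc, one_mul] at h2
    have h4 : c • A' + (c • A' + c • c • (1 : Module.End ℂ W')) = 0 := by
      rw [add_assoc] at h2
      exact add_eq_left.1 h2
    rw [← h4, smul_add, smul_smul, smul_smul]
    module
  have tr1 : LinearMap.trace ℂ W' (θ.conj A) = LinearMap.trace ℂ W A :=
    LinearMap.trace_conj' A θ
  rw [h1, map_add, map_smul, LinearMap.trace_one, ← θ.finrank_eq, hW, tA, tA', smul_eq_mul] at tr1
  have hI := Complex.I_ne_zero
  by_cases hc0 : c = 0
  · rw [hc0] at tr1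
    have h4 : Complex.I * (2 * (p' - p)) = 0 := by linear_combination tr1
    have h5 := (mul_eq_zero.1 h4).resolve_left hI
    linear_combination (1 / 2 : ℂ) * h5
  · exfalso
    have h4 : (2 : ℂ) • A' + c • (1 : Module.End ℂ W') = 0 := (smul_eq_zero.1 h3).resolve_left hc0
    have h5 : 2 * (Complex.I * (2 * p' - r)) + c * r = 0 := by
      have h6 := congrArg (LinearMap.trace ℂ W') h4
      rwa [map_add, map_smul, map_smul, LinearMap.trace_one, ← θ.finrank_eq, hW, tA', smul_eq_mul,
        smul_eq_mul, map_zero] at h6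
    have h7 : c * c = -4 := by
      have h8 : A' = (-(c / 2)) • (1 : Module.End ℂ W') := by
        have h9 : (2 : ℂ) • A' = -(c • (1 : Module.End ℂ W')) := eq_neg_of_add_eq_zero_left h4
        have h10 : A' = (1 / 2 : ℂ) • ((2 : ℂ) • A') := by
          rw [smul_smul]
          norm_num
        rw [h10, h9]
        module
      rw [h8, smul_mul_assoc, one_mul, smul_smul] at hA'
      have h9 := congrArg (LinearMap.trace ℂ W') hA'
      rw [map_smul, map_neg, LinearMap.trace_one, ← θ.finrank_eq, hW, smul_eq_mul] at h9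
      have hr0 : r ≠ 0 := by
        rw [← hW]
        exact_mod_cast hr.ne'
      have h10 : (c * c + 4) * r = 0 := by linear_combination 4 * h9
      have h11 := (mul_eq_zero.1 h10).resolve_right hr0
      linear_combination h11
    -- `c = ± 2 i`
    have h8 : (c - 2 * Complex.I) * (c + 2 * Complex.I) = 0 := by
      have := Complex.I_mul_I
      linear_combination h7 - 4 * this
    have h9 : c * r = 2 * (Complex.I * (2 * p - r)) := by linear_combination 2 * tr1 - h5
    rcases mul_eq_zero.1 h8 with h10 | h10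
    · apply hpr
      have h11 : Complex.I * (4 * (p - r)) = 0 := by linear_combination -h9 + r * h10
      have h12 := (mul_eq_zero.1 h11).resolve_left hI
      linear_combination (1 / 4 : ℂ) * h12
    · apply hp0
      have h11 : Complex.I * (4 * p) = 0 := by linear_combination -h9 + r * h10
      have h12 := (mul_eq_zero.1 h11).resolve_left hI
      linear_combination (1 / 4 : ℂ) * h12

end

theorem ne_neg {m : ℕ} (hm : 3 ≤ m) (s : (ZMod m)ˣ) : -s ≠ s := by
  intro h
  have h1 : (s : ZMod m) + s = 0 := by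
    have h2 := congrArg (fun u : (ZMod m)ˣ => (u : ZMod m)) h
    have h3 : -(s : ZMod m) = s := h2
    calc (s : ZMod m) + s = -(s : ZMod m) + s := by rw [h3]
      _ = 0 := neg_add_cancel _
  have h4 : ((2 : ℕ) : ZMod m) = 0 := by
    have h5 : (2 : ZMod m) * s = 0 := by rw [two_mul, h1]
    have h6 := congrArg (fun x => x * ((s⁻¹ : (ZMod m)ˣ) : ZMod m)) h5
    simp only [mul_assoc, Units.mul_inv, mul_one, zero_mul] at h6
    exact_mod_cast h6
  rw [ZMod.natCast_eq_zero_iff] at h4
  have := Nat.le_of_dvd (by norm_num) h4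
  omega

theorem hit1 {T : AV} {m r : ℕ} {D : Cyc T m} (hG : GFg D r) {h : Set (Module.End ℝ T.V)}
    (hh : HLie D h) (s : (ZMod m)ˣ) : Hits D h {s} :=
  hG.hit h hh {s} fun u hu hu' => ne_neg hG.hm s (by
    obtain rfl : u = s := hu
    exact hu')

theorem upd {T : AV} {m : ℕ} {D : Cyc T m} {h1 : Set (Module.End ℝ T.V)} {s : (ZMod m)ˣ}
    (hs : Hits D h1 {s}) (X : Module.End ℂ (Ws D s)) (hX : LinearMap.trace ℂ (Ws D s) X = 0) :
    ∃ C ∈ gg h1, ∀ a : Ws D s, C (a : Frm T) = (X a : Frm T) := by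
  classical
  obtain ⟨C, hC, hCA⟩ := hs (Function.update (fun s' => (0 : Module.End ℂ (Ws D s'))) s X) (by
    intro s'
    by_cases hb : s' = s
    · subst hb
      rw [Function.update_self]
      exact hX
    · rw [Function.update_of_ne hb, map_zero])
  refine ⟨C, hC, fun a => ?_⟩
  have h1 := hCA s rfl a
  rw [Function.update_self] at h1
  exact h1

/-- The multiplication by `i` on an eigenspace. -/
theorem exA {T : AV} {m : ℕ} (D : Cyc T m) (hm : 3 ≤ m) (s : (ZMod m)ˣ) :
    ∃ A : Module.End ℂ (Ws D s), ∀ a : Ws D s, pre (mulI T) (a : Frm T) = (A a : Frm T) := by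
  have hc : ∀ v, mulI T (D.Z v) = D.Z (mulI T v) := fun v => (D.Z.map_smul Complex.I v).symm
  exact ⟨(pre (mulI T)).restrict ((tBas tPj T m D hm).2.2.1 (mulI T) hc s), fun a => rfl⟩

end Jc_aux

open Jc_aux in
theorem tJc : S_Jc := by
  intro hPrj hCl2 hTrJ T T' m m' r D D' hG hG' h hh s t θ hθ hp0 hpr
  obtain ⟨p1, p2, p3, p4, p5⟩ := hPrj T T' m m' D D' h hh
  obtain ⟨d1, d2⟩ := tDim tPj tTw (tBas tPj) T m r D hG.hm hG.dim s
  obtain ⟨d1', d2'⟩ := tDim tPj tTw (tBas tPj) T' m' r D' hG'.hm hG'.dim t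
  obtain ⟨A, hA⟩ := exA D hG.hm s
  obtain ⟨A', hA'⟩ := exA D' hG'.hm t
  obtain ⟨tA, sA⟩ := hTrJ T m D hG.hm s A hA
  obtain ⟨tA', sA'⟩ := hTrJ T' m' D' hG'.hm t A' hA'
  have hr2 := hG.hr
  have e1 : (D.p (-s) : ℂ) = (r : ℂ) - D.p s := by
    rw [← d2]
    push_cast
    ring
  have e2 : (D'.p (-t) : ℂ) = (r : ℂ) - D'.p t := by
    rw [← d2']
    push_cast
    ring
  have key : (D'.p t : ℂ) = D.p s := by
    refine alg A A' θ (r : ℂ) (D.p s) (D'.p t) (by rw [d1]) (by rw [d1]; omega) sA sA' ?_ ?_ ?_ ?_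
      ?_
    · rw [tA, e1]
      ring
    · rw [tA', e2]
      ring
    · exact_mod_cast hp0.ne'
    · exact_mod_cast hpr.ne
    · intro N hN
      obtain ⟨C, hC, hCN⟩ := upd (hit1 hG' p2 t) N hN
      obtain ⟨C', hC', rfl⟩ := p4 C hC
      obtain ⟨A₀, -, hA₀⟩ := (tCl (tBas tPj) T m D hG.hm _ p1).2.2 C'.1 (p5 C' hC').1 s
      have h1 : ∀ a : Ws D s, θ (A₀ a) = N (θ a) := by
        intro a
        apply Subtype.ext
        rw [hθ C' hC' a (A₀ a) (hA₀ a).symm, hCN]
      have h2 : ∀ a : Ws D s, θ (A (A₀ a) - A₀ (A a)) = A' (N (θ a)) - N (A' (θ a)) := by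
        intro a
        apply Subtype.ext
        have h3 := hθ _ ((hCl2 T T' m m' D D' h hh).2 C' hC') a (A (A₀ a) - A₀ (A a)) (by
          have h4 : ((pre2 (mulI T, mulI T') * C' - C' * pre2 (mulI T, mulI T')).1 (a : Frm T)) =
              pre (mulI T) (C'.1 (a : Frm T)) - C'.1 (pre (mulI T) (a : Frm T)) := rfl
          rw [h4, hA₀, hA, hA, hA₀]
          rfl)
        have h5 : ((pre2 (mulI T, mulI T') * C' - C' * pre2 (mulI T, mulI T')).2
            (θ a : Frm T')) = pre (mulI T') (C'.2 (θ a : Frm T')) -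
              C'.2 (pre (mulI T') (θ a : Frm T')) := rfl
        rw [h3, h5, hCN, hA', hA', hCN]
        rfl
      refine LinearMap.ext fun w => ?_
      obtain ⟨a, rfl⟩ := θ.surjective w
      have h3 := h2 a
      rw [map_sub, h1] at h3
      have h4 : θ.conj A (N (θ a)) = θ (A (A₀ a)) := by
        have h5 : θ.conj A (N (θ a)) = θ (A (θ.symm (N (θ a)))) := rfl
        rw [h5, ← h1, θ.symm_apply_apply]
      have h5 : θ.conj A (θ a) = θ (A a) := by
        have h6 : θ.conj A (θ a) = θ (A (θ.symm (θ a))) := rfl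
        rw [h6, θ.symm_apply_apply]
      rw [Module.End.mul_apply, Module.End.mul_apply, LinearMap.sub_apply, LinearMap.sub_apply,
        h4, h5, map_sub]
      have h6 : θ (A (A₀ a)) = A' (N (θ a)) - N (A' (θ a)) + N (θ (A a)) := by
        rw [← h3]
        abel
      rw [h6]
      abel
  exact_mod_cast key

end SEQ
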