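import Pool.Agent.Lib.SE.Q.SpecG
import Pool.Agent.Lib.SE.Big.Real
import Pool.Agent.Lib.SE.Big.Tr
import Pool.Agent.Lib.SE.Big.Bas
import Pool.Agent.Lib.SE.Big.Pj

/-!
# PROJECT SE-Q, module Dua: the eigenspaces for `t` and `-t` are dual (helper9)
-/

set_option autoImplicit false

open Module

noncomputable section

namespace SEQ

open HC HC.E HC.SE SEB

namespace Dua_aux

variable {T : AV} {m : ℕ}

/-- The isomorphism given by `ψ`. -/
def Ps (D : Cyc T m) : T.V ≃ₗ[ℝ] (T.V →ₗ[ℝ] ℝ) :=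
  LinearEquiv.ofBijective D.ψ
    ⟨fun u u' h => Real_aux.nd2 D u u' fun v => LinearMap.congr_fun h v, fun f => by
      obtain ⟨u, hu⟩ := Real_aux.repR D f
      exact ⟨u, (LinearMap.ext hu).symm⟩⟩

theorem Ps_symm (D : Cyc T m) (f : T.V →ₗ[ℝ] ℝ) (v : T.V) : D.ψ ((Ps D).symm f) v = f v := by
  have h := (Ps D).apply_symm_apply f
  exact LinearMap.congr_fun h v

/-- `w` is the vector of `f`. -/
theorem Ps_eq (D : Cyc T m) (f : T.V →ₗ[ℝ] ℝ) (w : T.V) (h : ∀ v, D.ψ w v = f v) :
    (Ps D).symm f = w := by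
  refine Real_aux.nd2 D _ _ fun v => ?_
  rw [Ps_symm, h]

/-- The real part of the vector of `a`. -/
def u1 (D : Cyc T m) (a : Frm T) : T.V := (Ps D).symm (Complex.reLm ∘ₗ a)

/-- The imaginary part of the vector of `a`. -/
def u2 (D : Cyc T m) (a : Frm T) : T.V := (Ps D).symm (Complex.imLm ∘ₗ a)

theorem u1_spec (D : Cyc T m) (a : Frm T) (v : T.V) : D.ψ (u1 D a) v = (a v).re :=
  Ps_symm D _ v

theorem u2_spec (D : Cyc T m) (a : Frm T) (v : T.V) : D.ψ (u2 D a) v = (a v).im :=
  Ps_symm D _ v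

theorem u1_eq (D : Cyc T m) (a : Frm T) (w : T.V) (h : ∀ v, D.ψ w v = (a v).re) : u1 D a = w :=
  Ps_eq D _ w h

theorem u2_eq (D : Cyc T m) (a : Frm T) (w : T.V) (h : ∀ v, D.ψ w v = (a v).im) : u2 D a = w :=
  Ps_eq D _ w h

theorem u1_add (D : Cyc T m) (a b : Frm T) : u1 D (a + b) = u1 D a + u1 D b :=
  u1_eq D _ _ fun v => by
    rw [map_add, LinearMap.add_apply, u1_spec, u1_spec, LinearMap.add_apply, Complex.add_re]

theorem u2_add (D : Cyc T m) (a b : Frm T) : u2 D (a + b) = u2 D a + u2 D b :=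
  u2_eq D _ _ fun v => by
    rw [map_add, LinearMap.add_apply, u2_spec, u2_spec, LinearMap.add_apply, Complex.add_im]

theorem u1_smul (D : Cyc T m) (c : ℂ) (a : Frm T) : u1 D (c • a) = c.re • u1 D a - c.im • u2 D a :=
  u1_eq D _ _ fun v => by
    rw [map_sub, LinearMap.sub_apply, map_smul, map_smul, LinearMap.smul_apply,
      LinearMap.smul_apply, u1_spec, u2_spec, LinearMap.smul_apply, smul_eq_mul, smul_eq_mul,
      smul_eq_mul, Complex.mul_re]

theorem u2_smul (D : Cyc T m) (c : ℂ) (a : Frm T) : u2 D (c • a) = c.re • u2 D a + c.im • u1 D a :=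
  u2_eq D _ _ fun v => by
    rw [map_add, LinearMap.add_apply, map_smul, map_smul, LinearMap.smul_apply,
      LinearMap.smul_apply, u1_spec, u2_spec, LinearMap.smul_apply, smul_eq_mul, smul_eq_mul,
      smul_eq_mul, Complex.mul_im]

/-- The pairing. -/
def Phi (D : Cyc T m) : Frm T →ₗ[ℂ] Frm T →ₗ[ℂ] ℂ :=
  LinearMap.mk₂ ℂ (fun a b => b (u1 D a) + Complex.I * b (u2 D a))
    (fun a a' b => by
      simp only [u1_add, u2_add, map_add]
      ring)
    (fun c a b => by
      simp only [u1_smul, u2_smul, map_add, map_sub, map_smul, Complex.real_smul, smul_eq_mul]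
      conv_rhs => rw [← Complex.re_add_im c]
      have hI := Complex.I_mul_I
      linear_combination (-(c.im : ℂ) * b (u2 D a)) * hI)
    (fun a b b' => by
      simp only [LinearMap.add_apply]
      ring)
    (fun c a b => by
      simp only [LinearMap.smul_apply, smul_eq_mul]
      ring)

theorem Phi_apply (D : Cyc T m) (a b : Frm T) :
    Phi D a b = b (u1 D a) + Complex.I * b (u2 D a) := rfl

/-- The pairing is nondegenerate. -/
theorem Phi_inj (D : Cyc T m) (a : Frm T) (h : ∀ b, Phi D a b = 0) : a = 0 := by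
  have h1 : ∀ w, D.ψ w (u1 D a) = 0 ∧ D.ψ w (u2 D a) = 0 := by
    intro w
    have h2 := h (Complex.ofRealCLM.toLinearMap ∘ₗ D.ψ w)
    rw [Phi_apply] at h2
    have h5 := congrArg Complex.re h2
    have h6 := congrArg Complex.im h2
    simp at h5 h6
    exact ⟨h5, h6⟩
  have e1 : u1 D a = 0 := Real_aux.nd D _ fun v => by rw [D.alt, (h1 v).1, neg_zero]
  have e2 : u2 D a = 0 := Real_aux.nd D _ fun v => by rw [D.alt, (h1 v).2, neg_zero]
  refine LinearMap.ext fun v => ?_
  apply Complex.ext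
  · rw [← u1_spec D a v, e1]
    simp
  · rw [← u2_spec D a v, e2]
    simp

/-- The elements of `u` are skew. -/
theorem Phi_skew (D : Cyc T m) (Y : Module.End ℝ T.V) (hY : IsU D Y) (a b : Frm T) :
    Phi D (pre Y a) b = -Phi D a (pre Y b) := by
  have e1 : u1 D (pre Y a) = -Y (u1 D a) := u1_eq D _ _ fun v => by
    have h1 := hY.2 (u1 D a) v
    have h2 := u1_spec D a (Y v)
    have h3 : (pre Y a) v = a (Y v) := rfl
    rw [map_neg, LinearMap.neg_apply, h3, ← h2]
    linarith
  have e2 : u2 D (pre Y a) = -Y (u2 D a) := u2_eq D _ _ fun v => by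
    have h1 := hY.2 (u2 D a) v
    have h2 := u2_spec D a (Y v)
    have h3 : (pre Y a) v = a (Y v) := rfl
    rw [map_neg, LinearMap.neg_apply, h3, ← h2]
    linarith
  rw [Phi_apply, Phi_apply, e1, e2, map_neg, map_neg]
  have h3 : ∀ v, (pre Y b) v = b (Y v) := fun v => rfl
  rw [h3, h3]
  ring

theorem Phi_skew_span (D : Cyc T m) (C : Module.End ℂ (Frm T))
    (hC : C ∈ Submodule.span ℂ (pre '' {Y | IsU D Y})) (a b : Frm T) :
    Phi D (C a) b = -Phi D a (C b) := by
  induction hC using Submodule.span_induction with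
  | mem C hC =>
    obtain ⟨Y, hY, rfl⟩ := hC
    exact Phi_skew D Y hY a b
  | zero => simp
  | add C C' _ _ h h' =>
    rw [LinearMap.add_apply, LinearMap.add_apply, map_add, LinearMap.add_apply, map_add, h, h']
    ring
  | smul c C _ h =>
    rw [LinearMap.smul_apply, LinearMap.smul_apply, map_smul, LinearMap.smul_apply, map_smul, h,
      smul_neg]

/-- Orthogonality of the eigenspaces. -/
theorem Phi_orth (D : Cyc T m) (hm : 3 ≤ m) (t s : (ZMod m)ˣ) (hs : s ≠ -t) (a b : Frm T)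
    (ha : a ∈ Ws D t) (hb : b ∈ Ws D s) : Phi D a b = 0 := by
  have key : ∀ (f : T.V → ℝ) (u w : T.V), (∀ v, D.ψ u v = f v) → (∀ v, D.ψ w v = f (D.Z v)) →
      u = D.Z w := by
    intro f u w h1 h2
    refine Real_aux.nd2 D _ _ fun v => ?_
    obtain ⟨v, rfl⟩ := Real_aux.Zsurj D v
    rw [h1, D.inv, h2]
  have haZ : (zet m t) • a = (a ∘ₗ D.ZR : Frm T) := by
    refine LinearMap.ext fun v => ?_
    rw [LinearMap.smul_apply, smul_eq_mul, ← ha v]
    rfl
  have e1 : u1 D a = D.Z (u1 D (zet m t • a)) := by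
    refine key (fun v => (a v).re) _ _ (u1_spec D a) fun v => ?_
    rw [haZ, u1_spec]
    rfl
  have e2 : u2 D a = D.Z (u2 D (zet m t • a)) := by
    refine key (fun v => (a v).im) _ _ (u2_spec D a) fun v => ?_
    rw [haZ, u2_spec]
    rfl
  have h1 : Phi D a b = zet m s * Phi D (zet m t • a) b := by
    rw [Phi_apply, Phi_apply]
    conv_lhs => rw [e1, e2]
    rw [hb, hb]
    ring
  rw [map_smul, LinearMap.smul_apply, smul_eq_mul] at h1
  have h2 : (1 - zet m t * zet m s) * Phi D a b = 0 := by linear_combination h1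
  have h3 : zet m t * zet m s ≠ 1 := by
    have := Real_aux.zet_ne hm (-s) t (fun h => hs (by rw [h, neg_neg]))
    rwa [neg_neg] at this
  exact (mul_eq_zero.1 h2).resolve_left (sub_ne_zero.2 h3.symm)

/-- The restriction to the eigenspaces. -/
def Bt (D : Cyc T m) (t : (ZMod m)ˣ) : Ws D t →ₗ[ℂ] Module.Dual ℂ (Ws D (-t)) where
  toFun a := (Phi D (a : Frm T)) ∘ₗ (Ws D (-t)).subtype
  map_add' a b := by
    ext c
    simp
  map_smul' c a := by
    ext d
    simp

theorem Bt_apply (D : Cyc T m) (t : (ZMod m)ˣ) (a : Ws D t) (b : Ws D (-t)) :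
    Bt D t a b = Phi D (a : Frm T) (b : Frm T) := rfl

theorem Bt_inj (D : Cyc T m) (hm : 3 ≤ m) (t : (ZMod m)ˣ) : Function.Injective (Bt D t) := by
  rw [injective_iff_map_eq_zero]
  intro a ha
  have htop := (tBas tPj T m D hm).1
  refine Subtype.ext (Phi_inj D a fun b => ?_)
  have hb : b ∈ ⨆ s, Ws D s := by
    rw [htop]
    exact Submodule.mem_top
  induction hb using Submodule.iSup_induction' with
  | mem s b hb =>
    by_cases hs : s = -t
    · subst hs
      have := LinearMap.congr_fun ha ⟨b, hb⟩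
      rwa [Bt_apply] at this
    · exact Phi_orth D hm t s hs a b a.2 hb
  | zero => simp
  | add b b' _ _ h h' => rw [map_add, h, h', add_zero]

end Dua_aux

open Dua_aux in
theorem tDua : S_Dua := by
  intro T m D hm t
  haveI := Tr_aux.fin_frm T
  have h1 := LinearMap.finrank_le_finrank_of_injective (Bt_inj D hm t)
  have h2 := LinearMap.finrank_le_finrank_of_injective (Bt_inj D hm (-t))
  rw [Subspace.dual_finrank_eq] at h1 h2
  rw [neg_neg] at h2
  have h3 : finrank ℂ (Ws D t) = finrank ℂ (Module.Dual ℂ (Ws D (-t))) := by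
    rw [Subspace.dual_finrank_eq]
    exact le_antisymm h1 h2
  refine ⟨LinearEquiv.ofBijective (Bt D t)
    ⟨Bt_inj D hm t, (LinearMap.injective_iff_surjective_of_finrank_eq_finrank h3).1
      (Bt_inj D hm t)⟩, ?_⟩
  intro C hC a a' b b' ha hb
  rw [LinearEquiv.ofBijective_apply, LinearEquiv.ofBijective_apply, Bt_apply, Bt_apply, ha, hb]
  exact Phi_skew_span D C hC _ _

end SEQ
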