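import Pool.Agent.Lib.SE.Q.SpecB

/-!
# PROJECT SE-Q, module Int: graphs of isomorphisms of `sl(W)` (helper10)
-/

set_option autoImplicit false

open Module

noncomputable section

namespace SEQ

open HC HC.E HC.SE SEB

namespace Int_aux

variable {W W' : Type} [AddCommGroup W] [Module ℂ W] [AddCommGroup W'] [Module ℂ W']

/-- The eigenspace of `ad e` for `-1`. -/
lemma eig_neg {φ : Module.Dual ℂ W} {v : W} (hv : φ v = 1) {Y : Module.End ℂ W}
    (h : (φ.smulRight v : Module.End ℂ W) * Y - Y * (φ.smulRight v : Module.End ℂ W) + Y = 0) :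
    φ (Y v) = 0 ∧ Y = φ.smulRight (Y v) := by
  have h0 : ∀ w, φ (Y w) • v - φ w • Y v + Y w = 0 := by
    intro w
    have := LinearMap.congr_fun h w
    simpa only [LinearMap.add_apply, LinearMap.sub_apply, Module.End.mul_apply,
      LinearMap.smulRight_apply, map_smul, LinearMap.zero_apply] using this
  have h1 : φ (Y v) = 0 := by
    have := congrArg φ (h0 v)
    simp only [hv, one_smul, map_add, map_sub, map_smul, smul_eq_mul, mul_one, map_zero] at this
    linear_combination this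
  have h2 : ∀ w, φ (Y w) = 0 := by
    intro w
    have := congrArg φ (h0 w)
    simp only [hv, h1, map_add, map_sub, map_smul, smul_eq_mul, mul_one, mul_zero,
      map_zero] at this
    linear_combination (1 / 2) * this
  refine ⟨h1, ?_⟩
  ext w
  have := h0 w
  rw [h2 w, zero_smul, zero_sub, neg_add_eq_zero] at this
  rw [LinearMap.smulRight_apply]
  exact this.symm

/-- The eigenspace of `ad e` for `1`. -/
lemma eig_pos {φ : Module.Dual ℂ W} {v : W} (hv : φ v = 1) {Y : Module.End ℂ W}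
    (h : (φ.smulRight v : Module.End ℂ W) * Y - Y * (φ.smulRight v : Module.End ℂ W) - Y = 0) :
    φ (Y v) = 0 ∧ Y = (φ ∘ₗ Y : Module.Dual ℂ W).smulRight v := by
  have h0 : ∀ w, φ (Y w) • v - φ w • Y v - Y w = 0 := by
    intro w
    have := LinearMap.congr_fun h w
    simpa only [LinearMap.sub_apply, Module.End.mul_apply,
      LinearMap.smulRight_apply, map_smul, LinearMap.zero_apply] using this
  have h1 : φ (Y v) = 0 := by
    have := congrArg φ (h0 v)
    simp only [hv, one_smul, map_sub, map_smul, smul_eq_mul, mul_one, map_zero] at this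
    linear_combination -this
  have h2 : Y v = 0 := by
    have := h0 v
    rw [h1, hv, zero_smul, one_smul, zero_sub] at this
    have h3 : (2 : ℂ) • Y v = 0 := by
      rw [two_smul]
      have h4 := congrArg Neg.neg this
      rw [neg_zero] at h4
      rw [← h4]
      abel
    rcases smul_eq_zero.1 h3 with h4 | h4
    · norm_num at h4
    · exact h4
  refine ⟨h1, ?_⟩
  ext w
  have := h0 w
  rw [h2, smul_zero, sub_zero, sub_eq_zero] at this
  rw [LinearMap.smulRight_apply]
  exact this.symm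

/-- The graph on the eigenvectors for `-1`. -/
lemma graph_neg (R : Module.End ℂ W → Module.End ℂ W' → Prop) {φ : Module.Dual ℂ W} {v : W}
    {φ' : Module.Dual ℂ W'} {v' : W'} (hv' : φ' v' = 1)
    (hadd : ∀ X Y X₂ Y₂, R X Y → R X₂ Y₂ → R (X + X₂) (Y + Y₂))
    (had : ∀ X Y, R X Y → R ((φ.smulRight v : Module.End ℂ W) * X -
        X * (φ.smulRight v : Module.End ℂ W)) ((φ'.smulRight v' : Module.End ℂ W') * Y -
        Y * (φ'.smulRight v' : Module.End ℂ W')))
    (h0 : ∀ Y, R 0 Y → Y = 0) (hv : φ v = 1) {u : W} (hu : φ u = 0)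
    (hex : ∃ Y, R (φ.smulRight u) Y) :
    ∃ u', φ' u' = 0 ∧ R (φ.smulRight u) (φ'.smulRight u') := by
  obtain ⟨Y, hY⟩ := hex
  have h1 := hadd _ _ _ _ (had _ _ hY) hY
  have h2 : (φ.smulRight v : Module.End ℂ W) * (φ.smulRight u) -
      (φ.smulRight u) * (φ.smulRight v : Module.End ℂ W) + (φ.smulRight u) = 0 := by
    ext w
    simp only [LinearMap.add_apply, LinearMap.sub_apply, Module.End.mul_apply,
      LinearMap.smulRight_apply, map_smul, LinearMap.zero_apply, hu, hv]
    module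
  rw [h2] at h1
  have h3 := eig_neg hv' (h0 _ h1)
  refine ⟨Y v', h3.1, ?_⟩
  rw [← h3.2]
  exact hY

/-- The graph on the eigenvectors for `1`. -/
lemma graph_pos (R : Module.End ℂ W → Module.End ℂ W' → Prop) {φ : Module.Dual ℂ W} {v : W}
    {φ' : Module.Dual ℂ W'} {v' : W'} (hv' : φ' v' = 1)
    (hsub : ∀ X Y X₂ Y₂, R X Y → R X₂ Y₂ → R (X - X₂) (Y - Y₂))
    (had : ∀ X Y, R X Y → R ((φ.smulRight v : Module.End ℂ W) * X -
        X * (φ.smulRight v : Module.End ℂ W)) ((φ'.smulRight v' : Module.End ℂ W') * Y -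
        Y * (φ'.smulRight v' : Module.End ℂ W')))
    (h0 : ∀ Y, R 0 Y → Y = 0) (hv : φ v = 1) {β : Module.Dual ℂ W} (hβ : β v = 0)
    (hex : ∃ Y, R (β.smulRight v) Y) :
    ∃ β' : Module.Dual ℂ W', β' v' = 0 ∧ R (β.smulRight v) (β'.smulRight v') := by
  obtain ⟨Y, hY⟩ := hex
  have h1 := hsub _ _ _ _ (had _ _ hY) hY
  have h2 : (φ.smulRight v : Module.End ℂ W) * (β.smulRight v) -
      (β.smulRight v) * (φ.smulRight v : Module.End ℂ W) - (β.smulRight v) = 0 := by
    ext w
    simp only [LinearMap.sub_apply, Module.End.mul_apply,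
      LinearMap.smulRight_apply, map_smul, LinearMap.zero_apply, hβ, hv]
    module
  rw [h2] at h1
  have h3 := eig_pos hv' (h0 _ h1)
  refine ⟨φ' ∘ₗ Y, h3.1, ?_⟩
  rw [← h3.2]
  exact hY

/-- The traceless operators are generated by the two eigenspaces. -/
lemma full [FiniteDimensional ℂ W] (N : Submodule ℂ (Module.End ℂ W)) {φ : Module.Dual ℂ W} {v : W}
    (hv : φ v = 1) (h1 : ∀ u, φ u = 0 → (φ.smulRight u : Module.End ℂ W) ∈ N)
    (h2 : ∀ β : Module.Dual ℂ W, β v = 0 → (β.smulRight v : Module.End ℂ W) ∈ N)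
    (h3 : ∀ (u : W) (β : Module.Dual ℂ W), φ u = 0 → β v = 0 →
      ((β.smulRight v : Module.End ℂ W) * φ.smulRight u -
        (φ.smulRight u) * (β.smulRight v : Module.End ℂ W)) ∈ N)
    (X : Module.End ℂ W) (hX : LinearMap.trace ℂ W X = 0) : X ∈ N := by
  have key : ∀ (β : Module.Dual ℂ W) (b : W),
      (β.smulRight b - β b • φ.smulRight v : Module.End ℂ W) ∈ N := by
    intro β b
    have hu : φ (b - φ b • v) = 0 := by
      rw [map_sub, map_smul, hv, smul_eq_mul, mul_one, sub_self]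
    have hβ : (β - β v • φ) v = 0 := by
      rw [LinearMap.sub_apply, LinearMap.smul_apply, hv, smul_eq_mul, mul_one, sub_self]
    have e : (β.smulRight b - β b • φ.smulRight v : Module.End ℂ W) =
        β v • (φ.smulRight (b - φ b • v) : Module.End ℂ W) +
          φ b • ((β - β v • φ).smulRight v : Module.End ℂ W) -
          (((β - β v • φ).smulRight v : Module.End ℂ W) * φ.smulRight (b - φ b • v) -
            (φ.smulRight (b - φ b • v)) * ((β - β v • φ).smulRight v : Module.End ℂ W)) := by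
      ext w
      simp only [LinearMap.add_apply, LinearMap.sub_apply, Module.End.mul_apply,
        LinearMap.smulRight_apply, map_smul, map_sub, LinearMap.smul_apply, hv, smul_eq_mul]
      module
    rw [e]
    exact N.sub_mem (N.add_mem (N.smul_mem _ (h1 _ hu)) (N.smul_mem _ (h2 _ hβ)))
      (h3 _ _ hu hβ)
  let B := Module.finBasis ℂ W
  have hdec : X = ∑ i, (B.coord i).smulRight (X (B i)) := by
    ext w
    rw [LinearMap.sum_apply]
    conv_lhs => rw [← B.sum_repr w]
    rw [map_sum]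
    refine Finset.sum_congr rfl fun i _ => ?_
    rw [map_smul, LinearMap.smulRight_apply, Basis.coord_apply]
  have htr : ∑ i, (B.coord i) (X (B i)) = 0 := by
    rw [← hX]
    conv_rhs => rw [hdec]
    rw [map_sum]
    exact Finset.sum_congr rfl fun i _ => (LinearMap.trace_smulRight _ _).symm
  have h4 : X = ∑ i, ((B.coord i).smulRight (X (B i)) -
      (B.coord i) (X (B i)) • φ.smulRight v) := by
    rw [Finset.sum_sub_distrib, ← Finset.sum_smul, htr, zero_smul, sub_zero]
    exact hdec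
  rw [h4]
  exact Submodule.sum_mem _ fun i _ => key _ _

/-- The double bracket. -/
lemma dbl {φ : Module.Dual ℂ W} {v : W} (hv : φ v = 1) {u : W} (hu : φ u = 0)
    {β : Module.Dual ℂ W} :
    ((β.smulRight v : Module.End ℂ W) * φ.smulRight u -
        (φ.smulRight u) * (β.smulRight v : Module.End ℂ W)) * (φ.smulRight u) -
      (φ.smulRight u) * ((β.smulRight v : Module.End ℂ W) * φ.smulRight u -
        (φ.smulRight u) * (β.smulRight v : Module.End ℂ W)) =
      (-2 * β u) • (φ.smulRight u : Module.End ℂ W) := by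
  ext w
  simp only [LinearMap.sub_apply, Module.End.mul_apply,
    LinearMap.smulRight_apply, map_smul, map_sub, LinearMap.smul_apply, hv, hu]
  module

end Int_aux

open Int_aux in
theorem tInt : S_Int := by
  intro W W' _ _ _ _ _ _ P φ v φ' v' hv hv' h1 h2 h3 h4 h5 h6
  have g1 : ∀ u, φ u = 0 → ∃ u', φ' u' = 0 ∧
      ((φ.smulRight u, φ'.smulRight u') : Module.End ℂ W × Module.End ℂ W') ∈ P := by
    intro u hu
    refine graph_neg (fun X Y => (X, Y) ∈ P) hv' (fun X Y X₂ Y₂ ha hb => P.add_mem ha hb)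
      (fun X Y ha => h2 _ ha) (fun Y ha => (h6 _ ha).1 rfl) hv hu (h4 _ ?_)
    rw [LinearMap.trace_smulRight, hu]
  have g2 : ∀ u', φ' u' = 0 → ∃ u, φ u = 0 ∧
      ((φ.smulRight u, φ'.smulRight u') : Module.End ℂ W × Module.End ℂ W') ∈ P := by
    intro u' hu'
    refine graph_neg (fun Y X => (X, Y) ∈ P) hv (fun X Y X₂ Y₂ ha hb => P.add_mem ha hb)
      (fun X Y ha => h2 _ ha) (fun X ha => (h6 _ ha).2 rfl) hv' hu' (h5 _ ?_)
    rw [LinearMap.trace_smulRight, hu']
  have g3 : ∀ β : Module.Dual ℂ W, β v = 0 → ∃ β' : Module.Dual ℂ W', β' v' = 0 ∧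
      ((β.smulRight v, β'.smulRight v') : Module.End ℂ W × Module.End ℂ W') ∈ P := by
    intro β hβ
    refine graph_pos (fun X Y => (X, Y) ∈ P) hv' (fun X Y X₂ Y₂ ha hb => P.sub_mem ha hb)
      (fun X Y ha => h2 _ ha) (fun Y ha => (h6 _ ha).1 rfl) hv hβ (h4 _ ?_)
    rw [LinearMap.trace_smulRight, hβ]
  -- the isomorphism of the traceless operators
  obtain ⟨F, hF⟩ : ∃ F : Module.End ℂ W →ₗ[ℂ] Module.End ℂ W', ∀ x ∈ P, F x.1 = x.2 := by
    have hk : LinearMap.ker ((LinearMap.fst ℂ (Module.End ℂ W) (Module.End ℂ W')).comp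
        P.subtype) = ⊥ := by
      rw [LinearMap.ker_eq_bot']
      rintro ⟨x, hx⟩ h0
      have h0' : x.1 = 0 := h0
      exact Subtype.ext (Prod.ext h0' ((h6 x hx).1 h0'))
    obtain ⟨g, hg⟩ := LinearMap.exists_leftInverse_of_injective _ hk
    refine ⟨((LinearMap.snd ℂ (Module.End ℂ W) (Module.End ℂ W')).comp P.subtype).comp g,
      fun x hx => ?_⟩
    have h0 : g x.1 = ⟨x, hx⟩ := LinearMap.congr_fun hg ⟨x, hx⟩
    show (g x.1 : Module.End ℂ W × Module.End ℂ W').2 = x.2
    rw [h0]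
  obtain ⟨θ₀, hθ⟩ : ∃ θ₀ : W →ₗ[ℂ] W', ∀ w, θ₀ w =
      φ w • v' + F (φ.smulRight (w - φ w • v)) v' :=
    ⟨φ.smulRight v' + (LinearMap.applyₗ v').comp (F.comp ((LinearMap.smulRightₗ φ).comp
      (LinearMap.id - φ.smulRight v))), fun w => rfl⟩
  have hθv : θ₀ v = v' := by
    rw [hθ, hv, one_smul, one_smul, sub_self]
    have : (φ.smulRight (0 : W) : Module.End ℂ W) = 0 := by
      ext w
      simp
    rw [this, map_zero, LinearMap.zero_apply, add_zero]
  have hθu : ∀ u u', φ u = 0 →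
      ((φ.smulRight u, φ'.smulRight u') : Module.End ℂ W × Module.End ℂ W') ∈ P →
      θ₀ u = u' := by
    intro u u' hu hP
    rw [hθ, hu, zero_smul, zero_smul, sub_zero, zero_add, hF _ hP]
    show φ' v' • u' = u'
    rw [hv', one_smul]
  have hθφ : ∀ w, φ' (θ₀ w) = φ w := by
    intro w
    have hu : φ (w - φ w • v) = 0 := by
      rw [map_sub, map_smul, hv, smul_eq_mul, mul_one, sub_self]
    obtain ⟨u', hu', hP⟩ := g1 _ hu
    have h7 : θ₀ w = φ w • v' + u' := by
      have h8 : w = φ w • v + (w - φ w • v) := by abel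
      conv_lhs => rw [h8]
      rw [map_add, map_smul, hθv, hθu _ _ hu hP]
    rw [h7, map_add, map_smul, hv', hu', smul_eq_mul, mul_one, add_zero]
  have hinj : Function.Injective θ₀ := by
    rw [← LinearMap.ker_eq_bot, LinearMap.ker_eq_bot']
    intro w hw
    have hφ : φ w = 0 := by
      rw [← hθφ w, hw, map_zero]
    obtain ⟨u', hu', hP⟩ := g1 w hφ
    have h7 : u' = 0 := by rw [← hθu _ _ hφ hP, hw]
    have h8 : (φ.smulRight w : Module.End ℂ W) = 0 := by
      refine (h6 _ hP).2 ?_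
      show (φ'.smulRight u' : Module.End ℂ W') = 0
      rw [h7]
      ext w'
      simp
    have h9 := LinearMap.congr_fun h8 v
    rw [LinearMap.smulRight_apply, hv, one_smul] at h9
    exact h9
  have hsur : Function.Surjective θ₀ := by
    intro w'
    have hu' : φ' (w' - φ' w' • v') = 0 := by
      rw [map_sub, map_smul, hv', smul_eq_mul, mul_one, sub_self]
    obtain ⟨u, hu, hP⟩ := g2 _ hu'
    refine ⟨φ' w' • v + u, ?_⟩
    rw [map_add, map_smul, hθv, hθu _ _ hu hP]
    abel
  refine ⟨LinearEquiv.ofBijective θ₀ ⟨hinj, hsur⟩, ?_⟩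
  show ∀ x ∈ P, ∀ w, θ₀ (x.1 w) = x.2 (θ₀ w)
  -- the operators which are conjugated correctly
  let N : Submodule ℂ (Module.End ℂ W) :=
    { carrier := {X | ∃ Y, (X, Y) ∈ P ∧ ∀ w, θ₀ (X w) = Y (θ₀ w)}
      add_mem' := by
        rintro X X₂ ⟨Y, hY, ha⟩ ⟨Y₂, hY₂, hb⟩
        refine ⟨Y + Y₂, P.add_mem hY hY₂, fun w => ?_⟩
        rw [LinearMap.add_apply, LinearMap.add_apply, map_add, ha, hb]
      zero_mem' := ⟨0, P.zero_mem, fun w => by
        rw [LinearMap.zero_apply, LinearMap.zero_apply, map_zero]⟩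
      smul_mem' := by
        rintro c X ⟨Y, hY, ha⟩
        refine ⟨c • Y, P.smul_mem c hY, fun w => ?_⟩
        rw [LinearMap.smul_apply, LinearMap.smul_apply, map_smul, ha] }
  have n1 : ∀ u, φ u = 0 → (φ.smulRight u : Module.End ℂ W) ∈ N := by
    intro u hu
    obtain ⟨u', hu', hP⟩ := g1 u hu
    refine ⟨_, hP, fun w => ?_⟩
    rw [LinearMap.smulRight_apply, LinearMap.smulRight_apply, map_smul, hθu _ _ hu hP, hθφ]
  have n2 : ∀ β : Module.Dual ℂ W, β v = 0 → (β.smulRight v : Module.End ℂ W) ∈ N := by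
    intro β hβ
    obtain ⟨β', hβ', hP⟩ := g3 β hβ
    have hu : ∀ u, φ u = 0 → β' (θ₀ u) = β u := by
      intro u hu
      by_cases hu0 : u = 0
      · rw [hu0, map_zero, map_zero, map_zero]
      obtain ⟨u', hu', hP'⟩ := g1 u hu
      rw [hθu _ _ hu hP']
      have h7 := h1 _ (h1 _ hP _ hP') _ hP'
      have h8 : ((-2 * β u) • (φ.smulRight u : Module.End ℂ W),
          (-2 * β' u') • (φ'.smulRight u' : Module.End ℂ W')) ∈ P := by
        rw [← dbl hv hu (β := β), ← dbl hv' hu' (β := β')]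
        exact h7
      have h9 := P.sub_mem h8 (P.smul_mem (-2 * β u) hP')
      have h10 := (h6 _ h9).1 (by
        show (-2 * β u) • (φ.smulRight u : Module.End ℂ W) -
          (-2 * β u) • (φ.smulRight u : Module.End ℂ W) = 0
        rw [sub_self])
      have h11 : (-2 * β' u') • (φ'.smulRight u' : Module.End ℂ W') -
          (-2 * β u) • (φ'.smulRight u' : Module.End ℂ W') = 0 := h10
      rw [← sub_smul] at h11
      rcases smul_eq_zero.1 h11 with h12 | h12
      · linear_combination (-1 / 2) * h12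
      · exfalso
        have h13 : (φ.smulRight u : Module.End ℂ W) = 0 := (h6 _ hP').2 h12
        have h14 := LinearMap.congr_fun h13 v
        rw [LinearMap.smulRight_apply, hv, one_smul] at h14
        exact hu0 h14
    have hw : ∀ w, β' (θ₀ w) = β w := by
      intro w
      have hu1 : φ (w - φ w • v) = 0 := by
        rw [map_sub, map_smul, hv, smul_eq_mul, mul_one, sub_self]
      have h8 : w = φ w • v + (w - φ w • v) := by abel
      conv_lhs => rw [h8]
      conv_rhs => rw [h8]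
      rw [map_add, map_add, map_add, hu _ hu1, map_smul, map_smul, map_smul, hθv, hβ', hβ]
    refine ⟨_, hP, fun w => ?_⟩
    rw [LinearMap.smulRight_apply, LinearMap.smulRight_apply, map_smul, hθv, hw]
  have n3 : ∀ X ∈ N, ∀ X₂ ∈ N, X * X₂ - X₂ * X ∈ N := by
    rintro X ⟨Y, hY, ha⟩ X₂ ⟨Y₂, hY₂, hb⟩
    refine ⟨_, h1 _ hY _ hY₂, fun w => ?_⟩
    show θ₀ (X (X₂ w) - X₂ (X w)) = Y (Y₂ (θ₀ w)) - Y₂ (Y (θ₀ w))
    rw [map_sub, ha, hb, hb, ha]
  intro x hx w
  obtain ⟨Y, hY, hYw⟩ := full N hv n1 n2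
    (fun u β hu hβ => n3 _ (n2 β hβ) _ (n1 u hu)) x.1 (h3 x hx).1
  have h7 : Y = x.2 := (hF _ hY).symm.trans (hF _ hx)
  rw [← h7]
  exact hYw w

end SEQ
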