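import Pool.Agent.Lib.SE.Q.SpecG

/-!
# PROJECT SE-Q, part G: isomorphisms of `sl(W)`
-/

set_option autoImplicit false

open Module

noncomputable section

namespace SEQ

open HC HC.E HC.SE SEB

namespace IntG_aux

section One

variable {W : Type} [AddCommGroup W] [Module ℂ W]

/-- the commutator -/
def ad (E X : Module.End ℂ W) : Module.End ℂ W := E * X - X * E

theorem ad_shift (E X : Module.End ℂ W) (c : ℂ) : ad (E - c • 1) X = ad E X := by
  simp only [ad, sub_mul, mul_sub, smul_mul_assoc, mul_smul_comm, one_mul, mul_one]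
  abel

theorem ad_shift2 (E X : Module.End ℂ W) (c : ℂ) : ad E (X - c • 1) = ad E X := by
  simp only [ad, sub_mul, mul_sub, smul_mul_assoc, mul_smul_comm, one_mul, mul_one]
  abel

theorem ad3 {e : Module.End ℂ W} (h : e * e = e) (X : Module.End ℂ W) :
    ad e (ad e (ad e X)) = ad e X := by
  have h' : ∀ Z : Module.End ℂ W, e * (e * Z) = e * Z := fun Z => by rw [← mul_assoc, h]
  simp only [ad, mul_sub, sub_mul, mul_assoc, h, h']
  abel

theorem dual_one {v : W} (hv : v ≠ 0) : ∃ φ : Module.Dual ℂ W, φ v = 1 := by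
  by_contra hc
  push Not at hc
  apply hv
  rw [← Module.forall_dual_apply_eq_zero_iff ℂ v]
  intro φ
  by_contra h0
  exact hc ((φ v)⁻¹ • φ) (by simp [h0])

theorem dual_span {v w : W} (h : ∀ c : ℂ, v ≠ c • w) : ∃ φ : Module.Dual ℂ W, φ v = 1 ∧ φ w = 0 := by
  have h1 : v ∉ Submodule.span ℂ {w} := by
    intro h2
    obtain ⟨c, hc⟩ := Submodule.mem_span_singleton.1 h2
    exact h c hc.symm
  obtain ⟨f, hf, hf2⟩ := Submodule.exists_dual_map_eq_bot_of_notMem h1 inferInstance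
  have h3 : f w = 0 := by
    have h4 : f w ∈ Submodule.map f (Submodule.span ℂ {w}) :=
      Submodule.mem_map_of_mem (Submodule.mem_span_singleton_self w)
    rw [hf2] at h4
    exact (Submodule.mem_bot ℂ).1 h4
  exact ⟨(f v)⁻¹ • f, by simp [hf], by simp [h3]⟩

theorem smul_idem {φ : Module.Dual ℂ W} {v : W} (h : φ v = 1) :
    (φ.smulRight v : Module.End ℂ W) * (φ.smulRight v : Module.End ℂ W) = φ.smulRight v := by
  ext w
  simp [h]

/-- two independent vectors in the range, or rank at most one -/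
theorem two (p : Module.End ℂ W) (h : ¬ ∃ v, ∀ w, ∃ c : ℂ, p w = c • v) :
    ∃ w1 w2, (∀ c : ℂ, p w1 ≠ c • p w2) ∧ ∀ c : ℂ, p w2 ≠ c • p w1 := by
  push Not at h
  obtain ⟨w1, h1⟩ := h 0
  obtain ⟨w2, h2⟩ := h (p w1)
  refine ⟨w1, w2, fun c hc => ?_, h2⟩
  by_cases hc0 : c = 0
  · exact h1 0 (by rw [hc, hc0, zero_smul, zero_smul])
  · exact h2 c⁻¹ (by rw [hc, smul_smul, inv_mul_cancel₀ hc0, one_smul])

/-- an idempotent of rank one -/
theorem rank1 {q : Module.End ℂ W} (hq : q * q = q) (h0 : q ≠ 0)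
    (h : ∃ v, ∀ w, ∃ c : ℂ, q w = c • v) :
    ∃ (φ : Module.Dual ℂ W) (v : W), φ v = 1 ∧ q = φ.smulRight v := by
  obtain ⟨v, hv⟩ := h
  have hqq : ∀ w, q (q w) = q w := fun w => by
    rw [← Module.End.mul_apply, hq]
  obtain ⟨w0, hw0⟩ : ∃ w, q w ≠ 0 := by
    by_contra hc
    push Not at hc
    exact h0 (LinearMap.ext hc)
  obtain ⟨c0, hc0⟩ := hv w0
  have hc00 : c0 ≠ 0 := by
    intro h1
    rw [h1, zero_smul] at hc0
    exact hw0 hc0
  have hv0 : v ≠ 0 := by
    intro h1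
    rw [h1, smul_zero] at hc0
    exact hw0 hc0
  have hqv : q v = v := by
    have h1 : v = q (c0⁻¹ • w0) := by
      rw [map_smul, hc0, smul_smul, inv_mul_cancel₀ hc00, one_smul]
    rw [h1, hqq]
  obtain ⟨ψ, hψ⟩ := dual_one hv0
  refine ⟨ψ ∘ₗ q, v, ?_, ?_⟩
  · rw [LinearMap.comp_apply, hqv, hψ]
  · ext w
    obtain ⟨c, hc⟩ := hv w
    rw [LinearMap.smulRight_apply, LinearMap.comp_apply, hc, map_smul, hψ, smul_eq_mul, mul_one]

/-- the key identity for rank one idempotents -/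
theorem key1 {φ : Module.Dual ℂ W} {v : W} (X Y : Module.End ℂ W)
    (hX : ad (φ.smulRight v) X = -X) (hφ : φ v = 1) :
    ∃ c : ℂ, ad (ad Y X) X = c • X := by
  have hXe : ∀ w, X w = φ w • X v := by
    intro w
    have h1 := LinearMap.congr_fun hX w
    have h2 := LinearMap.congr_fun hX v
    have h3 := congrArg φ h2
    simp only [ad, LinearMap.sub_apply, Module.End.mul_apply, LinearMap.smulRight_apply,
      LinearMap.neg_apply, map_smul, map_sub, map_neg, smul_eq_mul, hφ, mul_one] at h1 h2 h3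
    have h4 : φ (X v) = 0 := by linear_combination h3
    have h5 := congrArg φ h1
    simp only [map_smul, map_sub, map_neg, smul_eq_mul, hφ, mul_one, h4, mul_zero, sub_zero] at h5
    have h6 : φ (X w) = 0 := by
      have : (2 : ℂ) * φ (X w) = 0 := by linear_combination h5
      simpa using this
    rw [h6, zero_smul, zero_sub, neg_inj] at h1
    exact h1.symm
  have hφX : φ (X v) = 0 := by
    have h3 := congrArg φ (LinearMap.congr_fun hX v)
    simp only [ad, LinearMap.sub_apply, Module.End.mul_apply, LinearMap.smulRight_apply,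
      LinearMap.neg_apply, map_smul, map_sub, map_neg, smul_eq_mul, hφ, mul_one] at h3
    linear_combination h3
  refine ⟨-2 * φ (Y (X v)), ?_⟩
  ext w
  simp only [ad, LinearMap.sub_apply, Module.End.mul_apply, LinearMap.smul_apply]
  have e1 : X (X w) = 0 := by
    rw [hXe (X w), hXe w, map_smul, hφX, smul_zero, zero_smul]
  have e2 : X (Y (X w)) = φ (Y (X v)) • X w := by
    rw [hXe (Y (X w)), hXe w, map_smul, map_smul, smul_eq_mul, smul_smul, mul_comm]
  have e3 : X (X (Y w)) = 0 := by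
    rw [hXe (X (Y w)), hXe (Y w), map_smul, hφX, smul_zero, zero_smul]
  rw [map_sub, e1, map_zero, e2, e3]
  module

/-- a counterexample to the identity for other idempotents -/
theorem key2 {q : Module.End ℂ W} (hq : q * q = q)
    (h1 : ¬ ∃ v, ∀ w, ∃ c : ℂ, q w = c • v)
    (h2 : ¬ ∃ v, ∀ w, ∃ c : ℂ, (1 - q) w = c • v) :
    ∃ X Y : Module.End ℂ W, ad q X = -X ∧ ¬ ∃ c : ℂ, ad (ad Y X) X = c • X := by
  obtain ⟨a1, a2, ha12, ha21⟩ := two q h1
  obtain ⟨b1, b2, hb12, hb21⟩ := two (1 - q) h2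
  have hqq : ∀ w, q (q w) = q w := fun w => by
    rw [← Module.End.mul_apply, hq]
  have hqb : ∀ w, q ((1 - q) w) = 0 := fun w => by
    rw [LinearMap.sub_apply, Module.End.one_apply, map_sub, hqq, sub_self]
  obtain ⟨ψ1, h11, h12⟩ := dual_span ha12
  obtain ⟨ψ2, h22, h21⟩ := dual_span ha21
  obtain ⟨β, hβ1, hβ2⟩ := dual_span hb12
  set u1 := (1 - q) b1 with hu1
  set u2 := (1 - q) b2 with hu2
  have hqu1 : q u1 = 0 := hqb b1
  have hqu2 : q u2 = 0 := hqb b2
  obtain ⟨X, hX⟩ : ∃ X : Module.End ℂ W, X = (ψ1 ∘ₗ q).smulRight u1 + (ψ2 ∘ₗ q).smulRight u2 :=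
    ⟨_, rfl⟩
  obtain ⟨Y, hY⟩ : ∃ Y : Module.End ℂ W, Y = (β ∘ₗ (1 - q)).smulRight (q a1) := ⟨_, rfl⟩
  have hXw : ∀ w, X w = ψ1 (q w) • u1 + ψ2 (q w) • u2 := fun w => by
    rw [hX]
    rfl
  have hYw : ∀ w, Y w = β ((1 - q) w) • q a1 := fun w => by
    rw [hY]
    rfl
  have hu10 : (1 - q) u1 = u1 := by
    rw [LinearMap.sub_apply, Module.End.one_apply, hqu1, sub_zero]
  have hu20 : (1 - q) u2 = u2 := by
    rw [LinearMap.sub_apply, Module.End.one_apply, hqu2, sub_zero]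
  have hv0 : ∀ a, (1 - q) (q a) = 0 := fun a => by
    rw [LinearMap.sub_apply, Module.End.one_apply, hqq, sub_self]
  have x1 : X (q a1) = u1 := by rw [hXw, hqq, h11, h21, one_smul, zero_smul, add_zero]
  have x2 : X (q a2) = u2 := by rw [hXw, hqq, h12, h22, one_smul, zero_smul, zero_add]
  have x3 : X u1 = 0 := by rw [hXw, hqu1, map_zero, map_zero, zero_smul, zero_smul, add_zero]
  have x4 : X u2 = 0 := by rw [hXw, hqu2, map_zero, map_zero, zero_smul, zero_smul, add_zero]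
  have y1 : Y u1 = q a1 := by rw [hYw, hu10, hβ1, one_smul]
  have y2 : Y u2 = 0 := by rw [hYw, hu20, hβ2, zero_smul]
  have yv : ∀ a, Y (q a) = 0 := fun a => by rw [hYw, hv0, map_zero, zero_smul]
  refine ⟨X, Y, ?_, ?_⟩
  · ext w
    simp only [ad, LinearMap.sub_apply, Module.End.mul_apply, LinearMap.neg_apply]
    rw [hXw, hXw, hqq, map_add, map_smul, map_smul, hqu1, hqu2, smul_zero, smul_zero, add_zero,
      zero_sub]
  · rintro ⟨c, hc⟩
    have e1 := LinearMap.congr_fun hc (q a1)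
    have e2 := LinearMap.congr_fun hc (q a2)
    simp only [ad, LinearMap.sub_apply, Module.End.mul_apply, LinearMap.smul_apply, x1, x2,
      x3, x4, y1, y2, yv, map_zero, zero_sub, sub_zero] at e1 e2
    have hu20' : u2 ≠ 0 := fun h => hb21 0 (by rw [h, zero_smul])
    have hu10' : u1 ≠ 0 := fun h => hb12 0 (by rw [h, zero_smul])
    have hc0 : c = 0 := by
      have h3 : c • u2 = 0 := by rw [← e2]
      exact (smul_eq_zero.1 h3).resolve_right hu20'
    rw [hc0, zero_smul] at e1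
    have h4 : (-2 : ℂ) • u1 = 0 := by
      rw [← e1]
      module
    rcases smul_eq_zero.1 h4 with h5 | h5
    · norm_num at h5
    · exact hu10' h5

end One

section Cov

variable {W : Type} [AddCommGroup W] [Module ℂ W] [FiniteDimensional ℂ W]

/-- an eigencovector -/
def LE (E : Module.End ℂ W) (b : ℂ) : Prop := ∃ ξ : Module.Dual ℂ W, ξ ≠ 0 ∧ ∀ x, ξ (E x) = b * ξ x

theorem exists_LE (E : Module.End ℂ W) (h2 : 2 ≤ finrank ℂ W) : ∃ b, LE E b := by
  have h0 : 0 < finrank ℂ (Module.Dual ℂ W) := by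
    rw [Subspace.dual_finrank_eq]
    omega
  have hn : Nontrivial (Module.Dual ℂ W) := Module.nontrivial_of_finrank_pos h0
  obtain ⟨b, hb⟩ := Module.End.exists_eigenvalue (K := ℂ) (V := Module.Dual ℂ W) E.dualMap
  obtain ⟨ξ, hξ⟩ := hb.exists_hasEigenvector
  refine ⟨b, ξ, hξ.2, fun x => ?_⟩
  have h1 := LinearMap.congr_fun hξ.apply_eq_smul x
  rw [LinearMap.dualMap_apply] at h1
  rw [h1]
  rfl

omit [FiniteDimensional ℂ W] in
/-- the cube of `E - b` -/
theorem cube {E : Module.End ℂ W} (h : ∀ X, ad E (ad E (ad E X)) = ad E X) {b : ℂ} (hb : LE E b) :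
    (E - b • 1) * ((E - b • 1) * (E - b • 1)) = E - b • 1 := by
  obtain ⟨ξ, hξ0, hξ⟩ := hb
  obtain ⟨F, hF⟩ : ∃ F, F = E - b • (1 : Module.End ℂ W) := ⟨_, rfl⟩
  rw [← hF]
  have hξF : ∀ x, ξ (F x) = 0 := fun x => by
    rw [hF, LinearMap.sub_apply, LinearMap.smul_apply, Module.End.one_apply, map_sub, map_smul, hξ,
      smul_eq_mul, sub_self]
  have h1 : ∀ X, ad F (ad F (ad F X)) = ad F X := fun X => by
    rw [hF]
    simp only [ad_shift]
    exact h X
  have h2 : ∀ u, ad F (ξ.smulRight u) = ξ.smulRight (F u) := fun u => by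
    ext w
    simp only [ad, LinearMap.sub_apply, Module.End.mul_apply, LinearMap.smulRight_apply, map_smul,
      hξF, zero_smul, sub_zero]
  obtain ⟨x0, hx0⟩ : ∃ x, ξ x ≠ 0 := by
    by_contra hc
    push Not at hc
    exact hξ0 (LinearMap.ext hc)
  ext u
  have h3 := h1 (ξ.smulRight u)
  rw [h2, h2, h2] at h3
  have h4 := LinearMap.congr_fun h3 x0
  rw [LinearMap.smulRight_apply, LinearMap.smulRight_apply] at h4
  exact smul_right_injective _ hx0 h4

/-- `E = a + q` -/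
theorem exists_q {E : Module.End ℂ W} (h : ∀ X, ad E (ad E (ad E X)) = ad E X)
    (h2 : 2 ≤ finrank ℂ W) : ∃ (a : ℂ) (q : Module.End ℂ W), q * q = q ∧ q = E - a • 1 := by
  obtain ⟨a, ha, ha1⟩ : ∃ a, LE E a ∧ ¬ LE E (a - 1) := by
    obtain ⟨b, hb⟩ := exists_LE E h2
    by_cases hb1 : LE E (b - 1)
    · refine ⟨b - 1, hb1, ?_⟩
      rintro ⟨η, hη0, hη⟩
      have hc := cube h hb
      obtain ⟨F, hF⟩ : ∃ F, F = E - b • (1 : Module.End ℂ W) := ⟨_, rfl⟩
      rw [← hF] at hc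
      have hηF : ∀ x, η (F x) = -2 * η x := fun x => by
        rw [hF, LinearMap.sub_apply, LinearMap.smul_apply, Module.End.one_apply, map_sub, map_smul,
          hη, smul_eq_mul]
        ring
      apply hη0
      ext x
      have h3 := congrArg η (LinearMap.congr_fun hc x)
      rw [Module.End.mul_apply, Module.End.mul_apply, hηF, hηF, hηF] at h3
      rw [LinearMap.zero_apply]
      linear_combination (-1 / 6) * h3
    · exact ⟨b, hb, hb1⟩
  refine ⟨a, E - a • 1, ?_, rfl⟩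
  have hc := cube h ha
  obtain ⟨F, hF⟩ : ∃ F, F = E - a • (1 : Module.End ℂ W) := ⟨_, rfl⟩
  rw [← hF] at hc ⊢
  have hs : LinearMap.range (F + 1) = ⊤ := by
    by_contra hne
    obtain ⟨ξ, hξ0, hξ⟩ := Submodule.exists_le_ker_of_lt_top _ (lt_top_iff_ne_top.2 hne)
    refine ha1 ⟨ξ, hξ0, fun x => ?_⟩
    have h3 : ξ ((F + 1) x) = 0 := LinearMap.mem_ker.1 (hξ (LinearMap.mem_range_self _ x))
    rw [hF, LinearMap.add_apply, LinearMap.sub_apply, LinearMap.smul_apply, Module.End.one_apply,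
      map_add, map_sub, map_smul, smul_eq_mul] at h3
    linear_combination h3
  have hz : (F * F - F) * (F + 1) = 0 := by
    have e1 : (F * F - F) * (F + 1) = F * (F * F) - F := by noncomm_ring
    rw [e1, hc, sub_self]
  have hz2 : F * F - F = 0 := by
    ext y
    obtain ⟨x, hx⟩ := LinearMap.range_eq_top.1 hs y
    rw [← hx, ← Module.End.mul_apply, hz]
    rfl
  exact sub_eq_zero.1 hz2

end Cov

section Two

variable {W W' : Type} [AddCommGroup W] [Module ℂ W] [AddCommGroup W'] [Module ℂ W']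

/-- the hypotheses on `P` -/
structure HP (P : Submodule ℂ (Module.End ℂ W × Module.End ℂ W')) : Prop where
  comm : ∀ x ∈ P, ∀ y ∈ P, (x.1 * y.1 - y.1 * x.1, x.2 * y.2 - y.2 * x.2) ∈ P
  tr : ∀ x ∈ P, LinearMap.trace ℂ W x.1 = 0 ∧ LinearMap.trace ℂ W' x.2 = 0
  on1 : ∀ X : Module.End ℂ W, LinearMap.trace ℂ W X = 0 → ∃ Y, (X, Y) ∈ P
  on2 : ∀ Y : Module.End ℂ W', LinearMap.trace ℂ W' Y = 0 → ∃ X, (X, Y) ∈ P
  z : ∀ x ∈ P, x.1 = 0 ↔ x.2 = 0

variable {P : Submodule ℂ (Module.End ℂ W × Module.End ℂ W')}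

theorem HP.adm (hP : HP P) {X X' : Module.End ℂ W} {Y Y' : Module.End ℂ W'} (h : (X, Y) ∈ P)
    (h' : (X', Y') ∈ P) : (ad X X', ad Y Y') ∈ P := hP.comm _ h _ h'

theorem HP.eq2 (hP : HP P) {X : Module.End ℂ W} {Y Y' : Module.End ℂ W'} (h : (X, Y) ∈ P)
    (h' : (X, Y') ∈ P) : Y = Y' := by
  have h1 := P.sub_mem h h'
  have h2 := (hP.z _ h1).1 (by simp)
  exact sub_eq_zero.1 h2

theorem HP.eq1 (hP : HP P) {X X' : Module.End ℂ W} {Y : Module.End ℂ W'} (h : (X, Y) ∈ P)
    (h' : (X', Y) ∈ P) : X = X' := by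
  have h1 := P.sub_mem h h'
  have h2 := (hP.z _ h1).2 (by simp)
  exact sub_eq_zero.1 h2

/-- a traceless operator plus a scalar -/
theorem traceless [FiniteDimensional ℂ W] (h2 : 2 ≤ finrank ℂ W) (X : Module.End ℂ W) :
    ∃ c : ℂ, LinearMap.trace ℂ W (X - c • 1) = 0 := by
  have h0 : (finrank ℂ W : ℂ) ≠ 0 := by
    have : finrank ℂ W ≠ 0 := by omega
    exact_mod_cast this
  refine ⟨LinearMap.trace ℂ W X / finrank ℂ W, ?_⟩
  rw [map_sub, map_smul, LinearMap.trace_one, smul_eq_mul, div_mul_cancel₀ _ h0, sub_self]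

variable [FiniteDimensional ℂ W] [FiniteDimensional ℂ W']

/-- the operator `E` is not a scalar -/
theorem HP.ns (hP : HP P) (h2 : 2 ≤ finrank ℂ W) (h2' : 2 ≤ finrank ℂ W') {φ : Module.Dual ℂ W}
    {v : W} (hφ : φ v = 1) {E : Module.End ℂ W'} {c : ℂ}
    (hE : ((φ.smulRight v : Module.End ℂ W) - c • 1, E) ∈ P) (s : ℂ) : E ≠ s • 1 := by
  intro hs
  have h0 : (finrank ℂ W' : ℂ) ≠ 0 := by
    have : finrank ℂ W' ≠ 0 := by omega
    exact_mod_cast this
  have ht := (hP.tr _ hE).2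
  have ht1 := (hP.tr _ hE).1
  simp only at ht ht1
  rw [hs, map_smul, LinearMap.trace_one, smul_eq_mul] at ht
  have hs0 : s = 0 := (mul_eq_zero.1 ht).resolve_right h0
  have hE0 : E = 0 := by rw [hs, hs0, zero_smul]
  have he := (hP.z _ hE).2 hE0
  simp only at he
  have hv := congrArg φ (LinearMap.congr_fun he v)
  rw [LinearMap.sub_apply, LinearMap.smulRight_apply, LinearMap.smul_apply, Module.End.one_apply,
    map_sub, map_smul, map_smul, hφ, LinearMap.zero_apply, map_zero, smul_eq_mul, smul_eq_mul,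
    mul_one, mul_one] at hv
  have hc : c = 1 := by linear_combination -hv
  rw [map_sub, map_smul, LinearMap.trace_one, LinearMap.trace_smulRight, hφ, hc, smul_eq_mul,
    one_mul] at ht1
  have h3 : (finrank ℂ W : ℂ) = 1 := by linear_combination -ht1
  have h4 : finrank ℂ W = 1 := by exact_mod_cast h3
  omega

omit [FiniteDimensional ℂ W] in
theorem HP.cub (hP : HP P) (h2' : 2 ≤ finrank ℂ W') {e : Module.End ℂ W} (he : e * e = e)
    {E : Module.End ℂ W'} {c : ℂ} (hE : (e - c • 1, E) ∈ P) (X : Module.End ℂ W') :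
    ad E (ad E (ad E X)) = ad E X := by
  obtain ⟨c', hc'⟩ := traceless h2' X
  obtain ⟨Z, hZ⟩ := hP.on2 _ hc'
  have h1 := hP.adm hE hZ
  have h3 := hP.adm hE (hP.adm hE h1)
  simp only [ad_shift, ad_shift2] at h1 h3
  rw [ad3 he] at h3
  exact hP.eq2 h3 h1

/-- the image of a rank one idempotent -/
theorem HP.split (hP : HP P) (h2 : 2 ≤ finrank ℂ W) (h2' : 2 ≤ finrank ℂ W') :
    ∃ (φ : Module.Dual ℂ W) (v : W) (q : Module.End ℂ W'), φ v = 1 ∧
      (∀ x ∈ P, (ad (φ.smulRight v) x.1, ad q x.2) ∈ P) ∧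
      ((∃ (φ' : Module.Dual ℂ W') (v' : W'), φ' v' = 1 ∧ q = φ'.smulRight v') ∨
        ∃ (φ' : Module.Dual ℂ W') (v' : W'), φ' v' = 1 ∧ 1 - q = φ'.smulRight v') := by
  have hn : Nontrivial W := Module.nontrivial_of_finrank_pos (R := ℂ) (by omega)
  obtain ⟨v, hv⟩ := exists_ne (0 : W)
  obtain ⟨φ, hφ⟩ := dual_one hv
  obtain ⟨c, hc⟩ := traceless h2 (φ.smulRight v)
  obtain ⟨E, hE⟩ := hP.on1 _ hc
  have he := smul_idem hφ
  obtain ⟨a, q, hq, hqE⟩ := exists_q (hP.cub h2' he hE) h2'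
  have hns := hP.ns h2 h2' hφ hE
  have hadq : ∀ X, ad E X = ad q X := fun X => by rw [hqE, ad_shift]
  have hst : ∀ x ∈ P, (ad (φ.smulRight v) x.1, ad q x.2) ∈ P := fun x hx => by
    have h1 := hP.adm hE hx
    rw [ad_shift, hadq] at h1
    exact h1
  refine ⟨φ, v, q, hφ, hst, ?_⟩
  by_cases hA : ∃ v, ∀ w, ∃ c : ℂ, q w = c • v
  · refine Or.inl (rank1 hq (fun h0 => hns a ?_) hA)
    rw [h0] at hqE
    exact (sub_eq_zero.1 hqE.symm)
  by_cases hB : ∃ v, ∀ w, ∃ c : ℂ, (1 - q) w = c • v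
  · refine Or.inr (rank1 ?_ (fun h0 => hns (a + 1) ?_) hB)
    · rw [sub_mul, one_mul, mul_sub, mul_one, hq, sub_self, sub_zero]
    · have h1 : q = 1 := (sub_eq_zero.1 h0).symm
      rw [h1] at hqE
      rw [add_smul, one_smul]
      rw [eq_sub_iff_add_eq] at hqE
      rw [← hqE, add_comm]
  exfalso
  obtain ⟨X, Y, hX, hXY⟩ := key2 hq hA hB
  have htX : LinearMap.trace ℂ W' X = 0 := by
    have h1 := congrArg (LinearMap.trace ℂ W') hX
    rw [ad, map_sub, map_neg, LinearMap.trace_mul_comm, sub_self] at h1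
    exact neg_eq_zero.1 h1.symm
  obtain ⟨c', hc'⟩ := traceless h2' Y
  obtain ⟨X0, hX0⟩ := hP.on2 X htX
  obtain ⟨Y0, hY0⟩ := hP.on2 _ hc'
  have h1 := hst _ hX0
  simp only at h1
  rw [hX] at h1
  have h3 : ad (φ.smulRight v) X0 = -X0 := hP.eq1 h1 (P.neg_mem hX0)
  obtain ⟨k, hk⟩ := key1 X0 Y0 h3 hφ
  have h4 := hP.adm (hP.adm hY0 hX0) hX0
  rw [hk, ad_shift] at h4
  exact hXY ⟨k, hP.eq2 h4 (P.smul_mem k hX0)⟩

/-- the contragredient -/
def PD (P : Submodule ℂ (Module.End ℂ W × Module.End ℂ W')) :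
    Submodule ℂ (Module.End ℂ W × Module.End ℂ (Module.Dual ℂ W')) :=
  P.map (LinearMap.prodMap LinearMap.id (-(Module.Dual.transpose (R := ℂ) (M := W') (M' := W'))))

omit [FiniteDimensional ℂ W] [FiniteDimensional ℂ W'] in
theorem mem_PD {x : Module.End ℂ W × Module.End ℂ W'} (hx : x ∈ P) :
    (x.1, -(LinearMap.dualMap x.2)) ∈ PD P := ⟨x, hx, rfl⟩

omit [FiniteDimensional ℂ W] [FiniteDimensional ℂ W'] in
theorem of_PD {x : Module.End ℂ W × Module.End ℂ (Module.Dual ℂ W')} (hx : x ∈ PD P) :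
    ∃ y ∈ P, x = (y.1, -(LinearMap.dualMap y.2)) := by
  obtain ⟨y, hy, rfl⟩ := hx
  exact ⟨y, hy, rfl⟩

theorem trace_dual (Y : Module.End ℂ W') :
    LinearMap.trace ℂ (Module.Dual ℂ W') (LinearMap.dualMap Y) = LinearMap.trace ℂ W' Y :=
  LinearMap.trace_transpose' Y

theorem exists_dual (Y : Module.End ℂ (Module.Dual ℂ W')) :
    ∃ Z : Module.End ℂ W', LinearMap.dualMap Z = Y := by
  refine ⟨(Module.evalEquiv ℂ W').symm.toLinearMap ∘ₗ LinearMap.dualMap Y ∘ₗ
    (Module.evalEquiv ℂ W').toLinearMap, ?_⟩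
  ext η z
  rw [LinearMap.dualMap_apply, LinearMap.comp_apply, LinearMap.comp_apply]
  obtain ⟨z', hz'⟩ : ∃ z', z' = (Module.evalEquiv ℂ W').symm.toLinearMap ((LinearMap.dualMap Y)
    ((Module.evalEquiv ℂ W').toLinearMap z)) := ⟨_, rfl⟩
  rw [← hz']
  have h1 : Module.evalEquiv ℂ W' z' = (LinearMap.dualMap Y) (Module.evalEquiv ℂ W' z) := by
    rw [hz']
    exact (Module.evalEquiv ℂ W').apply_symm_apply _
  have h2 := LinearMap.congr_fun h1 η
  rw [LinearMap.dualMap_apply] at h2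
  exact h2

end Two

end IntG_aux

open IntG_aux

theorem tIntG : S_IntG := by
  intro hInt W W' _ _ _ _ _ _ P h2 h2' hcomm htr hon1 hon2 hz
  have hP : HP P := ⟨hcomm, htr, hon1, hon2, hz⟩
  obtain ⟨φ, v, q, hφ, hst, h | h⟩ := hP.split h2 h2'
  · obtain ⟨φ', v', hφ', rfl⟩ := h
    exact Or.inl (hInt W W' P φ v φ' v' hφ hφ' hcomm hst htr hon1 hon2 hz)
  · obtain ⟨ξ, w, hw, hq⟩ := h
    right
    have hqz : ∀ z, q z = z - ξ z • w := fun z => by
      have h1 := LinearMap.congr_fun hq z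
      rw [LinearMap.sub_apply, Module.End.one_apply, LinearMap.smulRight_apply] at h1
      rw [← h1, sub_sub_cancel]
    have e1 : ∀ x ∈ PD P, ∀ y ∈ PD P, (x.1 * y.1 - y.1 * x.1, x.2 * y.2 - y.2 * x.2) ∈ PD P := by
      intro x hx y hy
      obtain ⟨a, ha, rfl⟩ := of_PD hx
      obtain ⟨b, hb, rfl⟩ := of_PD hy
      have h1 := mem_PD (hP.comm a ha b hb)
      have h3 : (-(LinearMap.dualMap a.2)) * (-(LinearMap.dualMap b.2)) -
          (-(LinearMap.dualMap b.2)) * (-(LinearMap.dualMap a.2)) =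
          -(LinearMap.dualMap (a.2 * b.2 - b.2 * a.2)) := by
        ext η z
        simp only [LinearMap.sub_apply, Module.End.mul_apply, LinearMap.neg_apply,
          LinearMap.dualMap_apply, map_neg, map_sub]
        ring
      simp only
      rw [h3]
      exact h1
    have e2 : ∀ x ∈ PD P, ((φ.smulRight v : Module.End ℂ W) * x.1 -
        x.1 * (φ.smulRight v : Module.End ℂ W),
        ((Module.Dual.eval ℂ W' w).smulRight ξ : Module.End ℂ (Module.Dual ℂ W')) * x.2 -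
        x.2 * ((Module.Dual.eval ℂ W' w).smulRight ξ : Module.End ℂ (Module.Dual ℂ W'))) ∈
          PD P := by
      intro x hx
      obtain ⟨a, ha, rfl⟩ := of_PD hx
      have h1 := mem_PD (hst a ha)
      have h3 : ((Module.Dual.eval ℂ W' w).smulRight ξ : Module.End ℂ (Module.Dual ℂ W')) *
          (-(LinearMap.dualMap a.2)) - (-(LinearMap.dualMap a.2)) *
          ((Module.Dual.eval ℂ W' w).smulRight ξ : Module.End ℂ (Module.Dual ℂ W')) =
          -(LinearMap.dualMap (ad q a.2)) := by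
        ext η z
        simp only [ad, LinearMap.sub_apply, Module.End.mul_apply, LinearMap.neg_apply,
          LinearMap.dualMap_apply, map_neg, map_sub, LinearMap.smulRight_apply,
          Module.Dual.eval_apply, LinearMap.smul_apply, hqz, map_smul, smul_eq_mul]
        ring
      simp only
      rw [h3]
      exact h1
    have e3 : ∀ x ∈ PD P, LinearMap.trace ℂ W x.1 = 0 ∧
        LinearMap.trace ℂ (Module.Dual ℂ W') x.2 = 0 := by
      intro x hx
      obtain ⟨a, ha, rfl⟩ := of_PD hx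
      refine ⟨(htr a ha).1, ?_⟩
      simp only
      rw [map_neg, trace_dual, (htr a ha).2, neg_zero]
    have e4 : ∀ X : Module.End ℂ W, LinearMap.trace ℂ W X = 0 → ∃ Y, (X, Y) ∈ PD P := by
      intro X hX
      obtain ⟨Y, hY⟩ := hon1 X hX
      exact ⟨_, mem_PD hY⟩
    have e5 : ∀ Y : Module.End ℂ (Module.Dual ℂ W'), LinearMap.trace ℂ (Module.Dual ℂ W') Y = 0 →
        ∃ X, (X, Y) ∈ PD P := by
      intro Y hY
      obtain ⟨Z, rfl⟩ := exists_dual Y
      rw [trace_dual] at hY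
      obtain ⟨X, hX⟩ := hon2 (-Z) (by rw [map_neg, hY, neg_zero])
      have h1 := mem_PD hX
      have h3 : -(LinearMap.dualMap (-Z)) = LinearMap.dualMap Z := by
        ext η z
        simp only [LinearMap.neg_apply, LinearMap.dualMap_apply, map_neg, neg_neg]
      simp only at h1
      rw [h3] at h1
      exact ⟨X, h1⟩
    have e6 : ∀ x ∈ PD P, x.1 = 0 ↔ x.2 = 0 := by
      intro x hx
      obtain ⟨a, ha, rfl⟩ := of_PD hx
      simp only
      rw [hz a ha]
      constructor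
      · intro h0
        rw [h0]
        ext η z
        simp only [LinearMap.neg_apply, LinearMap.dualMap_apply, LinearMap.zero_apply, map_zero,
          neg_zero]
      · intro h0
        ext z
        rw [LinearMap.zero_apply, ← Module.forall_dual_apply_eq_zero_iff ℂ]
        intro η
        have h3 := LinearMap.congr_fun (LinearMap.congr_fun h0 η) z
        rw [LinearMap.neg_apply, LinearMap.neg_apply, LinearMap.dualMap_apply] at h3
        exact neg_eq_zero.1 h3
    obtain ⟨θ, hθ⟩ := hInt W (Module.Dual ℂ W') (PD P) φ v (Module.Dual.eval ℂ W' w) ξ hφ hw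
      e1 e2 e3 e4 e5 e6
    refine ⟨θ, fun x hx y y' => ?_⟩
    have h1 := hθ _ (mem_PD hx) y
    rw [h1]
    rfl

end SEQ
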