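import Pool.Agent.Lib.SE.Q.SpecB
import Pool.Agent.Lib.SE.Big.Bas
import Pool.Agent.Lib.SE.Big.Pj
import Pool.Agent.Lib.SE.Big.Dim

/-! # PROJECT SE-Q, part B, module TrJ: the trace of the multiplication by `i` on an eigenspace -/

set_option autoImplicit false

open Module

noncomputable section

namespace SEQ

open HC HC.E HC.SE SEB

namespace TrJ_aux

open SEB.Dim_aux

variable {T : AV} {m : ℕ}

theorem trace_proj {W : Type} [AddCommGroup W] [Module ℂ W] [FiniteDimensional ℂ W]
    (p : Submodule ℂ W) (P : Module.End ℂ W) (h1 : ∀ a, P a ∈ p) (h2 : ∀ a ∈ p, P a = a) :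
    LinearMap.trace ℂ W P = (finrank ℂ p : ℂ) :=
  LinearMap.IsProj.trace ⟨h1, h2⟩

theorem fr (D : Cyc T m) (s : (ZMod m)ˣ) (U : Submodule ℂ (Frm T)) (hU : U ≤ Ws D s) :
    finrank ℂ (U.comap (Ws D s).subtype) = finrank ℂ U :=
  (Submodule.comapSubtypeEquivOfLe hU).finrank_eq

end TrJ_aux

open TrJ_aux in
theorem tTrJ : S_TrJ := by
  intro T m D hm s A hA
  obtain ⟨-, -, -, -, hC⟩ := tBas tPj T m D hm
  have hpJ : ∀ (a : Ws D s) v, (A a : Frm T) v = (a : Frm T) (Complex.I • v) := fun a v => by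
    rw [← hA a]
    rfl
  have hAA : ∀ a, A (A a) = -a := by
    intro a
    refine Subtype.ext (LinearMap.ext fun v => ?_)
    rw [hpJ, hpJ, smul_smul, Complex.I_mul_I, neg_smul, one_smul, map_neg]
    rfl
  refine ⟨?_, LinearMap.ext fun a => ?_⟩
  swap
  · rw [Module.End.mul_apply, hAA]
    rfl
  have le10 : Ws10 D s ≤ Ws D s := fun a ha => ha.1
  have le01 : SEB.Dim_aux.Ws01 D s ≤ Ws D s := fun a ha => ha.1
  set P : Module.End ℂ (Ws D s) := (2 : ℂ)⁻¹ • (1 - Complex.I • A) with hP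
  set Q : Module.End ℂ (Ws D s) := (2 : ℂ)⁻¹ • (1 + Complex.I • A) with hQ
  have hPa : ∀ a, P a = (2 : ℂ)⁻¹ • (a - Complex.I • A a) := fun a => rfl
  have hQa : ∀ a, Q a = (2 : ℂ)⁻¹ • (a + Complex.I • A a) := fun a => rfl
  have hAP : ∀ a, A (P a) = Complex.I • P a := by
    intro a
    rw [hPa, map_smul, map_sub, map_smul, hAA]
    rw [smul_comm Complex.I]
    congr 1
    rw [smul_sub, smul_smul, Complex.I_mul_I]
    module
  have hAQ : ∀ a, A (Q a) = -Complex.I • Q a := by
    intro a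
    rw [hQa, map_smul, map_add, map_smul, hAA]
    rw [smul_comm (-Complex.I)]
    congr 1
    rw [smul_add, smul_smul, neg_mul, Complex.I_mul_I]
    module
  have hPm : ∀ a, P a ∈ (Ws10 D s).comap (Ws D s).subtype := by
    intro a
    refine ⟨(P a).2, fun v => ?_⟩
    have h := congrArg (fun b : Ws D s => (b : Frm T) v) (hAP a)
    simp only [hpJ] at h
    exact h
  have hQm : ∀ a, Q a ∈ (SEB.Dim_aux.Ws01 D s).comap (Ws D s).subtype := by
    intro a
    refine ⟨(Q a).2, fun v => ?_⟩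
    have h := congrArg (fun b : Ws D s => (b : Frm T) v) (hAQ a)
    simp only [hpJ] at h
    exact h
  have hPi : ∀ a ∈ (Ws10 D s).comap (Ws D s).subtype, P a = a := by
    intro a ha
    have h1 : A a = Complex.I • a := by
      refine Subtype.ext (LinearMap.ext fun v => ?_)
      rw [hpJ]
      exact ha.2 v
    rw [hPa, h1, smul_smul, Complex.I_mul_I]
    module
  have hQi : ∀ a ∈ (SEB.Dim_aux.Ws01 D s).comap (Ws D s).subtype, Q a = a := by
    intro a ha
    have h1 : A a = -Complex.I • a := by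
      refine Subtype.ext (LinearMap.ext fun v => ?_)
      rw [hpJ]
      exact ha.2 v
    rw [hQa, h1, smul_smul, mul_neg, Complex.I_mul_I]
    module
  have tP := trace_proj _ P hPm hPi
  have tQ := trace_proj _ Q hQm hQi
  rw [fr D s _ le10] at tP
  rw [fr D s _ le01, SEB.Dim_aux.finrank10 D hC s] at tQ
  have hsum : A = Complex.I • P - Complex.I • Q := by
    refine LinearMap.ext fun a => ?_
    have e0 : (Complex.I • P - Complex.I • Q) a = Complex.I • P a - Complex.I • Q a := rfl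
    rw [e0, hPa, hQa]
    have h2 : (A a) = -(Complex.I * Complex.I) • A a := by
      rw [Complex.I_mul_I, neg_neg, one_smul]
    conv_lhs => rw [h2]
    module
  have e1 : LinearMap.trace ℂ (Ws D s) (Complex.I • P - Complex.I • Q) =
      Complex.I • LinearMap.trace ℂ (Ws D s) P - Complex.I • LinearMap.trace ℂ (Ws D s) Q :=
    (map_sub (LinearMap.trace ℂ (Ws D s)) _ _).trans
      (congrArg₂ (· - ·) (map_smul (LinearMap.trace ℂ (Ws D s)) _ _)
        (map_smul (LinearMap.trace ℂ (Ws D s)) _ _))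
  rw [hsum, e1, tP, tQ, smul_eq_mul, smul_eq_mul, ← mul_sub]
  rfl

end SEQ
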