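import Pool.Agent.Lib.SE.Q.SpecD
import Pool.Agent.Lib.SE.Big.Main
import Pool.Agent.Lib.SE.P.Pp
import Pool.Agent.Lib.SE.P.N1

/-!
# PROJECT SE-Q, module Gg: the explicit class
-/

set_option autoImplicit false

open Module

noncomputable section

namespace SEQ

open HC HC.E HC.SE SEB SE

namespace Gg_aux

/-- Picard type. -/
theorem pic {G : AV} {m : ℕ} {Z : Module.End ℂ G.V} (hP : IsPic G m Z)
    (h3 : 3 ≤ finrank ℂ G.V) (hE : EndQ G Z) :
    ∃ D : Cyc G m, GF1 D (finrank ℂ G.V) ∧ Kd D (finrank ℂ G.V) ∧ IsPic G m D.Z := by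
  have hm : m = 3 ∨ m = 4 := hP.dim.imp And.left And.left
  obtain ⟨D, hD⟩ := tAvg G m (by omega) Z hP.lat hP.cyc
  subst hD
  have htot : Nat.totient m = 2 := by
    rcases hm with rfl | rfl <;> decide
  obtain ⟨z, hz⟩ := hP.one
  exact ⟨D, good_end mods tIrrZ D (by omega) (by omega) (by rw [htot, mul_comm])
    (SEP.tPp G m D (by omega) z hz) (endZ_of_endQ D hE) (SEP.tApm G m D hm),
    Or.inl ⟨hm, h3⟩, hP⟩

/-- New Jacobians. -/
theorem new {G : AV} {p r : ℕ} {s : Fin (r + 1) → ℂ} (N : New G p s fun _ => 1) (hp : p.Prime)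
    (hr : 2 ≤ r) (hrp : r + 1 < p) (hs : Function.Injective s)
    (hc : r = 2 ∨ EndQ G N.Z ∨
      ∃ t : Fin (r + 1) → ℝ, StrictMono t ∧ t ∉ M₀ p r ∧ s = fun j => (t j : ℂ)) :
    IsCM G ∨ ∃ D : Cyc G p, GF1 D r ∧ Kd D r ∧ D.Z = N.Z := by
  have hcov : IsCov p s (fun _ => 1) := isCov_one hp hr hrp hs
  obtain ⟨D, hD⟩ := tAvg G p (by omega) N.Z N.lat N.cyc
  have h5 : 5 ≤ p := by
    have h4 : 4 ≤ p := by omega
    rcases Nat.lt_or_ge p 5 with h | h
    · have h6 : p = 4 := by omega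
      rw [h6] at hp
      exact absurd hp (by decide)
    · exact h
  have hm : 3 ≤ p := by omega
  have hsg : ∀ u : (ZMod p)ˣ, D.p u = sg p r (fun _ => 1) (u : ZMod p).val :=
    tPnew tSg mods.Bas G p r s (fun _ => 1) hcov N D hD
  obtain ⟨hap, u, hup, huc, hu1⟩ := tPr p r hp hr hrp
  obtain ⟨v, hv⟩ := exists_unit hup huc
  have hone : ∃ s, D.p s = 1 := ⟨v, by rw [hsg, hv, hu1]⟩
  have hA : Aper D := tAp G p r D (fun _ => 1) hm hsg hap
  have hK : Kd D r := Or.inr ⟨hp, h5, hsg⟩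
  have hend : EndZ D → ∃ D : Cyc G p, GF1 D r ∧ Kd D r ∧ D.Z = N.Z := fun hE =>
    ⟨D, good_end mods tIrrZ D hm hr N.dim hone hE hA, hK, hD⟩
  rcases hc with h2 | hE | ⟨t, ht, htM, hst⟩
  · subst h2
    have hd : finrank ℂ G.V = Nat.totient p := by
      have := N.dim
      omega
    rcases good_two mods tA1 (tA2 tHm) tA3 tA4 D hm hd hone hA with h | h
    · exact Or.inl h
    · exact Or.inr ⟨D, h, hK, hD⟩
  · rw [← hD] at hE
    exact Or.inr (hend (endZ_of_endQ D hE))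
  · subst hst
    have h6 : ∀ (T : AV) (_ : IsCov p (fun j => (t j : ℂ)) fun _ => 1)
        (N : New T p (fun j => (t j : ℂ)) fun _ => 1) (D : Cyc T p), D.Z = N.Z → EndZ D := by
      by_contra h
      exact htM ⟨hp, hr, hrp, ht, h⟩
    exact Or.inr (hend (h6 G hcov N D hD))

end Gg_aux

open Gg_aux in
/-- Module Gg: the explicit class. -/
theorem tGg : S_Gg := by
  intro G hG
  rcases hG with ⟨m, Z, hP, h3, hE⟩ | ⟨p, r, s, N, hp, hr, hrp, hs, hc⟩
  · obtain ⟨D, h1, h2, h4⟩ := pic hP h3 hE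
    exact Or.inr ⟨m, finrank ℂ G.V, D, h1, h2, Or.inl h4⟩
  · rcases new N hp hr hrp hs hc with h | ⟨D, h1, h2, h4⟩
    · exact Or.inl h
    · exact Or.inr ⟨p, r, D, h1, h2, Or.inr ⟨s, N, h4.symm, isCov_one hp hr hrp hs⟩⟩

end SEQ
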