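import Pool.Agent.Lib.SE.Q.SpecD
import Pool.Agent.Lib.SE.W.Lie
import Pool.Agent.Lib.SE.Big.ToBig

/-!
# PROJECT SE-Q, module LiR: the Lie algebra step, relative version
-/

set_option autoImplicit false

open Module

noncomputable section

namespace SEQ

open HC HC.E HC.SE SEB SE

namespace LiR_aux

theorem zero_lef {T : AV} {m : ℕ} (D : Cyc T m) : (0 : Module.End ℝ T.V) ∈ Lef T D.Z D.ψ := by
  refine ⟨fun v => ?_, fun u v => ?_⟩
  · rw [LinearMap.zero_apply, LinearMap.zero_apply, map_zero]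
  · rw [LinearMap.zero_apply, LinearMap.zero_apply, map_zero, map_zero, LinearMap.zero_apply,
      add_zero]

/-- Commutators of elements of the Lie algebra of one factor. -/
def CL {T : AV} {m : ℕ} (D : Cyc T m) : Submodule ℝ (Module.End ℝ T.V) :=
  Submodule.span ℝ {X | ∃ P ∈ Lef T D.Z D.ψ, ∃ Q ∈ Lef T D.Z D.ψ, X = P * Q - Q * P}

theorem span_comp {q : ℕ} {J : Fin q → AV} {m : Fin q → ℕ} {D : ∀ i, Cyc (J i) (m i)}
    {h : Set (Tup J)} (hh : HLieT D h) (i : Fin q) :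
    ∀ W ∈ Submodule.span ℝ (ComT h), W i ∈ CL (D i) := by
  intro W hW
  have h1 : Submodule.span ℝ (ComT h) ≤
      (CL (D i)).comap (LinearMap.proj (R := ℝ) (φ := fun i => Module.End ℝ (J i).V) i) := by
    refine Submodule.span_le.2 ?_
    rintro _ ⟨X, hX, X', hX', rfl⟩
    exact Submodule.subset_span ⟨X i, hh.u X hX i, X' i, hh.u X' hX' i, rfl⟩
  exact h1 hW

theorem single_mul {q : ℕ} {J : Fin q → AV} (i : Fin q) (P Q : Module.End ℝ (J i).V) :
    (Pi.single i (P * Q - Q * P) : Tup J) =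
      Pi.single i P * Pi.single i Q - Pi.single i Q * Pi.single i P := by
  funext k
  by_cases hk : k = i
  · subst hk
    simp only [Pi.sub_apply, Pi.mul_apply, Pi.single_eq_same]
  · simp only [Pi.sub_apply, Pi.mul_apply, Pi.single_eq_of_ne hk, mul_zero, sub_self]

end LiR_aux

open LiR_aux SE.Lie_aux

theorem tLiR : S_LiR := by
  intro hHlT hLa hLa' hLb hLc1 hLc2 hIso A T q N J m D j S ψ hA hBig hψ d c hc hS P Q hP hQ W hW
  -- the inverse isogeny
  have hi : ∀ w : A.V × (∀ n, (J (j n)).V), w.1 ∈ A.L → (∀ n, w.2 n ∈ (J (j n)).L) →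
      ∃ k : ℕ, k ≠ 0 ∧ k • ψ.symm w ∈ T.L := by
    obtain ⟨Y, θ, hθ⟩ := prodE N A (fun n => J (j n))
    have h1 := hIso T Y (ψ ≪≫ₗ θ.symm) (fun v hv => by
      obtain ⟨k, hk, h2, h3⟩ := hψ v hv
      refine ⟨k, hk, ?_⟩
      rw [hθ]
      show (θ (k • θ.symm (ψ v))).1 ∈ A.L ∧ ∀ n, (θ (k • θ.symm (ψ v))).2 n ∈ (J (j n)).L
      rw [map_nsmul, LinearEquiv.apply_symm_apply]
      exact ⟨h2, h3⟩)
    intro w h2 h3
    obtain ⟨k, hk, h4⟩ := h1 (θ.symm w) (by
      rw [hθ, LinearEquiv.apply_symm_apply]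
      exact ⟨h2, h3⟩)
    refine ⟨k, hk, ?_⟩
    have h5 : (ψ ≪≫ₗ θ.symm).symm (θ.symm w) = ψ.symm w := by
      show ψ.symm (θ (θ.symm w)) = ψ.symm w
      rw [LinearEquiv.apply_symm_apply]
    rw [h5] at h4
    exact h4
  -- the commuting rational endomorphisms of `A`
  obtain ⟨MA, hMr, hMc, hMs⟩ := hLc2 A hA
  let C : Subalgebra ℝ (Module.End ℝ A.V) := Subalgebra.centralizer ℝ (Set.centralizer MA)
  have hMC : ∀ X ∈ MA, X ∈ C := fun X hX =>
    Subalgebra.mem_centralizer_iff ℝ |>.2 fun g hg => (hg X hX).symm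
  have hCc : ∀ X ∈ C, ∀ X' ∈ C, X * X' = X' * X := by
    intro X hX X' hX'
    have h3 : X ∈ Set.centralizer MA := by
      intro g hg
      exact (Subalgebra.mem_centralizer_iff ℝ).1 hX g fun k hk => hMc k hk g hg
    exact (Subalgebra.mem_centralizer_iff ℝ).1 hX' X h3
  -- the rational endomorphisms
  let M : Set (Module.End ℝ T.V) := {Z | (∃ X ∈ MA, Z = EE ψ X 0) ∨
    ∃ P : ∀ i, Module.End ℝ (J i).V, (∀ i, RatEnd (J i) (P i)) ∧ Z = EE ψ 0 P}
  have hMr' : ∀ Z ∈ M, RatEnd T Z := by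
    rintro Z (⟨X, hX, rfl⟩ | ⟨P, hP, rfl⟩)
    · exact rat_EE ψ hψ hi (hMr X hX) fun i => rat_zero
    · exact rat_EE ψ hψ hi rat_zero hP
  have hsp : ∀ i, ∀ K : Submodule ℝ (∀ i, Module.End ℝ (J i).V),
      (∀ X : Module.End ℝ (J i).V, RatEnd (J i) X → Pi.single i X ∈ K) →
      ∀ X ∈ Submodule.span ℝ {X | RatEnd (J i) X}, Pi.single i X ∈ K := by
    intro i K hK X hX
    have h1 : Submodule.span ℝ {X | RatEnd (J i) X} ≤
        K.comap (LinearMap.single ℝ (fun i => Module.End ℝ (J i).V) i) :=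
      Submodule.span_le.2 fun X hX => hK X hX
    exact h1 hX
  have hJ : mulI T ∈ Submodule.span ℝ M := by
    have e1 : mulI T = EE ψ (mulI A) 0 + EE ψ 0 (fun i => mulI (J i)) := by
      rw [← EE_add, add_zero, zero_add, EE_mulI]
    have e2 : Submodule.span ℝ MA ≤
        (Submodule.span ℝ M).comap (EL ψ ∘ₗ LinearMap.inl ℝ _ _) := by
      refine Submodule.span_le.2 fun X hX => ?_
      exact Submodule.subset_span (Or.inl ⟨X, hX, rfl⟩)
    have e3 : ∀ i, Pi.single i (mulI (J i)) ∈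
        (Submodule.span ℝ M).comap (EL ψ ∘ₗ LinearMap.inr ℝ (Module.End ℝ A.V) _) := by
      intro i
      refine hsp i _ (fun X hX => ?_) _ (hLc1 (J i))
      refine Submodule.subset_span (Or.inr ⟨Pi.single i X, fun i' => ?_, rfl⟩)
      by_cases h : i' = i
      · subst h
        rw [Pi.single_eq_same]
        exact hX
      · rw [Pi.single_eq_of_ne h]
        exact rat_zero
    have e4 : (fun i => mulI (J i)) ∈
        (Submodule.span ℝ M).comap (EL ψ ∘ₗ LinearMap.inr ℝ (Module.End ℝ A.V) _) := by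
      rw [← Finset.univ_sum_single (fun i => mulI (J i))]
      exact Submodule.sum_mem _ fun i _ => e3 i
    rw [e1]
    exact Submodule.add_mem _ (e2 hMs) e4
  obtain ⟨n, ρ, Z, hZJ, hZr, hZM, hZc⟩ := hLb T (mulI T) M hMr' hJ
  have hZk : ∀ s, Z s ∈ HC.Lc3.kill c := fun s => hZc d c hc.1 (hLa T d c hc) s
  -- the components
  have hZE : ∀ s, ∃ X ∈ C, ∃ P : ∀ i, Module.End ℝ (J i).V, (∀ i, RatEnd (J i) (P i)) ∧
      Z s = EE ψ X P := by
    intro s
    refine AddSubgroup.closure_induction (p := fun Z _ => ∃ X ∈ C,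
      ∃ P : ∀ i, Module.End ℝ (J i).V, (∀ i, RatEnd (J i) (P i)) ∧ Z = EE ψ X P)
      ?_ ?_ ?_ ?_ (hZM s)
    · rintro _ ⟨W, (⟨X, hX, rfl⟩ | ⟨P, hP, rfl⟩), q, rfl⟩
      · refine ⟨(q : ℝ) • X, C.smul_mem (hMC X hX) _, (q : ℝ) • 0,
          fun i => rat_qsmul rat_zero q, ?_⟩
        rw [EE_smul]
      · refine ⟨(q : ℝ) • 0, C.smul_mem C.zero_mem _, (q : ℝ) • P,
          fun i => rat_qsmul (hP i) q, ?_⟩
        rw [EE_smul]
    · exact ⟨0, C.zero_mem, 0, fun i => rat_zero, (map_zero (EL ψ)).symm⟩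
    · rintro _ _ _ _ ⟨X, hX, P, hP, rfl⟩ ⟨X', hX', P', hP', rfl⟩
      exact ⟨X + X', C.add_mem hX hX', P + P', fun i => rat_add (hP i) (hP' i),
        (EE_add ψ X X' P P').symm⟩
    · rintro _ _ ⟨X, hX, P, hP, rfl⟩
      exact ⟨-X, C.neg_mem hX, -P, fun i => rat_neg (hP i), (map_neg (EL ψ) (X, P)).symm⟩
  choose X hXC Y hYr hXY using hZE
  -- the Lie algebra
  let h : Set (∀ i, Module.End ℝ (J i).V) :=
    {P | (∀ i, RatEnd (J i) (P i)) ∧ ∃ X ∈ C, EE ψ X P ∈ HC.Lc3.kill c}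
  have hbr : ∀ {X X' : Module.End ℝ A.V} {P P' : ∀ i, Module.End ℝ (J i).V}, X ∈ C → X' ∈ C →
      EE ψ X P ∈ HC.Lc3.kill c → EE ψ X' P' ∈ HC.Lc3.kill c →
      EE ψ 0 (P * P' - P' * P) ∈ HC.Lc3.kill c := by
    intro X X' P P' hX hX' h3 h4
    have h5 := hLa' T d c _ _ h3 h4
    have h6 : EE ψ X P * EE ψ X' P' - EE ψ X' P' * EE ψ X P = EE ψ 0 (P * P' - P' * P) := by
      rw [← EE_mul, ← EE_mul, ← EL_apply, ← EL_apply, ← map_sub]
      show EE ψ (X * X' - X' * X) (P * P' - P' * P) = _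
      rw [hCc X hX X' hX', sub_self]
    rw [h6] at h5
    exact h5
  have hh1 : ∀ P ∈ h, ∀ i, RatEnd (J i) (P i) := fun P hP => hP.1
  have hh2 : ∀ P ∈ h, ∀ P' ∈ h, P * P' - P' * P ∈ h := by
    rintro P ⟨hP, X, hX, h3⟩ P' ⟨hP', X', hX', h4⟩
    exact ⟨fun i => HC.Lc3.rat_bracket (hP i) (hP' i), 0, C.zero_mem, hbr hX hX' h3 h4⟩
  have hYs : ∀ s, Y s ∈ h := by
    intro s
    refine ⟨hYr s, X s, hXC s, ?_⟩
    rw [← hXY s]
    exact hZk s
  have hJB : ∀ k, mulI (J (j k)) = (∑ s, ρ s • Y s) (j k) := by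
    have h3 : EE ψ (mulI A) (fun i => mulI (J i)) =
        EE ψ (∑ s, ρ s • X s) (∑ s, ρ s • Y s) := by
      rw [EE_mulI, hZJ]
      have h4 : (∑ s, ρ s • X s, ∑ s, ρ s • Y s) = ∑ s, ρ s • (X s, Y s) := by
        refine Prod.ext ?_ ?_
        · rw [Prod.fst_sum]
          rfl
        · rw [Prod.snd_sum]
          rfl
      rw [← EL_apply, h4, map_sum]
      refine Finset.sum_congr rfl fun s _ => ?_
      rw [map_smul, EL_apply, hXY s]
    exact fun k => EE_inj ψ h3 k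
  have hh3 : (fun i => mulI (J i)) ∈ Submodule.span ℝ h := by
    have h0 : (∑ s, ρ s • Y s) ∈ Submodule.span ℝ h :=
      Submodule.sum_mem _ fun s _ => Submodule.smul_mem _ _ (Submodule.subset_span (hYs s))
    have h1 : (fun i => mulI (J i)) - (∑ s, ρ s • Y s) ∈ Submodule.span ℝ h := by
      rw [← Finset.univ_sum_single ((fun i => mulI (J i)) - (∑ s, ρ s • Y s))]
      refine Submodule.sum_mem _ fun i _ => ?_
      by_cases hij : ∃ k, j k = i
      · obtain ⟨k, rfl⟩ := hij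
        have h2 : ((fun i => mulI (J i)) - (∑ s, ρ s • Y s)) (j k) = 0 := by
          show mulI (J (j k)) - (∑ s, ρ s • Y s) (j k) = 0
          rw [hJB k, sub_self]
        rw [h2, Pi.single_zero]
        exact Submodule.zero_mem _
      · have hij' : ∀ k, j k ≠ i := fun k hk => hij ⟨k, hk⟩
        refine hsp i _ (fun X hX => ?_) _ ?_
        · refine Submodule.subset_span ⟨fun i' => ?_, 0, C.zero_mem, ?_⟩
          · by_cases h : i' = i
            · subst h
              rw [Pi.single_eq_same]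
              exact hX
            · rw [Pi.single_eq_of_ne h]
              exact rat_zero
          · rw [EE_single ψ hij']
            exact Submodule.zero_mem _
        · show mulI (J i) - (∑ s, ρ s • Y s) i ∈ _
          refine Submodule.sub_mem _ (hLc1 (J i)) ?_
          rw [Finset.sum_apply]
          exact Submodule.sum_mem _ fun s _ => Submodule.smul_mem _ _
            (Submodule.subset_span (hYr s i))
    have h2 := Submodule.add_mem _ h1 h0
    rw [sub_add_cancel] at h2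
    exact h2
  obtain ⟨h', hh', hcc⟩ := hHlT q J m D h hh1 hh2 hh3
  obtain ⟨U, hU, hUS⟩ := hBig h' hh' (P * Q - Q * P) fun i _ => ToBig_aux.isSU_comm (D i) (hP i) (hQ i)
  have h6 : Submodule.span ℝ (ComT h) ≤
      (HC.Lc3.kill c).comap (EL ψ ∘ₗ LinearMap.inr ℝ (Module.End ℝ A.V) _) := by
    refine Submodule.span_le.2 ?_
    rintro _ ⟨P, ⟨-, X, hX, h3⟩, P', ⟨-, X', hX', h4⟩, rfl⟩
    exact hbr hX hX' h3 h4
  have h7 : U ∈ (HC.Lc3.kill c).comap (EL ψ ∘ₗ LinearMap.inr ℝ (Module.End ℝ A.V) _) :=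
    h6 ((Submodule.span_le.2 hcc) hU)
  have h9 : ∀ i, i ∉ S → CL (D i) ≤
      ((HC.Lc3.kill c).comap (EL ψ ∘ₗ LinearMap.inr ℝ (Module.End ℝ A.V) _)).comap
        (LinearMap.single ℝ (fun i => Module.End ℝ (J i).V) i) := by
    intro i hi
    refine Submodule.span_le.2 ?_
    rintro _ ⟨P', hP', Q', hQ', rfl⟩
    have h10 : ∀ P' ∈ Lef (J i) (D i).Z (D i).ψ, ∀ k,
        (Pi.single i P' : Tup J) k ∈ Lef (J k) (D k).Z (D k).ψ := by
      intro P' hP' k
      by_cases hk : k = i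
      · subst hk
        rw [Pi.single_eq_same]
        exact hP'
      · rw [Pi.single_eq_of_ne hk]
        exact zero_lef (D k)
    have h11 := hS (Pi.single i P') (Pi.single i Q') (h10 P' hP') (h10 Q' hQ') (fun k hk => by
      have hki : k ≠ i := fun h => hi (h ▸ hk)
      exact Pi.single_eq_of_ne hki _)
      (EE ψ 0 (Pi.single i P' * Pi.single i Q' - Pi.single i Q' * Pi.single i P'))
      (fun v => by rw [psi_EE]; rfl)
    change EE ψ 0 (Pi.single i (P' * Q' - Q' * P')) ∈ HC.Lc3.kill c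
    rw [single_mul]
    exact h11
  have h12 : P * Q - Q * P - U ∈
      (HC.Lc3.kill c).comap (EL ψ ∘ₗ LinearMap.inr ℝ (Module.End ℝ A.V) _) := by
    rw [← Finset.univ_sum_single (P * Q - Q * P - U)]
    refine Submodule.sum_mem _ fun i _ => ?_
    by_cases hi : i ∈ S
    · have h13 : (P * Q - Q * P - U) i = 0 := by
        rw [Pi.sub_apply, hUS i hi, sub_self]
      rw [h13, Pi.single_zero]
      exact Submodule.zero_mem _
    · refine h9 i hi ?_
      refine Submodule.sub_mem _ (Submodule.subset_span ⟨P i, hP i, Q i, hQ i, rfl⟩) ?_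
      exact span_comp hh' i U hU
  have h14 : EE ψ 0 (P * Q - Q * P) ∈ HC.Lc3.kill c := by
    have h15 := Submodule.add_mem _ h12 h7
    rw [sub_add_cancel] at h15
    exact h15
  have h8 : W = EE ψ 0 (P * Q - Q * P) := ext_psi ψ fun v => by
    rw [hW v, psi_EE]
    rfl
  rw [h8]
  exact h14

end SEQ
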