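import Pool.Agent.Lib.SE.Q.SpecC
import Pool.Agent.Lib.SE.Big.FHl

/-!
# PROJECT SE-Q, part C, module HlT: Lie algebras of tuples in the product of the `u_E`
-/

set_option autoImplicit false

open Module

noncomputable section

namespace SEQ

open HC HC.E HC.SE SEB

namespace HlT_aux

open FHl_aux

theorem qc_rat {q : ℕ} {T : Fin q → AV} {h : Set (Tup T)}
    (hh : ∀ X ∈ h, ∀ i, RatEnd (T i) (X i)) :
    ∀ X ∈ qc h, ∀ i, RatEnd (T i) (X i) := by
  intro X hX
  induction hX using AddSubgroup.closure_induction with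
  | mem x hx =>
    obtain ⟨Y, hY, r, rfl⟩ := hx
    exact fun i => (hh Y hY i).qsmul r
  | zero => exact fun i => RatEnd.zero
  | add x y _ _ ihx ihy => exact fun i => (ihx i).add (ihy i)
  | neg x _ ih => exact fun i => (ih i).neg

end HlT_aux

open FHl_aux Hl_aux in
theorem tHlT : S_HlT := by
  classical
  intro q T m D h₀ hr hc hJ
  choose ι inst b hb1 hb2 using fun i => exists_lat_basis' (T i)
  let B : Module.Basis ((i : Fin q) × (ι i × ι i)) ℝ (Tup T) :=
    Pi.basis fun i => (b i).linearMap (b i)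
  have hB : ∀ (X : Tup T) (k : (i : Fin q) × (ι i × ι i)),
      B.repr X k = ((b k.1).linearMap (b k.1)).repr (X k.1) k.2 := by
    intro X k
    exact Pi.basis_repr _ X k
  have hJ1 : JT T ∈ Submodule.span ℝ (qc h₀ : Set (Tup T)) :=
    Submodule.span_mono (fun X hX => subset_qc h₀ X hX) hJ
  obtain ⟨S, hS⟩ := HC.Flat.sum_phi B (JT T)
  have hmem : ∀ s, HC.Flat.phi B s (JT T) ∈ qc h₀ := fun s =>
    HC.Flat.phi_mem B (qc h₀) qc_qsmul
      (fun X hX k => by
        rw [hB]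
        exact entry (b k.1) (hb1 k.1) (hb2 k.1) (X k.1) (HlT_aux.qc_rat hr X hX k.1) k.2) _ hJ1 s
  have hU : ∀ s ∈ S, ∀ i, IsU (D i) (HC.Flat.phi B s (JT T) i) := by
    intro s hs i
    refine isU_of (D i) (b i) (hb1 i) (hb2 i) S
      (fun s => HC.Flat.phi B s (JT T) i)
      (fun s => HlT_aux.qc_rat hr _ (hmem s) i) ?_ s hs
    have h1 := congrFun hS i
    have h2 : JT T i = mulI (T i) := rfl
    rw [← h2, h1, Finset.sum_apply]
    rfl
  refine ⟨{X | X ∈ qc h₀ ∧ ∀ i, IsU (D i) (X i)}, ⟨?_, ?_, ?_, ?_, ?_, ?_, ?_⟩, ?_⟩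
  · exact fun X hX => HlT_aux.qc_rat hr X hX.1
  · exact fun X hX => hX.2
  · exact ⟨AddSubgroup.zero_mem _, fun i => isU_zero (D i)⟩
  · exact fun X hX Y hY => ⟨AddSubgroup.add_mem _ hX.1 hY.1, fun i => isU_add (hX.2 i) (hY.2 i)⟩
  · exact fun x X hX => ⟨qc_qsmul X hX.1 x, fun i => isU_smul (hX.2 i) _⟩
  · exact fun X hX Y hY => ⟨qc_comm hc X hX.1 Y hY.1, fun i => isU_br (hX.2 i) (hY.2 i)⟩
  · rw [hS]
    exact Submodule.sum_mem _ fun s hs => Submodule.smul_mem _ _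
      (Submodule.subset_span ⟨hmem s, hU s hs⟩)
  · rintro Y ⟨X, hX, X', hX', rfl⟩
    exact qc_comm_span X hX.1 X' hX'.1

end SEQ
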