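import Pool.Agent.Lib.SE.Q.SpecD
import Pool.Agent.Lib.SE.W.Pex

/-!
# PROJECT SE-Q, module Rep: representatives of the isogeny classes
-/

set_option autoImplicit false

open Module

noncomputable section

namespace SEQ

open HC HC.E HC.SE SEB SE

namespace Rep_aux

theorem isg_refl (T : AV) : Isg T T :=
  ⟨LinearEquiv.refl ℂ T.V, fun v hv => ⟨1, one_ne_zero, by rw [one_smul]; exact hv⟩⟩

theorem isg_symm (hI : E.S_IsoInv) {T T' : AV} (h : Isg T T') : Isg T' T := by
  obtain ⟨ψ, hψ⟩ := h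
  exact ⟨ψ.symm, hI T T' ψ hψ⟩

theorem isg_trans {T T' T'' : AV} (h : Isg T T') (h' : Isg T' T'') : Isg T T'' := by
  obtain ⟨ψ, hψ⟩ := h
  obtain ⟨ψ', hψ'⟩ := h'
  refine ⟨ψ ≪≫ₗ ψ', fun v hv => ?_⟩
  obtain ⟨N, hN, h1⟩ := hψ v hv
  obtain ⟨N', hN', h2⟩ := hψ' _ h1
  refine ⟨N' * N, mul_ne_zero hN' hN, ?_⟩
  rw [mul_smul, LinearEquiv.trans_apply, ← map_nsmul]
  exact h2

/-- the families over `Fin N` are the pairs of families over the two parts -/
def spl {N : ℕ} (G : Fin N → AV) (p : Fin N → Prop) [DecidablePred p] :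
    (∀ i, (G i).V) ≃ₗ[ℂ] (∀ i : {x // p x}, (G i.1).V) × (∀ i : {x // ¬ p x}, (G i.1).V) :=
  { Equiv.piEquivPiSubtypeProd p (fun i => (G i).V) with
    map_add' := fun _ _ => rfl
    map_smul' := fun _ _ => rfl }

theorem spl_fst {N : ℕ} (G : Fin N → AV) (p : Fin N → Prop) [DecidablePred p]
    (w : ∀ i, (G i).V) (i : {x // p x}) : (spl G p w).1 i = w i.1 := rfl

theorem spl_snd {N : ℕ} (G : Fin N → AV) (p : Fin N → Prop) [DecidablePred p]
    (w : ∀ i, (G i).V) (i : {x // ¬ p x}) : (spl G p w).2 i = w i.1 := rfl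

/-- the members of the product of `A` and the family `G` -/
def opt (A : AV) {I : Type} (G : I → AV) (o : Option I) : AV := o.elim A G

/-- `A × ∏ G` as a product over `Option I` -/
def optE (A : AV) {I : Type} (G : I → AV) :
    (A.V × (∀ i, (G i).V)) ≃ₗ[ℂ] (∀ o, (opt A G o).V) where
  toFun w o := Option.rec (motive := fun o => (opt A G o).V) w.1 w.2 o
  map_add' w w' := by
    funext o
    cases o <;> rfl
  map_smul' c w := by
    funext o
    cases o <;> rfl
  invFun g := (g none, fun i => g (some i))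
  left_inv w := rfl
  right_inv g := by
    funext o
    cases o <;> rfl

theorem optE_none (A : AV) {I : Type} (G : I → AV) (w : A.V × (∀ i, (G i).V)) :
    optE A G w none = w.1 := rfl

theorem optE_some (A : AV) {I : Type} (G : I → AV) (w : A.V × (∀ i, (G i).V)) (i : I) :
    optE A G w (some i) = w.2 i := rfl

end Rep_aux

open Rep_aux

theorem tRep : S_Rep := by
  classical
  intro hI 𝒞 A B N G hA hG hB
  obtain ⟨ψ, hψ⟩ := hB
  let p : Fin N → Prop := fun n => IsCM (G n)
  let I₀ : Type := {n : Fin N // p n}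
  let I₁ : Type := {n : Fin N // ¬ p n}
  obtain ⟨P⟩ := tPex.1 (Option I₀) (opt A fun n : I₀ => G n.1)
  have hP : IsCM P.Y := by
    refine tPex.2 (Option I₀) _ P fun o => ?_
    cases o with
    | none => exact hA
    | some n => exact n.2
  let st : Setoid I₁ :=
    { r := fun n n' => Isg (G n.1) (G n'.1)
      iseqv := ⟨fun n => isg_refl _, fun h => isg_symm hI h, fun h h' => isg_trans h h'⟩ }
  let Q : Type := Quotient st
  let e : Q ≃ Fin (Fintype.card Q) := Fintype.equivFin Q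
  let e₁ : I₁ ≃ Fin (Fintype.card I₁) := Fintype.equivFin I₁
  let R : Fin (Fintype.card Q) → AV := fun i => G (Quotient.out (e.symm i)).1
  let k : Fin (Fintype.card I₁) → Fin (Fintype.card Q) := fun n => e (Quotient.mk st (e₁.symm n))
  have hθ : ∀ n, Isg (G (e₁.symm n).1) (R (k n)) := by
    intro n
    have h1 : Quotient.mk st (Quotient.out (Quotient.mk st (e₁.symm n))) =
        Quotient.mk st (e₁.symm n) := Quotient.out_eq _
    have h2 : Isg (G (Quotient.out (Quotient.mk st (e₁.symm n))).1) (G (e₁.symm n).1) :=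
      Quotient.exact h1
    have h3 : R (k n) = G (Quotient.out (Quotient.mk st (e₁.symm n))).1 := by
      change G (Quotient.out (e.symm (e (Quotient.mk st (e₁.symm n))))).1 = _
      rw [Equiv.symm_apply_apply]
    rw [h3]
    exact isg_symm hI h2
  choose θ hθ' using hθ
  refine ⟨P.Y, Fintype.card Q, Fintype.card I₁, R, k, hP, ?_, ?_, ?_⟩
  · intro i
    rcases hG (Quotient.out (e.symm i)).1 with h | h
    · exact absurd h (Quotient.out (e.symm i)).2
    · exact h
  · intro i i' hii h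
    apply hii
    have h1 : Quotient.mk st (Quotient.out (e.symm i)) = Quotient.mk st (Quotient.out (e.symm i')) :=
      Quotient.sound h
    rw [Quotient.out_eq, Quotient.out_eq] at h1
    exact e.symm.injective h1
  · let F : (∀ n : I₁, (G n.1).V) ≃ₗ[ℂ] (∀ n, (R (k n)).V) :=
      (LinearEquiv.piCongrLeft' ℂ (fun n : I₁ => (G n.1).V) e₁) ≪≫ₗ
        LinearEquiv.piCongrRight θ
    let Ψ : B.V ≃ₗ[ℂ] P.Y.V × (∀ n, (R (k n)).V) :=
      ψ ≪≫ₗ (LinearEquiv.prodCongr (LinearEquiv.refl ℂ A.V) (spl G p)) ≪≫ₗ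
        (LinearEquiv.prodAssoc ℂ A.V (∀ i : I₀, (G i.1).V) (∀ i : I₁, (G i.1).V)).symm ≪≫ₗ
        LinearEquiv.prodCongr (optE A (fun n : I₀ => G n.1) ≪≫ₗ P.ψ.symm) F
    have hΨ1 : ∀ v, P.ψ (Ψ v).1 = optE A (fun n : I₀ => G n.1) ((ψ v).1, fun i => (ψ v).2 i.1) := by
      intro v
      change P.ψ (P.ψ.symm (optE A (fun n : I₀ => G n.1) ((ψ v).1, fun i => (ψ v).2 i.1))) = _
      rw [LinearEquiv.apply_symm_apply]
    have hΨ2 : ∀ v n, (Ψ v).2 n = θ n ((ψ v).2 (e₁.symm n).1) := fun v n => rfl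
    refine ⟨Ψ, fun v hv => ?_⟩
    obtain ⟨M, hM, h1, h2⟩ := hψ v hv
    choose K hK hK' using fun n => hθ' n _ (h2 (e₁.symm n).1)
    refine ⟨(∏ n, K n) * M, mul_ne_zero (Finset.prod_ne_zero_iff.2 fun n _ => hK n) hM, ?_, ?_⟩
    · rw [P.lat]
      intro o
      rw [map_nsmul, hΨ1, mul_smul]
      cases o with
      | none => exact A.L.nsmul_mem h1 _
      | some n => exact (G n.1).L.nsmul_mem (h2 n.1) _
    · intro n
      rw [hΨ2, mul_comm, ← Finset.prod_erase_mul Finset.univ K (Finset.mem_univ n)]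
      have h3 := (R (k n)).L.nsmul_mem (hK' n) (∏ n ∈ Finset.univ.erase n, K n)
      rw [map_nsmul, ← mul_smul, ← mul_smul] at h3
      have h4 : M * ((∏ x ∈ Finset.univ.erase n, K x) * K n) =
          (∏ n ∈ Finset.univ.erase n, K n) * (K n * M) := by ring
      rw [h4]
      rw [mul_assoc] at h3
      exact h3

end SEQ
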