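import Pool.Agent.Lib.SE.Q.SpecD

/-!
# PROJECT SE-Q, module ThQ: two families (helper77)
-/

set_option autoImplicit false

open Module

noncomputable section

namespace SEQ

open HC HC.E HC.SE SEB SE

namespace ThQ_aux

/-- Transport along an equality of indices. -/
def cst {ι : Type} (G : ι → AV) {i i' : ι} (h : i = i') : (G i).V ≃ₗ[ℂ] (G i').V :=
  h ▸ LinearEquiv.refl ℂ (G i).V

lemma cst_end {ι : Type} {G : ι → AV} (W : ∀ i, Module.End ℝ (G i).V) {i i' : ι} (h : i = i')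
    (v : (G i).V) : W i' (cst G h v) = cst G h (W i v) := by
  subst h
  rfl

lemma cst_mem {ι : Type} {G : ι → AV} {i i' : ι} (h : i = i') {v : (G i).V} (hv : v ∈ (G i).L) :
    cst G h v ∈ (G i').L := by
  subst h
  exact hv

section

variable {q₁ q N₁ N q' N' : ℕ} (R : Fin q₁ → AV) (J : Fin q → AV) (k : Fin N₁ → Fin q₁)
  (j : Fin N → Fin q) (eq : Fin q' ≃ Fin q₁ ⊕ Fin q) (en : Fin N' ≃ Fin N₁ ⊕ Fin N)

/-- The data of the joint family. -/
def DG {m₁ : Fin q₁ → ℕ} {m : Fin q → ℕ} (D₁ : ∀ i, Cyc (R i) (m₁ i)) (D : ∀ i, Cyc (J i) (m i)) :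
    ∀ x : Fin q₁ ⊕ Fin q, Cyc (Sum.elim R J x) (Sum.elim m₁ m x)
  | .inl a => D₁ a
  | .inr b => D b

variable {A B T : AV} (φ : B.V ≃ₗ[ℂ] A.V × (∀ n, (R (k n)).V))
  (ψ : T.V ≃ₗ[ℂ] B.V × (∀ n, (J (j n)).V))

/-- The components. -/
def cmp (v : T.V) : ∀ x : Fin N₁ ⊕ Fin N, (Sum.elim R J (Sum.map k j x)).V
  | .inl a => (φ (ψ v).1).2 a
  | .inr b => (ψ v).2 b

/-- The joint decomposition. -/
def Psi : T.V ≃ₗ[ℂ] A.V × (∀ n : Fin N', (Sum.elim R J (eq (eq.symm (Sum.map k j (en n))))).V) :=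
  ψ ≪≫ₗ LinearEquiv.prodCongr φ (LinearEquiv.refl ℂ _) ≪≫ₗ LinearEquiv.prodAssoc ℂ _ _ _ ≪≫ₗ
    LinearEquiv.prodCongr (LinearEquiv.refl ℂ _)
      ((LinearEquiv.sumPiEquivProdPi ℂ _ _
          (fun x : Fin N₁ ⊕ Fin N => (Sum.elim R J (Sum.map k j x)).V)).symm ≪≫ₗ
        LinearEquiv.piCongrLeft' ℂ
          (fun x : Fin N₁ ⊕ Fin N => (Sum.elim R J (Sum.map k j x)).V) en.symm ≪≫ₗ
        LinearEquiv.piCongrRight fun n =>
          cst (Sum.elim R J) (eq.apply_symm_apply (Sum.map k j (en n))).symm)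

lemma Psi_fst (v : T.V) : (Psi R J k j eq en φ ψ v).1 = (φ (ψ v).1).1 := rfl

lemma Psi_snd (v : T.V) (n : Fin N') : (Psi R J k j eq en φ ψ v).2 n =
    cst (Sum.elim R J) (eq.apply_symm_apply (Sum.map k j (en n))).symm
      (cmp R J k j φ ψ v (en n)) := by
  have h1 : (LinearEquiv.sumPiEquivProdPi ℂ _ _
      (fun x : Fin N₁ ⊕ Fin N => (Sum.elim R J (Sum.map k j x)).V)).symm
        ((φ (ψ v).1).2, (ψ v).2) = cmp R J k j φ ψ v := by
    funext x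
    cases x <;> rfl
  rw [← h1]
  rfl

end

end ThQ_aux

open ThQ_aux

theorem tThQ : S_ThQ := by
  intro hHl hLi A B T q₁ N₁ q N R k m₁ D₁ J j m D ψ hA hm₁ hm hDA₁ hDA hbig hB hψ d c hc hS
  obtain ⟨φ, hφ⟩ := hB
  obtain ⟨eq⟩ : Nonempty (Fin (q₁ + q) ≃ Fin q₁ ⊕ Fin q) := ⟨finSumFinEquiv.symm⟩
  obtain ⟨en⟩ : Nonempty (Fin (N₁ + N) ≃ Fin N₁ ⊕ Fin N) := ⟨finSumFinEquiv.symm⟩
  let F : Fin (q₁ + q) → AV := fun i => Sum.elim R J (eq i)
  let mF : Fin (q₁ + q) → ℕ := fun i => Sum.elim m₁ m (eq i)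
  let DF : ∀ i, Cyc (F i) (mF i) := fun i => DG R J D₁ D (eq i)
  let jj : Fin (N₁ + N) → Fin (q₁ + q) := fun n => eq.symm (Sum.map k j (en n))
  let Ψ : T.V ≃ₗ[ℂ] A.V × (∀ n, (F (jj n)).V) := Psi R J k j eq en φ ψ
  let σ : (∀ x, Module.End ℝ (Sum.elim R J x).V) ≃ₗ[ℝ] Tup F :=
    LinearEquiv.piCongrLeft' ℝ (fun x => Module.End ℝ (Sum.elim R J x).V) eq.symm
  have hσ : ∀ Y i, σ Y i = Y (eq i) := fun Y i => rfl
  let S : Set (Fin (q₁ + q)) := {i | ∃ a, eq i = Sum.inl a}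
  have hΨ1 : ∀ v, (Ψ v).1 = (φ (ψ v).1).1 := fun v => rfl
  have hΨ2 : ∀ v n, (Ψ v).2 n = cst (Sum.elim R J)
      (eq.apply_symm_apply (Sum.map k j (en n))).symm (cmp R J k j φ ψ v (en n)) :=
    fun v n => Psi_snd R J k j eq en φ ψ v n
  have hlat : ∀ v ∈ T.L, ∃ k : ℕ, k ≠ 0 ∧ k • (Ψ v).1 ∈ A.L ∧
      ∀ n, k • (Ψ v).2 n ∈ (F (jj n)).L := by
    intro v hv
    obtain ⟨K1, h1, h2, h3⟩ := hψ v hv
    obtain ⟨K2, h4, h5, h6⟩ := hφ _ h2
    refine ⟨K2 * K1, mul_ne_zero h4 h1, ?_, fun n => ?_⟩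
    · rw [hΨ1, mul_smul]
      rw [map_nsmul, Prod.smul_fst] at h5
      exact h5
    · have h7 : ∀ x, (K2 * K1) • cmp R J k j φ ψ v x ∈ (Sum.elim R J (Sum.map k j x)).L := by
        rintro (a | b)
        · have := h6 a
          rw [map_nsmul, Prod.smul_snd, Pi.smul_apply] at this
          rw [mul_smul]
          exact this
        · rw [mul_smul]
          exact (J (j b)).L.smul_of_tower_mem K2 (h3 b)
      rw [hΨ2, ← map_nsmul]
      exact cst_mem _ (h7 (en n))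
  have hBS : BigS DF S := by
    intro h hh X hX
    -- the restriction to the first family
    let r : Tup F →ₗ[ℝ] Tup R :=
      (LinearMap.pi fun a => LinearMap.proj (Sum.inl a)) ∘ₗ σ.symm.toLinearMap
    have hr : ∀ Y, r (σ Y) = fun a => Y (Sum.inl a) := by
      intro Y
      show (fun a => (σ.symm (σ Y)) (Sum.inl a)) = _
      rw [σ.symm_apply_apply]
    have hsur : ∀ Y : Tup F, ∃ Y', Y = σ Y' := fun Y => ⟨σ.symm Y, (σ.apply_symm_apply Y).symm⟩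
    have hmul : ∀ Y Y', r (Y * Y') = r Y * r Y' := by
      intro Y Y'
      obtain ⟨Z, rfl⟩ := hsur Y
      obtain ⟨Z', rfl⟩ := hsur Y'
      have e : σ Z * σ Z' = σ (Z * Z') := rfl
      rw [e, hr, hr, hr]
      rfl
    have hh1 : HLieT D₁ (r '' h) := by
      refine ⟨?_, ?_, ⟨0, hh.zero, map_zero r⟩, ?_, ?_, ?_, ?_⟩
      · rintro _ ⟨Y, hY, rfl⟩ a
        obtain ⟨Z, rfl⟩ := hsur Y
        have h1 : ∀ x, RatEnd (Sum.elim R J x) (Z x) := by
          intro x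
          obtain ⟨i, rfl⟩ := eq.surjective x
          exact hh.rat _ hY i
        rw [hr]
        exact h1 (Sum.inl a)
      · rintro _ ⟨Y, hY, rfl⟩ a
        obtain ⟨Z, rfl⟩ := hsur Y
        have h1 : ∀ x, IsU (DG R J D₁ D x) (Z x) := by
          intro x
          obtain ⟨i, rfl⟩ := eq.surjective x
          exact hh.u _ hY i
        rw [hr]
        exact h1 (Sum.inl a)
      · rintro _ ⟨Y, hY, rfl⟩ _ ⟨Y', hY', rfl⟩
        exact ⟨_, hh.add _ hY _ hY', map_add r _ _⟩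
      · rintro x _ ⟨Y, hY, rfl⟩
        exact ⟨_, hh.smul x _ hY, map_smul r _ _⟩
      · rintro _ ⟨Y, hY, rfl⟩ _ ⟨Y', hY', rfl⟩
        exact ⟨_, hh.br _ hY _ hY', by rw [map_sub, hmul, hmul]⟩
      · rw [Submodule.span_image]
        refine ⟨_, hh.J, ?_⟩
        have e : JT F = σ fun x => mulI (Sum.elim R J x) := rfl
        rw [e, hr]
        rfl
    obtain ⟨X', rfl⟩ := hsur X
    have h1 : ∀ x, (∃ a, x = Sum.inl a) → IsSU (DG R J D₁ D x) (X' x) := by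
      intro x hx
      obtain ⟨i, rfl⟩ := eq.surjective x
      exact hX i hx
    have h2 := hbig _ hh1 (fun a => X' (Sum.inl a)) (fun a => h1 (Sum.inl a) ⟨a, rfl⟩)
    have h3 : ComT (r '' h) ⊆ r '' ComT h := by
      rintro _ ⟨_, ⟨Y, hY, rfl⟩, _, ⟨Y', hY', rfl⟩, rfl⟩
      exact ⟨_, ⟨Y, hY, Y', hY', rfl⟩, by rw [map_sub, hmul, hmul]⟩
    have h4 := Submodule.span_mono h3 h2
    rw [Submodule.span_image] at h4
    obtain ⟨W, hW, hWe⟩ := h4
    refine ⟨W, hW, ?_⟩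
    obtain ⟨W', rfl⟩ := hsur W
    rw [hr] at hWe
    rintro i ⟨a, ha⟩
    have h5 : ∀ x, (∃ a, x = Sum.inl a) → W' x = X' x := by
      rintro _ ⟨a, rfl⟩
      exact congrFun hWe a
    exact h5 _ ⟨a, ha⟩
  have hSS : SUS S (fun i => (DF i).Z) (fun i => (DF i).ψ) Ψ c := by
    intro P Q hP hQ hPS X hX
    obtain ⟨P', rfl⟩ : ∃ P', P = σ P' := ⟨σ.symm P, (σ.apply_symm_apply P).symm⟩
    obtain ⟨Q', rfl⟩ : ∃ Q', Q = σ Q' := ⟨σ.symm Q, (σ.apply_symm_apply Q).symm⟩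
    have hP' : ∀ x, P' x ∈ Lef (Sum.elim R J x) (DG R J D₁ D x).Z (DG R J D₁ D x).ψ := by
      intro x
      obtain ⟨i, rfl⟩ := eq.surjective x
      exact hP i
    have hQ' : ∀ x, Q' x ∈ Lef (Sum.elim R J x) (DG R J D₁ D x).Z (DG R J D₁ D x).ψ := by
      intro x
      obtain ⟨i, rfl⟩ := eq.surjective x
      exact hQ i
    have hP0 : ∀ a, P' (Sum.inl a) = 0 := by
      intro a
      have h1 : ∀ x, (∃ a, x = Sum.inl a) → P' x = 0 := by
        intro x hx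
        obtain ⟨i, rfl⟩ := eq.surjective x
        exact hPS i hx
      exact h1 _ ⟨a, rfl⟩
    refine hS (fun b => P' (Sum.inr b)) (fun b => Q' (Sum.inr b)) (fun b => hP' (Sum.inr b))
      (fun b => hQ' (Sum.inr b)) X fun v => ?_
    have h1 : ∀ x, cmp R J k j φ ψ (X v) x =
        (P' * Q' - Q' * P') (Sum.map k j x) (cmp R J k j φ ψ v x) := by
      intro x
      obtain ⟨n, rfl⟩ := en.surjective x
      have h2 := congrFun (congrArg Prod.snd (hX v)) n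
      rw [hΨ2] at h2
      refine (cst (Sum.elim R J) (eq.apply_symm_apply (Sum.map k j (en n))).symm).injective ?_
      rw [h2, ← cst_end, ← hΨ2]
      rfl
    have h3 : (ψ (X v)).1 = 0 := by
      apply φ.injective
      rw [map_zero]
      refine Prod.ext ?_ (funext fun a => ?_)
      · have h4 := congrArg Prod.fst (hX v)
        exact h4
      · have h4 := h1 (Sum.inl a)
        have h5 : (P' * Q' - Q' * P') (Sum.map k j (Sum.inl a)) = 0 := by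
          show P' (Sum.inl (k a)) * Q' (Sum.inl (k a)) - Q' (Sum.inl (k a)) * P' (Sum.inl (k a)) = 0
          rw [hP0, zero_mul, mul_zero, sub_zero]
        rw [h5] at h4
        exact h4
    refine Prod.ext h3 (funext fun b => ?_)
    exact h1 (Sum.inr b)
  have hSUK := hLi hHl L.pLa L.pLa' tLb L.tLc1 L.tLc2 E.tIsoInv A T (q₁ + q) (N₁ + N) F mF DF jj S Ψ
    hA hBS hlat d c hc hSS
  have hmG : ∀ x, Sum.elim m₁ m x ≠ 0 := by
    rintro (a | b)
    · have := hm₁ a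
      show m₁ a ≠ 0
      omega
    · have := hm b
      show m b ≠ 0
      omega
  have hDG : ∀ x, HasDA (fun T m c => HC.SE.Alg2 T m c) (Sum.elim m₁ m x) (Sum.elim R J x)
      (DG R J D₁ D x).Z (DG R J D₁ D x).ψ := by
    rintro (a | b)
    · exact hDA₁ a
    · exact hDA b
  exact thmKg _ cl_alg2 A T (q₁ + q) (N₁ + N) F jj mF (fun i => hmG (eq i)) (fun i => (DF i).Z)
    (fun i => (DF i).ψ) (fun i => hDG (eq i)) Ψ hA hlat d c hc hSUK

end SEQ
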