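import Pool.Agent.Lib.SE.Q.SpecC
import Pool.Agent.Lib.SE.Big.Cl

/-!
# PROJECT SE-Q, module ClT (helper69): closure of the complex span of the commutators, tuples
-/

set_option autoImplicit false

open Module

noncomputable section

namespace SEQ

open HC HC.E HC.SE SEB

namespace ClT_aux

variable {q : ℕ} {T : Fin q → AV} {m : Fin q → ℕ}

/-- The action of a tuple. -/
def pT (X : Tup T) : ∀ i, Module.End ℂ (Frm (T i)) := fun i => pre (X i)

theorem pT_mul (X Y : Tup T) : pT X * pT Y = pT (Y * X) := rfl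

theorem pT_sub (X Y : Tup T) : pT X - pT Y = pT (X - Y) :=
  funext fun i => Cl_aux.pre_sub (X i) (Y i)

theorem mem_pT {h : Set (Tup T)} {Y : Tup T} (hY : Y ∈ ComT h) : pT Y ∈ ggT h :=
  Submodule.subset_span ⟨Y, hY, rfl⟩

/-- Commutators with `P`, from generators. -/
theorem br_gg {h : Set (Tup T)} (P : ∀ i, Module.End ℂ (Frm (T i)))
    (hP : ∀ Y ∈ ComT h, P * pT Y - pT Y * P ∈ ggT h) {A : ∀ i, Module.End ℂ (Frm (T i))}
    (hA : A ∈ ggT h) : P * A - A * P ∈ ggT h := by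
  refine Submodule.span_induction (p := fun A _ => P * A - A * P ∈ ggT h) ?_ ?_ ?_ ?_ hA
  · rintro _ ⟨Y, hY, rfl⟩
    exact hP Y hY
  · rw [mul_zero, zero_mul, sub_zero]
    exact zero_mem _
  · intro A B _ _ h1 h2
    have h3 : P * (A + B) - (A + B) * P = P * A - A * P + (P * B - B * P) := by
      rw [mul_add, add_mul]
      abel
    rw [h3]
    exact add_mem h1 h2
  · intro c A _ h1
    have h3 : P * (c • A) - (c • A) * P = c • (P * A - A * P) := by
      funext i
      show P i * (c • A i) - (c • A i) * P i = c • (P i * A i - A i * P i)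
      rw [mul_smul_comm, smul_mul_assoc, smul_sub]
    rw [h3]
    exact Submodule.smul_mem _ _ h1

theorem com_sub {h : Set (Tup T)} (hl : ∀ X ∈ h, ∀ Y ∈ h, X * Y - Y * X ∈ h)
    {Y : Tup T} (hY : Y ∈ ComT h) : Y ∈ h := by
  obtain ⟨X, hX, X', hX', rfl⟩ := hY
  exact hl X hX X' hX'

/-- `[pT X, A] ∈ ggT h` for `X ∈ h`. -/
theorem br_h {h : Set (Tup T)} (hl : ∀ X ∈ h, ∀ Y ∈ h, X * Y - Y * X ∈ h)
    {X : Tup T} (hX : X ∈ h) {A : ∀ i, Module.End ℂ (Frm (T i))} (hA : A ∈ ggT h) :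
    pT X * A - A * pT X ∈ ggT h := by
  refine br_gg (pT X) (fun Y hY => ?_) hA
  rw [pT_mul, pT_mul, pT_sub]
  exact mem_pT ⟨Y, com_sub hl hY, X, hX, rfl⟩

end ClT_aux

open ClT_aux in
theorem tClT : S_ClT := by
  intro q T m D hm h hh
  have hl := hh.br
  refine ⟨?_, ?_⟩
  · intro A hA B hB
    have h1 : B * A - A * B ∈ ggT h := by
      refine br_gg B (fun Y hY => ?_) hA
      have h2 := br_h hl (com_sub hl hY) hB
      have h3 : B * pT Y - pT Y * B = -(pT Y * B - B * pT Y) := by abel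
      rw [h3]
      exact neg_mem h2
    have h3 : A * B - B * A = -(B * A - A * B) := by abel
    rw [h3]
    exact neg_mem h1
  · intro A hA x
    have hp : ∀ X ∈ h, ∀ a ∈ WT D x, pre (X x.1) a ∈ WT D x := by
      intro X hX a ha v
      change a (X x.1 ((D x.1).Z v)) = zet (m x.1) x.2 * a (X x.1 v)
      rw [(hh.u X hX x.1).1 v]
      exact ha (X x.1 v)
    refine Submodule.span_induction (p := fun A _ => ∃ A' : Module.End ℂ (WT D x),
      LinearMap.trace ℂ (WT D x) A' = 0 ∧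
        ∀ a : WT D x, A x.1 (a : Frm (T x.1)) = (A' a : Frm (T x.1))) ?_ ?_ ?_ ?_ hA
    · rintro _ ⟨_, ⟨X, hX, X', hX', rfl⟩, rfl⟩
      let P : Module.End ℂ (WT D x) := (pre (X x.1)).restrict (hp X hX)
      let P' : Module.End ℂ (WT D x) := (pre (X' x.1)).restrict (hp X' hX')
      refine ⟨P' * P - P * P', Cl_aux.tr_br P' P, fun a => ?_⟩
      have h1 : pre ((X * X' - X' * X) x.1) = pre (X' x.1) * pre (X x.1) -
          pre (X x.1) * pre (X' x.1) := by
        rw [Cl_aux.pre_mul, Cl_aux.pre_mul, Cl_aux.pre_sub]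
        rfl
      show pre ((X * X' - X' * X) x.1) (a : Frm (T x.1)) = _
      rw [h1]
      rfl
    · exact ⟨0, map_zero _, fun a => rfl⟩
    · rintro A B _ _ ⟨A', hA1, hA2⟩ ⟨B', hB1, hB2⟩
      refine ⟨A' + B', by rw [map_add, hA1, hB1, add_zero], fun a => ?_⟩
      show (A x.1 + B x.1) (a : Frm (T x.1)) = _
      rw [LinearMap.add_apply, hA2, hB2]
      rfl
    · rintro c A _ ⟨A', hA1, hA2⟩
      refine ⟨c • A', by rw [map_smul, hA1, smul_zero], fun a => ?_⟩
      show (c • A x.1) (a : Frm (T x.1)) = _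
      rw [LinearMap.smul_apply, hA2]
      rfl

end SEQ
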