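import Pool.Agent.Lib.SE.Q.SpecA
import Pool.Agent.Lib.SE.Big.Real
import Pool.Agent.Lib.SE.Big.Bas
import Pool.Agent.Lib.SE.Big.Pj

/-!
# PROJECT SE-Q, module Ln: vanishing at `t` and at `-t`
-/

set_option autoImplicit false

open Module

noncomputable section

namespace SEQ

open HC HC.E HC.SE SEB

theorem tLn : S_Ln := by
  intro T m D hm h hh C hC t hCt b hb
  obtain ⟨htop, -⟩ := tBas tPj T m D hm
  obtain ⟨P, hP, Q, hQ, hPQ⟩ := Real_aux.comb (Com h) C hC
  have hU : ∀ Y ∈ Com h, IsU D Y := by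
    rintro Y ⟨X, hX, X', hX', rfl⟩
    exact hh.u _ (hh.lie.br X hX X' hX')
  have uP := Real_aux.isU_span D (Com h) hU P hP
  have uQ := Real_aux.isU_span D (Com h) hU Q hQ
  have h1 := Real_aux.key D hm htop P Q uP uQ t (fun a ha v => by
    rw [← hPQ, hCt a ha, LinearMap.zero_apply]) b hb
  refine LinearMap.ext fun v => ?_
  rw [hPQ, h1 v, LinearMap.zero_apply]

end SEQ
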