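import Pool.Agent.Lib.SE.Q.SpecB

/-!
# PROJECT SE-Q, part B: assembly (helper42)
-/

set_option autoImplicit false

open Module

noncomputable section

namespace SEQ

open HC HC.E HC.SE SEB

namespace B_aux

theorem rho_self {m : ℕ} (h : m ∣ m) (ρ s : (ZMod m)ˣ) : rho h ρ s = ρ * s := by
  unfold rho
  rw [ZMod.unitsMap_self]
  rfl

variable {T T' : AV} {m m' : ℕ} {D : Cyc T m} {D' : Cyc T' m'} {h h' : Set (Pr2 T T')}
  {s : (ZMod m)ˣ} {t : (ZMod m')ˣ}

theorem lnk_mono (hs : h' ⊆ h) (hl : Lnk D D' h s t) : Lnk D D' h' s t := by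
  intro C hC
  refine hl C (Submodule.span_mono (Set.image_mono ?_) hC)
  rintro Y ⟨X, hX, X', hX', rfl⟩
  exact ⟨X, hs hX, X', hs hX', rfl⟩

theorem lnk_neg (hPrj : S_Prj) (hLn : S_Ln) (hm' : 3 ≤ m') (hh : HLie2 D D' h)
    (hl : Lnk D D' h s t) : Lnk D D' h s (-t) := by
  obtain ⟨-, h2, -, -, h5⟩ := hPrj T T' m m' D D' h hh
  intro C hC
  rw [hl C hC]
  constructor
  · exact hLn T' m' D' hm' _ h2 _ (h5 C hC).2 t
  · intro h0
    have := hLn T' m' D' hm' _ h2 _ (h5 C hC).2 (-t) h0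
    rwa [neg_neg] at this

end B_aux

open B_aux

/-- The same `m`, equal signatures. -/
theorem same_isg (hPrj : S_Prj) (hCl2 : S_Cl2) (hInt : S_Int) (hTh0 : S_Th0) (hTh1 : S_Th1)
    (hCut : S_Cut) (hTrE : S_TrE) (hHom : S_Hom) (hIso : S_Iso)
    {T T' : AV} {m r : ℕ} {D : Cyc T m} {D' : Cyc T' m} (hD : GF1 D r) (hD' : GF1 D' r)
    (g : (ZMod m)ˣ) (hg : ∀ u, D.p u = D'.p (g * u)) {h : Set (Pr2 T T')} (hh : HLie2 D D' h)
    (s : (ZMod m)ˣ) (hs : D.p s = 1) (hl : Lnk D D' h s (g * s)) : Isg T T' := by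
  have hc := hCut T T' m r D D' hD hD' g hg h hh
  have hl' : Lnk D D' {X | X ∈ h ∧ TrEq D D' g X} s (g * s) := lnk_mono (fun X hX => hX.1) hl
  obtain ⟨θ, hθ⟩ := hTh0 hPrj hCl2 hInt T T' m m r r D D' hD hD' _ hc s (g * s) hs
    (by rw [← hg]; exact hs) hl'
  have hθ' := hTh1 hPrj T T' m m r r D D' hD hD' _ hc s (g * s) θ hθ
    (fun X hX A B hA hB => hTrE T T' m D D' hD.hm g X (hc.u X hX).1.1 (hc.u X hX).2.1 hX.2 s
      A B hA hB)
  obtain ⟨Θ, h1, h2, h3, h4⟩ := hHom T T' m r D D' hD hD' _ hc g s θ hθ'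
  exact hIso T T' m r D D' hD hD' _ hc g s Θ h1 h2 h3 h4

/-- **B**. -/
theorem tB (hPrj : S_Prj) (hCl2 : S_Cl2) (hLp : S_Lp) (hLn : S_Ln) (hInt : S_Int) (hTh0 : S_Th0)
    (hTh1 : S_Th1) (hCut : S_Cut) (hTrE : S_TrE) (hHom : S_Hom) (hIso : S_Iso) (hT34 : S_T34)
    (hdim : S_Dim) : S_B := by
  intro T T' m m' r D D' hD hD' hc h hh s t hs ht hl
  rcases hc with ⟨hmm, hc⟩ | ⟨hr, hc⟩
  · subst hmm
    have hl1 : ∀ ρ : (ZMod m)ˣ, Lnk D D' h (ρ * s) (ρ * t) := by
      intro ρ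
      have := hl m dvd_rfl dvd_rfl (by have := hD.hm; omega) ρ
      rwa [rho_self, rho_self] at this
    have hl0 : Lnk D D' h s t := by
      have := hl1 1
      rwa [one_mul, one_mul] at this
    have hr : ∀ u, D.p u + D.p (-u) = r := fun u => (hdim T m r D hD.hm hD.dim u).2
    have hr' : ∀ u, D'.p u + D'.p (-u) = r := fun u => (hdim T' m r D' hD'.hm hD'.dim u).2
    -- `p p` is equal at `u` and at `u t / s`
    have hpp : ∀ u, D.p u * D.p (-u) = D'.p (u * (t * s⁻¹)) * D'.p (-(u * (t * s⁻¹))) := by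
      intro u
      have := hLp hPrj hCl2 T T' m m r r D D' hD hD' h hh _ _ (hl1 (u * s⁻¹))
      rw [inv_mul_cancel_right] at this
      rw [this]
      congr 2 <;> rw [mul_assoc u, mul_comm s⁻¹ t]
    -- `D'.p = D.p` up to a sign
    have hap : t * s⁻¹ = 1 ∨ t * s⁻¹ = -1 := by
      refine hD.ap (t * s⁻¹) fun u => ?_
      rw [hpp u]
      rcases hc with hc | hc
      · rw [hc, hc (-(u * (t * s⁻¹)))]
      · rw [hc (u * (t * s⁻¹)), hc (-(u * (t * s⁻¹)))]
        rw [neg_neg, mul_comm]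
    have hts : t = s ∨ t = -s := by
      rcases hap with h1 | h1
      · left
        rw [← mul_one s, ← h1, mul_comm t, mul_inv_cancel_left]
      · right
        have : t = t * s⁻¹ * s := by rw [inv_mul_cancel_right]
        rw [this, h1, neg_one_mul]
    -- the link with the right sign
    have key : ∃ g : (ZMod m)ˣ, (∀ u, D.p u = D'.p (g * u)) ∧ Lnk D D' h s (g * s) := by
      rcases hc with hc | hc
      · refine ⟨1, fun u => by rw [one_mul]; exact hc u, ?_⟩
        rw [one_mul]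
        rcases hts with h1 | h1
        · rwa [h1] at hl0
        · rw [h1] at hl0
          have := lnk_neg hPrj hLn hD.hm hh hl0
          rwa [neg_neg] at this
      · refine ⟨-1, fun u => by rw [neg_one_mul]; exact hc u, ?_⟩
        rw [neg_one_mul]
        rcases hts with h1 | h1
        · rw [h1] at hl0
          exact lnk_neg hPrj hLn hD.hm hh hl0
        · rwa [h1] at hl0
    obtain ⟨g, hg, hlg⟩ := key
    exact same_isg hPrj hCl2 hInt hTh0 hTh1 hCut hTrE hHom hIso hD hD' g hg hh s hs hlg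
  · exfalso
    have hm0 : m * m' ≠ 0 := by
      have := hD.hm
      have := hD'.hm
      positivity
    have := hl (m * m') (dvd_mul_right m m') (dvd_mul_left m' m) hm0 1
    unfold rho at this
    rw [map_one, map_one, one_mul, one_mul] at this
    exact hT34 T T' m m' r D D' hD hD' hr hc h hh s t hs ht this

end SEQ
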