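import Pool.Agent.Lib.SE.Q.SpecG
import Pool.Agent.Lib.SE.Q.B
import Pool.Agent.Lib.SE.Big.Cl
import Pool.Agent.Lib.SE.Big.Bas
import Pool.Agent.Lib.SE.Big.Pj

/-!
# PROJECT SE-Q, part G: assembly (helper42)
-/

set_option autoImplicit false

open Module

noncomputable section

namespace SEQ

open HC HC.E HC.SE SEB B_aux

namespace Bg_aux

theorem itw_mono {T T' : AV} {m m' : ℕ} {D : Cyc T m} {D' : Cyc T' m'} {h h' : Set (Pr2 T T')}
    {s : (ZMod m)ˣ} {t : (ZMod m')ˣ} {θ : Ws D s ≃ₗ[ℂ] Ws D' t} (hs : h' ⊆ h) (hi : Itw h θ) :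
    Itw h' θ := by
  intro C hC
  refine hi C (Submodule.span_mono (Set.image_mono ?_) hC)
  rintro Y ⟨X, hX, X', hX', rfl⟩
  exact ⟨X, hs hX, X', hs hX', rfl⟩

/-- cast of `θ` along an equality of characters -/
theorem itw_cast {T T' : AV} {m m' : ℕ} {D : Cyc T m} {D' : Cyc T' m'} {h : Set (Pr2 T T')}
    {s s' : (ZMod m)ˣ} {t t' : (ZMod m')ˣ} (hs : s = s') (ht : t = t')
    (hi : ∃ θ : Ws D s ≃ₗ[ℂ] Ws D' t, Itw h θ) : ∃ θ : Ws D s' ≃ₗ[ℂ] Ws D' t', Itw h θ := by
  subst hs ht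
  exact hi

end Bg_aux

open Bg_aux

/-- The same `m`, equal signatures, `θ` given. -/
theorem same_isgg (hPrj : S_Prj) (hTh1 : S_Th1g) (hCut : S_Cutg) (hTrE : S_TrE) (hHom : S_Homg)
    (hIso : S_Isog) {T T' : AV} {m r : ℕ} {D : Cyc T m} {D' : Cyc T' m} (hD : GFg D r)
    (hD' : GFg D' r) (g : (ZMod m)ˣ) (hg : ∀ u, D.p u = D'.p (g * u)) {h : Set (Pr2 T T')}
    (hh : HLie2 D D' h) (s : (ZMod m)ˣ) (θ : Ws D s ≃ₗ[ℂ] Ws D' (g * s)) (hθ : Itw h θ) :
    Isg T T' := by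
  have hc := hCut T T' m r D D' hD hD' g hg h hh
  have hi : Itw {X | X ∈ h ∧ TrEq D D' g X} θ := itw_mono (fun X hX => hX.1) hθ
  have hθ' := hTh1 hPrj T T' m m r r D D' hD hD' _ hc s (g * s) θ hi
    (fun X hX A B hA hB => hTrE T T' m D D' hD.hm g X (hc.u X hX).1.1 (hc.u X hX).2.1 hX.2 s
      A B hA hB)
  obtain ⟨Θ, h1, h2, h3, h4⟩ := hHom T T' m r D D' hD hD' _ hc g s θ hθ'
  exact hIso T T' m r D D' hD hD' _ hc g s Θ h1 h2 h3 h4

/-- **Bg**. -/
theorem tBg (hPrj : S_Prj) (hCl2 : S_Cl2) (hLn : S_Ln) (hInt : S_Int) (hIntG : S_IntG)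
    (hDua : S_Dua) (hTh0 : S_Th0g) (hR2t : S_R2t) (hJc : S_Jc) (hGtr : S_Gtr) (hNsd : S_Nsd)
    (hTrJ : S_TrJ) (hRSH : S_RSH) (hGaH : S_GaH) (hTh1 : S_Th1g) (hCut : S_Cutg) (hTrE : S_TrE)
    (hHom : S_Homg) (hIso : S_Isog) (hdim : S_Dim) : S_Bg := by
  intro T T' m m' r D D' hD hD' hc h hh s t hl hLp
  rcases hc with ⟨hmm, hc⟩ | ⟨hr, hc⟩
  · subst hmm
    have hl1 : ∀ ρ : (ZMod m)ˣ, Lnk D D' h (ρ * s) (ρ * t) := by
      intro ρ
      have := hl m dvd_rfl dvd_rfl (by have := hD.hm; omega) ρ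
      rwa [rho_self, rho_self] at this
    have hl0 : Lnk D D' h s t := by
      have := hl1 1
      rwa [one_mul, one_mul] at this
    have hr : ∀ u, D.p u + D.p (-u) = r := fun u => (hdim T m r D hD.hm hD.dim u).2
    -- `p p` is equal at `u` and at `u t / s`
    have hpp : ∀ u, D.p u * D.p (-u) = D'.p (u * (t * s⁻¹)) * D'.p (-(u * (t * s⁻¹))) := by
      intro u
      have := hLp _ _ (hl1 (u * s⁻¹))
      rw [inv_mul_cancel_right] at this
      rw [this]
      congr 2 <;> rw [mul_assoc u, mul_comm s⁻¹ t]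
    have hap : t * s⁻¹ = 1 ∨ t * s⁻¹ = -1 := by
      refine hD.ap (t * s⁻¹) fun u => ?_
      rw [hpp u]
      rcases hc with hc | hc
      · rw [hc, hc (-(u * (t * s⁻¹)))]
      · rw [hc (u * (t * s⁻¹)), hc (-(u * (t * s⁻¹)))]
        rw [neg_neg, mul_comm]
    have hts : t = s ∨ t = -s := by
      rcases hap with h1 | h1
      · left
        rw [← mul_one s, ← h1, mul_comm t, mul_inv_cancel_left]
      · right
        have : t = t * s⁻¹ * s := by rw [inv_mul_cancel_right]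
        rw [this, h1, neg_one_mul]
    -- the link with the right sign
    have key : ∃ g : (ZMod m)ˣ, (∀ u, D.p u = D'.p (g * u)) ∧ Lnk D D' h s (g * s) := by
      rcases hc with hc | hc
      · refine ⟨1, fun u => by rw [one_mul]; exact hc u, ?_⟩
        rw [one_mul]
        rcases hts with h1 | h1
        · rwa [h1] at hl0
        · rw [h1] at hl0
          have := lnk_neg hPrj hLn hD.hm hh hl0
          rwa [neg_neg] at this
      · refine ⟨-1, fun u => by rw [neg_one_mul]; exact hc u, ?_⟩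
        rw [neg_one_mul]
        rcases hts with h1 | h1
        · rw [h1] at hl0
          exact lnk_neg hPrj hLn hD.hm hh hl0
        · rwa [h1] at hl0
    obtain ⟨g, hg, hlg⟩ := key
    have hθ : ∃ θ : Ws D s ≃ₗ[ℂ] Ws D' (g * s), Itw h θ := by
      rcases hTh0 hPrj hCl2 hInt hIntG hDua T T' m m r D D' hD hD' h hh s (g * s) hlg with
        hθ | ⟨θ, hθ⟩
      · exact hθ
      · rcases hD.ex with ⟨u, hu0, hu1, hu2⟩
        by_cases hr2 : r = 2
        · subst hr2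
          exact itw_cast rfl (neg_neg _)
            (hR2t hPrj hDua T T' m m D D' hD' h hh s _ θ hθ)
        · exfalso
          have hu2' : 2 * D.p u ≠ r := hu2.resolve_right hr2
          obtain ⟨θ', hθ'⟩ := itw_cast (D := D) (D' := D') (s' := u) (t' := -(g * u))
            (by rw [rho_self, inv_mul_cancel_right])
            (by
              rw [rho_self, mul_neg]
              congr 1
              rw [mul_comm g s, ← mul_assoc, inv_mul_cancel_right, mul_comm])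
            (hGtr hPrj hRSH hGaH T T' m m r D D' hD hD' h hh s _ θ hθ m dvd_rfl dvd_rfl
              (by have := hD.hm; omega) (u * s⁻¹))
          have h1 := hJc hPrj hCl2 hTrJ T T' m m r D D' hD hD' h hh u _ θ' hθ' hu0 hu1
          have h2 : D'.p (-(g * u)) = D.p (-u) := by rw [hg, mul_neg]
          have h3 := hr u
          omega
    obtain ⟨θ, hθ⟩ := hθ
    exact same_isgg hPrj hTh1 hCut hTrE hHom hIso hD hD' g hg hh s θ hθ
  · exfalso
    have hm3 := hD.hm
    have hm0 : m * m' ≠ 0 := by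
      have := hD'.hm
      positivity
    have hl0 := hl (m * m') (dvd_mul_right m m') (dvd_mul_left m' m) hm0 1
    unfold rho at hl0
    rw [map_one, map_one, one_mul, one_mul] at hl0
    -- a unit which is `1` modulo `m` and `-1` modulo `m'`
    obtain ⟨M, hM, hM', hM0, ρ, hρ, hρ'⟩ : ∃ (M : ℕ) (hM : m ∣ M) (hM' : m' ∣ M), M ≠ 0 ∧
        ∃ ρ : (ZMod M)ˣ, ZMod.unitsMap hM ρ = 1 ∧ ZMod.unitsMap hM' ρ = -1 := by
      rcases hc with ⟨rfl, rfl⟩ | ⟨rfl, rfl⟩
      · refine ⟨12, by decide, by decide, by decide, ZMod.unitOfCoprime 7 (by decide), ?_, ?_⟩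
        · ext
          decide
        · ext
          decide
      · refine ⟨12, by decide, by decide, by decide, ZMod.unitOfCoprime 5 (by decide), ?_, ?_⟩
        · ext
          decide
        · ext
          decide
    obtain ⟨t', θ, hθ⟩ : ∃ (t' : (ZMod m')ˣ) (θ : Ws D s ≃ₗ[ℂ] Ws D' t'), Itw h θ := by
      rcases hTh0 hPrj hCl2 hInt hIntG hDua T T' m m' r D D' hD hD' h hh s t hl0 with
        ⟨θ, hθ⟩ | ⟨θ, hθ⟩
      · exact ⟨t, θ, hθ⟩
      · exact ⟨-t, θ, hθ⟩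
    obtain ⟨θ', hθ'⟩ := itw_cast (D := D) (D' := D') (s' := s) (t' := -t')
      (by unfold rho; rw [hρ, one_mul]) (by unfold rho; rw [hρ', neg_one_mul])
      (hGtr hPrj hRSH hGaH T T' m m' r D D' hD hD' h hh s t' θ hθ M hM hM' hM0 ρ)
    obtain ⟨h1, h2, h3, h4, h5⟩ := hPrj T T' m m' D D' h hh
    refine hNsd hDua T' m' r D' hD' hr _ h2 t' (θ.symm.trans θ') ?_
    intro C hC a b hab
    obtain ⟨C', hC', rfl⟩ := h4 C hC
    have e1 := hθ C' hC' (θ.symm a)
    have hb : θ.symm b = θ.symm b := rfl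
    -- the preimage of `b`
    have hCs : ∃ c : Ws D s, (c : Frm T) = C'.1 (θ.symm a : Frm T) := by
      obtain ⟨A', -, hA'⟩ := (tCl (tBas tPj) T m D hD.hm _ h1).2.2 C'.1 (h5 C' hC').1 s
      exact ⟨A' (θ.symm a), (hA' _).symm⟩
    obtain ⟨c, hc'⟩ := hCs
    have e2 : θ c = b := by
      apply Subtype.ext
      rw [e1 c hc', LinearEquiv.apply_symm_apply, hab]
    have e3 := hθ' C' hC' (θ.symm a) c hc'
    have e4 : c = θ.symm b := by rw [← e2, LinearEquiv.symm_apply_apply]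
    rw [LinearEquiv.trans_apply, LinearEquiv.trans_apply, ← e4]
    exact e3

end SEQ
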