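import Pool.Agent.Lib.SE.Q.SpecA

/-!
# PROJECT SE-Q: closure of the complex span of the commutators, pairs (helper2)
-/

set_option autoImplicit false

open Module

noncomputable section

namespace SEQ

open HC HC.E HC.SE SEB

namespace Cl2_aux

variable {T T' : AV}

theorem p_mul {T : AV} (X Y : Module.End ℝ T.V) : pre X * pre Y = pre (Y * X) := rfl

theorem p_sub {T : AV} (X Y : Module.End ℝ T.V) : pre X - pre Y = pre (X - Y) := by
  ext a v
  change a (X v) - a (Y v) = a ((X - Y) v)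
  rw [LinearMap.sub_apply, map_sub]

theorem p_add {T : AV} (X Y : Module.End ℝ T.V) : pre (X + Y) = pre X + pre Y := by
  ext a v
  change a ((X + Y) v) = a (X v) + a (Y v)
  rw [LinearMap.add_apply, map_add]

theorem p_zero {T : AV} : pre (0 : Module.End ℝ T.V) = 0 := by
  ext a v
  change a ((0 : Module.End ℝ T.V) v) = 0
  rw [LinearMap.zero_apply, map_zero]

theorem p_smul {T : AV} (c : ℝ) (X : Module.End ℝ T.V) : pre (c • X) = (c : ℂ) • pre X := by
  ext a v
  change a ((c • X) v) = (c : ℂ) * a (X v)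
  rw [LinearMap.smul_apply, map_smul, Complex.real_smul]

theorem q_mul (X Y : Pr2 T T') : pre2 X * pre2 Y = pre2 (Y * X) := rfl

theorem q_sub (X Y : Pr2 T T') : pre2 X - pre2 Y = pre2 (X - Y) :=
  Prod.ext (p_sub X.1 Y.1) (p_sub X.2 Y.2)

theorem q_add (X Y : Pr2 T T') : pre2 (X + Y) = pre2 X + pre2 Y :=
  Prod.ext (p_add X.1 Y.1) (p_add X.2 Y.2)

theorem q_zero : pre2 (0 : Pr2 T T') = 0 := Prod.ext p_zero p_zero

theorem q_smul (c : ℝ) (X : Pr2 T T') : pre2 (c • X) = (c : ℂ) • pre2 X :=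
  Prod.ext (p_smul c X.1) (p_smul c X.2)

/-- Commutators with an operator `P`, from generators. -/
theorem br_gg {h : Set (Pr2 T T')} (P : Module.End ℂ (Frm T) × Module.End ℂ (Frm T'))
    (hP : ∀ Y ∈ Com2 h, P * pre2 Y - pre2 Y * P ∈ gg2 h)
    {A : Module.End ℂ (Frm T) × Module.End ℂ (Frm T')}
    (hA : A ∈ gg2 h) : P * A - A * P ∈ gg2 h := by
  refine Submodule.span_induction (p := fun A _ => P * A - A * P ∈ gg2 h) ?_ ?_ ?_ ?_ hA
  · rintro _ ⟨Y, hY, rfl⟩
    exact hP Y hY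
  · rw [mul_zero, zero_mul, sub_zero]
    exact zero_mem _
  · intro A B _ _ h1 h2
    have h3 : P * (A + B) - (A + B) * P = P * A - A * P + (P * B - B * P) := by
      rw [mul_add, add_mul]
      abel
    rw [h3]
    exact add_mem h1 h2
  · intro c A _ h1
    have h3 : P * (c • A) - (c • A) * P = c • (P * A - A * P) := by
      rw [mul_smul_comm, smul_mul_assoc, smul_sub]
    rw [h3]
    exact Submodule.smul_mem _ _ h1

theorem com_sub {h : Set (Pr2 T T')} (hl : ∀ X ∈ h, ∀ Y ∈ h, X * Y - Y * X ∈ h)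
    {Y : Pr2 T T'} (hY : Y ∈ Com2 h) : Y ∈ h := by
  obtain ⟨X, hX, X', hX', rfl⟩ := hY
  exact hl X hX X' hX'

/-- `[pre2 X, A] ∈ gg2 h` for `X ∈ h`. -/
theorem br_h {h : Set (Pr2 T T')} (hl : ∀ X ∈ h, ∀ Y ∈ h, X * Y - Y * X ∈ h)
    {X : Pr2 T T'} (hX : X ∈ h) {A : Module.End ℂ (Frm T) × Module.End ℂ (Frm T')}
    (hA : A ∈ gg2 h) : pre2 X * A - A * pre2 X ∈ gg2 h := by
  refine br_gg (pre2 X) (fun Y hY => ?_) hA
  rw [q_mul, q_mul, q_sub]
  exact Submodule.subset_span ⟨_, ⟨Y, com_sub hl hY, X, hX, rfl⟩, rfl⟩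

/-- The same for the real span. -/
theorem br_span {h : Set (Pr2 T T')} (hl : ∀ X ∈ h, ∀ Y ∈ h, X * Y - Y * X ∈ h)
    {X : Pr2 T T'} (hX : X ∈ Submodule.span ℝ h)
    {A : Module.End ℂ (Frm T) × Module.End ℂ (Frm T')}
    (hA : A ∈ gg2 h) : pre2 X * A - A * pre2 X ∈ gg2 h := by
  refine Submodule.span_induction (p := fun X _ => pre2 X * A - A * pre2 X ∈ gg2 h)
    ?_ ?_ ?_ ?_ hX
  · intro X hX
    exact br_h hl hX hA
  · rw [q_zero, mul_zero, zero_mul, sub_zero]
    exact zero_mem _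
  · intro X Y _ _ h1 h2
    have h3 : pre2 (X + Y) * A - A * pre2 (X + Y) =
        pre2 X * A - A * pre2 X + (pre2 Y * A - A * pre2 Y) := by
      rw [q_add, mul_add, add_mul]
      abel
    rw [h3]
    exact add_mem h1 h2
  · intro c X _ h1
    have h3 : pre2 (c • X) * A - A * pre2 (c • X) = (c : ℂ) • (pre2 X * A - A * pre2 X) := by
      rw [q_smul, mul_smul_comm, smul_mul_assoc, smul_sub]
    rw [h3]
    exact Submodule.smul_mem _ _ h1

end Cl2_aux

open Cl2_aux in
theorem tCl2 : S_Cl2 := by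
  intro T T' m m' D D' h hh
  have hl := hh.br
  refine ⟨?_, ?_⟩
  · intro A hA B hB
    have h1 : B * A - A * B ∈ gg2 h := by
      refine br_gg B (fun Y hY => ?_) hA
      have h2 := br_h hl (com_sub hl hY) hB
      have h3 : B * pre2 Y - pre2 Y * B = -(pre2 Y * B - B * pre2 Y) := by abel
      rw [h3]
      exact neg_mem h2
    have h3 : A * B - B * A = -(B * A - A * B) := by abel
    rw [h3]
    exact neg_mem h1
  · intro A hA
    exact br_span hl hh.J hA

end SEQ
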