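import Pool.Agent.Lib.SE.Q.SpecB
import Pool.Agent.Lib.SE.Big.FLI
import Pool.Agent.Lib.SE.Big.Pj
import Pool.Agent.Lib.SE.Big.Tw

/-!
# PROJECT SE-Q, part B: change of the characters for components of a rational homomorphism
-/

set_option autoImplicit false

open Module

noncomputable section

namespace SEQ

open HC HC.E HC.SE SEB

namespace GaH_aux

open LI_aux FLI_aux

theorem rat_hom {T T' : AV} {m m' : ℕ} (D : Cyc T m) (D' : Cyc T' m') {ι : Type}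
    (b : Module.Basis ι ℝ T.V) (hb : ∀ v ∈ T.L, ∀ i, ∃ n : ℤ, b.repr v i = n)
    (Y : T'.V →ₗ[ℝ] T.V) (hY : RatHom T' T Y) (v : T'.V) (hv : v ∈ T'.L) (k k' : ℕ) (i : ι) :
    ∃ q : ℚ, bf b i ((D.ZR ^ k) (Y ((D'.ZR ^ k') v))) = (q : ℂ) := by
  obtain ⟨N, hN, h1⟩ := hY _ (pow_mem_L D' k' v hv)
  obtain ⟨n, hn⟩ := hb _ (pow_mem_L D k _ h1) i
  refine ⟨n / N, ?_⟩
  have hN' : (N : ℝ) ≠ 0 := Nat.cast_ne_zero.2 hN
  rw [map_nsmul, ← Nat.cast_smul_eq_nsmul ℝ N, map_smul, Finsupp.smul_apply, smul_eq_mul] at hn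
  rw [bf_apply]
  have h2 : b.repr ((D.ZR ^ k) (Y ((D'.ZR ^ k') v))) i = (n : ℝ) / (N : ℝ) := by
    rw [eq_div_iff hN', mul_comm]
    exact hn
  rw [h2]
  push_cast
  rfl

/-- The value of a component on a vector. -/
theorem val {T T' : AV} {m m' : ℕ} (D : Cyc T m) (D' : Cyc T' m') (Y : T'.V →ₗ[ℝ] T.V)
    (s : (ZMod m)ˣ) (t : (ZMod m')ˣ) (a : Frm T) (v : T'.V) :
    pj D' t (preH Y (pj D s a)) v =
      (m' : ℂ)⁻¹ * ∑ k' ∈ Finset.range m', (zet m' t)⁻¹ ^ k' *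
        ((m : ℂ)⁻¹ * ∑ k ∈ Finset.range m, (zet m s)⁻¹ ^ k *
          a ((D.ZR ^ k) (Y ((D'.ZR ^ k') v)))) := by
  rw [pj_apply]
  congr 1
  refine Finset.sum_congr rfl fun k' _ => ?_
  congr 1
  exact pj_apply D s a _

end GaH_aux

open LI_aux FLI_aux GaH_aux in
theorem tGaH : S_GaH := by
  intro T T' m m' D D' hm hm' M hM hM' hM0 Y hY s t ρ hst a ha
  have hM1 : 1 ≤ M := Nat.pos_of_ne_zero hM0
  obtain ⟨l, hl1, hl⟩ := tTw M hM1 ρ 1 one_ne_zero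
  have hlm := down (by omega : 1 ≤ m) hM1 hM ρ l hl
  have hlm' := down (by omega : 1 ≤ m') hM1 hM' ρ l hl
  obtain ⟨ι, _, b, -, hb2⟩ := ex_basis T
  obtain ⟨ι', _, b', hb1', -⟩ := ex_basis T'
  obtain ⟨-, hP1, hP2, -⟩ := tPj T m D hm
  have key : ∀ i k, pj D' (rho hM' ρ t) (preH Y (pj D (rho hM ρ s) (bf b i))) (b' k) = 0 := by
    intro i k
    have h1 : pj D' t (preH Y (pj D s (bf b i))) (b' k) = 0 := by
      rw [hst _ (hP1 s (bf b i))]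
      rfl
    have hq : ∀ e e' : ℕ, ∃ q : ℚ, bf b i ((D.ZR ^ e) (Y ((D'.ZR ^ e') (b' k)))) = (q : ℂ) :=
      fun e e' => rat_hom D D' b hb2 Y hY (b' k) (hb1' k) e e' i
    choose q hq using hq
    rw [val] at h1 ⊢
    simp only [hq] at h1 ⊢
    have hinner : ∀ (e' : ℕ) (x : ℂ), l (((m : ℂ)⁻¹ * ∑ e ∈ Finset.range m,
        (zet m s)⁻¹ ^ e * (q e e' : ℂ)) * x) =
        ((m : ℂ)⁻¹ * ∑ e ∈ Finset.range m, (zet m (rho hM ρ s))⁻¹ ^ e * (q e e' : ℂ)) * l x := by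
      intro e' x
      rw [Finset.mul_sum, Finset.sum_mul, map_sum, Finset.mul_sum, Finset.sum_mul]
      refine Finset.sum_congr rfl fun e _ => ?_
      have h4 : (m : ℂ)⁻¹ * ((zet m s)⁻¹ ^ e * (q e e' : ℂ)) * x =
          (((m : ℚ)⁻¹ * q e e' : ℚ) : ℂ) * ((zet m s)⁻¹ ^ e * x) := by
        push_cast
        ring
      rw [h4, l_rat, l_inv (by omega) (ZMod.unitsMap hM ρ) s l hlm]
      unfold rho
      push_cast
      ring
    have h5 := congrArg l h1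
    rw [map_zero] at h5
    rw [← h5, Finset.mul_sum, Finset.mul_sum, map_sum]
    refine Finset.sum_congr rfl fun e' _ => ?_
    have h6 : (m' : ℂ)⁻¹ * ((zet m' t)⁻¹ ^ e' * ((m : ℂ)⁻¹ * ∑ e ∈ Finset.range m,
        (zet m s)⁻¹ ^ e * (q e e' : ℂ))) =
        (((m' : ℚ)⁻¹ : ℚ) : ℂ) * ((zet m' t)⁻¹ ^ e' * (((m : ℂ)⁻¹ * ∑ e ∈ Finset.range m,
          (zet m s)⁻¹ ^ e * (q e e' : ℂ)) * 1)) := by
      push_cast
      ring
    rw [h6, l_rat, l_inv (by omega) (ZMod.unitsMap hM' ρ) t l hlm', hinner, hl1]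
    unfold rho
    push_cast
    ring
  have key2 : ∀ i, pj D' (rho hM' ρ t) (preH Y (pj D (rho hM ρ s) (bf b i))) = 0 := by
    intro i
    refine b'.ext fun k => ?_
    rw [LinearMap.zero_apply]
    exact key i k
  have h6 : a = ∑ i, a (b i) • pj D (rho hM ρ s) (bf b i) := by
    conv_lhs => rw [← hP2 (rho hM ρ s) a ha]
    conv_lhs => rw [frm_eq b a]
    rw [map_sum]
    exact Finset.sum_congr rfl fun i _ => by rw [map_smul]
  rw [h6, map_sum, map_sum]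
  refine Finset.sum_eq_zero fun i _ => ?_
  rw [map_smul, map_smul, key2 i, smul_zero]

end SEQ
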