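import Pool.Agent.Lib.SE.Q.SpecB
import Pool.Agent.Lib.SE.Big.Dim
import Pool.Agent.Lib.SE.Big.Bas
import Pool.Agent.Lib.SE.Big.Pj
import Pool.Agent.Lib.SE.Big.Tw

/-!
# PROJECT SE-Q, module Hom: from `θ` to a complex linear rational homomorphism (helper73)
-/

set_option autoImplicit false

open Module

noncomputable section

namespace SEQ

open HC HC.E HC.SE SEB

namespace Hom_aux

theorem pj_comm {T : AV} {m : ℕ} (D : Cyc T m) (X : Module.End ℝ T.V)
    (hX : ∀ v, X (D.Z v) = D.Z (X v)) (t : (ZMod m)ˣ) (a : Frm T) :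
    pj D t (pre X a) = pre X (pj D t a) := by
  have h1 : Commute (pre X) (pre D.ZR) := by
    refine LinearMap.ext fun a => LinearMap.ext fun v => ?_
    change a (D.Z (X v)) = a (X (D.Z v))
    rw [hX]
  have h2 : Commute (pre X) (pj D t) := by
    unfold pj
    exact (Commute.sum_right _ _ _ fun k _ => (h1.pow_right k).smul_right _).smul_right _
  exact (LinearMap.congr_fun h2.eq a).symm

theorem com_pow {T : AV} {m : ℕ} (D : Cyc T m) (X : Module.End ℝ T.V)
    (hX : ∀ v, X (D.Z v) = D.Z (X v)) (k : ℕ) (v : T.V) :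
    X ((D.Z ^ k) v) = (D.Z ^ k) (X v) := by
  induction k generalizing v with
  | zero => rfl
  | succ n ih => rw [pow_succ, Module.End.mul_apply, ih, hX, Module.End.mul_apply]

theorem eig_pow {T : AV} {m : ℕ} (D : Cyc T m) (s : (ZMod m)ˣ) (a : Frm T) (ha : a ∈ Ws D s)
    (k : ℕ) (v : T.V) : a ((D.Z ^ k) v) = zet m s ^ k * a v := by
  induction k generalizing v with
  | zero => simp
  | succ n ih =>
    rw [pow_succ, Module.End.mul_apply, ih, pow_succ]
    have h : a (D.Z v) = zet m s * a v := ha v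
    rw [h]
    ring

theorem rat_sum {T T' : AV} (n : ℕ) (F : ℕ → (T'.V →ₗ[ℝ] T.V)) (h : ∀ j, RatHom T' T (F j)) :
    RatHom T' T (∑ j ∈ Finset.range n, F j) := by
  induction n with
  | zero => exact fun v _ => ⟨1, one_ne_zero, by simp⟩
  | succ n ih =>
    intro v hv
    obtain ⟨N, hN, h1⟩ := ih v hv
    obtain ⟨N', hN', h2⟩ := h n v hv
    refine ⟨N * N', mul_ne_zero hN hN', ?_⟩
    rw [Finset.sum_range_succ, LinearMap.add_apply, smul_add]
    refine add_mem ?_ ?_
    · rw [mul_comm, mul_smul]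
      exact nsmul_mem h1 N'
    · rw [mul_smul]
      exact nsmul_mem h2 N

end Hom_aux

open Hom_aux

theorem tHom : S_RSH → S_Hom := by
  intro hRSH T T' m r D D' gg gg' h hh g s θ hθ
  have hB : S_Bas := tBas tPj
  have hm := gg.hm
  have hm0 : m ≠ 0 := by omega
  obtain ⟨z1, j1, j2, -⟩ := tPj T m D hm
  obtain ⟨z1', j1', j2', -⟩ := tPj T' m D' hm
  obtain ⟨d1, -⟩ := tDim tPj tTw hB T m r D hm gg.dim s
  have hr := gg.hr
  -- the operator `A`
  let pW : Frm T →ₗ[ℂ] Ws D s := (pj D s).codRestrict (Ws D s) fun a => j1 s a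
  let A : Frm T →ₗ[ℂ] Frm T' := (Ws D' (g * s)).subtype ∘ₗ θ.toLinearMap ∘ₗ pW
  have hA : ∀ X ∈ h, A ∘ₗ pre X.1 = pre X.2 ∘ₗ A := by
    intro X hX
    refine LinearMap.ext fun a => ?_
    exact hθ X hX (pW a) (pW (pre X.1 a)) (pj_comm D X.1 (hh.u X hX).1.1 s a)
  obtain ⟨n, c, Y, hAY, hY, hYc⟩ := hRSH T T' A
  have hk : ∃ k, ∃ a ∈ Ws D s, pj D' (g * s) (preH (Y k) a) ≠ 0 := by
    by_contra hk
    push Not at hk
    have hn : Nontrivial (Ws D s) := Module.nontrivial_of_finrank_pos (R := ℂ) (by omega)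
    obtain ⟨a, ha⟩ := exists_ne (0 : Ws D s)
    have e1 : A (a : Frm T) = (θ a : Frm T') := by
      change ((θ (pW (a : Frm T)) : Ws D' (g * s)) : Frm T') = _
      have : pW (a : Frm T) = a := Subtype.ext (j2 s a a.2)
      rw [this]
    have e2 : pj D' (g * s) (A (a : Frm T)) = 0 := by
      rw [hAY, LinearMap.sum_apply, map_sum]
      refine Finset.sum_eq_zero fun k _ => ?_
      rw [LinearMap.smul_apply, map_smul, hk k a a.2, smul_zero]
    rw [e1, j2' _ _ (θ a).2] at e2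
    exact ha (θ.injective (by rw [map_zero]; exact Subtype.ext e2))
  obtain ⟨k, a₀, ha₀, hne⟩ := hk
  have hYX : ∀ X ∈ h, ∀ v, X.1 (Y k v) = Y k (X.2 v) := fun X hX v =>
    LinearMap.congr_fun (hYc X.1 X.2 (hh.rat X hX).1 (hh.rat X hX).2 (hA X hX) k) v
  -- the homomorphism
  set e := (g : ZMod m).val with he
  let F : ℕ → (T'.V →ₗ[ℝ] T.V) := fun j =>
    ((D.Z ^ ((m - 1) * e * j)).restrictScalars ℝ) ∘ₗ Y k ∘ₗ ((D'.Z ^ j).restrictScalars ℝ)
  have hF : ∀ j v, F j v = (D.Z ^ ((m - 1) * e * j)) (Y k ((D'.Z ^ j) v)) := fun j v => rfl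
  set Θ : T'.V →ₗ[ℝ] T.V := ∑ j ∈ Finset.range m, F j with hΘ
  have hΘv : ∀ v, Θ v = ∑ j ∈ Finset.range m, F j v := fun v => by
    rw [hΘ, LinearMap.sum_apply]
  have hrat : RatHom T' T Θ := by
    refine rat_sum m F fun j v hv => ?_
    obtain ⟨N, hN, h1⟩ := hY k _ (Dim_aux.lat_pow D' j v hv)
    refine ⟨N, hN, ?_⟩
    rw [hF, ← map_nsmul]
    exact Dim_aux.lat_pow D _ _ h1
  have hZ : ∀ v, Θ (D'.Z v) = (D.Z ^ e) (Θ v) := by
    intro v
    have e1 : ∀ j, F j (D'.Z v) = (D.Z ^ e) (F (j + 1) v) := by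
      intro j
      rw [hF, hF, ← Module.End.mul_apply, ← Module.End.mul_apply (D.Z ^ e), ← pow_succ, ← pow_add]
      have e2 : e + (m - 1) * e * (j + 1) = m * e + (m - 1) * e * j := by
        obtain ⟨m', rfl⟩ := Nat.exists_eq_succ_of_ne_zero hm0
        simp only [Nat.succ_sub_one, Nat.succ_eq_add_one]
        ring
      have e3 : D.Z ^ (m * e + (m - 1) * e * j) = D.Z ^ ((m - 1) * e * j) := by
        rw [pow_add, pow_mul D.Z m e, z1, one_pow, one_mul]
      rw [e2, e3]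
    have e3 : F m v = F 0 v := by
      rw [hF, hF, z1', mul_comm ((m - 1) * e) m, pow_mul, z1, one_pow, mul_zero, pow_zero, pow_zero]
    rw [hΘv, hΘv, Finset.sum_congr rfl fun j _ => e1 j, ← map_sum]
    congr 1
    have e4 := Finset.sum_range_succ (fun j => F j v) m
    have e5 := Finset.sum_range_succ' (fun j => F j v) m
    rw [e4, e3] at e5
    exact (add_right_cancel e5).symm
  have hX : ∀ X ∈ h, ∀ v, X.1 (Θ v) = Θ (X.2 v) := by
    intro X hX v
    rw [hΘv, hΘv, map_sum]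
    refine Finset.sum_congr rfl fun j _ => ?_
    rw [hF, hF, com_pow D X.1 (hh.u X hX).1.1, hYX X hX, com_pow D' X.2 (hh.u X hX).2.1]
  have hI : ∀ v, Θ (Complex.I • v) = Complex.I • Θ v := by
    intro v
    have e1 : ∀ X ∈ Submodule.span ℝ h, X.1 (Θ v) = Θ (X.2 v) := by
      intro X hX'
      induction hX' using Submodule.span_induction with
      | mem X hX' => exact hX X hX' v
      | zero => simp
      | add X X' _ _ h1 h2 =>
        rw [Prod.fst_add, Prod.snd_add, LinearMap.add_apply, LinearMap.add_apply, map_add, h1, h2]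
      | smul x X _ h1 =>
        rw [Prod.smul_fst, Prod.smul_snd, LinearMap.smul_apply, LinearMap.smul_apply, map_smul, h1]
    exact (e1 _ hh.J).symm
  have hC : ∀ (x : ℂ) (v : T'.V), Θ (x • v) = x • Θ v := by
    intro x v
    have e1 : ∀ {W : Type} [AddCommGroup W] [Module ℂ W] (w : W),
        x • w = (x.re : ℂ) • w + (x.im : ℂ) • (Complex.I • w) := by
      intro W _ _ w
      rw [smul_smul, ← add_smul, Complex.re_add_im]
    rw [e1 v, e1 (Θ v), map_add, Complex.coe_smul, Complex.coe_smul, map_smul, map_smul, hI,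
      Complex.coe_smul, Complex.coe_smul]
  let ΘC : T'.V →ₗ[ℂ] T.V :=
    { toFun := Θ
      map_add' := map_add Θ
      map_smul' := hC }
  have hres : ΘC.restrictScalars ℝ = Θ := rfl
  refine ⟨ΘC, by rw [hres]; exact hrat, hZ, hX, a₀, ha₀, fun h0 => hne ?_⟩
  rw [hres] at h0
  have e1 : ∀ v, (m : ℂ) * pj D' (g * s) (preH (Y k) a₀) v = a₀ (Θ v) := by
    intro v
    rw [Dim_aux.pj_apply, mul_inv_cancel_left₀ (by exact_mod_cast hm0), hΘv, map_sum]
    refine Finset.sum_congr rfl fun j _ => ?_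
    rw [hF, eig_pow D s a₀ ha₀]
    have e2 : zet m s ^ ((m - 1) * e * j) = (zet m (g * s))⁻¹ ^ j := by
      have e3 : zet m s ^ e = zet m (g * s) := by
        rw [he, Dim_aux.zet_pow_val hm, mul_comm]
      have e4 : zet m (g * s) ^ (m - 1) = (zet m (g * s))⁻¹ := by
        refine eq_inv_of_mul_eq_one_left ?_
        rw [← pow_succ, Nat.sub_add_cancel (by omega)]
        unfold zet
        rw [← pow_mul, mul_comm _ m, pow_mul, Dim_aux.zeta_pow hm, one_pow]
      rw [pow_mul, mul_comm (m - 1) e, pow_mul, e3, e4]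
    rw [e2]
    rfl
  refine LinearMap.ext fun v => ?_
  have e2 : a₀ (Θ v) = 0 := LinearMap.congr_fun h0 v
  have e3 := e1 v
  rw [e2] at e3
  exact (mul_eq_zero.1 e3).resolve_left (by exact_mod_cast hm0)

end SEQ
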