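import Pool.Agent.Lib.SE.Q.SpecA
import Pool.Agent.Lib.SE.Big.Two
import Pool.Agent.Lib.SE.Big.AdJ
import Pool.Agent.Lib.SE.Big.Cl
import Pool.Agent.Lib.SE.Big.Bas
import Pool.Agent.Lib.SE.Big.Pj

/-!
# PROJECT SE-Q, module Lp: signatures of linked characters (helper42)
-/

set_option autoImplicit false
set_option linter.unusedVariables false

open Module

noncomputable section

namespace SEQ

open HC HC.E HC.SE SEB

namespace Lp_aux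

theorem key {T : AV} {m : ℕ} (D : Cyc T m) (s : (ZMod m)ˣ) {G : Type} [AddCommGroup G]
    [Module ℂ G] (P : G →ₗ[ℂ] Module.End ℂ (Frm T)) (R : G →ₗ[ℂ] Module.End ℂ (Ws D s))
    (hR : ∀ (A : G) (a : Ws D s), ((R A a : Ws D s) : Frm T) = P A (a : Frm T))
    (hJst : ∀ a ∈ Ws D s, pre (mulI T) a ∈ Ws D s) (A B : G)
    (hB : P B = pre (mulI T) * P A - P A * pre (mulI T) - (2 * Complex.I) • P A) :
    R A ∈ Two_aux.SJ D s ↔ R B = 0 := by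
  rw [Two_aux.mem_SJ]
  constructor
  · intro hA
    refine Two_aux.ext_Ws D s _ _ fun a => ?_
    have h3 := hA a ⟨pre (mulI T) a, hJst a a.2⟩ rfl
    rw [hR, hR] at h3
    rw [hR, hB]
    exact sub_eq_zero.2 h3
  · intro hA a b hab
    have h4 := hR B a
    rw [hA, hB] at h4
    have h3 : pre (mulI T) (P A (a : Frm T)) - P A (pre (mulI T) (a : Frm T)) -
        (2 * Complex.I) • P A (a : Frm T) = 0 := h4.symm
    rw [hR, hR, hab]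
    exact sub_eq_zero.1 h3

/-- the restriction -/
theorem exR {T : AV} {m : ℕ} (D : Cyc T m) (s : (ZMod m)ˣ) {G : Type} [AddCommGroup G]
    [Module ℂ G] (P : G →ₗ[ℂ] Module.End ℂ (Frm T)) (hst : ∀ A, ∀ a ∈ Ws D s, P A a ∈ Ws D s) :
    ∃ R : G →ₗ[ℂ] Module.End ℂ (Ws D s), ∀ (A : G) (a : Ws D s),
      ((R A a : Ws D s) : Frm T) = P A (a : Frm T) :=
  ⟨{ toFun := fun A => (P A).restrict (hst A)
     map_add' := fun A B => LinearMap.ext fun a => Subtype.ext (by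
      show P (A + B) (a : Frm T) = P A (a : Frm T) + P B (a : Frm T)
      rw [map_add]; rfl)
     map_smul' := fun c A => LinearMap.ext fun a => Subtype.ext (by
      show P (c • A) (a : Frm T) = c • P A (a : Frm T)
      rw [map_smul]; rfl) },
    fun A a => rfl⟩

theorem exJ {T : AV} {m : ℕ} (D : Cyc T m) (hm : 3 ≤ m) (s : (ZMod m)ˣ) :
    ∀ a ∈ Ws D s, pre (mulI T) a ∈ Ws D s := by
  intro a ha
  refine (tBas tPj T m D hm).2.2.1 (mulI T) ?_ s a ha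
  intro v
  show Complex.I • D.Z v = D.Z (Complex.I • v)
  rw [map_smul]

/-- the core -/
theorem Lp_core {T T' : AV} {m m' : ℕ} (D : Cyc T m) (D' : Cyc T' m') (hm : 3 ≤ m) (hm' : 3 ≤ m')
    (s : (ZMod m)ˣ) (t : (ZMod m')ˣ) {G : Type} [AddCommGroup G] [Module ℂ G]
    (P : G →ₗ[ℂ] Module.End ℂ (Frm T)) (P' : G →ₗ[ℂ] Module.End ℂ (Frm T'))
    (hst : ∀ A, ∀ a ∈ Ws D s, P A a ∈ Ws D s) (hst' : ∀ A, ∀ a ∈ Ws D' t, P' A a ∈ Ws D' t)
    (hJ : ∀ A, ∃ B, P B = pre (mulI T) * P A - P A * pre (mulI T) - (2 * Complex.I) • P A ∧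
      P' B = pre (mulI T') * P' A - P' A * pre (mulI T') - (2 * Complex.I) • P' A)
    (hl : ∀ A, (∀ a ∈ Ws D s, P A a = 0) ↔ ∀ b ∈ Ws D' t, P' A b = 0)
    (hs : ∀ X : Module.End ℂ (Ws D s), LinearMap.trace ℂ (Ws D s) X = 0 →
      ∃ A, ∀ a : Ws D s, P A (a : Frm T) = (X a : Frm T))
    (ht : ∀ X : Module.End ℂ (Ws D' t), LinearMap.trace ℂ (Ws D' t) X = 0 →
      ∃ A, ∀ a : Ws D' t, P' A (a : Frm T') = (X a : Frm T')) :
    D.p s * D.p (-s) = D'.p t * D'.p (-t) := by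
  obtain ⟨R, hR⟩ := exR D s P hst
  obtain ⟨R', hR'⟩ := exR D' t P' hst'
  have hBas : S_Bas := tBas tPj
  have a1 := tAdJ hBas T m D hm s (Two_aux.SJ D s) (Two_aux.mem_SJ D s)
  have a2 := tAdJ hBas T' m' D' hm' t (Two_aux.SJ D' t) (Two_aux.mem_SJ D' t)
  have hgr : ∀ A, R A = 0 ↔ R' A = 0 := by
    intro A
    have h2 : R A = 0 ↔ ∀ a ∈ Ws D s, P A a = 0 :=
      ⟨fun h3 a ha => by
        have h4 := hR A ⟨a, ha⟩
        rw [h3] at h4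
        exact h4.symm,
      fun h3 => Two_aux.ext_Ws D s _ _ fun a => by
        rw [hR]
        exact h3 a a.2⟩
    have h2' : R' A = 0 ↔ ∀ a ∈ Ws D' t, P' A a = 0 :=
      ⟨fun h3 a ha => by
        have h4 := hR' A ⟨a, ha⟩
        rw [h3] at h4
        exact h4.symm,
      fun h3 => Two_aux.ext_Ws D' t _ _ fun a => by
        rw [hR']
        exact h3 a a.2⟩
    rw [h2, h2']
    exact hl A
  have hS : ∀ A, R A ∈ Two_aux.SJ D s ↔ R' A ∈ Two_aux.SJ D' t := by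
    intro A
    obtain ⟨B, hB, hB'⟩ := hJ A
    rw [key D s P R hR (exJ D hm s) A B hB, key D' t P' R' hR' (exJ D' hm' t) A B hB']
    exact hgr B
  have hs1 : ∀ B ∈ Two_aux.SJ D s, ∃ A, R A = B := by
    intro B hB
    obtain ⟨A, hA⟩ := hs B (a1.2 B hB)
    exact ⟨A, Two_aux.ext_Ws D s _ _ fun a => by rw [hR, hA]⟩
  have hs2 : ∀ B ∈ Two_aux.SJ D' t, ∃ A, R' A = B := by
    intro B hB
    obtain ⟨A, hA⟩ := ht B (a2.2 B hB)
    exact ⟨A, Two_aux.ext_Ws D' t _ _ fun a => by rw [hR', hA]⟩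
  rw [← a1.1, ← a2.1]
  exact Two_aux.gen_sig (E₁ := Module.End ℂ (Ws D s)) (E₂ := Module.End ℂ (Ws D' t)) R R'
    (Two_aux.SJ D s) (Two_aux.SJ D' t) hgr hS hs1 hs2

/-- the core for a submodule of a larger space -/
theorem Lp_core' {T T' : AV} {m m' : ℕ} (D : Cyc T m) (D' : Cyc T' m') (hm : 3 ≤ m)
    (hm' : 3 ≤ m') (s : (ZMod m)ˣ) (t : (ZMod m')ˣ) {E : Type} [AddCommGroup E] [Module ℂ E]
    (S : Submodule ℂ E) (P : E →ₗ[ℂ] Module.End ℂ (Frm T)) (P' : E →ₗ[ℂ] Module.End ℂ (Frm T'))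
    (hst : ∀ A ∈ S, ∀ a ∈ Ws D s, P A a ∈ Ws D s) (hst' : ∀ A ∈ S, ∀ a ∈ Ws D' t, P' A a ∈ Ws D' t)
    (hJ : ∀ A ∈ S, ∃ B ∈ S, P B = pre (mulI T) * P A - P A * pre (mulI T) -
      (2 * Complex.I) • P A ∧
      P' B = pre (mulI T') * P' A - P' A * pre (mulI T') - (2 * Complex.I) • P' A)
    (hl : ∀ A ∈ S, (∀ a ∈ Ws D s, P A a = 0) ↔ ∀ b ∈ Ws D' t, P' A b = 0)
    (hs : ∀ X : Module.End ℂ (Ws D s), LinearMap.trace ℂ (Ws D s) X = 0 →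
      ∃ A ∈ S, ∀ a : Ws D s, P A (a : Frm T) = (X a : Frm T))
    (ht : ∀ X : Module.End ℂ (Ws D' t), LinearMap.trace ℂ (Ws D' t) X = 0 →
      ∃ A ∈ S, ∀ a : Ws D' t, P' A (a : Frm T') = (X a : Frm T')) :
    D.p s * D.p (-s) = D'.p t * D'.p (-t) := by
  refine Lp_core D D' hm hm' s t (P ∘ₗ S.subtype) (P' ∘ₗ S.subtype) (fun A => hst A A.2)
    (fun A => hst' A A.2) ?_ (fun A => hl A A.2) ?_ ?_
  · intro A
    obtain ⟨B, hB, h1, h2⟩ := hJ A A.2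
    exact ⟨⟨B, hB⟩, h1, h2⟩
  · intro X hX
    obtain ⟨B, hB, h1⟩ := hs X hX
    exact ⟨⟨B, hB⟩, h1⟩
  · intro X hX
    obtain ⟨B, hB, h1⟩ := ht X hX
    exact ⟨⟨B, hB⟩, h1⟩

end Lp_aux

open Lp_aux

/-- The statement without `GF1`. -/
theorem Lp_gen (hPrj : S_Prj) (hCl2 : S_Cl2) {T T' : AV} {m m' : ℕ} (D : Cyc T m)
    (D' : Cyc T' m') (hm : 3 ≤ m) (hm' : 3 ≤ m') (h : Set (Pr2 T T')) (hh : HLie2 D D' h)
    (s : (ZMod m)ˣ) (t : (ZMod m')ˣ) (hs : Hits D (Prod.fst '' h) {s})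
    (ht : Hits D' (Prod.snd '' h) {t}) (hl : Lnk D D' h s t) :
    D.p s * D.p (-s) = D'.p t * D'.p (-t) := by
  obtain ⟨p1, p2, p3, p4, p5⟩ := hPrj T T' m m' D D' h hh
  obtain ⟨-, hJ⟩ := hCl2 T T' m m' D D' h hh
  have hBas : S_Bas := tBas tPj
  obtain ⟨-, -, htr⟩ := tCl hBas T m D hm _ p1
  obtain ⟨-, -, htr'⟩ := tCl hBas T' m' D' hm' _ p2
  refine Lp_core' D D' hm hm' s t (E := Module.End ℂ (Frm T) × Module.End ℂ (Frm T')) (gg2 h)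
    (LinearMap.fst ℂ (Module.End ℂ (Frm T)) (Module.End ℂ (Frm T')))
    (LinearMap.snd ℂ (Module.End ℂ (Frm T)) (Module.End ℂ (Frm T')))
    ?_ ?_ ?_ hl ?_ ?_
  · intro A hA a ha
    obtain ⟨A', -, h2⟩ := htr _ (p5 A hA).1 s
    have h3 : A.1 a = (A' ⟨a, ha⟩ : Frm T) := h2 ⟨a, ha⟩
    show A.1 a ∈ Ws D s
    rw [h3]
    exact (A' ⟨a, ha⟩).2
  · intro A hA a ha
    obtain ⟨A', -, h2⟩ := htr' _ (p5 A hA).2 t
    have h3 : A.2 a = (A' ⟨a, ha⟩ : Frm T') := h2 ⟨a, ha⟩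
    show A.2 a ∈ Ws D' t
    rw [h3]
    exact (A' ⟨a, ha⟩).2
  · intro A hA
    exact ⟨pre2 (mulI T, mulI T') * A - A * pre2 (mulI T, mulI T') - (2 * Complex.I) • A,
      (gg2 h).sub_mem (hJ A hA) ((gg2 h).smul_mem _ hA), rfl, rfl⟩
  · intro B hB
    obtain ⟨A, hA, hA1⟩ := Two_aux.exists_fam1 D s B hB
    obtain ⟨C, hC, hC'⟩ := hs A hA
    obtain ⟨C', hC1, hC2⟩ := p3 C hC
    refine ⟨C', hC1, fun a => ?_⟩
    rw [← hA1, ← hC' s (Set.mem_singleton s) a, ← hC2]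
    rfl
  · intro B hB
    obtain ⟨A, hA, hA1⟩ := Two_aux.exists_fam1 D' t B hB
    obtain ⟨C, hC, hC'⟩ := ht A hA
    obtain ⟨C', hC1, hC2⟩ := p4 C hC
    refine ⟨C', hC1, fun a => ?_⟩
    rw [← hA1, ← hC' t (Set.mem_singleton t) a, ← hC2]
    rfl

/-- The singletons are half systems. -/
theorem Lp_half {m : ℕ} (hm : 3 ≤ m) (s : (ZMod m)ˣ) : ∀ u ∈ ({s} : Set (ZMod m)ˣ),
    -u ∉ ({s} : Set (ZMod m)ˣ) := by
  intro u hu hu'
  rw [Set.mem_singleton_iff] at hu hu'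
  subst hu
  have h1 : -(u : ZMod m) = (u : ZMod m) := by rw [← Units.val_neg, hu']
  have h3 : (u : ZMod m) + (u : ZMod m) = 0 := by
    nth_rewrite 1 [← h1]
    exact neg_add_cancel _
  have h2 : (u : ZMod m) * 2 = 0 := by rw [mul_two]; exact h3
  have h4 : ((2 : ℕ) : ZMod m) = 0 := by simpa using (Units.mul_right_eq_zero u).1 h2
  have h7 := Nat.le_of_dvd (by norm_num) ((ZMod.natCast_eq_zero_iff 2 m).1 h4)
  omega

/-- **Lp**. -/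
theorem tLp : S_Lp := by
  intro hPrj hCl2 T T' m m' r r' D D' g g' h hh s t hl
  obtain ⟨p1, p2, -, -, -⟩ := hPrj T T' m m' D D' h hh
  exact Lp_gen hPrj hCl2 D D' g.hm g'.hm h hh s t (g.hit _ p1 _ (Lp_half g.hm s))
    (g'.hit _ p2 _ (Lp_half g'.hm t)) hl

end SEQ
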