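import Pool.Agent.Lib.SE.Q.SpecG
import Pool.Agent.Lib.SE.Big.Dim
import Pool.Agent.Lib.SE.Big.Tw
import Pool.Agent.Lib.SE.Big.Bas
import Pool.Agent.Lib.SE.Big.Pj

/-!
# PROJECT SE-Q, module Nsd (helper33): `Ws t` and `Ws (-t)` are not isomorphic in rank `≥ 3`
-/

set_option autoImplicit false

open Module

noncomputable section

namespace SEQ

open HC HC.E HC.SE SEB

namespace Nsd_aux

/-- A nondegenerate form for which all traceless operators are skew exists only in dimension
`≤ 2`. -/
lemma no_form {W : Type} [AddCommGroup W] [Module ℂ W] [FiniteDimensional ℂ W]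
    (h3 : 3 ≤ finrank ℂ W) (G : W → Dual ℂ W) (hG0 : ∀ u, u ≠ 0 → G u ≠ 0)
    (hGs : ∀ (c : ℂ) (u w : W), G (c • u) w = c * G u w)
    (hG : ∀ A : Module.End ℂ W, LinearMap.trace ℂ W A = 0 → ∀ a w, G (A a) w = -G a (A w)) :
    False := by
  classical
  have hnt : Nontrivial W := nontrivial_of_finrank_pos (R := ℂ) (by omega)
  obtain ⟨u, hu⟩ := exists_ne (0 : W)
  obtain ⟨w, hw⟩ : ∃ w, G u w ≠ 0 := by
    by_contra! hc
    exact hG0 u hu (LinearMap.ext hc)
  have hlt : Submodule.span ℂ ({u, w} : Set W) < ⊤ := by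
    rw [lt_top_iff_ne_top]
    intro ht
    have h1 : finrank ℂ (Submodule.span ℂ ({u, w} : Set W)) ≤ 2 := by
      have h2 := finrank_span_finset_le_card (R := ℂ) (M := W) ({u, w} : Finset W)
      have h4 : (({u, w} : Finset W) : Set W) = {u, w} := by simp
      rw [Set.finrank, h4] at h2
      exact h2.trans Finset.card_le_two
    rw [ht, finrank_top] at h1
    omega
  obtain ⟨φ, hφ0, hφ⟩ := Submodule.exists_le_ker_of_lt_top _ hlt
  have hφu : φ u = 0 := hφ (Submodule.subset_span (by simp))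
  have hφw : φ w = 0 := hφ (Submodule.subset_span (by simp))
  obtain ⟨a, ha⟩ : ∃ a, φ a ≠ 0 := by
    by_contra! hc
    exact hφ0 (LinearMap.ext hc)
  have h1 := hG (φ.smulRight u) (by rw [LinearMap.trace_smulRight, hφu]) a w
  rw [LinearMap.smulRight_apply, LinearMap.smulRight_apply, hφw, zero_smul, map_zero, neg_zero,
    hGs] at h1
  rcases mul_eq_zero.1 h1 with h | h
  · exact ha h
  · exact hw h

lemma neg_ne {m : ℕ} (hm : 3 ≤ m) (t : (ZMod m)ˣ) : -t ≠ t := by
  intro h
  have h1 : -(t : ZMod m) = (t : ZMod m) := by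
    have := congrArg Units.val h
    simpa using this
  have h2 : (2 : ZMod m) * (t : ZMod m) = 0 := by
    have h3 : (t : ZMod m) + (t : ZMod m) = 0 := by
      nth_rewrite 1 [← h1]
      ring
    rw [two_mul]
    exact h3
  have h3 : (2 : ZMod m) = 0 := by
    have h4 := congrArg (fun x => x * ((t⁻¹ : (ZMod m)ˣ) : ZMod m)) h2
    simpa [mul_assoc] using h4
  have h4 : ((2 : ℕ) : ZMod m) = 0 := by exact_mod_cast h3
  rw [ZMod.natCast_eq_zero_iff] at h4
  have := Nat.le_of_dvd (by norm_num) h4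
  omega

end Nsd_aux

open Nsd_aux in
theorem tNsd : S_Nsd := by
  intro hDua T' m' r D' hF hr h hh t κ hκ
  have hm := hF.hm
  have hdim : finrank ℂ (Ws D' t) = r :=
    (tDim tPj tTw (tBas tPj) T' m' r D' hm hF.dim t).1
  have hne : -t ≠ t := neg_ne hm t
  have hhit := hF.hit h hh {t} (by
    intro s hs hs'
    rw [Set.mem_singleton_iff] at hs hs'
    rw [hs] at hs'
    exact hne hs')
  obtain ⟨β, hβ⟩ := hDua T' m' D' hm t
  have hgu : gg h ≤ Submodule.span ℂ (pre '' {Y | IsU D' Y}) := by
    unfold gg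
    refine Submodule.span_mono (Set.image_mono ?_)
    rintro Y ⟨X, hX, X', hX', rfl⟩
    exact hh.u _ (hh.lie.br X hX X' hX')
  -- the bilinear form
  refine no_form (by rw [hdim]; exact hr) (fun a => (β a).comp (κ : Ws D' t →ₗ[ℂ] Ws D' (-t)))
    ?_ ?_ ?_
  · intro u hu hc
    have h1 : β u = 0 := by
      refine LinearMap.ext fun b => ?_
      obtain ⟨w, rfl⟩ := κ.surjective b
      exact LinearMap.congr_fun hc w
    exact hu (β.map_eq_zero_iff.1 h1)
  · intro c u w
    simp
  · intro A hA a w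
    classical
    obtain ⟨C, hC, hC'⟩ := hhit (fun s => if hs : s = t then hs ▸ A else 0) (by
      intro s
      by_cases hs : s = t
      · subst hs
        simpa using hA
      · simp [hs])
    have h1 : ∀ a : Ws D' t, C (a : Frm T') = (A a : Frm T') := by
      intro a
      have := hC' t rfl a
      simpa using this
    have h2 : (κ (A w) : Frm T') = C (κ w : Frm T') := hκ C hC w (A w) (h1 w).symm
    have h3 := hβ C (hgu hC) a (A a) (κ w) (κ (A w)) (h1 a).symm h2
    simpa using h3

end SEQ
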