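import Pool.Agent.Lib.SE.Q.SpecA

/-!
# PROJECT SE-Q, module Prj: projections of a Lie algebra of pairs (helper92)
-/

set_option autoImplicit false

open Module

noncomputable section

namespace SEQ

open HC HC.E HC.SE SEB

namespace Prj_aux

variable {T T' : AV} {m m' : ℕ}

theorem com_fst (h : Set (Pr2 T T')) : Com (Prod.fst '' h) = Prod.fst '' Com2 h := by
  ext Y
  constructor
  · rintro ⟨_, ⟨X, hX, rfl⟩, _, ⟨X', hX', rfl⟩, rfl⟩
    exact ⟨X * X' - X' * X, ⟨X, hX, X', hX', rfl⟩, rfl⟩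
  · rintro ⟨_, ⟨X, hX, X', hX', rfl⟩, rfl⟩
    exact ⟨X.1, ⟨X, hX, rfl⟩, X'.1, ⟨X', hX', rfl⟩, rfl⟩

theorem com_snd (h : Set (Pr2 T T')) : Com (Prod.snd '' h) = Prod.snd '' Com2 h := by
  ext Y
  constructor
  · rintro ⟨_, ⟨X, hX, rfl⟩, _, ⟨X', hX', rfl⟩, rfl⟩
    exact ⟨X * X' - X' * X, ⟨X, hX, X', hX', rfl⟩, rfl⟩
  · rintro ⟨_, ⟨X, hX, X', hX', rfl⟩, rfl⟩
    exact ⟨X.2, ⟨X, hX, rfl⟩, X'.2, ⟨X', hX', rfl⟩, rfl⟩

theorem gg_fst (h : Set (Pr2 T T')) : gg (Prod.fst '' h) =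
    (gg2 h).map (LinearMap.fst ℂ (Module.End ℂ (Frm T)) (Module.End ℂ (Frm T'))) := by
  unfold gg gg2
  rw [com_fst, Submodule.map_span, Set.image_image, Set.image_image]
  rfl

theorem gg_snd (h : Set (Pr2 T T')) : gg (Prod.snd '' h) =
    (gg2 h).map (LinearMap.snd ℂ (Module.End ℂ (Frm T)) (Module.End ℂ (Frm T'))) := by
  unfold gg gg2
  rw [com_snd, Submodule.map_span, Set.image_image, Set.image_image]
  rfl

theorem lie_fst {D : Cyc T m} {D' : Cyc T' m'} {h : Set (Pr2 T T')} (hh : HLie2 D D' h) :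
    HLie D (Prod.fst '' h) where
  rat := by
    rintro _ ⟨X, hX, rfl⟩
    exact (hh.rat X hX).1
  u := by
    rintro _ ⟨X, hX, rfl⟩
    exact (hh.u X hX).1
  lie :=
    { zero := ⟨0, hh.zero, rfl⟩
      add := by
        rintro _ ⟨X, hX, rfl⟩ _ ⟨Y, hY, rfl⟩
        exact ⟨X + Y, hh.add X hX Y hY, rfl⟩
      smul := by
        rintro x _ ⟨X, hX, rfl⟩
        exact ⟨(x : ℝ) • X, hh.smul x X hX, rfl⟩
      br := by
        rintro _ ⟨X, hX, rfl⟩ _ ⟨Y, hY, rfl⟩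
        exact ⟨X * Y - Y * X, hh.br X hX Y hY, rfl⟩ }
  J := by
    have h1 := Submodule.mem_map_of_mem
      (f := LinearMap.fst ℝ (Module.End ℝ T.V) (Module.End ℝ T'.V)) hh.J
    rw [Submodule.map_span] at h1
    exact h1

theorem lie_snd {D : Cyc T m} {D' : Cyc T' m'} {h : Set (Pr2 T T')} (hh : HLie2 D D' h) :
    HLie D' (Prod.snd '' h) where
  rat := by
    rintro _ ⟨X, hX, rfl⟩
    exact (hh.rat X hX).2
  u := by
    rintro _ ⟨X, hX, rfl⟩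
    exact (hh.u X hX).2
  lie :=
    { zero := ⟨0, hh.zero, rfl⟩
      add := by
        rintro _ ⟨X, hX, rfl⟩ _ ⟨Y, hY, rfl⟩
        exact ⟨X + Y, hh.add X hX Y hY, rfl⟩
      smul := by
        rintro x _ ⟨X, hX, rfl⟩
        exact ⟨(x : ℝ) • X, hh.smul x X hX, rfl⟩
      br := by
        rintro _ ⟨X, hX, rfl⟩ _ ⟨Y, hY, rfl⟩
        exact ⟨X * Y - Y * X, hh.br X hX Y hY, rfl⟩ }
  J := by
    have h1 := Submodule.mem_map_of_mem
      (f := LinearMap.snd ℝ (Module.End ℝ T.V) (Module.End ℝ T'.V)) hh.J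
    rw [Submodule.map_span] at h1
    exact h1

end Prj_aux

open Prj_aux in
theorem tPrj : S_Prj := by
  intro T T' m m' D D' h hh
  refine ⟨lie_fst hh, lie_snd hh, ?_, ?_, ?_⟩
  · intro C hC
    rw [gg_fst] at hC
    obtain ⟨C', hC', h1⟩ := Submodule.mem_map.mp hC
    exact ⟨C', hC', h1⟩
  · intro C hC
    rw [gg_snd] at hC
    obtain ⟨C', hC', h1⟩ := Submodule.mem_map.mp hC
    exact ⟨C', hC', h1⟩
  · intro C hC
    rw [gg_fst, gg_snd]
    exact ⟨Submodule.mem_map.mpr ⟨C, hC, rfl⟩, Submodule.mem_map.mpr ⟨C, hC, rfl⟩⟩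

end SEQ
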