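import Pool.Agent.Lib.SE.Q.SpecB
import Pool.Agent.Lib.SE.Big.RatSp

/-!
# PROJECT SE-Q, module RSH: rational components of a complex map of the forms of two varieties
-/

set_option autoImplicit false

open Module

noncomputable section

namespace SEQ

open HC HC.E HC.SE SEB

namespace RSH_aux

open SEB.RatSp_aux

variable {T T' : AV}

/-- The composition of a rational homomorphism with a rational endomorphism of the target. -/
theorem rat_left {X : Module.End ℝ T.V} {Y : T'.V →ₗ[ℝ] T.V} (hX : RatEnd T X)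
    (hY : RatHom T' T Y) (v : T'.V) (hv : v ∈ T'.L) : ∃ N : ℕ, N ≠ 0 ∧ N • X (Y v) ∈ T.L := by
  obtain ⟨N, hN, h⟩ := hY v hv
  obtain ⟨M, hM, h'⟩ := hX _ h
  refine ⟨M * N, mul_ne_zero hM hN, ?_⟩
  rw [map_nsmul] at h'
  rw [mul_smul]
  exact h'

/-- The composition of a rational homomorphism with a rational endomorphism of the source. -/
theorem rat_right {X' : Module.End ℝ T'.V} {Y : T'.V →ₗ[ℝ] T.V} (hX : RatEnd T' X')
    (hY : RatHom T' T Y) (v : T'.V) (hv : v ∈ T'.L) : ∃ N : ℕ, N ≠ 0 ∧ N • Y (X' v) ∈ T.L := by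
  obtain ⟨N, hN, h⟩ := hX v hv
  obtain ⟨M, hM, h'⟩ := hY _ h
  refine ⟨M * N, mul_ne_zero hM hN, ?_⟩
  rw [map_nsmul] at h'
  rw [mul_smul]
  exact h'

/-- Two maps on the forms which agree on the dual basis. -/
theorem op_ext {ι ι' : Type} [Fintype ι] (b : Module.Basis ι ℝ T.V) (b' : Module.Basis ι' ℝ T'.V)
    {A B : Frm T →ₗ[ℂ] Frm T'} (h : ∀ i j, A (fb b i) (b' j) = B (fb b i) (b' j)) : A = B := by
  refine LinearMap.ext fun a => ?_
  rw [frm_eq b a, map_sum, map_sum]
  refine Finset.sum_congr rfl fun i _ => ?_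
  rw [map_smul, map_smul]
  congr 1
  exact b'.ext fun j => h i j

theorem preH_apply (Y : T'.V →ₗ[ℝ] T.V) (a : Frm T) (v : T'.V) : preH Y a v = a (Y v) := rfl

end RSH_aux

open RSH_aux SEB.RatSp_aux in
theorem tRSH : S_RSH := by
  classical
  intro T T' A
  obtain ⟨ι, _, b, hb1, hb2⟩ := lat_basis T
  obtain ⟨ι', _, b', hb1', hb2'⟩ := lat_basis T'
  -- the rational span of the entries
  let S : Submodule ℚ ℂ := Submodule.span ℚ (Set.range fun p : ι × ι' => A (fb b p.1) (b' p.2))
  have hS : Module.Finite ℚ S := Module.Finite.span_of_finite ℚ (Set.finite_range _)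
  let c : Module.Basis (Fin (Module.finrank ℚ S)) ℚ S := Module.finBasis ℚ S
  have hmem : ∀ i j, A (fb b i) (b' j) ∈ S := fun i j =>
    Submodule.subset_span ⟨(i, j), rfl⟩
  let q : ι → ι' → Fin (Module.finrank ℚ S) → ℚ := fun i j k => c.repr ⟨_, hmem i j⟩ k
  have hq : ∀ i j, A (fb b i) (b' j) = ∑ k, (q i j k : ℂ) * (c k : ℂ) := by
    intro i j
    have h := congrArg (fun x : S => (x : ℂ)) (c.sum_repr ⟨_, hmem i j⟩)
    simp only [AddSubmonoidClass.coe_finsetSum, Submodule.coe_smul] at h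
    rw [← h]
    refine Finset.sum_congr rfl fun k _ => ?_
    rw [Rat.smul_def]
  let Y : Fin (Module.finrank ℚ S) → (T'.V →ₗ[ℝ] T.V) := fun k =>
    b'.constr ℝ fun j => ∑ i, (q i j k : ℝ) • b i
  have hY : ∀ k j, Y k (b' j) = ∑ i, (q i j k : ℝ) • b i := fun k j => b'.constr_basis ℝ _ j
  have hYr : ∀ k, RatHom T' T (Y k) := by
    intro k v hv
    rw [← b'.sum_repr v, map_sum]
    refine ex_sum _ _ fun j _ => ?_
    rw [map_smul, hY, Finset.smul_sum]
    refine ex_sum _ _ fun i _ => ?_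
    obtain ⟨n, hn⟩ := hb2' v hv j
    rw [hn, smul_smul]
    have := ex_smul (hb1 i) (n * q i j k)
    push_cast at this
    exact this
  have hfY : ∀ i j k, fb b i (Y k (b' j)) = (q i j k : ℂ) := by
    intro i j k
    rw [fb_apply, hY, map_sum, Finsupp.finsetSum_apply, Finset.sum_eq_single i]
    · rw [map_smul, Module.Basis.repr_self, Finsupp.smul_apply, Finsupp.single_eq_same]
      simp
    · intro i' _ hi
      rw [map_smul, Module.Basis.repr_self, Finsupp.smul_apply, Finsupp.single_eq_of_ne hi.symm]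
      simp
    · intro h
      exact absurd (Finset.mem_univ i) h
  have hA : A = ∑ k, (c k : ℂ) • preH (Y k) := by
    refine RSH_aux.op_ext b b' fun i j => ?_
    rw [hq, LinearMap.sum_apply, LinearMap.sum_apply]
    refine Finset.sum_congr rfl fun k _ => ?_
    rw [LinearMap.smul_apply, LinearMap.smul_apply, preH_apply, hfY, smul_eq_mul, mul_comm]
  refine ⟨_, fun k => (c k : ℂ), Y, hA, hYr, ?_⟩
  intro X X' hX hX' hc
  have key : ∀ i j k, b.repr (X (Y k (b' j)) - Y k (X' (b' j))) i = 0 := by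
    intro i j
    have hr : ∀ k, ∃ r : ℚ, b.repr (X (Y k (b' j)) - Y k (X' (b' j))) i = r := by
      intro k
      refine co b hb2 ?_ i
      rw [sub_eq_add_neg]
      exact ex_add (rat_left hX (hYr k) _ (hb1' j)) (ex_neg (rat_right hX' (hYr k) _ (hb1' j)))
    choose r hr using hr
    have h1 : (A ∘ₗ pre X) (fb b i) (b' j) = ∑ k, (c k : ℂ) * fb b i (X (Y k (b' j))) := by
      rw [hA, LinearMap.comp_apply, LinearMap.sum_apply, LinearMap.sum_apply]
      rfl
    have h2 : (pre X' ∘ₗ A) (fb b i) (b' j) = ∑ k, (c k : ℂ) * fb b i (Y k (X' (b' j))) := by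
      rw [hA, LinearMap.comp_apply, RatSp_aux.pre_apply, LinearMap.sum_apply, LinearMap.sum_apply]
      rfl
    have h0 : ∑ k, r k • c k = 0 := by
      apply Subtype.ext
      simp only [AddSubmonoidClass.coe_finsetSum, Submodule.coe_smul, Submodule.coe_zero]
      have h3 : ∀ k, r k • (c k : ℂ) =
          (c k : ℂ) * fb b i (X (Y k (b' j))) - (c k : ℂ) * fb b i (Y k (X' (b' j))) := by
        intro k
        rw [← mul_sub, ← map_sub, Rat.smul_def, mul_comm]
        congr 1
        rw [fb_apply, hr k]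
        simp
      rw [Finset.sum_congr rfl fun k _ => h3 k, Finset.sum_sub_distrib, ← h1, ← h2, hc, sub_self]
    intro k
    have h6 := Fintype.linearIndependent_iff.1 c.linearIndependent r h0 k
    rw [hr, h6]
    simp
  intro k
  refine b'.ext fun j => ?_
  have h7 : X (Y k (b' j)) - Y k (X' (b' j)) = 0 := by
    rw [← b.sum_repr (X (Y k (b' j)) - Y k (X' (b' j)))]
    exact Finset.sum_eq_zero fun i _ => by rw [key i j k, zero_smul]
  exact sub_eq_zero.1 h7

end SEQ
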