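import Pool.Agent.Lib.SE.Q.SpecB
import Pool.Agent.Lib.SE.Big.Dim
import Pool.Agent.Lib.SE.Big.Bas
import Pool.Agent.Lib.SE.Big.Pj
import Pool.Agent.Lib.SE.Big.Tw

/-!
# PROJECT SE-Q, module T34: no links between `ℚ(√-3)` and `ℚ(i)` in rank at least `3` (helper73)
-/

set_option autoImplicit false

open Module

noncomputable section

namespace SEQ

open HC HC.E HC.SE SEB

namespace T34_aux

theorem dual (W : Type) [AddCommGroup W] [Module ℂ W] (u w : W) (h : u ∉ Submodule.span ℂ {w}) :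
    ∃ φ : Module.Dual ℂ W, φ u ≠ 0 ∧ φ w = 0 := by
  obtain ⟨φ, h1, h2⟩ := Submodule.exists_dual_map_eq_bot_of_notMem h inferInstance
  refine ⟨φ, h1, ?_⟩
  have h3 : φ w ∈ Submodule.map φ (Submodule.span ℂ {w}) :=
    ⟨w, Submodule.mem_span_singleton_self w, rfl⟩
  rw [h2] at h3
  exact (Submodule.mem_bot ℂ).1 h3

/-- a subspace stable under the traceless operators -/
theorem irr (W : Type) [AddCommGroup W] [Module ℂ W] [FiniteDimensional ℂ W] (K : Submodule ℂ W)
    (hK : ∀ A : Module.End ℂ W, LinearMap.trace ℂ W A = 0 → ∀ u ∈ K, A u ∈ K) (u : W)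
    (hu : u ∈ K) (hu0 : u ≠ 0) (w : W) : w ∈ K := by
  by_cases hw : w ∈ Submodule.span ℂ {u}
  · exact (Submodule.span_le.2 (Set.singleton_subset_iff.2 hu)) hw
  · have h1 : u ∉ Submodule.span ℂ {w} := by
      intro h
      obtain ⟨c, hc⟩ := Submodule.mem_span_singleton.1 h
      have hc0 : c ≠ 0 := by
        rintro rfl
        rw [zero_smul] at hc
        exact hu0 hc.symm
      refine hw (Submodule.mem_span_singleton.2 ⟨c⁻¹, ?_⟩)
      rw [← hc, smul_smul, inv_mul_cancel₀ hc0, one_smul]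
    obtain ⟨φ, h2, h3⟩ := dual W u w h1
    have h4 := hK (φ.smulRight w) (by rw [LinearMap.trace_smulRight, h3]) u hu
    rw [LinearMap.smulRight_apply] at h4
    have h5 := K.smul_mem (φ u)⁻¹ h4
    rwa [smul_smul, inv_mul_cancel₀ h2, one_smul] at h5

/-- an operator which commutes with the traceless operators is a scalar -/
theorem sca (W : Type) [AddCommGroup W] [Module ℂ W] [FiniteDimensional ℂ W]
    (K : Module.End ℂ W)
    (hK : ∀ A : Module.End ℂ W, LinearMap.trace ℂ W A = 0 → ∀ w, K (A w) = A (K w)) :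
    ∃ c : ℂ, K = c • 1 := by
  apply LinearMap.exists_eq_smul_id_of_forall_notLinearIndependent
  intro v hv
  rw [LinearIndependent.pair_iff] at hv
  have hv0 : v ≠ 0 := by
    rintro rfl
    exact one_ne_zero (hv 1 0 (by simp)).1
  have h1 : K v ∉ Submodule.span ℂ {v} := by
    intro h
    obtain ⟨c, hc⟩ := Submodule.mem_span_singleton.1 h
    have := (hv c (-1) (by rw [hc]; simp)).2
    exact one_ne_zero (neg_eq_zero.1 this)
  obtain ⟨φ, h2, h3⟩ := dual W (K v) v h1
  have h4 := hK (φ.smulRight v) (by rw [LinearMap.trace_smulRight, h3]) v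
  rw [LinearMap.smulRight_apply, LinearMap.smulRight_apply, h3, zero_smul, map_zero] at h4
  exact hv0 ((smul_eq_zero.1 h4.symm).resolve_left h2)

theorem neg_ne {m : ℕ} (hm : 3 ≤ m) (t : (ZMod m)ˣ) : -t ≠ t := by
  intro h
  have h1 : -(t : ZMod m) = (t : ZMod m) := by
    rw [← Units.val_neg, h]
  have h2 : (t : ZMod m) * 2 = 0 := by
    have h3 : (t : ZMod m) + (t : ZMod m) = 0 := by
      nth_rewrite 1 [← h1]
      exact neg_add_cancel _
    rw [mul_two]
    exact h3
  have h4 : ((2 : ℕ) : ZMod m) = 0 := by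
    have h5 := (Units.mul_right_eq_zero t).1 h2
    simpa using h5
  have h6 := (ZMod.natCast_eq_zero_iff 2 m).1 h4
  have h7 := Nat.le_of_dvd (by norm_num) h6
  omega

theorem hit1 {T : AV} {m r : ℕ} (D : Cyc T m) (g : GF1 D r) (h : Set (Module.End ℝ T.V))
    (hh : HLie D h) (s : (ZMod m)ˣ) (A : Module.End ℂ (Ws D s))
    (hA : LinearMap.trace ℂ (Ws D s) A = 0) :
    ∃ C ∈ gg h, ∀ a : Ws D s, C (a : Frm T) = (A a : Frm T) := by
  classical
  obtain ⟨C, hC, hC1⟩ := g.hit h hh {s} (by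
    intro u hu hu'
    rw [Set.mem_singleton_iff] at hu hu'
    rw [hu] at hu'
    exact neg_ne g.hm _ hu') (Function.update (fun u => (0 : Module.End ℂ (Ws D u))) s A) (by
    intro u
    by_cases hu : u = s
    · subst hu
      rw [Function.update_self]
      exact hA
    · rw [Function.update_of_ne hu, map_zero])
  refine ⟨C, hC, fun a => ?_⟩
  have h1 := hC1 s (Set.mem_singleton s) a
  rwa [Function.update_self] at h1

theorem pj_comm {T : AV} {m : ℕ} (D : Cyc T m) (X : Module.End ℝ T.V)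
    (hX : ∀ v, X (D.Z v) = D.Z (X v)) (t : (ZMod m)ˣ) (a : Frm T) :
    pj D t (pre X a) = pre X (pj D t a) := by
  have h1 : Commute (pre X) (pre D.ZR) := by
    refine LinearMap.ext fun a => LinearMap.ext fun v => ?_
    change a (D.Z (X v)) = a (X (D.Z v))
    rw [hX]
  have h2 : Commute (pre X) (pj D t) := by
    unfold pj
    exact (Commute.sum_right _ _ _ fun k _ => (h1.pow_right k).smul_right _).smul_right _
  exact (LinearMap.congr_fun h2.eq a).symm

theorem rho12 (m m' : ℕ) (h : m = 3 ∧ m' = 4 ∨ m = 4 ∧ m' = 3) :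
    ∃ (hM : m ∣ 12) (hM' : m' ∣ 12) (ρ : (ZMod 12)ˣ),
      ZMod.unitsMap hM ρ = 1 ∧ ZMod.unitsMap hM' ρ = -1 := by
  rcases h with ⟨rfl, rfl⟩ | ⟨rfl, rfl⟩
  · exact ⟨by norm_num, by norm_num, ZMod.unitOfCoprime 7 (by norm_num), by decide, by decide⟩
  · exact ⟨by norm_num, by norm_num, ZMod.unitOfCoprime 5 (by norm_num), by decide, by decide⟩

/-- the final computation -/
theorem fin {W W' : Type} [AddCommGroup W] [Module ℂ W] [AddCommGroup W']
    [Module ℂ W'] [FiniteDimensional ℂ W] [FiniteDimensional ℂ W'] (r : ℕ) (hr : 3 ≤ r)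
    (hW' : finrank ℂ W' = r) (Θ : W ≃ₗ[ℂ] W') (J : Module.End ℂ W) (J' : Module.End ℂ W')
    (hJ : J * J = -1) (hJ' : J' * J' = -1)
    (t1 : LinearMap.trace ℂ W J = Complex.I * (1 - ((r : ℂ) - 1)))
    (t2 : LinearMap.trace ℂ W' J' = Complex.I * (((r : ℂ) - 1) - 1)) (c : ℂ)
    (hc : Θ.conj J - J' = c • 1) : False := by
  have hn : Nontrivial W' := Module.nontrivial_of_finrank_pos (R := ℂ) (by omega)
  obtain ⟨w, hw⟩ := exists_ne (0 : W')
  have h1 : c * r = Complex.I * (4 - 2 * (r : ℂ)) := by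
    have e := congrArg (LinearMap.trace ℂ W') hc
    rw [map_sub, LinearMap.trace_conj', t1, t2, map_smul, LinearMap.trace_one, hW', smul_eq_mul] at e
    rw [← e]
    ring
  have h2 : (Θ.conj J) * (Θ.conj J) = -1 := by
    refine LinearMap.ext fun x => ?_
    rw [Module.End.mul_apply, LinearEquiv.conj_apply_apply, LinearEquiv.conj_apply_apply,
      LinearEquiv.symm_apply_apply, ← Module.End.mul_apply, hJ]
    simp
  have h3 : Θ.conj J = J' + c • 1 := by
    rw [← hc]
    abel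
  rw [h3] at h2
  have hr3 : (3 : ℝ) ≤ r := by exact_mod_cast hr
  have hrc : (4 - 2 * (r : ℂ)) ≠ 0 := by
    intro h
    have : (4 - 2 * (r : ℝ)) = 0 := by exact_mod_cast h
    linarith
  have hc0 : c ≠ 0 := by
    rintro rfl
    rw [zero_mul] at h1
    exact (mul_ne_zero Complex.I_ne_zero hrc) h1.symm
  have h4 : ∀ x, J' x = (-(c / 2)) • x := by
    intro x
    have e := LinearMap.congr_fun h2 x
    have e' := LinearMap.congr_fun hJ' x
    simp only [Module.End.mul_apply, LinearMap.add_apply, LinearMap.smul_apply,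
      Module.End.one_apply, LinearMap.neg_apply, map_add, map_smul] at e e'
    rw [e'] at e
    have e2 : (2 * c) • J' x = -(c ^ 2) • x := by
      have e3 : c • J' x + (c • J' x + c • c • x) = 0 := by
        have := congrArg (fun z => z + x) e
        simp only [neg_add_cancel] at this
        rw [← this]
        module
      rw [two_mul, add_smul, neg_smul, pow_two, mul_smul]
      rw [eq_neg_iff_add_eq_zero, add_assoc]
      exact e3
    have e4 := congrArg (fun z => (2 * c)⁻¹ • z) e2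
    simp only [smul_smul] at e4
    rw [inv_mul_cancel₀ (mul_ne_zero two_ne_zero hc0), one_smul] at e4
    rw [e4]
    congr 1
    field_simp
  have h5 : c ^ 2 = -4 := by
    have e := LinearMap.congr_fun hJ' w
    rw [Module.End.mul_apply, h4, h4, smul_smul, LinearMap.neg_apply, Module.End.one_apply] at e
    have e2 : (-(c / 2) * -(c / 2) + 1) • w = 0 := by
      rw [add_smul, e, one_smul, neg_add_cancel]
    have e3 := (smul_eq_zero.1 e2).resolve_right hw
    linear_combination 4 * e3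
  have h6 : (r : ℂ) = 1 := by
    have e1 : (c * r) ^ 2 = (Complex.I * (4 - 2 * (r : ℂ))) ^ 2 := by rw [h1]
    rw [mul_pow, mul_pow, h5, Complex.I_sq] at e1
    linear_combination (-1 / 16) * e1
  have h7 : (r : ℝ) = 1 := by exact_mod_cast h6
  linarith

end T34_aux

open T34_aux

theorem tT34 : S_Prj → S_Cl2 → S_Int → S_Th0 → S_RSH → S_GaH → S_TrJ → S_T34 := by
  intro hPrj hCl2 hInt hTh0 hRSH hGaH hTrJ T T' m m' r D D' g g' hr hmm h hh s t hs ht hl
  have hB : S_Bas := tBas tPj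
  have hm := g.hm
  have hm' := g'.hm
  obtain ⟨q1, q2, q3, q4, -⟩ := hPrj T T' m m' D D' h hh
  obtain ⟨-, j1, j2, -⟩ := tPj T m D hm
  obtain ⟨-, j1', j2', -⟩ := tPj T' m' D' hm'
  obtain ⟨-, -, b1, -⟩ := hB T m D hm
  obtain ⟨-, -, b1', -⟩ := hB T' m' D' hm'
  obtain ⟨d1, d2⟩ := tDim tPj tTw hB T m r D hm g.dim s
  obtain ⟨d1', d2'⟩ := tDim tPj tTw hB T' m' r D' hm' g'.dim (-t)
  have hf : FiniteDimensional ℂ (Ws D s) := Module.finite_of_finrank_pos (by omega)
  have hf' : FiniteDimensional ℂ (Ws D' (-t)) := Module.finite_of_finrank_pos (by omega)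
  obtain ⟨θ, hθ⟩ := hTh0 hPrj hCl2 hInt T T' m m' r r D D' g g' h hh s t hs ht hl
  -- elements of `Com2 h`
  have hcom : ∀ X ∈ Com2 h, X ∈ h := by
    rintro X ⟨Y, hY, Y', hY', rfl⟩
    exact hh.br Y hY Y' hY'
  have hgg : ∀ X ∈ Com2 h, pre2 X ∈ gg2 h := fun X hX => Submodule.subset_span ⟨X, hX, rfl⟩
  -- the operator `A`
  let pW : Frm T →ₗ[ℂ] Ws D s := (pj D s).codRestrict (Ws D s) fun a => j1 s a
  let A : Frm T →ₗ[ℂ] Frm T' := (Ws D' t).subtype ∘ₗ θ.toLinearMap ∘ₗ pW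
  have hA : ∀ X ∈ Com2 h, A ∘ₗ pre X.1 = pre X.2 ∘ₗ A := by
    intro X hX
    refine LinearMap.ext fun a => ?_
    exact hθ (pre2 X) (hgg X hX) (pW a) (pW (pre X.1 a)) (pj_comm D X.1 (hh.u X (hcom X hX)).1.1 s a)
  obtain ⟨n, c, Y, hAY, hY, hYc⟩ := hRSH T T' A
  -- a component which is not zero
  have hk : ∃ k, ∃ a ∈ Ws D s, pj D' t (preH (Y k) a) ≠ 0 := by
    by_contra hk
    push Not at hk
    have hn : Nontrivial (Ws D s) := Module.nontrivial_of_finrank_pos (R := ℂ) (by omega)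
    obtain ⟨a, ha⟩ := exists_ne (0 : Ws D s)
    have e1 : A (a : Frm T) = (θ a : Frm T') := by
      change ((θ (pW (a : Frm T)) : Ws D' t) : Frm T') = _
      have : pW (a : Frm T) = a := Subtype.ext (j2 s a a.2)
      rw [this]
    have e2 : pj D' t (A (a : Frm T)) = 0 := by
      rw [hAY, LinearMap.sum_apply, map_sum]
      refine Finset.sum_eq_zero fun k _ => ?_
      rw [LinearMap.smul_apply, map_smul, hk k a a.2, smul_zero]
    rw [e1, j2' t _ (θ a).2] at e2
    exact ha (θ.injective (by rw [map_zero]; exact Subtype.ext e2))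
  obtain ⟨k, a₀, ha₀, hne⟩ := hk
  -- the map `B`
  obtain ⟨hM, hM', ρ, r1, r2⟩ := rho12 m m' hmm
  let B : Frm T →ₗ[ℂ] Frm T' := pj D' (-t) ∘ₗ preH (Y k)
  have hB0 : ∃ a : Ws D s, B (a : Frm T) ≠ 0 := by
    by_contra hc
    push Not at hc
    have e := hGaH T T' m m' D D' hm hm' 12 hM hM' (by norm_num) (Y k) (hY k) s (-t) ρ
      (fun a ha => hc ⟨a, ha⟩)
    have e1 : rho hM ρ s = s := by
      unfold rho
      rw [r1, one_mul]
    have e2 : rho hM' ρ (-t) = t := by
      unfold rho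
      rw [r2]
      simp
    rw [e1, e2] at e
    exact hne (e a₀ ha₀)
  have hBc : ∀ C ∈ gg2 h, ∀ a, B (C.1 a) = C.2 (B a) := by
    intro C hC
    induction hC using Submodule.span_induction with
    | mem C hC =>
      obtain ⟨X, hX, rfl⟩ := hC
      intro a
      have hXr := hh.rat X (hcom X hX)
      have e1 : preH (Y k) (pre X.1 a) = pre X.2 (preH (Y k) a) := by
        have e2 := hYc X.1 X.2 hXr.1 hXr.2 (hA X hX) k
        change (a ∘ₗ X.1) ∘ₗ Y k = (a ∘ₗ Y k) ∘ₗ X.2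
        rw [LinearMap.comp_assoc, e2, LinearMap.comp_assoc]
      change pj D' (-t) (preH (Y k) (pre X.1 a)) = pre X.2 (pj D' (-t) (preH (Y k) a))
      rw [e1, pj_comm D' X.2 (hh.u X (hcom X hX)).2.1]
    | zero => intro a; simp
    | add C C' _ _ h1 h2 =>
      intro a
      rw [Prod.fst_add, Prod.snd_add, LinearMap.add_apply, LinearMap.add_apply, map_add, h1, h2]
    | smul x C _ h1 =>
      intro a
      rw [Prod.smul_fst, Prod.smul_snd, LinearMap.smul_apply, LinearMap.smul_apply, map_smul, h1]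
  have hpres : ∀ C ∈ gg2 h, ∀ a ∈ Ws D s, C.1 a ∈ Ws D s := by
    intro C hC
    induction hC using Submodule.span_induction with
    | mem C hC =>
      obtain ⟨X, hX, rfl⟩ := hC
      intro a ha
      exact b1 X.1 (hh.u X (hcom X hX)).1.1 s a ha
    | zero => intro a _; exact zero_mem _
    | add C C' _ _ h1 h2 => exact fun a ha => add_mem (h1 a ha) (h2 a ha)
    | smul x C _ h1 => exact fun a ha => Submodule.smul_mem _ x (h1 a ha)
  -- `θ'`
  let θ' : Ws D s →ₗ[ℂ] Ws D' (-t) :=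
    (B ∘ₗ (Ws D s).subtype).codRestrict (Ws D' (-t)) fun a => j1' (-t) _
  have hθ' : ∀ a, ((θ' a : Ws D' (-t)) : Frm T') = B (a : Frm T) := fun a => rfl
  have hinj : Function.Injective θ' := by
    rw [← LinearMap.ker_eq_bot, Submodule.eq_bot_iff]
    intro u hu
    by_contra hu0
    obtain ⟨a, ha⟩ := hB0
    have e1 : a ∈ LinearMap.ker θ' := by
      refine irr (Ws D s) (LinearMap.ker θ') (fun A₀ hA₀ v hv => ?_) u hu hu0 a
      obtain ⟨C, hC, hC1⟩ := hit1 D g _ q1 s A₀ hA₀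
      obtain ⟨C', hC', rfl⟩ := q3 C hC
      rw [LinearMap.mem_ker] at hv ⊢
      apply Subtype.ext
      rw [hθ', ← hC1 v, hBc C' hC', ← hθ', hv]
      simp
    rw [LinearMap.mem_ker] at e1
    apply ha
    rw [← hθ', e1]
    rfl
  let Θ : Ws D s ≃ₗ[ℂ] Ws D' (-t) := θ'.linearEquivOfInjective hinj (by rw [d1, d1'])
  have hΘ : ∀ a, ((Θ a : Ws D' (-t)) : Frm T') = B (a : Frm T) := fun a => rfl
  -- `J`
  let J : Module.End ℂ (Ws D s) := (pre (mulI T)).restrict fun a ha =>
    b1 (mulI T) (fun v => (map_smul D.Z Complex.I v).symm) s a ha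
  let J' : Module.End ℂ (Ws D' (-t)) := (pre (mulI T')).restrict fun a ha =>
    b1' (mulI T') (fun v => (map_smul D'.Z Complex.I v).symm) (-t) a ha
  obtain ⟨t1, t2⟩ := hTrJ T m D hm s J fun a => rfl
  obtain ⟨t1', t2'⟩ := hTrJ T' m' D' hm' (-t) J' fun a => rfl
  obtain ⟨c', hc'⟩ := sca (Ws D' (-t)) (Θ.conj J - J') (by
    intro A₀ hA₀ w
    obtain ⟨C, hC, hC1⟩ := hit1 D' g' _ q2 (-t) A₀ hA₀
    obtain ⟨C', hC', rfl⟩ := q4 C hC
    have hCJ := (hCl2 T T' m m' D D' h hh).2 C' hC'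
    obtain ⟨a, rfl⟩ := Θ.surjective w
    have e1 := hBc _ hCJ (a : Frm T)
    have e2 : A₀ (Θ a) = Θ ⟨C'.1 (a : Frm T), hpres C' hC' a a.2⟩ := by
      apply Subtype.ext
      rw [← hC1, hΘ, hΘ, hBc C' hC']
    have e3 : ∀ x : Ws D s, (Θ.conj J) (Θ x) = Θ (J x) := fun x => by
      rw [LinearEquiv.conj_apply_apply, LinearEquiv.symm_apply_apply]
    apply Subtype.ext
    rw [LinearMap.sub_apply, LinearMap.sub_apply, map_sub, e3]
    rw [Submodule.coe_sub, Submodule.coe_sub, ← hC1, ← hC1]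
    have e4 : ((J' (A₀ (Θ a)) : Ws D' (-t)) : Frm T') = pre (mulI T') (C'.2 (Θ a : Frm T')) := by
      rw [hC1]
      rfl
    rw [e4]
    rw [e2, e3, hΘ (J a), hΘ (J ⟨C'.1 (a : Frm T), hpres C' hC' a a.2⟩), hΘ a]
    have e5 : ((J ⟨C'.1 (a : Frm T), hpres C' hC' a a.2⟩ : Ws D s) : Frm T) =
      pre (mulI T) (C'.1 (a : Frm T)) := rfl
    have e6 : ((J a : Ws D s) : Frm T) = pre (mulI T) (a : Frm T) := rfl
    have e7 : ((J' (Θ a) : Ws D' (-t)) : Frm T') = pre (mulI T') (Θ a : Frm T') := rfl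
    rw [e5, e6, e7, hΘ]
    have e8 : B (pre (mulI T) (C'.1 (a : Frm T)) - C'.1 (pre (mulI T) (a : Frm T))) =
      pre (mulI T') (C'.2 (B (a : Frm T))) - C'.2 (pre (mulI T') (B (a : Frm T))) := e1
    rw [map_sub, hBc C' hC'] at e8
    rw [sub_eq_iff_eq_add] at e8
    rw [e8]
    abel)
  refine fin r hr d1' Θ J J' t2 t2' ?_ ?_ c' hc'
  · rw [t1]
    have e1 : D.p (-s) = r - 1 := by omega
    rw [hs, e1, Nat.cast_sub (by omega)]
    push_cast
    ring
  · rw [t1']
    rw [neg_neg, ht] at d2' ⊢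
    have e1 : D'.p (-t) = r - 1 := by omega
    rw [e1, Nat.cast_sub (by omega)]
    push_cast
    ring

end SEQ
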