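import Pool.Agent.Lib.SE.Q.SpecB
import Pool.Agent.Lib.SE.Big.Cl
import Pool.Agent.Lib.SE.Big.Bas
import Pool.Agent.Lib.SE.Big.Pj
import Pool.Agent.Lib.SE.Big.J0

/-!
# PROJECT SE-Q, part B, module Th0: from a link to the isomorphism of the eigenspaces
-/

set_option autoImplicit false

open Module

noncomputable section

namespace SEQ

open HC HC.E HC.SE SEB

namespace Th0_aux

variable {T T' : AV} {m m' : ℕ}

theorem ext_Ws (D : Cyc T m) (s : (ZMod m)ˣ) (X Y : Module.End ℂ (Ws D s))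
    (hXY : ∀ a : Ws D s, ((X a : Ws D s) : Frm T) = ((Y a : Ws D s) : Frm T)) : X = Y :=
  LinearMap.ext fun a => Subtype.ext (hXY a)

theorem exists_fam1 (D : Cyc T m) (s : (ZMod m)ˣ) (X : Module.End ℂ (Ws D s))
    (hX : LinearMap.trace ℂ (Ws D s) X = 0) :
    ∃ A : ∀ s, Module.End ℂ (Ws D s), (∀ s, LinearMap.trace ℂ (Ws D s) (A s) = 0) ∧
      A s = X := by
  refine ⟨Function.update 0 s X, ?_, Function.update_self _ _ _⟩
  intro s'
  by_cases h2 : s' = s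
  · subst h2
    rw [Function.update_self]
    exact hX
  · rw [Function.update_of_ne h2, Pi.zero_apply, map_zero]

/-- the pairs of operators which are induced -/
def PP0 (D : Cyc T m) (D' : Cyc T' m') (h : Set (Pr2 T T')) (s : (ZMod m)ˣ) (t : (ZMod m')ˣ) :
    Submodule ℂ (Module.End ℂ (Ws D s) × Module.End ℂ (Ws D' t)) where
  carrier := {x | ∃ C ∈ gg2 h, (∀ a : Ws D s, C.1 (a : Frm T) = (x.1 a : Frm T)) ∧
    ∀ b : Ws D' t, C.2 (b : Frm T') = (x.2 b : Frm T')}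
  add_mem' := by
    rintro x y ⟨C, hC, h1, h2⟩ ⟨C', hC', h1', h2'⟩
    refine ⟨C + C', add_mem hC hC', fun a => ?_, fun b => ?_⟩
    · rw [Prod.fst_add, LinearMap.add_apply, h1, h1']
      rfl
    · rw [Prod.snd_add, LinearMap.add_apply, h2, h2']
      rfl
  zero_mem' := ⟨0, zero_mem _, fun a => rfl, fun b => rfl⟩
  smul_mem' := by
    rintro c x ⟨C, hC, h1, h2⟩
    refine ⟨c • C, Submodule.smul_mem _ c hC, fun a => ?_, fun b => ?_⟩
    · rw [Prod.smul_fst, LinearMap.smul_apply, h1]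
      rfl
    · rw [Prod.smul_snd, LinearMap.smul_apply, h2]
      rfl

/-- units are not equal to their negatives -/
theorem neg_ne {m : ℕ} (hm : 3 ≤ m) (s : (ZMod m)ˣ) : -s ≠ s := by
  intro h
  have h1 : -(s : ZMod m) = (s : ZMod m) := by
    have := congrArg (fun u : (ZMod m)ˣ => (u : ZMod m)) h
    simpa using this
  have h2 : (2 : ZMod m) * (s : ZMod m) = 0 := by
    linear_combination -h1
  have h3 : (2 : ZMod m) = 0 := by
    have h4 := congrArg (fun x : ZMod m => x * ((s⁻¹ : (ZMod m)ˣ) : ZMod m)) h2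
    simp only [mul_assoc, Units.mul_inv, mul_one, zero_mul] at h4
    exact h4
  have h4 : ((2 : ℕ) : ZMod m) = 0 := by
    rw [Nat.cast_ofNat]
    exact h3
  rw [ZMod.natCast_eq_zero_iff] at h4
  have := Nat.le_of_dvd (by norm_num) h4
  omega

/-- the commutator with `J` and with the projector -/
theorem brJ {s : (ZMod m)ˣ} (D : Cyc T m) (φ : Module.Dual ℂ (Ws D s)) (v : Ws D s)
    (hJ : ∀ a : Ws D s, pre (mulI T) (a : Frm T) =
        -Complex.I • (a : Frm T) + (2 * Complex.I * φ a) • (v : Frm T))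
    (C : Module.End ℂ (Frm T)) (x : Module.End ℂ (Ws D s))
    (h1 : ∀ a : Ws D s, C (a : Frm T) = (x a : Frm T)) (a : Ws D s) :
    (2 * Complex.I)⁻¹ • (pre (mulI T) (C (a : Frm T)) - C (pre (mulI T) (a : Frm T))) =
      ((((φ.smulRight v : Module.End ℂ (Ws D s)) * x -
        x * (φ.smulRight v : Module.End ℂ (Ws D s))) a : Ws D s) : Frm T) := by
  have h2 : ((((φ.smulRight v : Module.End ℂ (Ws D s)) * x -
        x * (φ.smulRight v : Module.End ℂ (Ws D s))) a : Ws D s) : Frm T) =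
      φ (x a) • (v : Frm T) - φ a • (x v : Frm T) := by
    have h3 : ((φ.smulRight v : Module.End ℂ (Ws D s)) * x -
        x * (φ.smulRight v : Module.End ℂ (Ws D s))) a = φ (x a) • v - φ a • x v := by
      rw [LinearMap.sub_apply, Module.End.mul_apply, Module.End.mul_apply,
        LinearMap.smulRight_apply, LinearMap.smulRight_apply, map_smul]
    rw [h3]
    rfl
  rw [h2, h1 a, hJ (x a), hJ a, map_add, map_smul, map_smul, h1 a, h1 v]
  have h3 : (2 * Complex.I)⁻¹ * (2 * Complex.I) = 1 :=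
    inv_mul_cancel₀ (mul_ne_zero two_ne_zero Complex.I_ne_zero)
  have h4 : -Complex.I • ((x a : Ws D s) : Frm T) + (2 * Complex.I * φ (x a)) • (v : Frm T) -
      (-Complex.I • ((x a : Ws D s) : Frm T) + (2 * Complex.I * φ a) • ((x v : Ws D s) : Frm T)) =
      (2 * Complex.I) • (φ (x a) • (v : Frm T) - φ a • ((x v : Ws D s) : Frm T)) := by
    module
  rw [h4, smul_smul, h3, one_smul]

end Th0_aux

open Th0_aux in
theorem tTh0 : S_Th0 := by
  intro hPrj hCl2 hInt T T' m m' r r' D D' hG hG' h hh s t hps hpt hL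
  obtain ⟨hh1, hh2, hl1, hl2, hpr⟩ := hPrj T T' m m' D D' h hh
  obtain ⟨hbr, hbrJ⟩ := hCl2 T T' m m' D D' h hh
  have hm := hG.hm
  have hm' := hG'.hm
  have hBas : S_Bas := tBas tPj
  obtain ⟨-, -, htr⟩ := tCl hBas T m D hm _ hh1
  obtain ⟨-, -, htr'⟩ := tCl hBas T' m' D' hm' _ hh2
  obtain ⟨φ, v, hφ, hJ⟩ := tJ0 T m D hm s hps
  obtain ⟨φ', v', hφ', hJ'⟩ := tJ0 T' m' D' hm' t hpt
  have hs : Hits D (Prod.fst '' h) {s} := hG.hit _ hh1 {s} (by
    rintro u rfl hu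
    exact neg_ne hm u hu)
  have ht : Hits D' (Prod.snd '' h) {t} := hG'.hit _ hh2 {t} (by
    rintro u rfl hu
    exact neg_ne hm' u hu)
  have hfd : FiniteDimensional ℂ (Ws D s) := inferInstance
  have hfd' : FiniteDimensional ℂ (Ws D' t) := inferInstance
  have hcl : ∀ x ∈ PP0 D D' h s t, ∀ y ∈ PP0 D D' h s t,
      (x.1 * y.1 - y.1 * x.1, x.2 * y.2 - y.2 * x.2) ∈ PP0 D D' h s t := by
    rintro x ⟨C, hC, h1, h2⟩ y ⟨C', hC', h1', h2'⟩
    refine ⟨C * C' - C' * C, hbr C hC C' hC', fun a => ?_, fun b => ?_⟩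
    · show C.1 (C'.1 (a : Frm T)) - C'.1 (C.1 (a : Frm T)) = _
      rw [h1', h1, h1, h1']
      rfl
    · show C.2 (C'.2 (b : Frm T')) - C'.2 (C.2 (b : Frm T')) = _
      rw [h2', h2, h2, h2']
      rfl
  have hclJ : ∀ x ∈ PP0 D D' h s t, ((φ.smulRight v : Module.End ℂ (Ws D s)) * x.1 -
      x.1 * (φ.smulRight v : Module.End ℂ (Ws D s)),
      (φ'.smulRight v' : Module.End ℂ (Ws D' t)) * x.2 -
        x.2 * (φ'.smulRight v' : Module.End ℂ (Ws D' t))) ∈ PP0 D D' h s t := by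
    rintro x ⟨C, hC, h1, h2⟩
    refine ⟨(2 * Complex.I)⁻¹ • (pre2 (mulI T, mulI T') * C - C * pre2 (mulI T, mulI T')),
      Submodule.smul_mem _ _ (hbrJ C hC), fun a => ?_, fun b => ?_⟩
    · exact brJ D φ v hJ C.1 x.1 h1 a
    · exact brJ D' φ' v' hJ' C.2 x.2 h2 b
  have htr0 : ∀ x ∈ PP0 D D' h s t, LinearMap.trace ℂ (Ws D s) x.1 = 0 ∧
      LinearMap.trace ℂ (Ws D' t) x.2 = 0 := by
    rintro x ⟨C, hC, h1, h2⟩
    obtain ⟨hC1, hC2⟩ := hpr C hC
    obtain ⟨A', hA1, hA2⟩ := htr C.1 hC1 s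
    obtain ⟨B', hB1, hB2⟩ := htr' C.2 hC2 t
    have e1 : x.1 = A' := ext_Ws D s _ _ fun a => by rw [← h1, hA2]
    have e2 : x.2 = B' := ext_Ws D' t _ _ fun b => by rw [← h2, hB2]
    rw [e1, e2]
    exact ⟨hA1, hB1⟩
  have hs1 : ∀ X : Module.End ℂ (Ws D s), LinearMap.trace ℂ (Ws D s) X = 0 →
      ∃ Y, (X, Y) ∈ PP0 D D' h s t := by
    intro X hX
    obtain ⟨A, hA, hA1⟩ := exists_fam1 D s X hX
    obtain ⟨C0, hC0, hC1⟩ := hs A hA
    obtain ⟨C, hC, rfl⟩ := hl1 C0 hC0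
    obtain ⟨B', -, hB2⟩ := htr' C.2 (hpr C hC).2 t
    refine ⟨B', C, hC, fun a => ?_, hB2⟩
    rw [← hA1]
    exact hC1 s rfl a
  have hs2 : ∀ Y : Module.End ℂ (Ws D' t), LinearMap.trace ℂ (Ws D' t) Y = 0 →
      ∃ X, (X, Y) ∈ PP0 D D' h s t := by
    intro Y hY
    obtain ⟨A, hA, hA1⟩ := exists_fam1 D' t Y hY
    obtain ⟨C0, hC0, hC1⟩ := ht A hA
    obtain ⟨C, hC, rfl⟩ := hl2 C0 hC0
    obtain ⟨A', -, hA2⟩ := htr C.1 (hpr C hC).1 s
    refine ⟨A', C, hC, hA2, fun b => ?_⟩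
    rw [← hA1]
    exact hC1 t rfl b
  have hlk : ∀ x ∈ PP0 D D' h s t, x.1 = 0 ↔ x.2 = 0 := by
    rintro x ⟨C, hC, h1, h2⟩
    have h3 : (∀ a ∈ Ws D s, C.1 a = 0) ↔ x.1 = 0 := by
      constructor
      · intro h4
        refine ext_Ws D s _ _ fun a => ?_
        rw [← h1, h4 a a.2]
        rfl
      · intro h4 a ha
        rw [h1 ⟨a, ha⟩, h4]
        rfl
    have h5 : (∀ b ∈ Ws D' t, C.2 b = 0) ↔ x.2 = 0 := by
      constructor
      · intro h4
        refine ext_Ws D' t _ _ fun b => ?_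
        rw [← h2, h4 b b.2]
        rfl
      · intro h4 b hb
        rw [h2 ⟨b, hb⟩, h4]
        rfl
    rw [← h3, ← h5]
    exact hL C hC
  obtain ⟨θ, hθ⟩ := hInt (Ws D s) (Ws D' t) (PP0 D D' h s t) φ v φ' v' hφ hφ' hcl hclJ htr0 hs1
    hs2 hlk
  refine ⟨θ, ?_⟩
  intro C hC a b hab
  obtain ⟨A', -, hA2⟩ := htr C.1 (hpr C hC).1 s
  obtain ⟨B', -, hB2⟩ := htr' C.2 (hpr C hC).2 t
  have h1 : θ (A' a) = B' (θ a) := hθ (A', B') ⟨C, hC, hA2, hB2⟩ a
  have h2 : b = A' a := Subtype.ext (by rw [hab, hA2])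
  rw [h2, h1, hB2]

end SEQ
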