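import Pool.Agent.Lib.SE.Q.SpecA
import Pool.Agent.Lib.SE.Big.Dim
import Pool.Agent.Lib.SE.Big.Bas
import Pool.Agent.Lib.SE.Big.Pj
import Pool.Agent.Lib.SE.Big.Tw

/-!
# PROJECT SE-Q, module Lu: uniqueness of linked characters
-/

set_option autoImplicit false

open Module

noncomputable section

namespace SEQ

open HC HC.E HC.SE SEB

namespace Lu_aux

theorem neg_ne {m : ℕ} (hm : 3 ≤ m) (t : (ZMod m)ˣ) : -t ≠ t := by
  intro h
  have h1 : -(t : ZMod m) = (t : ZMod m) := by
    rw [← Units.val_neg, h]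
  have h2 : (t : ZMod m) * 2 = 0 := by
    have h3 : (t : ZMod m) + (t : ZMod m) = 0 := by
      nth_rewrite 1 [← h1]
      exact neg_add_cancel _
    rw [mul_two]
    exact h3
  have h4 : ((2 : ℕ) : ZMod m) = 0 := by
    have h5 := (Units.mul_right_eq_zero t).1 h2
    simpa using h5
  have h6 := (ZMod.natCast_eq_zero_iff 2 m).1 h4
  have h7 := Nat.le_of_dvd (by norm_num) h6
  omega

/-- A nonzero traceless operator. -/
theorem trl (W : Type) [AddCommGroup W] [Module ℂ W] (r : ℕ) (hr : 2 ≤ r)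
    (hW : finrank ℂ W = r) : ∃ A : Module.End ℂ W, LinearMap.trace ℂ W A = 0 ∧ ∃ x, A x ≠ 0 := by
  have hf : Module.Finite ℂ W := Module.finite_of_finrank_pos (by omega)
  let b := Module.finBasisOfFinrankEq ℂ W hW
  let i0 : Fin r := ⟨0, by omega⟩
  let i1 : Fin r := ⟨1, by omega⟩
  have hi : i1 ≠ i0 := by
    intro h
    have := congrArg Fin.val h
    simp [i0, i1] at this
  refine ⟨LinearMap.smulRight (b.coord i0) (b i1), ?_, b i0, ?_⟩
  · rw [LinearMap.trace_smulRight, Basis.coord_apply, Basis.repr_self, Finsupp.single_apply,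
      if_neg hi]
  · rw [LinearMap.smulRight_apply, Basis.coord_apply, Basis.repr_self, Finsupp.single_apply,
      if_pos rfl, one_smul]
    exact b.ne_zero i1

theorem key {T : AV} {m r : ℕ} (D : Cyc T m) (g : GF1 D r) (h : Set (Module.End ℝ T.V))
    (hh : HLie D h) (t t' : (ZMod m)ˣ) (h1 : t' ≠ t) (h2 : t' ≠ -t) :
    ∃ C ∈ gg h, (∀ b ∈ Ws D t', C b = 0) ∧ ¬ ∀ b ∈ Ws D t, C b = 0 := by
  classical
  have hD := (tDim tPj tTw (tBas tPj) T m r D g.hm g.dim t).1
  obtain ⟨A, hA, x, hx⟩ := trl (Ws D t) r g.hr hD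
  obtain ⟨C, hC, hC1⟩ := g.hit h hh {t, t'} (by
    intro s hs hs'
    rw [Set.mem_insert_iff, Set.mem_singleton_iff] at hs hs'
    rcases hs with rfl | rfl
    · rcases hs' with h3 | h3
      · exact neg_ne g.hm _ h3
      · exact h2 h3.symm
    · rcases hs' with h3 | h3
      · exact h2 (by rw [← h3, neg_neg])
      · exact neg_ne g.hm _ h3) (fun s => if hs : s = t then hs ▸ A else 0) (by
    intro s
    by_cases hs : s = t
    · subst hs
      simpa using hA
    · simp [hs])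
  refine ⟨C, hC, fun b hb => ?_, fun h3 => hx ?_⟩
  · have h4 := hC1 t' (Set.mem_insert_of_mem t (Set.mem_singleton t')) ⟨b, hb⟩
    simpa [h1] using h4
  · have h4 := hC1 t (Set.mem_insert t _) x
    rw [h3 x x.2] at h4
    have h5 : ((A x : Ws D t) : Frm T) = 0 := by
      simpa using h4.symm
    exact Subtype.ext h5

end Lu_aux

open Lu_aux

theorem tLu : S_Lu := by
  intro hPrj T T' m m' r r' D D' g g' h hh
  obtain ⟨p1, p2, p3, p4, -⟩ := hPrj T T' m m' D D' h hh
  constructor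
  · intro s t t' l1 l2
    by_contra hc
    rw [not_or] at hc
    obtain ⟨C, hC, c1, c2⟩ := key D' g' _ p2 t t' hc.1 hc.2
    obtain ⟨C', hC', rfl⟩ := p4 C hC
    exact c2 ((l1 C' hC').1 ((l2 C' hC').2 c1))
  · intro s s' t l1 l2
    by_contra hc
    rw [not_or] at hc
    obtain ⟨C, hC, c1, c2⟩ := key D g _ p1 s s' hc.1 hc.2
    obtain ⟨C', hC', rfl⟩ := p3 C hC
    exact c2 ((l1 C' hC').2 ((l2 C' hC').1 c1))

end SEQ
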