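import Pool.Agent.Lib.SE.Q.SpecB
import Pool.Agent.Lib.SE.Big.Pj
import Pool.Agent.Lib.SE.Big.Bas

/-!
# PROJECT SE-Q, module TrE: the trace condition on the eigenspaces (helper90)
-/

set_option autoImplicit false

open Module

noncomputable section

namespace SEQ

open HC HC.E HC.SE SEB

namespace TrE_aux

lemma zet_pow_one {m : ℕ} (hm : m ≠ 0) (t : (ZMod m)ˣ) : zet m t ^ m = 1 := by
  unfold zet
  rw [← pow_mul, Nat.mul_comm, pow_mul, (Complex.isPrimitiveRoot_exp m hm).pow_eq_one, one_pow]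

lemma zet_inj {m : ℕ} (hm : m ≠ 0) (s t : (ZMod m)ˣ) (h : zet m s = zet m t) : s = t := by
  have : NeZero m := ⟨hm⟩
  have h1 := (Complex.isPrimitiveRoot_exp m hm).pow_inj (ZMod.val_lt (s : ZMod m))
    (ZMod.val_lt (t : ZMod m)) h
  exact Units.ext (ZMod.val_injective m h1)

lemma zet_ne {m : ℕ} (hm : m ≠ 0) (t : (ZMod m)ˣ) : zet m t ≠ 0 := by
  intro h
  have h1 := zet_pow_one hm t
  rw [h, zero_pow hm] at h1
  exact zero_ne_one h1

/-- powers of the characters only depend on the product of the exponents modulo `m` -/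
lemma zet_pow_eq {m : ℕ} (hm : m ≠ 0) (s t : (ZMod m)ˣ) (x y : ZMod m)
    (h : (s : ZMod m) * x = (t : ZMod m) * y) : zet m s ^ x.val = zet m t ^ y.val := by
  have : NeZero m := ⟨hm⟩
  unfold zet
  rw [← pow_mul, ← pow_mul]
  have h1 : ((s : ZMod m).val * x.val) % m = ((t : ZMod m).val * y.val) % m := by
    have h2 : (((s : ZMod m).val * x.val : ℕ) : ZMod m) = (((t : ZMod m).val * y.val : ℕ) : ZMod m) := by
      push_cast
      rw [ZMod.natCast_zmod_val, ZMod.natCast_zmod_val, ZMod.natCast_zmod_val,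
        ZMod.natCast_zmod_val, h]
    exact (ZMod.natCast_eq_natCast_iff' _ _ _).mp h2
  have h3 : ∀ a : ℕ, Complex.exp (2 * Real.pi * Complex.I / m) ^ a =
      Complex.exp (2 * Real.pi * Complex.I / m) ^ (a % m) := fun a =>
    pow_eq_pow_mod a (Complex.isPrimitiveRoot_exp m hm).pow_eq_one
  rw [h3, h1, ← h3]

/-- the characters are linearly independent -/
lemma indep {m : ℕ} (hm : m ≠ 0) [Fintype (ZMod m)ˣ] (c : (ZMod m)ˣ → ℂ)
    (h : ∀ k < m, ∑ v, zet m v ^ k * c v = 0) (v₀ : (ZMod m)ˣ) : c v₀ = 0 := by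
  classical
  have hc0 := zet_ne hm v₀
  have h1 : ∑ k ∈ Finset.range m, (zet m v₀)⁻¹ ^ k * ∑ v, zet m v ^ k * c v = 0 :=
    Finset.sum_eq_zero fun k hk => by rw [h k (Finset.mem_range.mp hk), mul_zero]
  have h2 : ∑ k ∈ Finset.range m, (zet m v₀)⁻¹ ^ k * ∑ v, zet m v ^ k * c v =
      ∑ v, (∑ k ∈ Finset.range m, ((zet m v₀)⁻¹ * zet m v) ^ k) * c v := by
    simp_rw [Finset.mul_sum, Finset.sum_mul]
    rw [Finset.sum_comm]
    refine Finset.sum_congr rfl fun v _ => Finset.sum_congr rfl fun k _ => ?_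
    rw [mul_pow]; ring
  rw [h2, Finset.sum_eq_single v₀] at h1
  · rw [inv_mul_cancel₀ hc0] at h1
    simp only [one_pow, Finset.sum_const, Finset.card_range, nsmul_eq_mul, mul_one] at h1
    exact (mul_eq_zero.mp h1).resolve_left (Nat.cast_ne_zero.mpr hm)
  · intro v _ hv
    have hx : (zet m v₀)⁻¹ * zet m v ≠ 1 := by
      intro h1
      apply hv
      apply zet_inj hm
      have h2 : zet m v₀ * ((zet m v₀)⁻¹ * zet m v) = zet m v₀ * 1 := by rw [h1]
      rw [← mul_assoc, mul_inv_cancel₀ hc0, one_mul, mul_one] at h2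
      exact h2
    rw [geom_sum_eq hx, mul_pow, inv_pow, zet_pow_one hm, zet_pow_one hm, inv_one, mul_one,
      sub_self, zero_div, zero_mul]
  · intro h0
    exact absurd (Finset.mem_univ _) h0

/-- the operators induced on the eigenspaces -/
lemma family {T : AV} {m : ℕ} (D : Cyc T m) (hm : 3 ≤ m) (X : Module.End ℝ T.V)
    (hX : ∀ v, X (D.Z v) = D.Z (X v)) : ∃ A : ∀ u, Module.End ℂ (Ws D u),
      ∀ u (a : Ws D u), pre X (a : Frm T) = (A u a : Frm T) := by
  have h3 := (tBas tPj T m D hm).2.2.1 X hX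
  exact ⟨fun u => (pre X).restrict (h3 u), fun u a => rfl⟩

end TrE_aux

open TrE_aux in
/-- **TrE** -/
theorem tTrE : S_TrS → S_TrE := by
  intro hS T T' m D D' hm g X hX hX' hT u A B hA hB
  have hm0 : m ≠ 0 := by omega
  have : NeZero m := ⟨hm0⟩
  obtain ⟨A', hA'⟩ := family D hm X.1 hX
  obtain ⟨B', hB'⟩ := family D' hm X.2 hX'
  have eA : A = A' u := LinearMap.ext fun a => Subtype.ext (by rw [← hA, hA'])
  have eB : B = B' (g * u) := LinearMap.ext fun a => Subtype.ext (by rw [← hB, hB'])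
  rw [eA, eB]
  let f : (ZMod m)ˣ → ℂ := fun v => LinearMap.trace ℂ (Ws D v) (A' v)
  let b : (ZMod m)ˣ → ℂ := fun v => LinearMap.trace ℂ (Ws D' v) (B' v)
  have key : ∀ k < m, ∑ v, zet m v ^ k * (f (g⁻¹ * v) - b v) = 0 := by
    intro k hk
    have ek : ((k : ZMod m)).val = k := ZMod.val_cast_of_lt hk
    have h1 := hS T m D hm X.1 hX A' hA' ((g : ZMod m) * (k : ZMod m)).val
    have h2 := hS T' m D' hm X.2 hX' B' hB' (k : ZMod m).val
    rw [hT (k : ZMod m)] at h1
    have h3 := h1.symm.trans h2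
    have h4 : ∑ v, zet m v ^ ((g : ZMod m) * (k : ZMod m)).val * f v =
        ∑ v, zet m v ^ k * f (g⁻¹ * v) := by
      rw [← Equiv.sum_comp (Equiv.mulLeft g⁻¹)]
      refine Finset.sum_congr rfl fun v _ => ?_
      have h5 : zet m (g⁻¹ * v) ^ ((g : ZMod m) * (k : ZMod m)).val =
          zet m v ^ (k : ZMod m).val := by
        refine zet_pow_eq hm0 _ _ _ _ ?_
        rw [Units.val_mul]
        calc ((g⁻¹ : (ZMod m)ˣ) : ZMod m) * (v : ZMod m) * ((g : ZMod m) * (k : ZMod m))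
            = (((g⁻¹ : (ZMod m)ˣ) : ZMod m) * (g : ZMod m)) * ((v : ZMod m) * (k : ZMod m)) := by
              ring
          _ = (v : ZMod m) * (k : ZMod m) := by rw [Units.inv_mul, one_mul]
      rw [Equiv.coe_mulLeft, h5, ek]
    have h6 : ∑ v, zet m v ^ ((g : ZMod m) * (k : ZMod m)).val * f v =
        ∑ v, zet m v ^ k * b v := by
      rw [h3, ek]
    have h7 : ∑ v, zet m v ^ k * (f (g⁻¹ * v) - b v) =
        ∑ v, zet m v ^ k * f (g⁻¹ * v) - ∑ v, zet m v ^ k * b v := by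
      rw [← Finset.sum_sub_distrib]
      exact Finset.sum_congr rfl fun v _ => by ring
    rw [h7, ← h4, h6, sub_self]
  have h := indep hm0 (fun v => f (g⁻¹ * v) - b v) key (g * u)
  have h' : f (g⁻¹ * (g * u)) - b (g * u) = 0 := h
  rw [inv_mul_cancel_left] at h'
  exact sub_eq_zero.mp h'

end SEQ
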