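import Pool.Agent.Lib.SE.Q.B
import Pool.Agent.Lib.SE.Q.Bg
import Pool.Agent.Lib.SE.Q.Prj
import Pool.Agent.Lib.SE.Q.Cl2
import Pool.Agent.Lib.SE.Q.Ln
import Pool.Agent.Lib.SE.Q.Int
import Pool.Agent.Lib.SE.Q.IntG
import Pool.Agent.Lib.SE.Q.Dua
import Pool.Agent.Lib.SE.Q.Th0
import Pool.Agent.Lib.SE.Q.Th0g
import Pool.Agent.Lib.SE.Q.Th1
import Pool.Agent.Lib.SE.Q.Th1g
import Pool.Agent.Lib.SE.Q.Cut
import Pool.Agent.Lib.SE.Q.Cutg
import Pool.Agent.Lib.SE.Q.TrS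
import Pool.Agent.Lib.SE.Q.TrJ
import Pool.Agent.Lib.SE.Q.TrE
import Pool.Agent.Lib.SE.Q.Hom
import Pool.Agent.Lib.SE.Q.Homg
import Pool.Agent.Lib.SE.Q.Iso
import Pool.Agent.Lib.SE.Q.Isog
import Pool.Agent.Lib.SE.Q.T34
import Pool.Agent.Lib.SE.Q.RSH
import Pool.Agent.Lib.SE.Q.GaH
import Pool.Agent.Lib.SE.Q.R2t
import Pool.Agent.Lib.SE.Q.Jc
import Pool.Agent.Lib.SE.Q.Gtr
import Pool.Agent.Lib.SE.Q.Nsd
import Pool.Agent.Lib.SE.Q.Lp
import Pool.Agent.Lib.SE.Big.Dim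
import Pool.Agent.Lib.SE.Big.Tw

/-!
# PROJECT SE-Q, parts B and G closed: `S_B`, `S_Bg` without hypotheses (helper42)
-/

set_option autoImplicit false

noncomputable section

namespace SEQ

open HC HC.E HC.SE SEB

theorem dim_all : S_Dim := tDim tPj tTw (tBas tPj)

theorem tT34_all : S_T34 := tT34 tPrj tCl2 tInt tTh0 tRSH tGaH tTrJ

/-- **Part B**: independent good factors with a pair of linked characters with `p = 1` and the same
type function are isogenous. -/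
theorem tB_all : S_B :=
  tB tPrj tCl2 tLp tLn tInt tTh0 tTh1 (tCut tTrS tTrJ) (tTrE tTrS) (tHom tRSH)
    (tIso tPrj tGaH) tT34_all dim_all

/-- **Part G**: the same for every signature. -/
theorem tBg_all : S_Bg :=
  tBg tPrj tCl2 tLn tInt tIntG tDua tTh0g tR2t tJc tGtr tNsd tTrJ tRSH tGaH tTh1g
    (tCutg tTrS tTrJ) (tTrE tTrS) (tHomg tRSH) (tIsog tPrj tGaH) dim_all

end SEQ
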