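import Pool.Agent.Lib.SE.Q.SpecA
import Pool.Agent.Lib.SE.Big.Cl
import Pool.Agent.Lib.SE.Big.Gou
import Pool.Agent.Lib.SE.Big.Bas
import Pool.Agent.Lib.SE.Big.Pj

/-!
# PROJECT SE-Q, part A, module Gt2: Goursat
-/

set_option autoImplicit false

open Module

noncomputable section

namespace SEQ

open HC HC.E HC.SE SEB

namespace Gt2_aux

variable {T T' : AV} {m m' : ℕ}

theorem ext_Ws (D : Cyc T m) (s : (ZMod m)ˣ) (X Y : Module.End ℂ (Ws D s))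
    (hXY : ∀ a : Ws D s, ((X a : Ws D s) : Frm T) = ((Y a : Ws D s) : Frm T)) : X = Y :=
  LinearMap.ext fun a => Subtype.ext (hXY a)

theorem exists_fam1 (D : Cyc T m) (s : (ZMod m)ˣ) (X : Module.End ℂ (Ws D s))
    (hX : LinearMap.trace ℂ (Ws D s) X = 0) :
    ∃ A : ∀ s, Module.End ℂ (Ws D s), (∀ s, LinearMap.trace ℂ (Ws D s) (A s) = 0) ∧
      A s = X := by
  refine ⟨Function.update 0 s X, ?_, Function.update_self _ _ _⟩
  intro s'
  by_cases h2 : s' = s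
  · subst h2
    rw [Function.update_self]
    exact hX
  · rw [Function.update_of_ne h2, Pi.zero_apply, map_zero]

/-- the pairs of operators which are induced -/
def PP0 (D : Cyc T m) (D' : Cyc T' m') (h : Set (Pr2 T T')) (s : (ZMod m)ˣ) (t : (ZMod m')ˣ) :
    Submodule ℂ (Module.End ℂ (Ws D s) × Module.End ℂ (Ws D' t)) where
  carrier := {x | ∃ C ∈ gg2 h, (∀ a : Ws D s, C.1 (a : Frm T) = (x.1 a : Frm T)) ∧
    ∀ b : Ws D' t, C.2 (b : Frm T') = (x.2 b : Frm T')}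
  add_mem' := by
    rintro x y ⟨C, hC, h1, h2⟩ ⟨C', hC', h1', h2'⟩
    refine ⟨C + C', add_mem hC hC', fun a => ?_, fun b => ?_⟩
    · rw [Prod.fst_add, LinearMap.add_apply, h1, h1']
      rfl
    · rw [Prod.snd_add, LinearMap.add_apply, h2, h2']
      rfl
  zero_mem' := ⟨0, zero_mem _, fun a => rfl, fun b => rfl⟩
  smul_mem' := by
    rintro c x ⟨C, hC, h1, h2⟩
    refine ⟨c • C, Submodule.smul_mem _ c hC, fun a => ?_, fun b => ?_⟩
    · rw [Prod.smul_fst, LinearMap.smul_apply, h1]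
      rfl
    · rw [Prod.smul_snd, LinearMap.smul_apply, h2]
      rfl

end Gt2_aux

open Gt2_aux in
theorem tGt2 : S_Prj → S_Cl2 → S_Gt2 := by
  intro hPrj hCl2 T T' m m' D D' hm hm' h hh s t hs ht
  obtain ⟨hh1, hh2, hl1, hl2, hpr⟩ := hPrj T T' m m' D D' h hh
  obtain ⟨hbr, -⟩ := hCl2 T T' m m' D D' h hh
  have hBas : S_Bas := tBas tPj
  obtain ⟨-, -, htr⟩ := tCl hBas T m D hm _ hh1
  obtain ⟨-, -, htr'⟩ := tCl hBas T' m' D' hm' _ hh2
  have hfd : FiniteDimensional ℂ (Ws D s) := inferInstance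
  have hfd' : FiniteDimensional ℂ (Ws D' t) := inferInstance
  have hmem : ∀ x : Module.End ℂ (Ws D s) × Module.End ℂ (Ws D' t), x ∈ PP0 D D' h s t ↔
      ∃ C ∈ gg2 h, (∀ a : Ws D s, C.1 (a : Frm T) = (x.1 a : Frm T)) ∧
        ∀ b : Ws D' t, C.2 (b : Frm T') = (x.2 b : Frm T') := fun x => Iff.rfl
  have hcl : ∀ x ∈ PP0 D D' h s t, ∀ y ∈ PP0 D D' h s t,
      (x.1 * y.1 - y.1 * x.1, x.2 * y.2 - y.2 * x.2) ∈ PP0 D D' h s t := by
    rintro x ⟨C, hC, h1, h2⟩ y ⟨C', hC', h1', h2'⟩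
    refine ⟨C * C' - C' * C, hbr C hC C' hC', fun a => ?_, fun b => ?_⟩
    · show C.1 (C'.1 (a : Frm T)) - C'.1 (C.1 (a : Frm T)) = _
      rw [h1', h1, h1, h1']
      rfl
    · show C.2 (C'.2 (b : Frm T')) - C'.2 (C.2 (b : Frm T')) = _
      rw [h2', h2, h2, h2']
      rfl
  have htr0 : ∀ x ∈ PP0 D D' h s t, LinearMap.trace ℂ (Ws D s) x.1 = 0 ∧
      LinearMap.trace ℂ (Ws D' t) x.2 = 0 := by
    rintro x ⟨C, hC, h1, h2⟩
    obtain ⟨hC1, hC2⟩ := hpr C hC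
    obtain ⟨A', hA1, hA2⟩ := htr C.1 hC1 s
    obtain ⟨B', hB1, hB2⟩ := htr' C.2 hC2 t
    have e1 : x.1 = A' := ext_Ws D s _ _ fun a => by rw [← h1, hA2]
    have e2 : x.2 = B' := ext_Ws D' t _ _ fun b => by rw [← h2, hB2]
    rw [e1, e2]
    exact ⟨hA1, hB1⟩
  have hs1 : ∀ X : Module.End ℂ (Ws D s), LinearMap.trace ℂ (Ws D s) X = 0 →
      ∃ Y, (X, Y) ∈ PP0 D D' h s t := by
    intro X hX
    obtain ⟨A, hA, hA1⟩ := exists_fam1 D s X hX
    obtain ⟨C0, hC0, hC1⟩ := hs A hA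
    obtain ⟨C, hC, rfl⟩ := hl1 C0 hC0
    obtain ⟨B', -, hB2⟩ := htr' C.2 (hpr C hC).2 t
    refine ⟨B', C, hC, fun a => ?_, hB2⟩
    rw [← hA1]
    exact hC1 s rfl a
  have hs2 : ∀ Y : Module.End ℂ (Ws D' t), LinearMap.trace ℂ (Ws D' t) Y = 0 →
      ∃ X, (X, Y) ∈ PP0 D D' h s t := by
    intro Y hY
    obtain ⟨A, hA, hA1⟩ := exists_fam1 D' t Y hY
    obtain ⟨C0, hC0, hC1⟩ := ht A hA
    obtain ⟨C, hC, rfl⟩ := hl2 C0 hC0
    obtain ⟨A', -, hA2⟩ := htr C.1 (hpr C hC).1 s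
    refine ⟨A', C, hC, hA2, fun b => ?_⟩
    rw [← hA1]
    exact hC1 t rfl b
  rcases tGou (Ws D s) (Ws D' t) (PP0 D D' h s t) hcl htr0 hs1 hs2 with h1 | h1
  · left
    intro A B hA hB
    exact h1 A B hA hB
  · right
    intro C hC
    obtain ⟨A', -, hA2⟩ := htr C.1 (hpr C hC).1 s
    obtain ⟨B', -, hB2⟩ := htr' C.2 (hpr C hC).2 t
    have h2 : A' = 0 ↔ B' = 0 := h1 (A', B') ⟨C, hC, hA2, hB2⟩
    have h3 : (∀ a ∈ Ws D s, C.1 a = 0) ↔ A' = 0 := by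
      constructor
      · intro h4
        refine ext_Ws D s _ _ fun a => ?_
        rw [← hA2, h4 a a.2]
        rfl
      · intro h4 a ha
        rw [hA2 ⟨a, ha⟩, h4]
        rfl
    have h5 : (∀ b ∈ Ws D' t, C.2 b = 0) ↔ B' = 0 := by
      constructor
      · intro h4
        refine ext_Ws D' t _ _ fun b => ?_
        rw [← hB2, h4 b b.2]
        rfl
      · intro h4 b hb
        rw [hB2 ⟨b, hb⟩, h4]
        rfl
    rw [h3, h5]
    exact h2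

end SEQ
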