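import Pool.Agent.Lib.SE.Q.SpecC

/-!
# PROJECT SE-Q, module HtT (helper69): single characters and pairs
-/

set_option autoImplicit false

open Module

noncomputable section

namespace SEQ

open HC HC.E HC.SE SEB

theorem tHtT : S_PrT → S_HtT := by
  intro hPr q T m D hm hit hp h hh
  obtain ⟨hP1, hP2⟩ := hPr q T m D h hh
  -- one component
  have key : ∀ (i : Fin q) (F : Set (ZMod (m i))ˣ), (∀ s ∈ F, -s ∉ F) →
      HitsT D h {x | ∃ s ∈ F, x = ⟨i, s⟩} := by
    intro i F hF A hA
    obtain ⟨C, hC, hC'⟩ := hit i _ (hP1 i).1 F hF (fun s => A ⟨i, s⟩) (fun s => hA ⟨i, s⟩)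
    obtain ⟨C', hC1, hC2⟩ := (hP1 i).2 C hC
    refine ⟨C', hC1, ?_⟩
    rintro _ ⟨s, hs, rfl⟩ a
    show C' i (a : Frm (T i)) = _
    rw [hC2]
    exact hC' s hs a
  have hne : ∀ (i : Fin q) (s : (ZMod (m i))ˣ), -s ≠ s := by
    intro i s hs
    have h1 : (-s : (ZMod (m i))ˣ).val = s.val := congrArg Units.val hs
    rw [Units.val_neg] at h1
    have h2 : (2 : ZMod (m i)) * s.val = 0 := by
      have h3 : (s.val : ZMod (m i)) + s.val = 0 := by
        conv_lhs => lhs; rw [← h1]
        exact neg_add_cancel _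
      rw [two_mul]
      exact h3
    have h4 : (2 : ZMod (m i)) = 0 := by
      have h5 := congrArg (fun x => x * (↑(s⁻¹) : ZMod (m i))) h2
      simpa [mul_assoc] using h5
    have h6 : ((2 : ℕ) : ZMod (m i)) = 0 := by exact_mod_cast h4
    rw [ZMod.natCast_eq_zero_iff] at h6
    have := Nat.le_of_dvd (by norm_num) h6
    have := hm i
    omega
  refine ⟨?_, ?_⟩
  · rintro ⟨i, s⟩
    have h1 := key i {s} (by
      intro t ht
      rw [Set.mem_singleton_iff] at ht
      subst ht
      rw [Set.mem_singleton_iff]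
      exact hne i t)
    have e : ({x | ∃ t ∈ ({s} : Set (ZMod (m i))ˣ), x = ⟨i, t⟩} : Set (Ch m)) = {⟨i, s⟩} := by
      ext x
      constructor
      · rintro ⟨t, ht, rfl⟩
        rw [Set.mem_singleton_iff] at ht
        subst ht
        exact Set.mem_singleton _
      · intro hx
        rw [Set.mem_singleton_iff] at hx
        exact ⟨s, Set.mem_singleton _, hx⟩
    rwa [e] at h1
  · rintro ⟨i, s⟩ ⟨j, t⟩ hxy hxn
    by_cases hij : i = j
    · subst hij
      have hst : t ≠ s := fun hc => hxy (by rw [hc])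
      have hsn : t ≠ -s := fun hc => hxn (by rw [hc]; rfl)
      have h1 := key i {s, t} (by
        intro u hu
        rw [Set.mem_insert_iff, Set.mem_singleton_iff] at hu
        rw [Set.mem_insert_iff, Set.mem_singleton_iff]
        rcases hu with rfl | rfl
        · rintro (hc | hc)
          · exact hne i _ hc
          · exact hsn hc.symm
        · rintro (hc | hc)
          · exact hsn (by rw [← hc, neg_neg])
          · exact hne i _ hc)
      have e : ({x | ∃ u ∈ ({s, t} : Set (ZMod (m i))ˣ), x = ⟨i, u⟩} : Set (Ch m)) =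
          {⟨i, s⟩, ⟨i, t⟩} := by
        ext x
        constructor
        · rintro ⟨u, hu, rfl⟩
          rcases hu with rfl | hu
          · exact Or.inl rfl
          · rw [Set.mem_singleton_iff] at hu
            subst hu
            exact Or.inr rfl
        · rintro (hx | hx)
          · exact ⟨s, Or.inl rfl, hx⟩
          · exact ⟨t, Or.inr rfl, hx⟩
      rwa [e] at h1
    · intro A hA
      obtain ⟨C, hC, hC1, hC2⟩ := hp i j hij _ (hP2 i j).1 s t (A ⟨i, s⟩) (A ⟨j, t⟩)
        (hA ⟨i, s⟩) (hA ⟨j, t⟩)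
      obtain ⟨C', hC3, hC4⟩ := (hP2 i j).2 C hC
      refine ⟨C', hC3, ?_⟩
      have e1 : C' i = C.1 := congrArg Prod.fst hC4
      have e2 : C' j = C.2 := congrArg Prod.snd hC4
      rintro x (hx | hx) a
      · subst hx
        show C' i (a : Frm (T i)) = _
        rw [e1]
        exact hC1 a
      · rw [Set.mem_singleton_iff] at hx
        subst hx
        show C' j (a : Frm (T j)) = _
        rw [e2]
        exact hC2 a

end SEQ
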