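import Pool.Agent.Lib.SE.Q.SpecA
import Pool.Agent.Lib.SE.Big.FLI
import Pool.Agent.Lib.SE.Big.Pj
import Pool.Agent.Lib.SE.Big.Tw

/-!
# PROJECT SE-Q: change of the character for pairs (helper17)
-/

set_option autoImplicit false

open Module

noncomputable section

namespace SEQ

open HC HC.E HC.SE SEB

open FLI_aux in
theorem tLI2 : S_LI2 := by
  intro T T' m m' D D' hm hm' M hM hM' hM0 n X hX s t c hc hs ht ρ
  obtain ⟨j₀, hj₀⟩ := Function.ne_iff.1 hc
  have hM1 : 1 ≤ M := Nat.pos_of_ne_zero hM0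
  obtain ⟨l, hl1, hl⟩ := tTw M hM1 ρ (c j₀) hj₀
  refine ⟨fun j => l (c j), ?_, ?_, ?_⟩
  · intro h
    have h2 := congrFun h j₀
    simp only [Pi.zero_apply] at h2
    rw [hl1] at h2
    exact one_ne_zero h2
  · exact one tPj D hm (fun j => (X j).1) (fun j => (hX j).1) c (ZMod.unitsMap hM ρ) s l
      (down (by omega) hM1 hM ρ l hl) hs
  · exact one tPj D' hm' (fun j => (X j).2) (fun j => (hX j).2) c (ZMod.unitsMap hM' ρ) t l
      (down (by omega) hM1 hM' ρ l hl) ht

end SEQ
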