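import Pool.Agent.Lib.SE.Q.Defs

/-!
# PROJECT SE-Q, part C: tuples; from pairs to `Big` (helper45)

Every module: file `SE/Q/Xyz.lean`, `theorem tXyz : S_Xyz`, import only `Pool.Agent.Lib.SE.Q.SpecC` (and
modules you want to copy from: the modules `Hl`, `Rib`, `Real`, `Fin`, `ToBig` of SE/Big contain the same
proofs for one variety).
-/

set_option autoImplicit false

open Module

noncomputable section

namespace SEQ

open HC HC.E HC.SE SEB

/-- **HlT**: any set `h₀` of tuples of rational endomorphisms closed under commutators, with `i` in its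
real span, can be replaced by an `HLieT`. PROOF. As `S_Hl` (SE/Big/Hl.lean): `h` = the rational
combinations of elements of `h₀` which are in `∏ u_i`. -/
def S_HlT : Prop :=
  ∀ (q : ℕ) (T : Fin q → AV) (m : Fin q → ℕ) (D : ∀ i, Cyc (T i) (m i)) (h₀ : Set (Tup T)),
    (∀ X ∈ h₀, ∀ i, RatEnd (T i) (X i)) → (∀ X ∈ h₀, ∀ Y ∈ h₀, X * Y - Y * X ∈ h₀) →
    JT T ∈ Submodule.span ℝ h₀ →
    ∃ h, HLieT D h ∧ ∀ Y ∈ ComT h, Y ∈ Submodule.span ℝ (ComT h₀)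

/-- **PrT**: PROJECTIONS to one and to two components. PROOF. Directly. -/
def S_PrT : Prop :=
  ∀ (q : ℕ) (T : Fin q → AV) (m : Fin q → ℕ) (D : ∀ i, Cyc (T i) (m i)) (h : Set (Tup T)),
    HLieT D h →
    (∀ i, HLie (D i) ((fun X => X i) '' h) ∧
      ∀ C ∈ gg ((fun X : Tup T => X i) '' h), ∃ C' ∈ ggT h, C' i = C) ∧
    ∀ i j, HLie2 (D i) (D j) ((fun X => (X i, X j)) '' h) ∧
      ∀ C ∈ gg2 ((fun X : Tup T => (X i, X j)) '' h), ∃ C' ∈ ggT h, (C' i, C' j) = C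

/-- **ClT**: `ggT h` is closed under commutators and consists of operators which preserve the
eigenspaces and are traceless on them. PROOF. `S_Cl` for the projections (each component of an element
of `ggT h` is in `gg` of the projection); `Pi.mul_apply`. -/
def S_ClT : Prop :=
  ∀ (q : ℕ) (T : Fin q → AV) (m : Fin q → ℕ) (D : ∀ i, Cyc (T i) (m i)), (∀ i, 3 ≤ m i) →
    ∀ h, HLieT D h →
    (∀ A ∈ ggT h, ∀ B ∈ ggT h, A * B - B * A ∈ ggT h) ∧
    ∀ A ∈ ggT h, ∀ x : Ch m, ∃ A' : Module.End ℂ (WT D x), LinearMap.trace ℂ (WT D x) A' = 0 ∧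
      ∀ a : WT D x, A x.1 (a : Frm (T x.1)) = (A' a : Frm (T x.1))

/-- **HtT**: single characters and pairs. From `S_PrT`. PROOF. For one `i` apply `IsHit` to the
projection (`F = {s}` or `{s, t}`: half systems if `t ≠ -s`), for `i ≠ j` the hypothesis on pairs. -/
def S_HtT : Prop :=
  ∀ (q : ℕ) (T : Fin q → AV) (m : Fin q → ℕ) (D : ∀ i, Cyc (T i) (m i)), (∀ i, 3 ≤ m i) →
    (∀ i, IsHit (D i)) → (∀ i j, i ≠ j → ∀ h, HLie2 (D i) (D j) h → ∀ s t, Hit2 (D i) (D j) h s t) →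
    ∀ h, HLieT D h → (∀ x, HitsT D h {x}) ∧ ∀ x y, y ≠ x → y ≠ neg x → HitsT D h {x, y}

/-- **RbT**: RIBET'S LEMMA. From `S_ClT`. PROOF. As `S_Rib` (SE/Big/Rib.lean), with `S_Perf`. -/
def S_RbT : Prop :=
  ∀ (q : ℕ) (T : Fin q → AV) (m : Fin q → ℕ) (D : ∀ i, Cyc (T i) (m i)), (∀ i, 3 ≤ m i) →
    ∀ h, HLieT D h → (∀ x, HitsT D h {x}) → (∀ x y, y ≠ x → y ≠ neg x → HitsT D h {x, y}) →
    ∀ F : Set (Ch m), (∀ x ∈ F, neg x ∉ F) → HitsT D h F

/-- **ReT**: REAL FORM. PROOF. As `S_Real` (SE/Big/Real.lean) in every component: `C i = pre (X i)` for all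
`i` (the pairing of SE/Big/Real.lean for `D i`); then `C = ∑_j c_j (pre (Y_j i))_i` and real valued forms
give `X = ∑_j Re (c_j) Y_j`. -/
def S_ReT : Prop :=
  ∀ (q : ℕ) (T : Fin q → AV) (m : Fin q → ℕ) (D : ∀ i, Cyc (T i) (m i)), (∀ i, 3 ≤ m i) →
    ∀ (Y₀ : Set (Tup T)) (X : Tup T), (∀ Y ∈ Y₀, ∀ i, IsU (D i) (Y i)) → (∀ i, IsU (D i) (X i)) →
    ∀ F : Set (Ch m), (∀ x, x ∈ F ∨ neg x ∈ F) →
    ∀ C ∈ Submodule.span ℂ ((fun (Y : Tup T) i => pre (Y i)) '' Y₀),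
    (∀ x ∈ F, ∀ a ∈ WT D x, C x.1 a = pre (X x.1) a) → X ∈ Submodule.span ℝ Y₀

/-- **FiT**: CONCLUSION. From `S_ReT`. PROOF. As `S_Fin` (SE/Big/Fin.lean), with `S_Tr` in every
component; a half system in every component. -/
def S_FiT : Prop :=
  ∀ (q : ℕ) (T : Fin q → AV) (m : Fin q → ℕ) (D : ∀ i, Cyc (T i) (m i)), (∀ i, 3 ≤ m i) →
    ∀ h, HLieT D h → (∀ F : Set (Ch m), (∀ x ∈ F, neg x ∉ F) → HitsT D h F) →
    ∀ X : Tup T, (∀ i, IsSU (D i) (X i)) → X ∈ Submodule.span ℝ (ComT h)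

/-- **BgT**: From `S_HlT`. PROOF. As `S_ToBig` (SE/Big/ToBig.lean; `isSU_comm` there). -/
def S_BgT : Prop :=
  ∀ (q : ℕ) (T : Fin q → AV) (m : Fin q → ℕ) (D : ∀ i, Cyc (T i) (m i)),
    (∀ h, HLieT D h → ∀ X : Tup T, (∀ i, IsSU (D i) (X i)) → X ∈ Submodule.span ℝ (ComT h)) →
    HC.SE.Big T (fun i => (D i).Z) (fun i => (D i).ψ)

/-- **PTa**: assembly. -/
def S_PTa : Prop := PP → S_HtT → S_RbT → S_FiT → S_BgT → PT

theorem pta : S_PTa := by
  intro hPP hHt hRb hFi hBg q T m r D hG hC hI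
  refine hBg q T m D fun h hh X hX => ?_
  have hm : ∀ i, 3 ≤ m i := fun i => (hG i).hm
  obtain ⟨h1, h2⟩ := hHt q T m D hm (fun i => (hG i).hit)
    (fun i j hij h hh s t => hPP (T i) (T j) (m i) (m j) (r i) (r j) (D i) (D j) (hG i) (hG j)
      (hC i j hij) (hI i j hij) h hh s t) h hh
  exact hFi q T m D hm h hh (hRb q T m D hm h hh h1 h2) X hX

end SEQ
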