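import Pool.Agent.Lib.SE.Q.SpecC
import Pool.Agent.Lib.SE.Big.Pj
import Pool.Agent.Lib.SE.Big.Bas
import Pool.Agent.Lib.SE.Big.Real

/-!
# PROJECT SE-Q, module ReT: real form from a half system of characters, for tuples
-/

set_option autoImplicit false

open Module

noncomputable section

namespace SEQ

open HC HC.E HC.SE SEB

namespace ReT_aux

variable {q : ℕ} {T : Fin q → AV} {m : Fin q → ℕ}

/-- Complex combinations are `pre P + i pre Q`. -/
theorem comb (Y₀ : Set (Tup T)) (C : ∀ i, Module.End ℂ (Frm (T i)))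
    (hC : C ∈ Submodule.span ℂ ((fun (Y : Tup T) i => pre (Y i)) '' Y₀)) :
    ∃ P ∈ Submodule.span ℝ Y₀, ∃ Q ∈ Submodule.span ℝ Y₀,
      ∀ i a v, C i a v = a (P i v) + Complex.I * a (Q i v) := by
  induction hC using Submodule.span_induction with
  | mem C hC =>
    obtain ⟨Y, hY, rfl⟩ := hC
    refine ⟨Y, Submodule.subset_span hY, 0, Submodule.zero_mem _, fun i a v => ?_⟩
    rw [Pi.zero_apply, LinearMap.zero_apply, map_zero, mul_zero, add_zero]
    rfl
  | zero =>
    refine ⟨0, Submodule.zero_mem _, 0, Submodule.zero_mem _, fun i a v => ?_⟩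
    simp
  | add C C' _ _ h h' =>
    obtain ⟨P, hP, Q, hQ, h⟩ := h
    obtain ⟨P', hP', Q', hQ', h'⟩ := h'
    refine ⟨P + P', add_mem hP hP', Q + Q', add_mem hQ hQ', fun i a v => ?_⟩
    rw [Pi.add_apply, Pi.add_apply, Pi.add_apply, LinearMap.add_apply, LinearMap.add_apply, h, h',
      LinearMap.add_apply, LinearMap.add_apply, map_add, map_add]
    ring
  | smul c C _ h =>
    obtain ⟨P, hP, Q, hQ, h⟩ := h
    refine ⟨c.re • P - c.im • Q, sub_mem (Submodule.smul_mem _ _ hP) (Submodule.smul_mem _ _ hQ),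
      c.re • Q + c.im • P, add_mem (Submodule.smul_mem _ _ hQ) (Submodule.smul_mem _ _ hP),
      fun i a v => ?_⟩
    rw [Pi.smul_apply, Pi.sub_apply, Pi.add_apply, Pi.smul_apply, Pi.smul_apply, Pi.smul_apply,
      Pi.smul_apply, LinearMap.smul_apply, LinearMap.smul_apply, h, LinearMap.sub_apply,
      LinearMap.add_apply, map_sub, map_add, LinearMap.smul_apply, LinearMap.smul_apply,
      LinearMap.smul_apply, LinearMap.smul_apply, map_smul, map_smul, map_smul, map_smul,
      smul_eq_mul, Complex.real_smul, Complex.real_smul, Complex.real_smul, Complex.real_smul]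
    conv_lhs => rw [← Complex.re_add_im c]
    have hI := Complex.I_mul_I
    linear_combination ((c.im : ℂ) * a (Q i v)) * hI

theorem isU_span (D : ∀ i, Cyc (T i) (m i)) (Y₀ : Set (Tup T)) (h : ∀ Y ∈ Y₀, ∀ i, IsU (D i) (Y i))
    (P : Tup T) (hP : P ∈ Submodule.span ℝ Y₀) (i : Fin q) : IsU (D i) (P i) := by
  refine Real_aux.isU_span (D i) ((fun Y : Tup T => Y i) '' Y₀) ?_ (P i) ?_
  · rintro _ ⟨Y, hY, rfl⟩
    exact h Y hY i
  · have h1 : (LinearMap.proj i : Tup T →ₗ[ℝ] Module.End ℝ (T i).V) P ∈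
        Submodule.map (LinearMap.proj i : Tup T →ₗ[ℝ] Module.End ℝ (T i).V)
          (Submodule.span ℝ Y₀) := Submodule.mem_map_of_mem hP
    rw [Submodule.map_span] at h1
    exact h1

end ReT_aux

open ReT_aux in
theorem tReT : S_ReT := by
  intro q T m D hm Y₀ X hY hX F hF C hC hCF
  obtain ⟨P, hP, Q, hQ, hPQ⟩ := comb Y₀ C hC
  have h4 : X = P := by
    funext i
    obtain ⟨htop, _, _, _, _⟩ := tBas tPj (T i) (m i) (D i) (hm i)
    have uP := isU_span D Y₀ hY P hP i
    have uQ := isU_span D Y₀ hY Q hQ i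
    have h1 : ∀ s, (⟨i, s⟩ : Ch m) ∈ F → ∀ a ∈ Ws (D i) s, ∀ v,
        a ((P i - X i) v) + Complex.I * a (Q i v) = 0 := by
      intro s hs a ha v
      have h2 := LinearMap.congr_fun (hCF ⟨i, s⟩ hs a ha) v
      have h2' : C i a v = pre (X i) a v := h2
      rw [hPQ] at h2'
      have h3 : pre (X i) a v = a (X i v) := rfl
      rw [h3] at h2'
      rw [LinearMap.sub_apply, map_sub]
      linear_combination h2'
    have h2 : ∀ s, ∀ a ∈ Ws (D i) s, ∀ v, a ((P i - X i) v) + Complex.I * a (Q i v) = 0 := by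
      intro s
      rcases hF ⟨i, s⟩ with hs | hs
      · exact h1 s hs
      · have h3 := Real_aux.key (D i) (hm i) htop (P i - X i) (Q i)
          (Real_aux.isU_sub (D i) (P i) (X i) uP (hX i)) uQ (-s) (h1 (-s) hs)
        rw [neg_neg] at h3
        exact h3
    have h3 : ∀ a : Frm (T i), ∀ v, a ((P i - X i) v) + Complex.I * a (Q i v) = 0 := by
      intro a
      have ha : a ∈ ⨆ s, Ws (D i) s := by
        rw [htop]
        exact Submodule.mem_top
      induction ha using Submodule.iSup_induction' with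
      | mem t a ha => exact h2 t a ha
      | zero =>
        intro v
        simp
      | add a c _ _ h1 h2 =>
        intro v
        rw [LinearMap.add_apply, LinearMap.add_apply]
        linear_combination h1 v + h2 v
    refine LinearMap.ext fun v => ?_
    refine (sub_eq_zero.1 (Real_aux.nd (D i) _ fun w => ?_)).symm
    have h5 := h3 (Complex.ofRealCLM.toLinearMap ∘ₗ (D i).ψ w) v
    have h6 := congrArg Complex.re h5
    simp at h6
    rw [(D i).alt, map_sub, h6, neg_zero]
  rw [h4]
  exact hP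

end SEQ
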