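import Pool.Agent.Lib.SE.Q.SpecC
import Pool.Agent.Lib.SE.Big.ToBig

/-!
# PROJECT SE-Q, part C: `BgT`, from `HLieT` to `Big` (helper73)
-/

set_option autoImplicit false

open Module

noncomputable section

namespace SEQ

open HC HC.E HC.SE SEB

theorem tBgT : S_HlT → S_BgT := by
  intro hHl q T m D hbig h hrat hcom hJ P Q hP hQ
  obtain ⟨h', hh', hcc⟩ := hHl q T m D h hrat hcom hJ
  have h1 := hbig h' hh' (P * Q - Q * P) fun i => ToBig_aux.isSU_comm (D i) (hP i) (hQ i)
  have h2 : Submodule.span ℝ (ComT h') ≤ Submodule.span ℝ (ComT h) := Submodule.span_le.2 hcc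
  exact h2 h1

end SEQ
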