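import Pool.Agent.Lib.SE.Q.SpecA
import Pool.Agent.Lib.SE.Big.Dim
import Pool.Agent.Lib.SE.Big.Pj
import Pool.Agent.Lib.SE.Big.Tw
import Pool.Agent.Lib.SE.Big.Bas

/-!
# PROJECT SE-Q, module PPa: pairs, assembly of part A (helper90)
-/

set_option autoImplicit false

open Module

noncomputable section

namespace SEQ

open HC HC.E HC.SE SEB

namespace PPa_aux

/-- for `m ≥ 3` no unit is its own negative -/
theorem neg_ne {m : ℕ} (hm : 3 ≤ m) (s : (ZMod m)ˣ) : -s ≠ s := by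
  intro h
  have : NeZero m := ⟨by omega⟩
  have h1 : ((-s : (ZMod m)ˣ) : ZMod m) = (s : ZMod m) := by rw [h]
  rw [Units.val_neg] at h1
  have h2 : (2 : ZMod m) * (s : ZMod m) = 0 := by
    calc (2 : ZMod m) * (s : ZMod m) = (s : ZMod m) - -(s : ZMod m) := by ring
      _ = 0 := by rw [h1, sub_self]
  have h3 : (2 : ZMod m) = 0 := by
    calc (2 : ZMod m) = (2 * (s : ZMod m)) * ((s⁻¹ : (ZMod m)ˣ) : ZMod m) := by
          rw [mul_assoc, Units.mul_inv, mul_one]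
      _ = 0 := by rw [h2, zero_mul]
  have h4 : ((2 : ℕ) : ZMod m) = 0 := by exact_mod_cast h3
  rw [ZMod.natCast_eq_zero_iff] at h4
  have := Nat.le_of_dvd two_pos h4
  omega

/-- the negative sign passes through the action -/
theorem rho_neg {m M : ℕ} (hM : m ∣ M) (ρ : (ZMod M)ˣ) (s : (ZMod m)ˣ) :
    rho hM ρ (-s) = -rho hM ρ s := by
  unfold rho
  rw [mul_neg]

end PPa_aux

open PPa_aux in
/-- **PPa**: assembly. -/
theorem tPPa : S_PPa := by
  intro hPrj hCl2 hGt2 hLI2 hLr hLp hLu hLn hLi hB T T' m m' r r' D D' hG hG' hC hI h hh s t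
  by_contra hno
  have hm := hG.hm
  have hm' := hG'.hm
  obtain ⟨p1, p2, -, -, p5⟩ := hPrj T T' m m' D D' h hh
  -- single characters are hit
  have a1 : Hits D (Prod.fst '' h) {s} := hG.hit _ p1 {s} fun u hu hu' => by
    rw [Set.mem_singleton_iff] at hu hu'
    exact neg_ne hm u (hu'.trans hu.symm)
  have a2 : Hits D' (Prod.snd '' h) {t} := hG'.hit _ p2 {t} fun u hu hu' => by
    rw [Set.mem_singleton_iff] at hu hu'
    exact neg_ne hm' u (hu'.trans hu.symm)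
  have hL : Lnk D D' h s t := (hGt2 T T' m m' D D' hm hm' h hh s t a1 a2).resolve_left hno
  have b1 := hLr hPrj hCl2 hGt2 hLI2 T T' m m' r r' D D' hG hG' h hh
  have b2 := hLu hPrj T T' m m' r r' D D' hG hG' h hh
  have b3 := hLi T T' m m' r r' D D' hG hG' h b1 b2 s t hL
  have hrr : r = r' := (b1 s t hL).1
  subst hrr
  -- links for `-t`
  have hneg : ∀ s t, Lnk D D' h s t → Lnk D D' h s (-t) := by
    intro s t hst C hC
    have hC2 := (p5 C hC).2
    constructor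
    · intro h0
      exact hLn T' m' D' hm' _ p2 C.2 hC2 t ((hst C hC).mp h0)
    · intro h0
      refine (hst C hC).mpr ?_
      have := hLn T' m' D' hm' _ p2 C.2 hC2 (-t) h0
      rwa [neg_neg] at this
  -- transport to a character with signature `1`
  obtain ⟨s₀, hs₀⟩ := hG.one
  have hM : m ∣ m * m' := dvd_mul_right _ _
  have hM' : m' ∣ m * m' := dvd_mul_left _ _
  have hM0 : m * m' ≠ 0 := mul_ne_zero (by omega) (by omega)
  have : NeZero (m * m') := ⟨hM0⟩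
  obtain ⟨ρ, hρ⟩ := ZMod.unitsMap_surjective hM (s₀ * s⁻¹)
  have hρs : rho hM ρ s = s₀ := by
    unfold rho
    rw [hρ, inv_mul_cancel_right]
  have hL0 : Lnk D D' h s₀ (rho hM' ρ t) := by
    have := (b1 s t hL).2 (m * m') hM hM' hM0 ρ
    rwa [hρs] at this
  generalize rho hM' ρ t = t₀ at hL0
  have d1 := (tDim tPj tTw (tBas tPj) T m r D hm hG.dim s₀).2
  have d2 := (tDim tPj tTw (tBas tPj) T' m' r D' hm' hG'.dim t₀).2
  have d3 := hLp hPrj hCl2 T T' m m' r r D D' hG hG' h hh s₀ t₀ hL0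
  rw [hs₀] at d1 d3
  have d4 : D'.p t₀ = 1 ∨ D'.p (-t₀) = 1 := by
    have e1 : (D'.p t₀ - 1 : ℤ) * (D'.p (-t₀) - 1 : ℤ) = 0 := by
      have e2 : (1 + (D.p (-s₀) : ℤ)) = r := by exact_mod_cast d1
      have e3 : ((D'.p t₀ : ℤ) + (D'.p (-t₀) : ℤ)) = r := by exact_mod_cast d2
      have e4 : (1 * (D.p (-s₀) : ℤ)) = (D'.p t₀ : ℤ) * (D'.p (-t₀) : ℤ) := by exact_mod_cast d3
      linear_combination e2 - e3 - e4
    rcases mul_eq_zero.mp e1 with e | e
    · left
      have : (D'.p t₀ : ℤ) = 1 := by linarith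
      exact_mod_cast this
    · right
      have : (D'.p (-t₀) : ℤ) = 1 := by linarith
      exact_mod_cast this
  have hcase : (∃ h : m = m', (∀ u : (ZMod m)ˣ, D.p u = (h ▸ D').p u) ∨
      ∀ u : (ZMod m)ˣ, D.p u = (h ▸ D').p (-u)) ∨
      (3 ≤ r ∧ (m = 3 ∧ m' = 4 ∨ m = 4 ∧ m' = 3)) := by
    rcases hC with c | c | c | c | c
    · exact absurd (Or.inl c) b3
    · exact absurd (Or.inr (Or.inl c)) b3
    · exact absurd (Or.inr (Or.inr c)) b3
    · exact Or.inl c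
    · exact Or.inr c
  rcases d4 with d4 | d4
  · exact hI (hB T T' m m' r D D' hG hG' hcase h hh s₀ t₀ hs₀ d4
      fun M hM hM' hM0 ρ => (b1 s₀ t₀ hL0).2 M hM hM' hM0 ρ)
  · refine hI (hB T T' m m' r D D' hG hG' hcase h hh s₀ (-t₀) hs₀ d4
      fun M hM hM' hM0 ρ => ?_)
    rw [rho_neg]
    exact hneg _ _ ((b1 s₀ t₀ hL0).2 M hM hM' hM0 ρ)

end SEQ
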