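import Pool.Agent.Lib.SE.Q.PPg
import Pool.Agent.Lib.SE.Q.PPa
import Pool.Agent.Lib.SE.Q.Lr
import Pool.Agent.Lib.SE.Q.Lu
import Pool.Agent.Lib.SE.Q.Li
import Pool.Agent.Lib.SE.Q.HlT
import Pool.Agent.Lib.SE.Q.PrT
import Pool.Agent.Lib.SE.Q.ClT
import Pool.Agent.Lib.SE.Q.HtT
import Pool.Agent.Lib.SE.Q.RbT
import Pool.Agent.Lib.SE.Q.ReT
import Pool.Agent.Lib.SE.Q.FiT
import Pool.Agent.Lib.SE.Q.BgT

/-!
# PROJECT SE-Q: the product theorem, closed, and its version for every signature (helper42)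
-/

set_option autoImplicit false

open Module

noncomputable section

namespace SEQ

open HC HC.E HC.SE SEB

theorem htT_all : S_HtT := tHtT tPrT

theorem rbT_all : S_RbT := tRbT tClT

theorem fiT_all : S_FiT := tFiT tReT

theorem bgT_all : S_BgT := tBgT tHlT

/-- Pairs (part A), closed. -/
theorem pp_all : PP :=
  tPPa tPrj tCl2 (tGt2 tPrj tCl2) tLI2 tLr tLp tLu tLn tLi tB_all

/-- **THE PRODUCT THEOREM**, every signature. Pairwise non isogenous good factors are independent. -/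
def PTg : Prop :=
  ∀ (q : ℕ) (T : Fin q → AV) (m r : Fin q → ℕ) (D : ∀ i, Cyc (T i) (m i)),
    (∀ i, GFg (D i) (r i)) → (∀ i j, i ≠ j → Cpg (D i) (D j) (r i) (r j)) →
    (∀ i j, i ≠ j → ¬ Isg (T i) (T j)) →
    HC.SE.Big T (fun i => (D i).Z) (fun i => (D i).ψ)

/-- Families of pairwise non isogenous good factors hit everything. -/
theorem hit_all {q : ℕ} {T : Fin q → AV} {m r : Fin q → ℕ} (D : ∀ i, Cyc (T i) (m i))
    (hG : ∀ i, GFg (D i) (r i)) (hC : ∀ i j, i ≠ j → Cpg (D i) (D j) (r i) (r j))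
    (hI : ∀ i j, i ≠ j → ¬ Isg (T i) (T j)) (h : Set (Tup T)) (hh : HLieT D h)
    (F : Set (Ch m)) (hF : ∀ x ∈ F, neg x ∉ F) : HitsT D h F := by
  have hm : ∀ i, 3 ≤ m i := fun i => (hG i).hm
  obtain ⟨h1, h2⟩ := htT_all q T m D hm (fun i => (hG i).hit)
    (fun i j hij h hh s t => tPPg (T i) (T j) (m i) (m j) (r i) (r j) (D i) (D j) (hG i) (hG j)
      (hC i j hij) (hI i j hij) h hh s t) h hh
  exact rbT_all q T m D hm h hh h1 h2 F hF

/-- They are independent: the commutators contain all of `su`. -/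
theorem su_all {q : ℕ} {T : Fin q → AV} {m r : Fin q → ℕ} (D : ∀ i, Cyc (T i) (m i))
    (hG : ∀ i, GFg (D i) (r i)) (hC : ∀ i j, i ≠ j → Cpg (D i) (D j) (r i) (r j))
    (hI : ∀ i j, i ≠ j → ¬ Isg (T i) (T j)) (h : Set (Tup T)) (hh : HLieT D h) (X : Tup T)
    (hX : ∀ i, IsSU (D i) (X i)) : X ∈ Submodule.span ℝ (ComT h) :=
  fiT_all q T m D (fun i => (hG i).hm) h hh (hit_all D hG hC hI h hh) X hX

theorem ptg_all : PTg := fun q T m _ D hG hC hI =>
  bgT_all q T m D fun h hh X hX => su_all D hG hC hI h hh X hX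

/-- The product theorem for signatures with a `1`. -/
theorem pt_all : PT := pta pp_all htT_all rbT_all fiT_all bgT_all

end SEQ
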