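import Pool.Agent.Lib.SE.Q.SpecD
import Pool.Agent.Lib.SE.Big.Dim
import Pool.Agent.Lib.SE.Big.Pj
import Pool.Agent.Lib.SE.Big.Tw
import Pool.Agent.Lib.SE.Big.Bas

/-! # PROJECT SE-Q, module Cp: the kinds of good factors are compatible -/

set_option autoImplicit false

open Module

noncomputable section

namespace SEQ

open HC HC.E HC.SE SEB

namespace Cp_aux

/-- A number `≡ 1` modulo `m'` and `≡ 2` modulo `m`. -/
theorem exists_rho {m m' : ℕ} (hm : m.Prime) (h5 : 5 ≤ m) (hco : m.Coprime m') :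
    ∃ ρ : ℕ, ρ.Coprime (m * m') ∧ (ρ : ZMod m') = 1 ∧ (ρ : ZMod m) ≠ 1 ∧ (ρ : ZMod m) ≠ -1 := by
  obtain ⟨ρ, h1, h2⟩ := Nat.chineseRemainder hco 2 1
  have e1 : (ρ : ZMod m) = 2 := by
    have := (ZMod.natCast_eq_natCast_iff ρ 2 m).2 h1
    simpa using this
  have e2 : (ρ : ZMod m') = 1 := by
    have := (ZMod.natCast_eq_natCast_iff ρ 1 m').2 h2
    simpa using this
  refine ⟨ρ, ?_, e2, ?_, ?_⟩
  · refine Nat.Coprime.mul_right ?_ ?_
    · have : ρ.gcd m = Nat.gcd 2 m := h1.gcd_eq
      rw [Nat.Coprime, this]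
      exact (Nat.coprime_primes Nat.prime_two hm).2 (by omega)
    · have : ρ.gcd m' = Nat.gcd 1 m' := h2.gcd_eq
      rw [Nat.Coprime, this, Nat.gcd_one_left]
  · rw [e1]
    intro h
    have h' : ((1 : ℕ) : ZMod m) = 0 := by
      have : (2 : ZMod m) - 1 = 0 := by rw [h, sub_self]
      push_cast
      linear_combination this
    have := Nat.le_of_dvd one_pos ((ZMod.natCast_eq_zero_iff 1 m).1 h')
    omega
  · rw [e1]
    intro h
    have h' : ((3 : ℕ) : ZMod m) = 0 := by
      have : (2 : ZMod m) + 1 = 0 := by rw [h]; ring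
      push_cast
      linear_combination this
    have := Nat.le_of_dvd (by norm_num) ((ZMod.natCast_eq_zero_iff 3 m).1 h')
    omega

theorem same {T T' : AV} {m r : ℕ} (D : Cyc T m) (D' : Cyc T' m) (hG : GF1 D r) (hG' : GF1 D' r)
    (hu : ∀ s t : (ZMod m)ˣ, s = t ∨ s = -t) :
    (∀ u : (ZMod m)ˣ, D.p u = D'.p u) ∨ ∀ u : (ZMod m)ˣ, D.p u = D'.p (-u) := by
  have hD := fun s => (SEB.tDim SEB.tPj SEB.tTw (SEB.tBas SEB.tPj) T m r D hG.hm hG.dim s).2
  have hD' := fun s => (SEB.tDim SEB.tPj SEB.tTw (SEB.tBas SEB.tPj) T' m r D' hG'.hm hG'.dim s).2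
  obtain ⟨s, hs⟩ := hG.one
  obtain ⟨t, ht⟩ := hG'.one
  have a := hD s
  have b := hD' t
  rcases hu s t with h | h
  · left
    subst h
    intro u
    rcases hu u s with h | h
    · rw [h, hs, ht]
    · rw [h]; omega
  · right
    intro u
    have hst : t = -s := by rw [h, neg_neg]
    rcases hu u s with h' | h'
    · rw [h', ← hst, hs, ht]
    · rw [h', neg_neg]
      have : D'.p (-t) = D'.p s := by rw [h]
      omega

end Cp_aux

open Cp_aux

theorem tCp : S_Cp := by
  intro T T' m m' r r' D D' hG hG' hK hK'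
  by_cases hr : r = r'
  swap
  · exact Or.inl hr
  subst hr
  right
  rcases hK with ⟨h34, h3r⟩ | ⟨hp, h5, hs⟩
  · rcases hK' with ⟨h34', -⟩ | ⟨hp', h5', hs'⟩
    · right; right
      rcases h34 with h | h <;> rcases h34' with h' | h'
      · left
        subst h
        subst h'
        exact ⟨rfl, same D D' hG hG' (by decide)⟩
      · exact Or.inr ⟨h3r, Or.inl ⟨h, h'⟩⟩
      · exact Or.inr ⟨h3r, Or.inr ⟨h, h'⟩⟩
      · left
        subst h
        subst h'
        exact ⟨rfl, same D D' hG hG' (by decide)⟩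
    · left
      have hco : m'.Coprime m := by
        rcases h34 with h | h
        · rw [h]
          exact (Nat.coprime_primes hp' Nat.prime_three).2 (by omega)
        · rw [h]
          exact Nat.Coprime.pow_right 2 ((Nat.coprime_primes hp' Nat.prime_two).2 (by omega))
      obtain ⟨ρ, h1, h2, h3, h4⟩ := exists_rho hp' h5' hco
      exact ⟨ρ, by rwa [mul_comm] at h1, h2, h3, h4⟩
  · by_cases hmm : m = m'
    · subst hmm
      rcases hK' with ⟨h34', -⟩ | ⟨hp', h5', hs'⟩
      · omega
      · right; right; left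
        refine ⟨rfl, Or.inl fun u => ?_⟩
        show D.p u = D'.p u
        rw [hs u, hs' u]
    · right; left
      have hco : m.Coprime m' := by
        rcases hK' with ⟨h34', -⟩ | ⟨hp', -, -⟩
        · rcases h34' with h | h
          · rw [h]
            exact (Nat.coprime_primes hp Nat.prime_three).2 (by omega)
          · rw [h]
            exact Nat.Coprime.pow_right 2 ((Nat.coprime_primes hp Nat.prime_two).2 (by omega))
        · exact (Nat.coprime_primes hp hp').2 hmm
      obtain ⟨ρ, h1, h2, h3, h4⟩ := exists_rho hp h5 hco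
      exact ⟨ρ, h1, h2, h3, h4⟩

end SEQ

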