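import Pool.Agent.Lib.SE.Q.SpecD

/-!
# PROJECT SE-Q, module Fn: assembly of the final theorem (helper96)
-/

set_option autoImplicit false

open Module

noncomputable section

namespace SEQ

open HC HC.E HC.SE SEB SE

namespace Fn_aux

/-- The form of a `Cyc` is an invariant Riemann form. -/
theorem isPol_cyc {T : AV} {m : ℕ} (D : Cyc T m) : IsPol T D.Z D.ψ :=
  ⟨D.int, D.alt, D.cpx, D.pos, D.inv⟩

/-- The order of the automorphism of a factor is at least `3`. -/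
theorem fct_three {J : AV} {m : ℕ} {Z : Module.End ℂ J.V} (h : Fct J m Z) : 3 ≤ m := by
  rcases h with ⟨r, s, b, D, hc, -⟩ | h
  · exact hc.1
  · rcases h.dim with h | h <;> omega

/-- A factor with an invariant Riemann form is a `Cyc`. -/
theorem cyc_fct {J : AV} {m : ℕ} {Z : Module.End ℂ J.V} (h : Fct J m Z)
    {E : J.V →ₗ[ℝ] J.V →ₗ[ℝ] ℝ} (hE : IsPol J Z E) : ∃ D : Cyc J m, D.Z = Z ∧ D.ψ = E := by
  have h1 : (∀ v ∈ J.L, Z v ∈ J.L) ∧ Polynomial.aeval Z (Polynomial.cyclotomic m ℤ) = 0 := by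
    rcases h with ⟨r, s, b, D, hc, rfl⟩ | h
    · exact ⟨D.lat, D.cyc⟩
    · exact ⟨h.lat, h.cyc⟩
  exact ⟨⟨Z, h1.1, h1.2, E, hE.1, hE.2.1, hE.2.2.1, hE.2.2.2.1, hE.2.2.2.2⟩, rfl, rfl⟩

end Fn_aux

open Fn_aux in
/-- **Fn**: assembly. -/
theorem tFn : S_Fn := by
  intro hGg hM0 hRep hCp hHl hTh hLi hInv hPT hDA
  refine ⟨M₀, hM0, ?_⟩
  intro A B T N' G hA hG hB q N J j m Z E ψ hF hE hψ d c hc hS
  obtain ⟨A', q₁, N₁, R, k, hA', hR, hne, hBR⟩ := hRep hInv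
    (fun G => ∃ (m r : ℕ) (D : Cyc G m), GF1 D r ∧ Kd D r ∧
      (IsPic G m D.Z ∨ ∃ (s : Fin (r + 1) → ℂ) (N : New G m s fun _ => 1),
        N.Z = D.Z ∧ IsCov m s fun _ => 1)) A B N' G hA (fun n => hGg (G n) (hG n)) hB
  choose m₁ r₁ D₁ h1 h2 h3 using hR
  have hFR : ∀ i, Fct (R i) (m₁ i) (D₁ i).Z := fun i => by
    rcases h3 i with h | ⟨s, N, hN, hc⟩
    · exact Or.inr h
    · exact Or.inl ⟨r₁ i, s, fun _ => 1, N, hc, hN⟩
  choose D hDZ hDψ using fun i => cyc_fct (hF i) (hE i)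
  obtain rfl : (fun i => (D i).Z) = Z := funext hDZ
  obtain rfl : (fun i => (D i).ψ) = E := funext hDψ
  exact hTh hHl hLi A' B T q₁ N₁ q N R k m₁ D₁ J j m D ψ hA' (fun i => (h1 i).hm)
    (fun i => fct_three (hF i)) (fun i => hDA _ _ _ _ (hFR i) (isPol_cyc (D₁ i)))
    (fun i => hDA _ _ _ _ (hF i) (hE i))
    (hPT q₁ R m₁ r₁ D₁ h1 (fun i i' _ => hCp _ _ _ _ _ _ _ _ (h1 i) (h1 i') (h2 i) (h2 i')) hne)
    hBR hψ d c hc hS

end SEQ
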