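import Pool.Agent.Lib.SE.Q.SpecD
import Pool.Agent.Lib.SE.Big.Main

/-!
# PROJECT SE-Q, module M0: the excluded real points form a meagre set (helper78)
-/

set_option autoImplicit false

open Module

noncomputable section

namespace SEQ

open HC HC.E HC.SE SEB SE

theorem tM0 : S_M0 := by
  intro p r
  by_cases h : p.Prime ∧ 2 ≤ r ∧ r + 1 < p
  · obtain ⟨hp, hr, hrp⟩ := h
    obtain ⟨-, hu⟩ := SEB.tPr p r hp hr hrp
    have hcov : 3 ≤ p ∧ (∀ j : Fin (r + 1), ¬ p ∣ (fun _ : Fin (r + 1) => 1) j) ∧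
        ¬ p ∣ ∑ j, (fun _ : Fin (r + 1) => 1) j := by
      refine ⟨by omega, fun _ h => ?_, fun h => ?_⟩
      · have := Nat.le_of_dvd one_pos h
        omega
      · simp only [Finset.sum_const, Finset.card_univ, Fintype.card_fin, smul_eq_mul, mul_one] at h
        have := Nat.le_of_dvd (by omega) h
        omega
    refine (meagre_end mods mods2 p r (fun _ => 1) hr hcov hu).mono ?_
    rintro s ⟨-, -, -, hs, hno⟩
    exact ⟨hs, hno⟩
  · have h0 : M₀ p r = ∅ := by
      ext s
      refine ⟨fun hs => h ⟨hs.1, hs.2.1, hs.2.2.1⟩, fun hs => hs.elim⟩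
    rw [h0]
    exact IsMeagre.empty

end SEQ
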