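import Pool.Agent.Lib.SE.Q.PPf
import Pool.Agent.Lib.SE.Q.Cp
import Pool.Agent.Lib.SE.Q.Gg
import Pool.Agent.Lib.SE.Q.M0
import Pool.Agent.Lib.SE.Q.Rep
import Pool.Agent.Lib.SE.Q.LiR
import Pool.Agent.Lib.SE.Q.ThQ
import Pool.Agent.Lib.SE.Q.Fn
import Pool.Agent.Lib.SE.P.All

/-!
# PROJECT SE-Q: the final theorem, without hypotheses
-/

set_option autoImplicit false

open Module HC HC.E HC.SE SEB SE

noncomputable section

namespace SEQ

/-- **THE FINAL THEOREM.** -/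
theorem fin1 : Fin1 :=
  tFn tGg tM0 tRep tCp tHlT tThQ tLiR E.tIsoInv s_PT fun _ _ _ _ h1 h2 =>
    SEP.hasDA s_da SEP.s_DAB h1 h2

end SEQ
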