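import Pool.Agent.Lib.SE.Q.SpecG

/-!
# PROJECT SE-Q, part H: pairs, every signature (helper42)

The modules `Lr`, `Lu`, `Li` for `GFg`, and the general theorem on pairs.
-/

set_option autoImplicit false

open Module

noncomputable section

namespace SEQ

open HC HC.E HC.SE SEB

def S_Lrg : Prop :=
  S_Prj → S_Cl2 → S_Gt2 → S_LI2 →
  ∀ (T T' : AV) (m m' r r' : ℕ) (D : Cyc T m) (D' : Cyc T' m'), GFg D r → GFg D' r' →
    ∀ h : Set (Pr2 T T'), HLie2 D D' h → ∀ s t, Lnk D D' h s t → r = r' ∧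
    ∀ (M : ℕ) (hM : m ∣ M) (hM' : m' ∣ M), M ≠ 0 → ∀ ρ : (ZMod M)ˣ,
      Lnk D D' h (rho hM ρ s) (rho hM' ρ t)

def S_Lug : Prop :=
  S_Prj →
  ∀ (T T' : AV) (m m' r r' : ℕ) (D : Cyc T m) (D' : Cyc T' m'), GFg D r → GFg D' r' →
    ∀ h : Set (Pr2 T T'), HLie2 D D' h →
    (∀ s t t', Lnk D D' h s t → Lnk D D' h s t' → t' = t ∨ t' = -t) ∧
    ∀ s s' t, Lnk D D' h s t → Lnk D D' h s' t → s' = s ∨ s' = -s

def S_Lig : Prop :=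
  ∀ (T T' : AV) (m m' r r' : ℕ) (D : Cyc T m) (D' : Cyc T' m'), GFg D r → GFg D' r' →
    ∀ h : Set (Pr2 T T'),
    (∀ s t, Lnk D D' h s t → r = r' ∧
      ∀ (M : ℕ) (hM : m ∣ M) (hM' : m' ∣ M), M ≠ 0 → ∀ ρ : (ZMod M)ˣ,
        Lnk D D' h (rho hM ρ s) (rho hM' ρ t)) →
    ((∀ s t t', Lnk D D' h s t → Lnk D D' h s t' → t' = t ∨ t' = -t) ∧
      ∀ s s' t, Lnk D D' h s t → Lnk D D' h s' t → s' = s ∨ s' = -s) →
    ∀ s t, Lnk D D' h s t →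
    ¬ (r ≠ r' ∨
      (∃ ρ : ℕ, ρ.Coprime (m * m') ∧ (ρ : ZMod m) = 1 ∧ (ρ : ZMod m') ≠ 1 ∧ (ρ : ZMod m') ≠ -1) ∨
      ∃ ρ : ℕ, ρ.Coprime (m * m') ∧ (ρ : ZMod m') = 1 ∧ (ρ : ZMod m) ≠ 1 ∧ (ρ : ZMod m) ≠ -1)

/-- The condition on a pair for 'isogenous or independent', every signature: different rank; or
different real fields; or the same `m`, and either the signatures agree up to a unit `g`, or every
unit `g` for which the signatures agree at the characters with `0 < p < r` makes them agree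
everywhere (for example if `0 < p < r` for all characters); or `{m, m'} = {3, 4}` and rank at least
`3`; or for every pair of characters the products of the signatures differ after some unit. -/
def Cpg {T T' : AV} {m m' : ℕ} (D : Cyc T m) (D' : Cyc T' m') (r r' : ℕ) : Prop :=
  r ≠ r' ∨
  (∃ ρ : ℕ, ρ.Coprime (m * m') ∧ (ρ : ZMod m) = 1 ∧ (ρ : ZMod m') ≠ 1 ∧ (ρ : ZMod m') ≠ -1) ∨
  (∃ ρ : ℕ, ρ.Coprime (m * m') ∧ (ρ : ZMod m') = 1 ∧ (ρ : ZMod m) ≠ 1 ∧ (ρ : ZMod m) ≠ -1) ∨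
  (∃ h : m = m', (∃ g : (ZMod m)ˣ, ∀ u : (ZMod m)ˣ, D.p u = (h ▸ D').p (g * u)) ∨
    ∀ g : (ZMod m)ˣ, (∀ u, 0 < D.p u → D.p u < r → (h ▸ D').p (g * u) = D.p u) →
      ∀ u, D.p u = (h ▸ D').p (g * u)) ∨
  (3 ≤ r ∧ (m = 3 ∧ m' = 4 ∨ m = 4 ∧ m' = 3)) ∨
  ∀ s t, ∃ (M : ℕ) (hM : m ∣ M) (hM' : m' ∣ M), M ≠ 0 ∧ ∃ ρ : (ZMod M)ˣ,
    D.p (rho hM ρ s) * D.p (-rho hM ρ s) ≠ D'.p (rho hM' ρ t) * D'.p (-rho hM' ρ t)

/-- **PAIRS**, every signature: isogenous or independent. -/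
def PPg : Prop :=
  ∀ (T T' : AV) (m m' r r' : ℕ) (D : Cyc T m) (D' : Cyc T' m'), GFg D r → GFg D' r' →
    Cpg D D' r r' → ¬ Isg T T' → ∀ h, HLie2 D D' h → ∀ s t, Hit2 D D' h s t

end SEQ
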