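import Pool.Agent.Lib.SE.Q.Defs

/-!
# PROJECT SE-Q: `IsHit` for the explicit classes (helper45)
-/

set_option autoImplicit false

open Module

noncomputable section

namespace SEQ

open HC HC.E HC.SE SEB

/-- `core` of SE/Big/Asm.lean, one step earlier. -/
theorem core_hit (M : Mods) {T : AV} {m r : ℕ} {D : Cyc T m} (hm : 3 ≤ m) (hr : 2 ≤ r)
    (hd : 2 * finrank ℂ T.V = r * Nat.totient m) (hap : Aper D) {h : Set (Module.End ℝ T.V)}
    (hh : HLie D h) {s : (ZMod m)ˣ} (hs : D.p s = 1) (hi : Irr D h s) :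
    ∀ F : Set (ZMod m)ˣ, (∀ s ∈ F, -s ∉ F) → Hits D h F := by
  have h0 : Hits D h {s} := M.At0 M.Bas M.J0 M.L1 T m D hm h hh s hs hi
  have h1 : ∀ t, Hits D h {t} := M.All M.Bas M.Dim M.LI (M.Cl) T m r D hm hr hd h hh s h0
  have h2 : ∀ s t, t ≠ s → t ≠ -s → Hits D h {s, t} :=
    M.Two M.Bas M.Dim M.LI M.Cl M.AdJ M.Gou T m r D hm hr hd hap h hh h1
  exact M.Rib M.Cl M.Perf T m D hm h hh h1 h2

/-- RANK 2: CM type or good. -/
theorem good_two (M : Mods) (hA1 : S_A1) (hA2 : S_A2) (hA3 : S_A3) (hA4 : S_A4) {T : AV} {m : ℕ}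
    (D : Cyc T m) (hm : 3 ≤ m) (hd : finrank ℂ T.V = Nat.totient m) (hs : ∃ s, D.p s = 1)
    (hap : Aper D) : IsCM T ∨ GF1 D 2 := by
  by_cases hab : IsAb D
  · exact Or.inl (hA4 hA1 hA2 hA3 T m D hab)
  · refine Or.inr ⟨hm, le_rfl, by rw [hd], hs, hap, fun h hh => ?_⟩
    obtain ⟨s, hs⟩ := hs
    have hi : Irr D h s := by
      rcases M.R2i M.Bas M.Dim M.Red M.LI T m D hm hd h hh s with hi | hc
      · exact hi
      · exact absurd ⟨h, hh, hc⟩ hab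
    exact core_hit M hm le_rfl (by rw [hd]) hap hh hs hi

/-- The commutant of `Z` is `ℚ(Z)`: good. -/
theorem good_end (M : Mods) (hIrr : S_IrrZ) {T : AV} {m r : ℕ} (D : Cyc T m) (hm : 3 ≤ m)
    (hr : 2 ≤ r) (hd : 2 * finrank ℂ T.V = r * Nat.totient m) (hs : ∃ s, D.p s = 1)
    (hE : EndZ D) (hap : Aper D) : GF1 D r := by
  refine ⟨hm, hr, hd, hs, hap, fun h hh => ?_⟩
  obtain ⟨s, hs⟩ := hs
  exact core_hit M hm hr hd hap hh hs (hIrr M.Bas M.Red M.RatSp T m D hm hE h hh s)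

/-- Real branch points outside a meagre set: the commutant of `Z` is `ℚ(Z)`. -/
theorem meagre_end (M : Mods) (M2 : Mods2) (m r : ℕ) (b : Fin (r + 1) → ℕ) (hr : 2 ≤ r)
    (hcov : 3 ≤ m ∧ (∀ j, ¬ m ∣ b j) ∧ ¬ m ∣ ∑ j, b j) (hu : ∃ u < m, u.Coprime m ∧ sg m r b u = 1) :
    IsMeagre {s : Fin (r + 1) → ℝ | StrictMono s ∧ ¬ ∀ (T : AV)
      (_ : IsCov m (fun j => (s j : ℂ)) b) (N : New T m (fun j => (s j : ℂ)) b) (D : Cyc T m),
      D.Z = N.Z → EndZ D} := by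
  obtain ⟨u, hum, huc, hu1⟩ := hu
  obtain ⟨hm, hb, hbs⟩ := hcov
  have hm0 : (0 : ℝ) < m := by exact_mod_cast (by omega : 0 < m)
  have hn : ∀ j, 1 ≤ m - (u * b j) % m ∧ m - (u * b j) % m < m := fun j => by
    have h1 := Nat.mod_lt (u * b j) (by omega : 0 < m)
    have h2 := mod_pos huc (hb j)
    omega
  have hEx : Exq (fun j => ((m - (u * b j) % m : ℕ) : ℝ) / m) := fun j => by
    refine ⟨div_pos ?_ hm0, (div_lt_one hm0).2 ?_⟩
    · exact_mod_cast (by have := (hn j).1; omega : 0 < m - (u * b j) % m)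
    · exact_mod_cast (hn j).2
  have hint : ∀ n : ℤ, ∑ j, ((m - (u * b j) % m : ℕ) : ℝ) / m ≠ n := by
    intro n h
    rw [← Finset.sum_div, div_eq_iff hm0.ne'] at h
    have h1 : ((∑ j, (m - (u * b j) % m) : ℕ) : ℤ) = n * m := by
      have : (((∑ j, (m - (u * b j) % m) : ℕ) : ℤ) : ℝ) = ((n * m : ℤ) : ℝ) := by
        push_cast
        rw [← h]
      exact_mod_cast this
    have h2 : (m : ℤ) ∣ ((∑ j, (m - (u * b j) % m) : ℕ) : ℤ) := ⟨n, by rw [h1, mul_comm]⟩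
    have h3 : m ∣ ∑ j, (m - (u * b j) % m) := by exact_mod_cast h2
    have h4 : ∑ j, (m - (u * b j) % m) + u * ∑ j, b j =
        m * ∑ j : Fin (r + 1), (1 + u * b j / m) := by
      rw [Finset.mul_sum, Finset.mul_sum, ← Finset.sum_add_distrib]
      refine Finset.sum_congr rfl fun j _ => ?_
      have h5 := Nat.div_add_mod (u * b j) m
      have h6 := Nat.mod_lt (u * b j) (by omega : 0 < m)
      rw [mul_add, mul_one]
      omega
    have h5 : m ∣ u * ∑ j, b j := by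
      rw [← Nat.dvd_add_right h3, h4]
      exact dvd_mul_right _ _
    exact hbs (huc.symm.dvd_of_dvd_mul_left h5)
  refine (M2.Bai r _ hEx hint).mono ?_
  rintro s ⟨hs, hno⟩
  refine ⟨hs, fun hA => hno ?_⟩
  intro T hc N D hDZ
  have hp : ∀ u : (ZMod m)ˣ, D.p u = sg m r b (u : ZMod m).val :=
    M2.Pn M2.Sg M.Bas T m r (fun j => (s j : ℂ)) b hc N D hDZ
  obtain ⟨v, hv⟩ := exists_unit hum huc
  have hpv : D.p v = 1 := by rw [hp, hv, hu1]
  obtain ⟨B, hB⟩ := N.dif u hum huc 0 (sum_lt_of_sg hu1)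
  have hBZ := M2.Bf T m r (fun j => (s j : ℂ)) b hc N u 0 B hB
  have hB' : ∀ x ∉ N.γ.S, ∀ y, N.γ.P (x, y) = 0 →
      B (N.γ.ω x y) = y ^ u / ∏ j, (x - (s j : ℂ)) ^ (1 + u * b j / m) := by
    intro x hx y hy
    rw [hB x hx y hy, pow_zero, one_mul]
  have hL := M2.Loop M2.Br M2.Lat M2.Ca M2.Cb T m r s b hs hc N u hum huc B hBZ hB'
  choose w hw κ h1 h2 h3 using hL
  have hAI : AInd (fun k => (B.restrictScalars ℝ : Frm T) (w k)) :=
    AInd.mul hA fun k => ⟨κ k, h1 k, h2 k, h3 k⟩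
  have hBW : (B.restrictScalars ℝ : Frm T) ∈ Ws10 D v := by
    refine ⟨fun x => ?_, fun x => ?_⟩
    · have := hBZ x
      change B (D.Z x) = zet m v * B x
      rw [hDZ, this, zet, hv]
    · exact B.map_smul _ _
  exact M2.Per M.Bas T m r D hm (by omega) (by rw [N.dim]) v hpv _ hBW w hw hAI

end SEQ
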