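import Pool.Agent.Lib.SE.Q.SpecC
import Pool.Agent.Lib.SE.Q.Hit
import Pool.Agent.Lib.SE.W.All
import Pool.Agent.Lib.SE.P.SpecF

/-!
# PROJECT SE-Q, part D: the final theorem (helper45)

`B` is isogenous to `A × G_1 × … × G_N`, `A` of CM type, `G_n` in the explicit class `Gd`;
`T` is isogenous to `B × ∏_n J_(j n)`, `J_i` new Jacobians or of Picard type (`Fct`); a Hodge class of
`T` killed by `∏_i su(H_1(J_i))` is algebraic.

Every module: file `SE/Q/Xyz.lean`, `theorem tXyz : S_Xyz`, import only `Pool.Agent.Lib.SE.Q.SpecD` (and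
what you need).
-/

set_option autoImplicit false

open Module

noncomputable section

namespace SEQ

open HC HC.E HC.SE SEB SE

/-! ## The explicit class -/

/-- `G` is one of the abelian varieties with known Hodge group: (i) of Picard type, `dim G ≥ 3`, with
commutant of `Z` equal to `ℚ(Z)`; or the Jacobian of `y ^ p = f(x)`, `p` prime, `f` of degree
`r + 1`, `3 ≤ r + 1 < p`, with distinct roots `s`, where (ii) `r = 2`, or (iii) the commutant of `Z` is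
`ℚ(Z)`, or (iv) the roots are real and not in `M p r`. -/
def Gd (M : ℕ → (r : ℕ) → Set (Fin (r + 1) → ℝ)) (G : AV) : Prop :=
  (∃ (m : ℕ) (Z : Module.End ℂ G.V), IsPic G m Z ∧ 3 ≤ finrank ℂ G.V ∧ EndQ G Z) ∨
  ∃ (p r : ℕ) (s : Fin (r + 1) → ℂ) (D : New G p s fun _ => 1), p.Prime ∧ 2 ≤ r ∧ r + 1 < p ∧
    Function.Injective s ∧ (r = 2 ∨ EndQ G D.Z ∨
      ∃ t : Fin (r + 1) → ℝ, StrictMono t ∧ t ∉ M p r ∧ s = fun j => (t j : ℂ))

/-- The sets of excluded real points. -/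
def M₀ (p r : ℕ) : Set (Fin (r + 1) → ℝ) :=
  {s | p.Prime ∧ 2 ≤ r ∧ r + 1 < p ∧ StrictMono s ∧ ¬ ∀ (T : AV)
    (_ : IsCov p (fun j => (s j : ℂ)) fun _ => 1) (N : New T p (fun j => (s j : ℂ)) fun _ => 1)
    (D : Cyc T p), D.Z = N.Z → EndZ D}

/-- The kinds of good factors, in terms of the signatures. -/
def Kd {T : AV} {m : ℕ} (D : Cyc T m) (r : ℕ) : Prop :=
  ((m = 3 ∨ m = 4) ∧ 3 ≤ r) ∨
    m.Prime ∧ 5 ≤ m ∧ ∀ u : (ZMod m)ˣ, D.p u = sg m r (fun _ => 1) (u : ZMod m).val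

/-- **Cp**: kinds are compatible. PROOF. If `r ≠ r'` first case. (a) both `m, m' ∈ {3, 4}`, `m ≠ m'`:
fifth case. `m = m'`: the units are `± 1`; `D.p s = 1`, `D.p (-s) = r - 1` (`S_Dim`), the same for `D'` with
`t`: `t = ± s`. (b) `m' ∈ {3, 4}` or a prime `≥ 5`, `m` a prime `≥ 5`, `m ≠ m'`: coprime; `ρ = 1` modulo
`m'`, `ρ = 2` modulo `m` (Chinese remainder theorem, `Nat.chineseRemainder`), and `2 ≠ ± 1` in `ZMod m`.
(c) `m = m'` prime `≥ 5`: equal signatures (`subst`). -/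
def S_Cp : Prop :=
  ∀ (T T' : AV) (m m' r r' : ℕ) (D : Cyc T m) (D' : Cyc T' m'), GF1 D r → GF1 D' r' → Kd D r →
    Kd D' r' → Cpt D D' r r'

/-- **Gg**: the explicit class. PROOF. `good_two`, `good_end` (SE/Q/Hit.lean). (i) `SEP.S_Pp`, `SEP.S_Apm`,
`endZ_of_endQ`, an invariant Riemann form (`S_Avg`), `r = dim G`; (ii)-(iv) `isCov_one`, `S_Pr`
(SE/Big/Cor2.lean), `S_Pnew`, `S_Ap`. `M` as in `M₀`. -/
def S_Gg : Prop :=
  ∀ G : AV, Gd M₀ G → IsCM G ∨ ∃ (m r : ℕ) (D : Cyc G m), GF1 D r ∧ Kd D r ∧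
    (IsPic G m D.Z ∨ ∃ (s : Fin (r + 1) → ℂ) (N : New G m s fun _ => 1),
      N.Z = D.Z ∧ IsCov m s fun _ => 1)

/-- **M0**: PROOF. `meagre_end` (SE/Q/Hit.lean), `S_Pr`. -/
def S_M0 : Prop := ∀ p r, IsMeagre (M₀ p r)

/-! ## The Lie algebra step, relative version -/

/-- The real span of the commutators contains `∏_(i ∈ S) su_i` up to components outside `S`. -/
def BigS {q : ℕ} {J : Fin q → AV} {m : Fin q → ℕ} (D : ∀ i, Cyc (J i) (m i)) (S : Set (Fin q)) :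
    Prop :=
  ∀ h, HLieT D h → ∀ X : Tup J, (∀ i ∈ S, IsSU (D i) (X i)) →
    ∃ W ∈ Submodule.span ℝ (ComT h), ∀ i ∈ S, W i = X i

/-- A class of `T ≅ A × ∏_n J_(j n)` is killed by the commutators of the elements of
`∏_(i ∉ S) u(H_1(J_i))`. -/
def SUS {A T : AV} {q N : ℕ} {J : Fin q → AV} {j : Fin N → Fin q} (S : Set (Fin q))
    (Z : ∀ i, Module.End ℂ (J i).V) (E : ∀ i, (J i).V →ₗ[ℝ] (J i).V →ₗ[ℝ] ℝ)
    (ψ : T.V ≃ₗ[ℂ] A.V × (∀ n, (J (j n)).V)) {d : ℕ} (c : Hlg T d) : Prop :=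
  ∀ P Q : ∀ i, Module.End ℝ (J i).V, (∀ i, P i ∈ Lef (J i) (Z i) (E i)) →
    (∀ i, Q i ∈ Lef (J i) (Z i) (E i)) → (∀ i ∈ S, P i = 0) → ∀ X : Module.End ℝ T.V,
      (∀ v, ψ (X v) = (0, fun n => (P * Q - Q * P) (j n) ((ψ v).2 n))) → ∀ a, dact X c a = 0

/-- **LiR**. PROOF. As `tLie` (SE/W/Lie.lean) until `hh3`: `h` is a set of tuples of rational
endomorphisms closed under commutators, `i` in the real span, whose commutators (extended by `0` on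
`A`) kill `c`. `S_HlT`: `h' ⊆ ∏ u_i`, its commutators are real combinations of those of `h`. `BigS` for
`X = P Q - Q P` (in `su_i`: `isSU_comm` of SE/Big/ToBig.lean): `W`, kills `c`. `U = P Q - Q P - W` is `0` on
`S`, and `U i` is a real combination of commutators of elements of `Lef (J i)` (the components of
elements of `h'`); so `U = ∑_(i ∉ S) Pi.single i (U i)` is a real combination of commutators of tuples
which vanish on `S`: it kills `c` by `SUS`. -/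
def S_LiR : Prop :=
  S_HlT → S_La → S_La' → S_Lb → S_Lc1 → S_Lc2 → E.S_IsoInv →
    ∀ (A T : AV) (q N : ℕ) (J : Fin q → AV) (m : Fin q → ℕ) (D : ∀ i, Cyc (J i) (m i))
    (j : Fin N → Fin q) (S : Set (Fin q)) (ψ : T.V ≃ₗ[ℂ] A.V × (∀ n, (J (j n)).V)), IsCM A →
    BigS D S →
    (∀ v ∈ T.L, ∃ k : ℕ, k ≠ 0 ∧ k • (ψ v).1 ∈ A.L ∧ ∀ n, k • (ψ v).2 n ∈ (J (j n)).L) →
    ∀ (d : ℕ) (c : Hlg T d), IsHodge T d c →
    SUS S (fun i => (D i).Z) (fun i => (D i).ψ) ψ c →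
    HC.SE.SUK (fun i => (D i).Z) (fun i => (D i).ψ) ψ c

/-- **ThQ**: two families. `B` is isogenous to `A × ∏_n R_(k n)`, the `R_i` independent; `T` to
`B × ∏_n J_(j n)`. PROOF. `S_LiR` and `thmKg` (SE/W/All.lean) for the family indexed by
`Fin q' ≃ Fin q₁ ⊕ Fin q` (`Sum.elim R J ∘ e`, data by `Sum.rec`), `S` = the indices of the `R_i`; `BigS` from
the hypothesis on `R` (restrict an `HLieT` to the components in `S`); the isogeny
`T → A × ∏_n R_(k n) × ∏_n J_(j n)` is the composition; the action of `X` in `SUS` is `0` on `B`. -/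
def S_ThQ : Prop :=
  S_HlT → S_LiR → ∀ (A B T : AV) (q₁ N₁ q N : ℕ) (R : Fin q₁ → AV) (k : Fin N₁ → Fin q₁)
    (m₁ : Fin q₁ → ℕ) (D₁ : ∀ i, Cyc (R i) (m₁ i)) (J : Fin q → AV) (j : Fin N → Fin q)
    (m : Fin q → ℕ) (D : ∀ i, Cyc (J i) (m i)) (ψ : T.V ≃ₗ[ℂ] B.V × (∀ n, (J (j n)).V)),
    IsCM A → (∀ i, 3 ≤ m₁ i) → (∀ i, 3 ≤ m i) →
    (∀ i, HasDA (fun T m c => HC.SE.Alg2 T m c) (m₁ i) (R i) (D₁ i).Z (D₁ i).ψ) →
    (∀ i, HasDA (fun T m c => HC.SE.Alg2 T m c) (m i) (J i) (D i).Z (D i).ψ) →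
    (∀ h, HLieT D₁ h → ∀ X : Tup R, (∀ i, IsSU (D₁ i) (X i)) → X ∈ Submodule.span ℝ (ComT h)) →
    IsProdE B A (fun n => R (k n)) →
    (∀ v ∈ T.L, ∃ k : ℕ, k ≠ 0 ∧ k • (ψ v).1 ∈ B.L ∧ ∀ n, k • (ψ v).2 n ∈ (J (j n)).L) →
    ∀ (d : ℕ) (c : Hlg T d), IsHodge T d c →
    HC.SE.SUK (fun i => (D i).Z) (fun i => (D i).ψ) ψ c → HC.SE.Alg2 T d c

/-! ## Representatives -/

/-- **Rep**: REPRESENTATIVES of the isogeny classes, for any class `𝒞` of abelian varieties. PROOF.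
`A'` = the product of `A` and the `G n` of CM type (`isCM_prod`, `S_Pex` of SE/W/Pex.lean). For the other
`n` the relation `Isg (G n) (G n')` is an equivalence relation (`S_IsoInv`); `q₁` = the number of classes,
`R` = representatives, `k n` = the class of `n`; compose with the isogenies `G n → R (k n)`. -/
def S_Rep : Prop :=
  E.S_IsoInv → ∀ (𝒞 : AV → Prop) (A B : AV) (N : ℕ) (G : Fin N → AV), IsCM A →
    (∀ n, IsCM (G n) ∨ 𝒞 (G n)) → IsProdE B A G →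
    ∃ (A' : AV) (q₁ N₁ : ℕ) (R : Fin q₁ → AV) (k : Fin N₁ → Fin q₁), IsCM A' ∧
      (∀ i, 𝒞 (R i)) ∧ (∀ i i', i ≠ i' → ¬ Isg (R i) (R i')) ∧ IsProdE B A' (fun n => R (k n))

/-! ## The final theorem -/

/-- **THE FINAL THEOREM.** -/
def Fin1 : Prop :=
  ∃ M : ℕ → (r : ℕ) → Set (Fin (r + 1) → ℝ), (∀ p r, IsMeagre (M p r)) ∧
  ∀ (A B T : AV) (N' : ℕ) (G : Fin N' → AV), IsCM A → (∀ n, Gd M (G n)) → IsProdE B A G →
  ∀ (q N : ℕ) (J : Fin q → AV) (j : Fin N → Fin q) (m : Fin q → ℕ)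
    (Z : ∀ i, Module.End ℂ (J i).V) (E : ∀ i, (J i).V →ₗ[ℝ] (J i).V →ₗ[ℝ] ℝ)
    (ψ : T.V ≃ₗ[ℂ] B.V × (∀ n, (J (j n)).V)),
    (∀ i, Fct (J i) (m i) (Z i)) → (∀ i, IsPol (J i) (Z i) (E i)) →
    (∀ v ∈ T.L, ∃ k : ℕ, k ≠ 0 ∧ k • (ψ v).1 ∈ B.L ∧ ∀ n, k • (ψ v).2 n ∈ (J (j n)).L) →
    ∀ (d : ℕ) (c : Hlg T d), IsHodge T d c → SUK Z E ψ c → Alg2 T d c

/-- **Fn**: assembly. PROOF. `M₀`, `S_Gg`, `S_Rep` with the class of `S_Gg`, `S_Cp`, `PT` in the form of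
`pta` (SpecC), `HasDA_new` (SE/W/All.lean) and `S_DAB`, `S_ThQ`. For `Fct` the data `Cyc` from `New` resp.
`IsPic` and `IsPol`. -/
def S_Fn : Prop :=
  S_Gg → S_M0 → S_Rep → S_Cp → S_HlT → S_ThQ → S_LiR → E.S_IsoInv →
    (∀ (q : ℕ) (T : Fin q → AV) (m r : Fin q → ℕ) (D : ∀ i, Cyc (T i) (m i)),
      (∀ i, GF1 (D i) (r i)) → (∀ i j, i ≠ j → Cpt (D i) (D j) (r i) (r j)) →
      (∀ i j, i ≠ j → ¬ Isg (T i) (T j)) → ∀ h, HLieT D h → ∀ X : Tup T,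
      (∀ i, IsSU (D i) (X i)) → X ∈ Submodule.span ℝ (ComT h)) →
    (∀ (J : AV) (m : ℕ) (Z : Module.End ℂ J.V) (R : J.V →ₗ[ℝ] J.V →ₗ[ℝ] ℝ),
      Fct J m Z → IsPol J Z R → HasDA (fun T m c => HC.SE.Alg2 T m c) m J Z R) → Fin1

end SEQ
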