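import Pool.Agent.Lib.SE.Q.SpecH

/-!
# PROJECT SE-Q, module Lig: different rank or different real fields exclude links
-/

set_option autoImplicit false

open Module

noncomputable section

namespace SEQ

open HC HC.E HC.SE SEB

namespace Lig_aux

theorem umap_val {m M : ℕ} (hM : m ∣ M) (ρ : ℕ) (hρ : ρ.Coprime M) :
    ((ZMod.unitsMap hM (ZMod.unitOfCoprime ρ hρ) : (ZMod m)ˣ) : ZMod m) = (ρ : ZMod m) := by
  rw [ZMod.unitsMap_def, Units.coe_map, ZMod.coe_unitOfCoprime]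
  exact map_natCast (ZMod.castHom hM (ZMod m)) ρ

theorem rho_one {m M : ℕ} (hM : m ∣ M) (ρ : ℕ) (hρ : ρ.Coprime M) (s : (ZMod m)ˣ)
    (h : (ρ : ZMod m) = 1) : rho hM (ZMod.unitOfCoprime ρ hρ) s = s := by
  have h1 : ZMod.unitsMap hM (ZMod.unitOfCoprime ρ hρ) = 1 := by
    refine Units.ext ?_
    rw [umap_val, h, Units.val_one]
  rw [rho, h1, one_mul]

theorem rho_pm {m M : ℕ} (hM : m ∣ M) (ρ : ℕ) (hρ : ρ.Coprime M) (s : (ZMod m)ˣ)
    (h : rho hM (ZMod.unitOfCoprime ρ hρ) s = s ∨ rho hM (ZMod.unitOfCoprime ρ hρ) s = -s) :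
    (ρ : ZMod m) = 1 ∨ (ρ : ZMod m) = -1 := by
  rw [← umap_val hM ρ hρ]
  rcases h with h | h
  · left
    have h1 : ZMod.unitsMap hM (ZMod.unitOfCoprime ρ hρ) = 1 := by
      have h2 : ZMod.unitsMap hM (ZMod.unitOfCoprime ρ hρ) * s = 1 * s := by
        rw [one_mul]
        exact h
      exact mul_right_cancel h2
    rw [h1, Units.val_one]
  · right
    have h1 : ZMod.unitsMap hM (ZMod.unitOfCoprime ρ hρ) = -1 := by
      have h2 : ZMod.unitsMap hM (ZMod.unitOfCoprime ρ hρ) * s = -1 * s := by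
        rw [neg_one_mul]
        exact h
      exact mul_right_cancel h2
    rw [h1, Units.val_neg, Units.val_one]

end Lig_aux

open Lig_aux in
theorem tLig : S_Lig := by
  intro T T' m m' r r' D D' hD hD' h h1 h2 s t hL hC
  have hm := hD.hm
  have hm' := hD'.hm
  have hM0 : m * m' ≠ 0 := Nat.mul_ne_zero (by omega) (by omega)
  rcases hC with hC | ⟨ρ, hco, ha, hb, hc⟩ | ⟨ρ, hco, ha, hb, hc⟩
  · exact hC (h1 s t hL).1
  · have h3 := (h1 s t hL).2 (m * m') (Dvd.intro _ rfl) (Dvd.intro_left _ rfl) hM0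
      (ZMod.unitOfCoprime ρ hco)
    rw [rho_one _ ρ hco s ha] at h3
    rcases rho_pm _ ρ hco t (h2.1 s t _ hL h3) with h4 | h4
    · exact hb h4
    · exact hc h4
  · have h3 := (h1 s t hL).2 (m * m') (Dvd.intro _ rfl) (Dvd.intro_left _ rfl) hM0
      (ZMod.unitOfCoprime ρ hco)
    rw [rho_one _ ρ hco t ha] at h3
    rcases rho_pm _ ρ hco s (h2.2 s _ t hL h3) with h4 | h4
    · exact hb h4
    · exact hc h4

end SEQ
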