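import Pool.Agent.Lib.SE.Q.BAll
import Pool.Agent.Lib.SE.Q.Lrg
import Pool.Agent.Lib.SE.Q.Lug
import Pool.Agent.Lib.SE.Q.Lig
import Pool.Agent.Lib.SE.Q.Gt2
import Pool.Agent.Lib.SE.Q.LI2

/-!
# PROJECT SE-Q, part H: pairs, every signature (helper42)
-/

set_option autoImplicit false

open Module

noncomputable section

namespace SEQ

open HC HC.E HC.SE SEB B_aux Bg_aux

namespace PPg_aux

/-- An injective map of a finite set which respects a predicate reflects it. -/
theorem refl_fin {α : Type} [Finite α] (P : α → Prop) (f : α → α) (hf : Function.Injective f)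
    (h : ∀ a, P a → P (f a)) (a : α) (ha : P (f a)) : P a := by
  classical
  have := Fintype.ofFinite α
  let F : {a // P a} → {a // P a} := fun a => ⟨f a.1, h a.1 a.2⟩
  have hF : Function.Injective F := fun a b hab => Subtype.ext (hf (congrArg Subtype.val hab))
  obtain ⟨⟨b, hb⟩, hb'⟩ := (Finite.injective_iff_surjective.1 hF) ⟨f a, ha⟩
  have h1 : f b = f a := congrArg Subtype.val hb'
  rw [← hf h1]
  exact hb

end PPg_aux

open PPg_aux

/-- The same `m`: one link gives an isogeny. -/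
theorem linked_isg {T T' : AV} {m r : ℕ} {D : Cyc T m} {D' : Cyc T' m} (hD : GFg D r)
    (hD' : GFg D' r)
    (hc : (∃ g : (ZMod m)ˣ, ∀ u : (ZMod m)ˣ, D.p u = D'.p (g * u)) ∨
      ∀ g : (ZMod m)ˣ, (∀ u, 0 < D.p u → D.p u < r → D'.p (g * u) = D.p u) →
        ∀ u, D.p u = D'.p (g * u))
    {h : Set (Pr2 T T')} (hh : HLie2 D D' h) {s t : (ZMod m)ˣ} (hl : Lnk D D' h s t) :
    Isg T T' := by
  have hm := hD.hm
  have hm0 : m ≠ 0 := by omega
  have hNZ : NeZero m := ⟨hm0⟩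
  obtain ⟨t', hθ⟩ : ∃ t' : (ZMod m)ˣ, ∃ θ : Ws D s ≃ₗ[ℂ] Ws D' t', Itw h θ := by
    rcases tTh0g tPrj tCl2 tInt tIntG tDua T T' m m r D D' hD hD' h hh s t hl with hθ | hθ
    · exact ⟨t, hθ⟩
    · exact ⟨-t, hθ⟩
  obtain ⟨g, rfl⟩ : ∃ g : (ZMod m)ˣ, t' = g * s := ⟨t' * s⁻¹, (inv_mul_cancel_right _ _).symm⟩
  -- at every character
  have hall : ∀ u, ∃ θ : Ws D u ≃ₗ[ℂ] Ws D' (g * u), Itw h θ := by
    intro u
    obtain ⟨θ, hθ⟩ := hθ
    refine itw_cast (D := D) (D' := D') (by rw [rho_self, inv_mul_cancel_right]) ?_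
      (tGtr tPrj tRSH tGaH T T' m m r D D' hD hD' h hh s _ θ hθ m dvd_rfl dvd_rfl hm0 (u * s⁻¹))
    rw [rho_self, mul_comm g s, ← mul_assoc, inv_mul_cancel_right, mul_comm]
  have hsig : ∀ u, 0 < D.p u → D.p u < r → D'.p (g * u) = D.p u := by
    intro u h0 h1
    obtain ⟨θ, hθ⟩ := hall u
    exact tJc tPrj tCl2 tTrJ T T' m m r D D' hD hD' h hh u _ θ hθ h0 h1
  have fin : ∀ g' : (ZMod m)ˣ, (∀ u, D.p u = D'.p (g' * u)) →
      (∃ θ : Ws D s ≃ₗ[ℂ] Ws D' (g' * s), Itw h θ) → Isg T T' := by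
    rintro g' hg' ⟨θ, hθ⟩
    exact same_isgg tPrj tTh1g (tCutg tTrS tTrJ) (tTrE tTrS) (tHomg tRSH) (tIsog tPrj tGaH) hD hD'
      g' hg' hh s θ hθ
  rcases hc with ⟨g₀, hg₀⟩ | hc
  · have hr : ∀ u, D.p u + D.p (-u) = r := fun u => (dim_all T m r D hm hD.dim u).2
    -- `D.p (g₀⁻¹ g u) = D'.p (g u)`
    have e1 : ∀ u, D.p (u * (g₀⁻¹ * g)) = D'.p (g * u) := by
      intro u
      rw [hg₀]
      congr 1
      rw [mul_comm u, ← mul_assoc, mul_inv_cancel_left]
    have hind : ∀ u, (0 < D.p u ∧ D.p u < r) → D.p (u * (g₀⁻¹ * g)) = D.p u := by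
      intro u hu
      rw [e1, hsig u hu.1 hu.2]
    have hap : g₀⁻¹ * g = 1 ∨ g₀⁻¹ * g = -1 := by
      refine hD.ap _ fun u => ?_
      by_cases hu : 0 < D.p u ∧ D.p u < r
      · have hu' : 0 < D.p (-u) ∧ D.p (-u) < r := by
          have := hr u
          omega
        rw [hind u hu, ← neg_mul, hind (-u) hu']
      · have hu' : ¬ (0 < D.p (u * (g₀⁻¹ * g)) ∧ D.p (u * (g₀⁻¹ * g)) < r) := by
          intro h1
          refine hu (refl_fin (fun u => 0 < D.p u ∧ D.p u < r) (fun u => u * (g₀⁻¹ * g))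
            (mul_left_injective _) (fun a ha => ?_) u h1)
          show 0 < D.p (a * (g₀⁻¹ * g)) ∧ D.p (a * (g₀⁻¹ * g)) < r
          rw [hind a ha]
          exact ha
        have z : ∀ v, ¬ (0 < D.p v ∧ D.p v < r) → D.p v * D.p (-v) = 0 := by
          intro v hv
          have := hr v
          rcases Nat.eq_zero_or_pos (D.p v) with h0 | h0
          · rw [h0, zero_mul]
          · have : D.p (-v) = 0 := by
              have : r ≤ D.p v := by
                by_contra hlt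
                exact hv ⟨h0, by omega⟩
              omega
            rw [this, mul_zero]
        rw [z _ hu, z _ hu']
    rcases hap with h1 | h1
    · have h2 : g = g₀ := by rw [← mul_one g₀, ← h1, mul_inv_cancel_left]
      subst h2
      exact fin g hg₀ (hall s)
    · have h2 : g = -g₀ := by
        rw [← mul_inv_cancel_left g₀ g, h1, mul_neg_one]
      subst h2
      by_cases hr2 : r = 2
      · subst hr2
        obtain ⟨θ, hθ⟩ := hall s
        refine fin g₀ hg₀ (itw_cast rfl ?_ (tR2t tPrj tDua T T' m m D D' hD' h hh s _ θ hθ))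
        rw [neg_mul, neg_neg]
      · exfalso
        obtain ⟨u, hu0, hu1, hu2⟩ := hD.ex
        have hu2' : 2 * D.p u ≠ r := hu2.resolve_right hr2
        have h3 := hsig u hu0 hu1
        have h4 : D'.p (-g₀ * u) = D.p (-u) := by
          rw [hg₀, neg_mul, mul_neg]
        have h5 := hr u
        omega
  · exact fin g (hc g hsig) (hall s)

/-- **PPg**: pairs, every signature. -/
theorem tPPg : PPg := by
  intro T T' m m' r r' D D' hG hG' hC hI h hh s t
  by_contra hno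
  have hm := hG.hm
  have hm' := hG'.hm
  obtain ⟨p1, p2, -, -, p5⟩ := tPrj T T' m m' D D' h hh
  have hit1 : ∀ s, Hits D (Prod.fst '' h) {s} := fun s => hG.hit _ p1 {s} (Lp_half hm s)
  have hit2 : ∀ t, Hits D' (Prod.snd '' h) {t} := fun t => hG'.hit _ p2 {t} (Lp_half hm' t)
  have hL : Lnk D D' h s t :=
    (tGt2 tPrj tCl2 T T' m m' D D' hm hm' h hh s t (hit1 s) (hit2 t)).resolve_left hno
  have b1 := tLrg tPrj tCl2 (tGt2 tPrj tCl2) tLI2 T T' m m' r r' D D' hG hG' h hh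
  have b2 := tLug tPrj T T' m m' r r' D D' hG hG' h hh
  have b3 := tLig T T' m m' r r' D D' hG hG' h b1 b2 s t hL
  have hrr : r = r' := (b1 s t hL).1
  subst hrr
  have b4 : ∀ u u', Lnk D D' h u u' → D.p u * D.p (-u) = D'.p u' * D'.p (-u') :=
    fun u u' hl => Lp_gen tPrj tCl2 D D' hm hm' h hh u u' (hit1 u) (hit2 u') hl
  rcases hC with c | c | c | c | c | c
  · exact b3 (Or.inl c)
  · exact b3 (Or.inr (Or.inl c))
  · exact b3 (Or.inr (Or.inr c))
  · obtain ⟨hmm, c⟩ := c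
    subst hmm
    exact hI (linked_isg hG hG' c hh hL)
  · exact hI (tBg_all T T' m m' r D D' hG hG' (Or.inr c) h hh s t
      (fun M hM hM' hM0 ρ => (b1 s t hL).2 M hM hM' hM0 ρ) b4)
  · obtain ⟨M, hM, hM', hM0, ρ, hne⟩ := c s t
    exact hne (b4 _ _ ((b1 s t hL).2 M hM hM' hM0 ρ))

end SEQ
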