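import Pool.Agent.Lib.SE.Q.SpecA

/-!
# PROJECT SE-Q, part B: linked characters with `p = 1` give an isogeny (helper42)

Every module: file `SE/Q/Xyz.lean`, `theorem tXyz : S_Xyz`, import only `Pool.Agent.Lib.SE.Q.SpecB` and the
proved modules of SE/Big you want to use (`tBas`, `tPj`, `tDim`, `tJ0`, `tCl`, `tTw`, `tTr`, ...; file
`SE/Big/Xyz.lean`). 'From `S_A`' in a docstring: `theorem tXyz : S_A → S_Xyz` if `S_A` is a statement of
SpecA or SpecB which is not already a hypothesis in the statement itself.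
-/

set_option autoImplicit false

open Module

noncomputable section

namespace SEQ

open HC HC.E HC.SE SEB

/-! ## Definitions -/

/-- `Y` maps the rational lattice of `T'` into that of `T`. -/
def RatHom (T' T : AV) (Y : T'.V →ₗ[ℝ] T.V) : Prop :=
  ∀ v ∈ T'.L, ∃ N : ℕ, N ≠ 0 ∧ N • Y v ∈ T.L

/-- The action on the forms, `a ↦ a ∘ Y`. -/
def preH {T T' : AV} (Y : T'.V →ₗ[ℝ] T.V) : Frm T →ₗ[ℂ] Frm T' where
  toFun a := a ∘ₗ Y
  map_add' _ _ := rfl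
  map_smul' _ _ := rfl

/-- The traces over `E` of the two components agree, `Z'` corresponding to `Z ^ g`. -/
def TrEq {T T' : AV} {m : ℕ} (D : Cyc T m) (D' : Cyc T' m) (g : (ZMod m)ˣ) (X : Pr2 T T') : Prop :=
  ∀ k : ZMod m, LinearMap.trace ℝ T.V (X.1 * D.ZR ^ ((g : ZMod m) * k).val) =
    LinearMap.trace ℝ T'.V (X.2 * D'.ZR ^ k.val)

/-! ## Pure linear algebra -/

/-- **Int**: the isomorphism of the eigenspaces. PROOF. By the last four hypotheses `P` is the graph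
of a linear bijection `f` of the traceless operators, compatible with commutators and with
`ad e`, `ad e'`, `e = φ(·) v`, `e' = φ'(·) v'`. `U = ker φ`, `U' = ker φ'`. The traceless `X` with
`[e, X] = -X` are the `φ(·) u`, `u ∈ U` (`e X - X e = -X`; multiply by `e` on both sides: `e X e = 0`,
`e X = 0`, `X = X e`), those with `[e, Y] = Y` are the `β(·) v`, `β v = 0`. So
`f (φ(·) u) = φ'(·) g(u)`, `g : U → U'` a linear bijection; `θ (c v + u) = c v' + g(u)` is bijective and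
`φ' ∘ θ = φ`. The set `S` of the traceless `X` with `θ X = f(X) θ` is a subspace closed under
commutators. `X = φ(·) u ∈ S`: `θ(X w) = φ(w) g(u) = f(X)(θ w)`. `Y = β(·) v`, `f(Y) = β'(·) v'`:
`[[Y, X], X] = -2 β(u) X` for `X = φ(·) u`, `f`: `[[f Y, f X], f X] = -2 β'(g u) f(X)`, so
`β'(g u) = β(u)` (`u ≠ 0`), and `β'(v') = 0 = β(v)`: `β' ∘ θ = β`, `Y ∈ S`. Finally
`[Y, X] = β(u) e - β(·) u`, and every traceless operator is the sum of some `φ(·) u`, some `β(·) v` and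
`c e + ∑ β_i(·) u_i` (`β_i v = 0`, `u_i ∈ U`, `c + ∑ β_i(u_i) = 0`) `= -∑ (β_i(u_i) e - β_i(·) u_i)`. -/
def S_Int : Prop :=
  ∀ (W W' : Type) [AddCommGroup W] [Module ℂ W] [FiniteDimensional ℂ W] [AddCommGroup W']
    [Module ℂ W'] [FiniteDimensional ℂ W']
    (P : Submodule ℂ (Module.End ℂ W × Module.End ℂ W')) (φ : Module.Dual ℂ W) (v : W)
    (φ' : Module.Dual ℂ W') (v' : W'), φ v = 1 → φ' v' = 1 →
    (∀ x ∈ P, ∀ y ∈ P, (x.1 * y.1 - y.1 * x.1, x.2 * y.2 - y.2 * x.2) ∈ P) →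
    (∀ x ∈ P, ((φ.smulRight v : Module.End ℂ W) * x.1 - x.1 * (φ.smulRight v : Module.End ℂ W),
      (φ'.smulRight v' : Module.End ℂ W') * x.2 - x.2 * (φ'.smulRight v' : Module.End ℂ W')) ∈ P) →
    (∀ x ∈ P, LinearMap.trace ℂ W x.1 = 0 ∧ LinearMap.trace ℂ W' x.2 = 0) →
    (∀ X : Module.End ℂ W, LinearMap.trace ℂ W X = 0 → ∃ Y, (X, Y) ∈ P) →
    (∀ Y : Module.End ℂ W', LinearMap.trace ℂ W' Y = 0 → ∃ X, (X, Y) ∈ P) →
    (∀ x ∈ P, x.1 = 0 ↔ x.2 = 0) →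
    ∃ θ : W ≃ₗ[ℂ] W', ∀ x ∈ P, ∀ w, θ (x.1 w) = x.2 (θ w)

/-! ## Linked characters -/

/-- **Th0**: from a link to `θ`. PROOF. `P` = the pairs of operators of `Ws D s`, `Ws D' t` induced by
the elements of `gg2 h`: closed under commutators (`S_Cl2`), traceless (`tCl` for the projections,
`S_Prj`), onto in both components (`GF1.hit` with `F = {s}`: `-s ≠ s` as `m ≥ 3`), `x.1 = 0 ↔ x.2 = 0` is the
link. `J = -i + 2 i e` on both sides (`tJ0`), and `gg2 h` is closed under `[J, ·]` (`S_Cl2`), so `P` is closed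
under `(ad e, ad e')` (divide by `2 i`). `S_Int`. -/
def S_Th0 : Prop :=
  S_Prj → S_Cl2 → S_Int →
  ∀ (T T' : AV) (m m' r r' : ℕ) (D : Cyc T m) (D' : Cyc T' m'), GF1 D r → GF1 D' r' →
    ∀ h : Set (Pr2 T T'), HLie2 D D' h → ∀ s t, D.p s = 1 → D'.p t = 1 → Lnk D D' h s t →
    ∃ θ : Ws D s ≃ₗ[ℂ] Ws D' t, ∀ C ∈ gg2 h, ∀ a b : Ws D s, (b : Frm T) = C.1 (a : Frm T) →
      (θ b : Frm T') = C.2 (θ a : Frm T')

/-- **Th1**: `θ` intertwines all of `h` if the traces agree. PROOF. Let `A`, `B` be the operators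
induced by `X ∈ h` (`X` commutes with `Z`: `tBas`). For `C ∈ gg2 h` also `[pre2 X, C] ∈ gg2 h`
(`[X, [Y, Z]] ∈ Com2 h`). So `θ A θ⁻¹ - B` commutes with the operators of `Ws D' t` induced by `gg2 h`,
i.e. with all traceless operators (`GF1.hit`, `S_Prj`); so it is a scalar, of trace `0`, and
`dim Ws D' t = r' ≥ 2` (`tDim`): it is `0`. -/
def S_Th1 : Prop :=
  S_Prj →
  ∀ (T T' : AV) (m m' r r' : ℕ) (D : Cyc T m) (D' : Cyc T' m'), GF1 D r → GF1 D' r' →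
    ∀ h : Set (Pr2 T T'), HLie2 D D' h → ∀ s t, ∀ θ : Ws D s ≃ₗ[ℂ] Ws D' t,
    (∀ C ∈ gg2 h, ∀ a b : Ws D s, (b : Frm T) = C.1 (a : Frm T) →
      (θ b : Frm T') = C.2 (θ a : Frm T')) →
    (∀ X ∈ h, ∀ (A : Module.End ℂ (Ws D s)) (B : Module.End ℂ (Ws D' t)),
      (∀ a : Ws D s, pre X.1 (a : Frm T) = (A a : Frm T)) →
      (∀ b : Ws D' t, pre X.2 (b : Frm T') = (B b : Frm T')) →
      LinearMap.trace ℂ (Ws D s) A = LinearMap.trace ℂ (Ws D' t) B) →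
    ∀ X ∈ h, ∀ a b : Ws D s, (b : Frm T) = pre X.1 (a : Frm T) →
      (θ b : Frm T') = pre X.2 (θ a : Frm T')

/-! ## Traces -/

/-- **TrS**: the real traces. PROOF. `tr_ℝ Y = tr_ℂ (pre Y)` on the forms (see SE/Big/Tr.lean), and the
forms are the direct sum of the eigenspaces (`tBas`), on which `pre (Z ^ j)` is `zet m u ^ j`. Or as in
SE/Big/Tr.lean with the projectors. -/
def S_TrS : Prop :=
  ∀ (T : AV) (m : ℕ) [NeZero m] (D : Cyc T m), 3 ≤ m → ∀ X : Module.End ℝ T.V,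
    (∀ v, X (D.Z v) = D.Z (X v)) → ∀ A : ∀ u, Module.End ℂ (Ws D u),
    (∀ u (a : Ws D u), pre X (a : Frm T) = (A u a : Frm T)) → ∀ j : ℕ,
    ((LinearMap.trace ℝ T.V (X * D.ZR ^ j) : ℝ) : ℂ) =
      ∑ u, zet m u ^ j * LinearMap.trace ℂ (Ws D u) (A u)

/-- **TrJ**: the operator `J` on an eigenspace. PROOF. It is `i` on `Ws10 D s`, `-i` on the part of
type `(0,1)`, the complex conjugate of `Ws10 D (-s)` (see SE/Big/Dim.lean, AdJ.lean). -/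
def S_TrJ : Prop :=
  ∀ (T : AV) (m : ℕ) (D : Cyc T m), 3 ≤ m → ∀ s, ∀ A : Module.End ℂ (Ws D s),
    (∀ a : Ws D s, pre (mulI T) (a : Frm T) = (A a : Frm T)) →
    LinearMap.trace ℂ (Ws D s) A = Complex.I * ((D.p s : ℂ) - (D.p (-s) : ℂ)) ∧ A * A = -1

/-- **Cut**: the trace condition cuts out a Lie algebra which still contains `i`. From `S_TrS`,
`S_TrJ`. PROOF. (1) `X = (mulI, mulI)` satisfies `TrEq`: both sides are
`∑_u ζ^(g u k) i (p(u) - p(-u))` (`S_TrS`, `S_TrJ`; `zet m (g u) ^ k.val = zet m u ^ (g k).val`; substitute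
`g u` on the right, `p'(g u) = p(u)`, `p'(-g u) = p(-u)`). (2) For `X ∈ h` the traces in `TrEq` are
rational (`RatEnd`, a basis of the lattice). (3) `(mulI, mulI) = ∑ c_k Y_k`, `Y_k ∈ h`, `c_k` real and
linearly independent over `ℚ` (as in SE/Big/Hl.lean; `h` is closed under rational combinations). By
(1), (2) every `Y_k` satisfies `TrEq`. (4) commutators: `tr (X Y Z^k - Y X Z^k) = 0` as `Z` commutes with
`X`. -/
def S_Cut : Prop :=
  ∀ (T T' : AV) (m r : ℕ) (D : Cyc T m) (D' : Cyc T' m), GF1 D r → GF1 D' r →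
    ∀ g : (ZMod m)ˣ, (∀ u, D.p u = D'.p (g * u)) → ∀ h : Set (Pr2 T T'), HLie2 D D' h →
    HLie2 D D' {X | X ∈ h ∧ TrEq D D' g X}

/-- **TrE**: `TrEq` on the eigenspaces. From `S_TrS`. PROOF. For all `k`:
`∑_u ζ^(g u k) (tr(A_u) - tr(B_(g u))) = 0` by `S_TrS`, `TrEq`; the `zet m (g u)` are pairwise different
(`tPj` or Vandermonde; or use the projectors as in SE/Big/Tr.lean). -/
def S_TrE : Prop :=
  ∀ (T T' : AV) (m : ℕ) (D : Cyc T m) (D' : Cyc T' m), 3 ≤ m → ∀ (g : (ZMod m)ˣ) (X : Pr2 T T'),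
    (∀ v, X.1 (D.Z v) = D.Z (X.1 v)) → (∀ v, X.2 (D'.Z v) = D'.Z (X.2 v)) → TrEq D D' g X →
    ∀ u, ∀ (A : Module.End ℂ (Ws D u)) (B : Module.End ℂ (Ws D' (g * u))),
    (∀ a : Ws D u, pre X.1 (a : Frm T) = (A a : Frm T)) →
    (∀ b : Ws D' (g * u), pre X.2 (b : Frm T') = (B b : Frm T')) →
    LinearMap.trace ℂ (Ws D u) A = LinearMap.trace ℂ (Ws D' (g * u)) B

/-! ## Rational homomorphisms -/

/-- **RSH**: RATIONAL COMPONENTS. PROOF. As `S_RatSp` (SE/Big/RatSp.lean), for two lattices. -/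
def S_RSH : Prop :=
  ∀ (T T' : AV) (A : Frm T →ₗ[ℂ] Frm T'), ∃ (n : ℕ) (c : Fin n → ℂ)
    (Y : Fin n → (T'.V →ₗ[ℝ] T.V)), A = ∑ k, c k • preH (Y k) ∧ (∀ k, RatHom T' T (Y k)) ∧
      ∀ (X : Module.End ℝ T.V) (X' : Module.End ℝ T'.V), RatEnd T X → RatEnd T' X' →
        A ∘ₗ pre X = pre X' ∘ₗ A → ∀ k, X ∘ₗ Y k = Y k ∘ₗ X'

/-- **GaH**: CHANGE OF THE CHARACTERS for the component `(s, t)` of a rational homomorphism. PROOF.
As `S_LI`. `Ws D s` is spanned by the `pj D s b`, `b` with rational values on `L`. For `v ∈ T'.L`: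
`(pj D' t ((pj D s b) ∘ Y)) v = (m m')⁻¹ ∑_(k,k') zet(s)^(-k) zet(t)^(-k') b(Z^k Y Z'^k' v)`, with rational
numbers `b(Z^k Y Z'^k' v)`. Apply `l` of `S_Tw` (`tTw`) for `M`, `ρ`, `c = 1`; `zet m s = ζ_M^((M/m) s)`, so
`l (zet(s)^(-k) zet(t)^(-k') x) = zet(ρ s)^(-k) zet(ρ t)^(-k') l(x)`. -/
def S_GaH : Prop :=
  ∀ (T T' : AV) (m m' : ℕ) (D : Cyc T m) (D' : Cyc T' m'), 3 ≤ m → 3 ≤ m' →
    ∀ (M : ℕ) (hM : m ∣ M) (hM' : m' ∣ M), M ≠ 0 → ∀ Y : T'.V →ₗ[ℝ] T.V, RatHom T' T Y →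
    ∀ s t, ∀ ρ : (ZMod M)ˣ, (∀ a ∈ Ws D s, pj D' t (preH Y a) = 0) →
    ∀ a ∈ Ws D (rho hM ρ s), pj D' (rho hM' ρ t) (preH Y a) = 0

/-- **Hom**: from `θ` to a homomorphism of abelian varieties. From `S_RSH`. PROOF. `A = θ ∘ pj D s`
intertwines the `X ∈ h` (`pre X.1` commutes with `pj D s`). `S_RSH`: `A = ∑ c_k preH Y_k`,
`X.1 Y_k = Y_k X.2`. `Ws D s ≠ 0` (`tDim`), so for some `k` and `a ∈ Ws D s`, `Y = Y_k`:
`pj D' (g s) (preH Y a) ≠ 0`. `Θ = ∑_(j ∈ ZMod m) Z^((-g j).val) Y Z'^(j.val)` is rational, satisfies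
`Θ Z' = Z^g Θ` (`Z^m = 1`, `Z'^m = 1`, `tPj`) and `X.1 Θ = Θ X.2`; as `(mulI, mulI)` is in the real span
of `h` it is complex linear; `a ∘ Θ = ∑_j zet(g s)^(-j) (a ∘ Y) ∘ Z'^j = m pj D' (g s) (a ∘ Y) ≠ 0`. -/
def S_Hom : Prop :=
  ∀ (T T' : AV) (m r : ℕ) (D : Cyc T m) (D' : Cyc T' m), GF1 D r → GF1 D' r →
    ∀ h : Set (Pr2 T T'), HLie2 D D' h → ∀ g s : (ZMod m)ˣ, ∀ θ : Ws D s ≃ₗ[ℂ] Ws D' (g * s),
    (∀ X ∈ h, ∀ a b : Ws D s, (b : Frm T) = pre X.1 (a : Frm T) →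
      (θ b : Frm T') = pre X.2 (θ a : Frm T')) →
    ∃ Θ : T'.V →ₗ[ℂ] T.V, RatHom T' T (Θ.restrictScalars ℝ) ∧
      (∀ v, Θ (D'.Z v) = (D.Z ^ (g : ZMod m).val) (Θ v)) ∧
      (∀ X ∈ h, ∀ v, X.1 (Θ v) = Θ (X.2 v)) ∧
      ∃ a ∈ Ws D s, preH (Θ.restrictScalars ℝ) a ≠ 0

/-- **Iso**: `Θ` is an isogeny. From `S_Prj`, `S_GaH`. PROOF. `preH Θ` maps `Ws D u` to `Ws D' (g u)`
(`Θ Z' = Z^g Θ`), so `pj D' (g u)` is the identity on the image; by `S_GaH` (`M = m`) and the last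
hypothesis it is not zero on `Ws D u` for any `u`. Its kernel in `Ws D u` is stable under `pre X.1`,
`X ∈ h`, so under all traceless operators of `Ws D u` (`GF1.hit` for `fst '' h`, `F = {u}`, `S_Prj`);
`dim = r ≥ 2`: the kernel is `0`. So `preH Θ` is injective on the forms (a form is the sum of its
components in the `Ws D u`, the images lie in different `Ws D' (g u)`: `tBas`, `tPj`), so `Θ` is
surjective (otherwise a nonzero form vanishes on its range), so bijective (`GF1.dim`: the dimensions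
are equal). `ψ = Θ⁻¹`, lattices: `HC.E.tIsoInv` (HC/L/E/IsoInv.lean) for `Θ`. -/
def S_Iso : Prop :=
  ∀ (T T' : AV) (m r : ℕ) (D : Cyc T m) (D' : Cyc T' m), GF1 D r → GF1 D' r →
    ∀ h : Set (Pr2 T T'), HLie2 D D' h → ∀ (g s : (ZMod m)ˣ) (Θ : T'.V →ₗ[ℂ] T.V),
    RatHom T' T (Θ.restrictScalars ℝ) → (∀ v, Θ (D'.Z v) = (D.Z ^ (g : ZMod m).val) (Θ v)) →
    (∀ X ∈ h, ∀ v, X.1 (Θ v) = Θ (X.2 v)) →
    (∃ a ∈ Ws D s, preH (Θ.restrictScalars ℝ) a ≠ 0) → Isg T T'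

/-! ## `ℚ(√-3)` and `ℚ(i)` -/

/-- **T34**: no links between `ℚ(√-3)` and `ℚ(i)` in rank at least `3`. From `S_Prj`, `S_Cl2`,
`S_Int`, `S_Th0`, `S_RSH`, `S_GaH`, `S_TrJ`. PROOF. `θ` of `S_Th0`; `A = θ ∘ pj D s` intertwines the
`X ∈ Com2 h`; `S_RSH`: `A = ∑ c_k preH Y_k`, `X.1 Y_k = Y_k X.2` for `X ∈ Com2 h`, and some `Y = Y_k` has
`pj D' t (preH Y a) ≠ 0` for some `a ∈ Ws D s`. `M = 12`, `ρ = 7` for `(m, m') = (3, 4)`, `ρ = 5` for
`(4, 3)`: `ρ = 1` modulo `m`, `ρ = -1` modulo `m'`. By `S_GaH` (for `ρ⁻¹ = ρ`: from `(s, -t)` to `(s, t)`) the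
map `θ' = pj D' (-t) ∘ preH Y : Ws D s → Ws D' (-t)` is not zero. It intertwines `gg2 h`, kernel and
image are stable under all traceless operators (`GF1.hit`), `r ≥ 2`, equal dimensions: bijective.
`gg2 h` is closed under `[J, ·]` (`S_Cl2`), so `θ' J θ'⁻¹ - J'` commutes with all traceless operators of
`Ws D' (-t)`: it is a scalar `c`; `J² = -1 = J'²` (`S_TrJ`) gives `c (2 J' + c) = 0`, and `J'` is not a scalar
(a scalar is `± i`, trace `± i r`, but the trace is `i (p'(-t) - p'(t)) = i (r - 2)`, `r ≥ 3`; `tDim`): `c = 0`.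
Traces: `i (1 - (r - 1)) = i ((r - 1) - 1)`, `r = 2`: contradiction. -/
def S_T34 : Prop :=
  ∀ (T T' : AV) (m m' r : ℕ) (D : Cyc T m) (D' : Cyc T' m'), GF1 D r → GF1 D' r → 3 ≤ r →
    (m = 3 ∧ m' = 4 ∨ m = 4 ∧ m' = 3) → ∀ h : Set (Pr2 T T'), HLie2 D D' h →
    ∀ s t, D.p s = 1 → D'.p t = 1 → ¬ Lnk D D' h s t

end SEQ
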