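import Pool.Agent.Lib.SE.Big.Asm3
import Pool.Agent.Lib.SE.Big.Cor2
import Pool.Agent.Lib.SE.P.Cls

/-!
# PROJECT SE-Q: products of different `J_i` (helper45, helper42)

Pairs `T`, `T'` of abelian varieties with `D : Cyc T m`, `D' : Cyc T' m'` (SE/Big/Spec), and tuples
`T i`, `i < q`.
-/

set_option autoImplicit false

open Module

noncomputable section

namespace SEQ

open HC HC.E HC.SE SEB

/-- One variety: the commutators hit every half system of characters. -/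
def IsHit {T : AV} {m : ℕ} (D : Cyc T m) : Prop :=
  ∀ h, HLie D h → ∀ F : Set (ZMod m)ˣ, (∀ s ∈ F, -s ∉ F) → Hits D h F

/-- The data of a good factor of rank `r`. -/
structure GF1 {T : AV} {m : ℕ} (D : Cyc T m) (r : ℕ) : Prop where
  hm : 3 ≤ m
  hr : 2 ≤ r
  dim : 2 * finrank ℂ T.V = r * Nat.totient m
  one : ∃ s, D.p s = 1
  ap : Aper D
  hit : IsHit D

/-- `T` and `T'` are isogenous. -/
def Isg (T T' : AV) : Prop := ∃ ψ : T.V ≃ₗ[ℂ] T'.V, ∀ v ∈ T.L, ∃ N : ℕ, N ≠ 0 ∧ N • ψ v ∈ T'.L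

/-! ## Pairs -/

section Pairs

variable {T T' : AV} {m m' : ℕ}

/-- Pairs of real endomorphisms. -/
abbrev Pr2 (T T' : AV) : Type := Module.End ℝ T.V × Module.End ℝ T'.V

/-- The commutators. -/
def Com2 (h : Set (Pr2 T T')) : Set (Pr2 T T') := {Y | ∃ X ∈ h, ∃ X' ∈ h, Y = X * X' - X' * X}

/-- A `ℚ`-Lie algebra of rational pairs in `u × u'` whose real span contains `i`. -/
structure HLie2 (D : Cyc T m) (D' : Cyc T' m') (h : Set (Pr2 T T')) : Prop where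
  rat : ∀ X ∈ h, RatEnd T X.1 ∧ RatEnd T' X.2
  u : ∀ X ∈ h, IsU D X.1 ∧ IsU D' X.2
  zero : (0 : Pr2 T T') ∈ h
  add : ∀ X ∈ h, ∀ Y ∈ h, X + Y ∈ h
  smul : ∀ x : ℚ, ∀ X ∈ h, (x : ℝ) • X ∈ h
  br : ∀ X ∈ h, ∀ Y ∈ h, X * Y - Y * X ∈ h
  J : ((mulI T, mulI T') : Pr2 T T') ∈ Submodule.span ℝ h

/-- The action on pairs of forms. -/
def pre2 (X : Pr2 T T') : Module.End ℂ (Frm T) × Module.End ℂ (Frm T') := (pre X.1, pre X.2)

/-- Complex combinations of commutators. -/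
def gg2 (h : Set (Pr2 T T')) : Submodule ℂ (Module.End ℂ (Frm T) × Module.End ℂ (Frm T')) :=
  Submodule.span ℂ (pre2 '' Com2 h)

/-- The commutators realise every pair of traceless operators on the eigenspaces of `s`, `t`. -/
def Hit2 (D : Cyc T m) (D' : Cyc T' m') (h : Set (Pr2 T T')) (s : (ZMod m)ˣ) (t : (ZMod m')ˣ) :
    Prop :=
  ∀ (A : Module.End ℂ (Ws D s)) (B : Module.End ℂ (Ws D' t)),
    LinearMap.trace ℂ (Ws D s) A = 0 → LinearMap.trace ℂ (Ws D' t) B = 0 →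
    ∃ C ∈ gg2 h, (∀ a : Ws D s, C.1 (a : Frm T) = (A a : Frm T)) ∧
      ∀ b : Ws D' t, C.2 (b : Frm T') = (B b : Frm T')

/-- `s` and `t` are linked. -/
def Lnk (D : Cyc T m) (D' : Cyc T' m') (h : Set (Pr2 T T')) (s : (ZMod m)ˣ) (t : (ZMod m')ˣ) :
    Prop :=
  ∀ C ∈ gg2 h, (∀ a ∈ Ws D s, C.1 a = 0) ↔ ∀ b ∈ Ws D' t, C.2 b = 0

/-- The action of a unit `ρ` modulo a multiple `M` of `m` on the characters. -/
def rho {M : ℕ} (hM : m ∣ M) (ρ : (ZMod M)ˣ) (s : (ZMod m)ˣ) : (ZMod m)ˣ :=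
  ZMod.unitsMap hM ρ * s

/-- The condition on a pair for 'isogenous or independent': different rank; or different real
fields (`ρ = 1` modulo `m`, `ρ ≠ ± 1` modulo `m'` or vice versa); or the same `m` and the same
signatures up to `± 1`; or `{m, m'} = {3, 4}` and rank at least `3`. -/
def Cpt (D : Cyc T m) (D' : Cyc T' m') (r r' : ℕ) : Prop :=
  r ≠ r' ∨
  (∃ ρ : ℕ, ρ.Coprime (m * m') ∧ (ρ : ZMod m) = 1 ∧ (ρ : ZMod m') ≠ 1 ∧ (ρ : ZMod m') ≠ -1) ∨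
  (∃ ρ : ℕ, ρ.Coprime (m * m') ∧ (ρ : ZMod m') = 1 ∧ (ρ : ZMod m) ≠ 1 ∧ (ρ : ZMod m) ≠ -1) ∨
  (∃ h : m = m', (∀ u : (ZMod m)ˣ, D.p u = (h ▸ D').p u) ∨
    ∀ u : (ZMod m)ˣ, D.p u = (h ▸ D').p (-u)) ∨
  (3 ≤ r ∧ (m = 3 ∧ m' = 4 ∨ m = 4 ∧ m' = 3))

/-- **PAIRS**: isogenous or independent. -/
def PP : Prop :=
  ∀ (T T' : AV) (m m' r r' : ℕ) (D : Cyc T m) (D' : Cyc T' m'), GF1 D r → GF1 D' r' →
    Cpt D D' r r' → ¬ Isg T T' → ∀ h, HLie2 D D' h → ∀ s t, Hit2 D D' h s t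

end Pairs

/-! ## Tuples -/

section Tuples

variable {q : ℕ} {T : Fin q → AV} {m : Fin q → ℕ}

/-- Tuples of real endomorphisms (a ring, componentwise). -/
abbrev Tup (T : Fin q → AV) : Type := ∀ i, Module.End ℝ (T i).V

/-- The commutators. -/
def ComT (h : Set (Tup T)) : Set (Tup T) := {Y | ∃ X ∈ h, ∃ X' ∈ h, Y = X * X' - X' * X}

/-- The tuple of the multiplications by `i`. -/
def JT (T : Fin q → AV) : Tup T := fun i => mulI (T i)

/-- A `ℚ`-Lie algebra of rational tuples in `∏ u_i` whose real span contains `i`. -/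
structure HLieT (D : ∀ i, Cyc (T i) (m i)) (h : Set (Tup T)) : Prop where
  rat : ∀ X ∈ h, ∀ i, RatEnd (T i) (X i)
  u : ∀ X ∈ h, ∀ i, IsU (D i) (X i)
  zero : (0 : Tup T) ∈ h
  add : ∀ X ∈ h, ∀ Y ∈ h, X + Y ∈ h
  smul : ∀ x : ℚ, ∀ X ∈ h, (x : ℝ) • X ∈ h
  br : ∀ X ∈ h, ∀ Y ∈ h, X * Y - Y * X ∈ h
  J : JT T ∈ Submodule.span ℝ h

/-- Complex combinations of commutators. -/
def ggT (h : Set (Tup T)) : Submodule ℂ (∀ i, Module.End ℂ (Frm (T i))) :=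
  Submodule.span ℂ ((fun (Y : Tup T) i => pre (Y i)) '' ComT h)

/-- The characters. -/
abbrev Ch (m : Fin q → ℕ) : Type := Σ i, (ZMod (m i))ˣ

/-- The eigenspace of a character. -/
abbrev WT (D : ∀ i, Cyc (T i) (m i)) (x : Ch m) : Submodule ℂ (Frm (T x.1)) := Ws (D x.1) x.2

/-- The commutators realise every family of traceless operators on the eigenspaces of the
characters in `F`. -/
def HitsT (D : ∀ i, Cyc (T i) (m i)) (h : Set (Tup T)) (F : Set (Ch m)) : Prop :=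
  ∀ A : ∀ x, Module.End ℂ (WT D x), (∀ x, LinearMap.trace ℂ (WT D x) (A x) = 0) →
    ∃ C ∈ ggT h, ∀ x ∈ F, ∀ a : WT D x, C x.1 (a : Frm (T x.1)) = (A x a : Frm (T x.1))

/-- `(i, s) ↦ (i, -s)`. -/
def neg (x : Ch m) : Ch m := ⟨x.1, -x.2⟩

end Tuples

/-- **THE PRODUCT THEOREM.** Pairwise non isogenous good factors are independent. -/
def PT : Prop :=
  ∀ (q : ℕ) (T : Fin q → AV) (m r : Fin q → ℕ) (D : ∀ i, Cyc (T i) (m i)),
    (∀ i, GF1 (D i) (r i)) → (∀ i j, i ≠ j → Cpt (D i) (D j) (r i) (r j)) →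
    (∀ i j, i ≠ j → ¬ Isg (T i) (T j)) →
    HC.SE.Big T (fun i => (D i).Z) (fun i => (D i).ψ)

end SEQ
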