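import Pool.Agent.Lib.SE.Q.SpecB
import Pool.Agent.Lib.SE.Big.Tr
import Pool.Agent.Lib.SE.Big.Bas
import Pool.Agent.Lib.SE.Big.Pj

/-!
# PROJECT SE-Q, module TrS: the real traces (helper9)
-/

set_option autoImplicit false

open Module

noncomputable section

namespace SEQ

open HC HC.E HC.SE SEB

namespace TrS_aux

variable {T : AV} {m : ℕ}

theorem ZR_apply (D : Cyc T m) (v : T.V) : D.ZR v = D.Z v := rfl

/-- powers of `Z` on a form of the eigenspace -/
theorem pow_eig (D : Cyc T m) (u : (ZMod m)ˣ) (b : Frm T) (hb : b ∈ Ws D u) (j : ℕ) (v : T.V) :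
    b ((D.ZR ^ j) v) = zet m u ^ j * b v := by
  induction j generalizing v with
  | zero => simp
  | succ j ih =>
    rw [pow_succ, Module.End.mul_apply, ih, ZR_apply, hb v, pow_succ, mul_assoc]

end TrS_aux

open TrS_aux in
theorem tTrS : S_TrS := by
  classical
  intro T m _ D hm X hX A hA j
  obtain ⟨h1, h2, h3, h4, -⟩ := tBas tPj T m D hm
  haveI := Tr_aux.fin_frm T
  have hint : DirectSum.IsInternal (fun u => Ws D u) :=
    DirectSum.isInternal_submodule_of_iSupIndep_of_iSup_eq_top h2 h1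
  have key : ∀ u, ∀ a : Ws D u, pre (X * D.ZR ^ j) (a : Frm T) = ((zet m u ^ j • A u) a : Ws D u) := by
    intro u a
    have e1 := hA u a
    ext v
    have e2 : pre (X * D.ZR ^ j) (a : Frm T) v = (pre X (a : Frm T)) ((D.ZR ^ j) v) := rfl
    rw [e2, pow_eig D u _ (h3 X hX u a a.2) j v, e1]
    rfl
  have hf : ∀ u, Set.MapsTo (pre (X * D.ZR ^ j)) (Ws D u) (Ws D u) := by
    intro u a ha
    have := key u ⟨a, ha⟩
    change pre (X * D.ZR ^ j) a ∈ Ws D u
    rw [this]
    exact SetLike.coe_mem _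
  rw [← Tr_aux.tr_pre, LinearMap.trace_eq_sum_trace_restrict hint hf]
  refine Finset.sum_congr rfl fun u _ => ?_
  have e1 : (pre (X * D.ZR ^ j)).restrict (hf u) = zet m u ^ j • A u := by
    ext1 a
    exact Subtype.ext (key u a)
  rw [e1, map_smul, smul_eq_mul]

end SEQ
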