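import Pool.Agent.Lib.SE.Q.Prj
import Pool.Agent.Lib.SE.Q.Cl2
import Pool.Agent.Lib.SE.Q.Gt2
import Pool.Agent.Lib.SE.Q.LI2
import Pool.Agent.Lib.SE.Q.Lr
import Pool.Agent.Lib.SE.Q.Lp
import Pool.Agent.Lib.SE.Q.Lu
import Pool.Agent.Lib.SE.Q.Ln
import Pool.Agent.Lib.SE.Q.Li
import Pool.Agent.Lib.SE.Q.PPa
import Pool.Agent.Lib.SE.Q.B
import Pool.Agent.Lib.SE.Q.Int
import Pool.Agent.Lib.SE.Q.Th0
import Pool.Agent.Lib.SE.Q.Th1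
import Pool.Agent.Lib.SE.Q.TrS
import Pool.Agent.Lib.SE.Q.TrJ
import Pool.Agent.Lib.SE.Q.Cut
import Pool.Agent.Lib.SE.Q.TrE
import Pool.Agent.Lib.SE.Q.RSH
import Pool.Agent.Lib.SE.Q.GaH
import Pool.Agent.Lib.SE.Q.Hom
import Pool.Agent.Lib.SE.Q.Iso
import Pool.Agent.Lib.SE.Q.T34
import Pool.Agent.Lib.SE.Q.HlT
import Pool.Agent.Lib.SE.Q.PrT
import Pool.Agent.Lib.SE.Q.ClT
import Pool.Agent.Lib.SE.Q.HtT
import Pool.Agent.Lib.SE.Q.RbT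
import Pool.Agent.Lib.SE.Q.ReT
import Pool.Agent.Lib.SE.Q.FiT
import Pool.Agent.Lib.SE.Q.BgT

/-!
# PROJECT SE-Q: pairs and tuples, without hypotheses
-/

set_option autoImplicit false

open Module HC HC.E HC.SE SEB

noncomputable section

namespace SEQ

theorem s_dim : S_Dim := SEB.tDim SEB.tPj SEB.tTw (SEB.tBas SEB.tPj)

theorem s_B : S_B :=
  tB tPrj tCl2 (tLp) tLn tInt tTh0 tTh1 (tCut tTrS tTrJ) (tTrE tTrS) (tHom tRSH)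
    (tIso tPrj tGaH) (tT34 tPrj tCl2 tInt tTh0 tRSH tGaH tTrJ) s_dim

/-- **PAIRS.** -/
theorem s_PP : PP := tPPa tPrj tCl2 (tGt2 tPrj tCl2) tLI2 tLr tLp tLu tLn tLi s_B

/-- Half systems are hit. -/
theorem s_hit (q : ℕ) (T : Fin q → AV) (m r : Fin q → ℕ) (D : ∀ i, Cyc (T i) (m i))
    (hG : ∀ i, GF1 (D i) (r i)) (hC : ∀ i j, i ≠ j → Cpt (D i) (D j) (r i) (r j))
    (hI : ∀ i j, i ≠ j → ¬ Isg (T i) (T j)) (h : Set (Tup T)) (hh : HLieT D h)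
    (F : Set (Ch m)) (hF : ∀ x ∈ F, neg x ∉ F) : HitsT D h F := by
  have hm : ∀ i, 3 ≤ m i := fun i => (hG i).hm
  obtain ⟨h1, h2⟩ := tHtT tPrT q T m D hm (fun i => (hG i).hit)
    (fun i j hij h hh s t => s_PP (T i) (T j) (m i) (m j) (r i) (r j) (D i) (D j) (hG i) (hG j)
      (hC i j hij) (hI i j hij) h hh s t) h hh
  exact tRbT tClT q T m D hm h hh h1 h2 F hF

/-- **THE PRODUCT THEOREM**, in the form used in part D. -/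
theorem s_PT (q : ℕ) (T : Fin q → AV) (m r : Fin q → ℕ) (D : ∀ i, Cyc (T i) (m i))
    (hG : ∀ i, GF1 (D i) (r i)) (hC : ∀ i j, i ≠ j → Cpt (D i) (D j) (r i) (r j))
    (hI : ∀ i j, i ≠ j → ¬ Isg (T i) (T j)) (h : Set (Tup T)) (hh : HLieT D h) (X : Tup T)
    (hX : ∀ i, IsSU (D i) (X i)) : X ∈ Submodule.span ℝ (ComT h) :=
  tFiT tReT q T m D (fun i => (hG i).hm) h hh (s_hit q T m r D hG hC hI h hh) X hX

end SEQ
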