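import Pool.Agent.Lib.SE.Q.Defs

/-!
# PROJECT SE-Q, part A: pairs; Goursat and the change of the character (helper45)

Every module: file `SE/Q/Xyz.lean`, `theorem tXyz : S_Xyz`, import only `Pool.Agent.Lib.SE.Q.SpecA` (and
modules you want to copy from). The modules `LI`, `Two`, `All`, `Cl`, `AdJ`, `Real` of SE/Big contain the
same proofs for one variety: copy and adapt them.
-/

set_option autoImplicit false

open Module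

noncomputable section

namespace SEQ

open HC HC.E HC.SE SEB

/-- **Prj**: PROJECTIONS. PROOF. Directly (images of spans, `Submodule.span_image`). -/
def S_Prj : Prop :=
  ∀ (T T' : AV) (m m' : ℕ) (D : Cyc T m) (D' : Cyc T' m') (h : Set (Pr2 T T')), HLie2 D D' h →
    HLie D (Prod.fst '' h) ∧ HLie D' (Prod.snd '' h) ∧
    (∀ C ∈ gg (Prod.fst '' h), ∃ C' ∈ gg2 h, C'.1 = C) ∧
    (∀ C ∈ gg (Prod.snd '' h), ∃ C' ∈ gg2 h, C'.2 = C) ∧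
    ∀ C ∈ gg2 h, C.1 ∈ gg (Prod.fst '' h) ∧ C.2 ∈ gg (Prod.snd '' h)

/-- **Cl2**: `gg2 h` is closed under commutators, also with `i`. PROOF. As `S_Cl` (SE/Big/Cl.lean):
`[h,h] ⊆ h`; `[X,[Y,Z]] ∈ Com2 h`; `pre2` is linear and reverses products. -/
def S_Cl2 : Prop :=
  ∀ (T T' : AV) (m m' : ℕ) (D : Cyc T m) (D' : Cyc T' m') (h : Set (Pr2 T T')), HLie2 D D' h →
    (∀ A ∈ gg2 h, ∀ B ∈ gg2 h, A * B - B * A ∈ gg2 h) ∧
    ∀ A ∈ gg2 h, pre2 (mulI T, mulI T') * A - A * pre2 (mulI T, mulI T') ∈ gg2 h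

/-- **Gt2**: GOURSAT. From `S_Prj`, `S_Cl2`. PROOF. `P` = the pairs of operators of `Ws D s`, `Ws D' t`
induced by the elements of `gg2 h` (they preserve these spaces and are traceless there: `S_Cl` for the
projections); `S_Gou` (SE/Big/Gou.lean, `tGou`); the second alternative of `S_Gou` is `Lnk`. -/
def S_Gt2 : Prop :=
  ∀ (T T' : AV) (m m' : ℕ) (D : Cyc T m) (D' : Cyc T' m'), 3 ≤ m → 3 ≤ m' →
    ∀ h : Set (Pr2 T T'), HLie2 D D' h → ∀ s t, Hits D (Prod.fst '' h) {s} →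
    Hits D' (Prod.snd '' h) {t} → Hit2 D D' h s t ∨ Lnk D D' h s t

/-- **LI2**: CHANGE OF THE CHARACTER for pairs. PROOF. As `S_LI` (SE/Big/LI.lean), with
`l : ℂ → ℂ` of `S_Tw` for `M` and `ρ` (`tTw`): `l (ζ_M x) = zet M ρ * l x`; since
`zet m s = ζ_M ^ ((M / m) * s)`: `l (zet m s * x) = zet m (ρ s) * l x`, the same for `m'`. -/
def S_LI2 : Prop :=
  ∀ (T T' : AV) (m m' : ℕ) (D : Cyc T m) (D' : Cyc T' m'), 3 ≤ m → 3 ≤ m' →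
    ∀ (M : ℕ) (hM : m ∣ M) (hM' : m' ∣ M), M ≠ 0 → ∀ (n : ℕ) (X : Fin n → Pr2 T T'),
    (∀ j, (RatEnd T (X j).1 ∧ ∀ v, (X j).1 (D.Z v) = D.Z ((X j).1 v)) ∧
      RatEnd T' (X j).2 ∧ ∀ v, (X j).2 (D'.Z v) = D'.Z ((X j).2 v)) →
    ∀ s t, ∀ c : Fin n → ℂ, c ≠ 0 → (∀ a ∈ Ws D s, ∑ j, c j • pre (X j).1 a = 0) →
    (∀ b ∈ Ws D' t, ∑ j, c j • pre (X j).2 b = 0) → ∀ ρ : (ZMod M)ˣ,
    ∃ c' : Fin n → ℂ, c' ≠ 0 ∧ (∀ a ∈ Ws D (rho hM ρ s), ∑ j, c' j • pre (X j).1 a = 0) ∧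
      ∀ b ∈ Ws D' (rho hM' ρ t), ∑ j, c' j • pre (X j).2 b = 0

/-- **Lr**: LINKS ARE TRANSPORTED. From `S_Prj`, `S_Cl2`, `S_Gt2`, `S_LI2`. PROOF. As `S_Two`
(SE/Big/Two.lean). All single characters are hit (`GF1.hit` for the projections, `F = {s}`). `P(s,t)` =
the pairs of operators induced by `gg2 h`. A link means that both projections of `P(s,t)` are
injective, so `r² - 1 = dim P(s,t) = r'² - 1`, `r = r'`. So any `r²` elements of `Com2 h` are linearly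
dependent on `Ws D s`, `Ws D' t` simultaneously, by `S_LI2` also at `(ρ s, ρ t)`:
`dim P(ρ s, ρ t) ≤ r² - 1 < 2 (r² - 1)`, so `Hit2` is false there, and `S_Gt2` gives the link. -/
def S_Lr : Prop :=
  S_Prj → S_Cl2 → S_Gt2 → S_LI2 →
  ∀ (T T' : AV) (m m' r r' : ℕ) (D : Cyc T m) (D' : Cyc T' m'), GF1 D r → GF1 D' r' →
    ∀ h : Set (Pr2 T T'), HLie2 D D' h → ∀ s t, Lnk D D' h s t → r = r' ∧
    ∀ (M : ℕ) (hM : m ∣ M) (hM' : m' ∣ M), M ≠ 0 → ∀ ρ : (ZMod M)ˣ,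
      Lnk D D' h (rho hM ρ s) (rho hM' ρ t)

/-- **Lp**: signatures of linked characters. From `S_Prj`, `S_Cl2`. PROOF. As in `S_Two`: `P(s,t)` is
the graph of an isomorphism `sl(Ws D s) → sl(Ws D' t)` which commutes with `ad` of `i`; the
eigenspaces for `2 i` have the dimensions `p s * p (-s)` (`S_AdJ`, `tAdJ`). -/
def S_Lp : Prop :=
  S_Prj → S_Cl2 →
  ∀ (T T' : AV) (m m' r r' : ℕ) (D : Cyc T m) (D' : Cyc T' m'), GF1 D r → GF1 D' r' →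
    ∀ h : Set (Pr2 T T'), HLie2 D D' h → ∀ s t, Lnk D D' h s t →
    D.p s * D.p (-s) = D'.p t * D'.p (-t)

/-- **Lu**: UNIQUENESS. From `S_Prj`. PROOF. If `t' ≠ ± t` the set `{t, t'}` is a half system: by
`GF1.hit` for `snd '' h` there is `C ∈ gg2 h` with `C.2 = 0` on `Ws D' t'` and `C.2` any traceless operator
`≠ 0` on `Ws D' t` (dimension `r' ≥ 2`, `S_Dim`); by the links `C.1 = 0` on `Ws D s`, `C.2 = 0` on
`Ws D' t`. -/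
def S_Lu : Prop :=
  S_Prj →
  ∀ (T T' : AV) (m m' r r' : ℕ) (D : Cyc T m) (D' : Cyc T' m'), GF1 D r → GF1 D' r' →
    ∀ h : Set (Pr2 T T'), HLie2 D D' h →
    (∀ s t t', Lnk D D' h s t → Lnk D D' h s t' → t' = t ∨ t' = -t) ∧
    ∀ s s' t, Lnk D D' h s t → Lnk D D' h s' t → s' = s ∨ s' = -s

/-- **Ln**: `t` and `-t`. From `S_Prj`. PROOF. For a complex combination `C` of `pre Y`, `Y` in `u`, and the
pairing `ψ'` of the forms (SE/Big/Real.lean): `ψ'(C a, b) = -ψ'(a, C b)`, `ψ'` is nondegenerate and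
pairs `Ws D' t` with `Ws D' (-t)`; so `C = 0` on `Ws D' t` iff `C = 0` on `Ws D' (-t)`. -/
def S_Ln : Prop :=
  ∀ (T' : AV) (m' : ℕ) (D' : Cyc T' m'), 3 ≤ m' → ∀ h, HLie D' h → ∀ C ∈ gg h, ∀ t,
    (∀ b ∈ Ws D' t, C b = 0) → ∀ b ∈ Ws D' (-t), C b = 0

/-- **Li**: `S_Lr` and `S_Lu` exclude different rank and different real fields. PROOF. `M = m m'`; the
unit `ρ` of `ZMod (m m')` (`ZMod.unitOfCoprime`) acts as `1` on `s`: `Lnk s t` and `Lnk s (ρ t)`, so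
`ρ t = ± t`, `ρ = ± 1` modulo `m'`. -/
def S_Li : Prop :=
  ∀ (T T' : AV) (m m' r r' : ℕ) (D : Cyc T m) (D' : Cyc T' m'), GF1 D r → GF1 D' r' →
    ∀ h : Set (Pr2 T T'),
    (∀ s t, Lnk D D' h s t → r = r' ∧
      ∀ (M : ℕ) (hM : m ∣ M) (hM' : m' ∣ M), M ≠ 0 → ∀ ρ : (ZMod M)ˣ,
        Lnk D D' h (rho hM ρ s) (rho hM' ρ t)) →
    ((∀ s t t', Lnk D D' h s t → Lnk D D' h s t' → t' = t ∨ t' = -t) ∧
      ∀ s s' t, Lnk D D' h s t → Lnk D D' h s' t → s' = s ∨ s' = -s) →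
    ∀ s t, Lnk D D' h s t →
    ¬ (r ≠ r' ∨
      (∃ ρ : ℕ, ρ.Coprime (m * m') ∧ (ρ : ZMod m) = 1 ∧ (ρ : ZMod m') ≠ 1 ∧ (ρ : ZMod m') ≠ -1) ∨
      ∃ ρ : ℕ, ρ.Coprime (m * m') ∧ (ρ : ZMod m') = 1 ∧ (ρ : ZMod m) ≠ 1 ∧ (ρ : ZMod m) ≠ -1)

/-- **B**: the result of part B (helper42): linked characters with `p = 1`, in the third and fourth
case of `Cpt`. -/
def S_B : Prop :=
  ∀ (T T' : AV) (m m' r : ℕ) (D : Cyc T m) (D' : Cyc T' m'), GF1 D r → GF1 D' r →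
    ((∃ h : m = m', (∀ u : (ZMod m)ˣ, D.p u = (h ▸ D').p u) ∨
      ∀ u : (ZMod m)ˣ, D.p u = (h ▸ D').p (-u)) ∨
      (3 ≤ r ∧ (m = 3 ∧ m' = 4 ∨ m = 4 ∧ m' = 3))) →
    ∀ h : Set (Pr2 T T'), HLie2 D D' h → ∀ s t, D.p s = 1 → D'.p t = 1 →
    (∀ (M : ℕ) (hM : m ∣ M) (hM' : m' ∣ M), M ≠ 0 → ∀ ρ : (ZMod M)ˣ,
      Lnk D D' h (rho hM ρ s) (rho hM' ρ t)) → Isg T T'

/-- **PPa**: assembly. PROOF. If `Hit2` fails for `s, t` they are linked (`S_Gt2`); `S_Li`: third or fourth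
case, `r = r'`. Let `D.p s₀ = 1`; `ρ` with `ρ s = s₀` (`M = m m'`, `ZMod.unitsMap_surjective`), `t₀ = ρ t`
(`S_Lr`). `S_Lp`, `S_Dim`: `D'.p t₀ = 1` or `D'.p (-t₀) = 1`; in the second case use `-t₀`, linked with `s₀` by
`S_Ln`. `S_B` with `S_Lr`. -/
def S_PPa : Prop := S_Prj → S_Cl2 → S_Gt2 → S_LI2 → S_Lr → S_Lp → S_Lu → S_Ln → S_Li → S_B → PP

end SEQ
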